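import Mathlib

/-!
Tuples of polynomials, linear substitutions, conjugation, divergence.
-/

namespace Pool.Agent.Lib.MP_82c165_ag

open MvPolynomial Matrix

variable {n : ℕ} {A B : Type*} [CommRing A] [CommRing B]

/-- The linear substitution `P ↦ P(M x)`. -/
noncomputable def lsub (M : Matrix (Fin n) (Fin n) A) :
    MvPolynomial (Fin n) A →ₐ[A] MvPolynomial (Fin n) A :=
  aeval (fun i => ∑ j, C (M i j) * X j)

/-- The tuple of polynomials `g F(g' x)`. -/
noncomputable def conj (g g' : Matrix (Fin n) (Fin n) A)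
    (F : Fin n → MvPolynomial (Fin n) A) : Fin n → MvPolynomial (Fin n) A :=
  fun i => ∑ j, C (g i j) * lsub g' (F j)

theorem lsub_X (M : Matrix (Fin n) (Fin n) A) (i : Fin n) :
    lsub M (X i) = ∑ j, C (M i j) * X j := by
  simp [lsub]

theorem lsub_C (M : Matrix (Fin n) (Fin n) A) (a : A) : lsub M (C a) = C a := by
  simp [lsub]

theorem lsub_lsub (M N : Matrix (Fin n) (Fin n) A) (P : MvPolynomial (Fin n) A) :
    lsub M (lsub N P) = lsub (N * M) P := by
  have : (lsub M).comp (lsub N) = lsub (N * M) := by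
    apply MvPolynomial.algHom_ext
    intro i
    rw [AlgHom.comp_apply, lsub_X, map_sum, lsub_X]
    simp only [map_mul, lsub_C, lsub_X, Matrix.mul_apply, map_sum, Finset.mul_sum, Finset.sum_mul]
    rw [Finset.sum_comm]
    refine Finset.sum_congr rfl fun j _ => Finset.sum_congr rfl fun l _ => ?_
    ring
  rw [← this]; rfl

theorem lsub_one (P : MvPolynomial (Fin n) A) : lsub (1 : Matrix (Fin n) (Fin n) A) P = P := by
  have : lsub (1 : Matrix (Fin n) (Fin n) A) = AlgHom.id A _ := by
    apply MvPolynomial.algHom_ext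
    intro i
    rw [lsub_X, Finset.sum_eq_single i]
    · simp
    · intro j _ hj; rw [Matrix.one_apply_ne hj.symm]; simp
    · simp
  rw [this]; rfl

theorem map_lsub (φ : A →+* B) (M : Matrix (Fin n) (Fin n) A) (P : MvPolynomial (Fin n) A) :
    MvPolynomial.map φ (lsub M P) = lsub (M.map φ) (MvPolynomial.map φ P) := by
  have : (MvPolynomial.map φ).comp (lsub M : MvPolynomial (Fin n) A →+* MvPolynomial (Fin n) A) =
      (lsub (M.map φ) : MvPolynomial (Fin n) B →+* MvPolynomial (Fin n) B).comp
        (MvPolynomial.map φ) := by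
    apply MvPolynomial.ringHom_ext
    · intro a; simp
    · intro i
      simp [lsub_X]
  exact RingHom.congr_fun this P

theorem eval_lsub (v : Fin n → A) (M : Matrix (Fin n) (Fin n) A) (P : MvPolynomial (Fin n) A) :
    eval v (lsub M P) = eval (M *ᵥ v) P := by
  have : (eval v).comp (lsub M : MvPolynomial (Fin n) A →+* MvPolynomial (Fin n) A) =
      eval (M *ᵥ v) := by
    apply MvPolynomial.ringHom_ext
    · intro a; simp
    · intro i
      simp [lsub_X, Matrix.mulVec, dotProduct]
  exact RingHom.congr_fun this P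

theorem lsub_homog {d : ℕ} (M : Matrix (Fin n) (Fin n) A) {P : MvPolynomial (Fin n) A}
    (hP : P.IsHomogeneous d) : (lsub M P).IsHomogeneous d := by
  have h1 := hP.aeval (fun i => ∑ j, C (M i j) * X j) (n := 1) (fun i => by
    refine IsHomogeneous.sum _ _ _ fun j _ => ?_
    exact isHomogeneous_C_mul_X _ _)
  rwa [one_mul] at h1

theorem lsub_smul_one {d : ℕ} (c : A) {P : MvPolynomial (Fin n) A} (hP : P.IsHomogeneous d) :
    lsub (c • (1 : Matrix (Fin n) (Fin n) A)) P = C (c ^ d) * P := by
  have h1 : ∀ i, (∑ j, C ((c • (1 : Matrix (Fin n) (Fin n) A)) i j) * X j :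
      MvPolynomial (Fin n) A) = C c * X i := by
    intro i
    rw [Finset.sum_eq_single i]
    · simp
    · intro j _ hj
      simp [Matrix.one_apply_ne hj.symm]
    · simp
  rw [lsub]
  simp only [h1]
  rw [MvPolynomial.aeval_def, MvPolynomial.eval₂_eq']
  conv_rhs => rw [P.as_sum, Finset.mul_sum]
  refine Finset.sum_congr rfl fun a ha => ?_
  have hdeg : ∑ j, a j = d := by
    have := hP (MvPolynomial.mem_support_iff.1 ha)
    rw [← this, Finsupp.weight_apply, Finsupp.sum_fintype]
    · simp
    · simp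
  simp only [mul_pow, Finset.prod_mul_distrib]
  rw [Finset.prod_pow_eq_pow_sum, hdeg, MvPolynomial.monomial_eq, Finsupp.prod_fintype _ _
    (fun i => pow_zero _), MvPolynomial.algebraMap_eq, map_pow]
  ring

theorem conj_conj (g g' h h' : Matrix (Fin n) (Fin n) A) (F : Fin n → MvPolynomial (Fin n) A) :
    conj g g' (conj h h' F) = conj (g * h) (h' * g') F := by
  funext i
  simp only [conj, map_sum, map_mul, lsub_C, lsub_lsub, Finset.mul_sum, Matrix.mul_apply,
    Finset.sum_mul]
  rw [Finset.sum_comm]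
  refine Finset.sum_congr rfl fun j _ => Finset.sum_congr rfl fun l _ => ?_
  ring

theorem conj_one (F : Fin n → MvPolynomial (Fin n) A) : conj 1 1 F = F := by
  funext i
  simp only [conj, lsub_one]
  rw [Finset.sum_eq_single i]
  · simp
  · intro j _ hj; rw [Matrix.one_apply_ne hj.symm]; simp
  · simp

theorem map_conj (φ : A →+* B) (g g' : Matrix (Fin n) (Fin n) A)
    (F : Fin n → MvPolynomial (Fin n) A) (i : Fin n) :
    MvPolynomial.map φ (conj g g' F i) =
      conj (g.map φ) (g'.map φ) (fun j => MvPolynomial.map φ (F j)) i := by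
  simp only [conj, map_sum, map_mul, MvPolynomial.map_C, map_lsub, Matrix.map_apply]

theorem eval_conj (v : Fin n → A) (g g' : Matrix (Fin n) (Fin n) A)
    (F : Fin n → MvPolynomial (Fin n) A) :
    (fun i => eval v (conj g g' F i)) = g *ᵥ (fun i => eval (g' *ᵥ v) (F i)) := by
  funext i
  simp only [conj, map_sum, map_mul, eval_C, eval_lsub, Matrix.mulVec, dotProduct]

theorem conj_homog {d : ℕ} (g g' : Matrix (Fin n) (Fin n) A)
    {F : Fin n → MvPolynomial (Fin n) A} (hF : ∀ i, (F i).IsHomogeneous d) (i : Fin n) :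
    (conj g g' F i).IsHomogeneous d := by
  refine IsHomogeneous.sum _ _ _ fun j _ => ?_
  exact (lsub_homog g' (hF j)).C_mul _

/-! ### Divergence -/

theorem pderiv_lsub (M : Matrix (Fin n) (Fin n) A) (P : MvPolynomial (Fin n) A) (i : Fin n) :
    pderiv i (lsub M P) = ∑ l, C (M l i) * lsub M (pderiv l P) := by
  induction P using MvPolynomial.induction_on with
  | C a => simp
  | add p q hp hq =>
    simp only [map_add, hp, hq, mul_add, Finset.sum_add_distrib]
  | mul_X p j hp =>
    rw [map_mul, pderiv_mul, hp, lsub_X]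
    have h1 : pderiv i (∑ l, C (M j l) * X l : MvPolynomial (Fin n) A) = C (M j i) := by
      rw [map_sum, Finset.sum_eq_single i]
      · rw [pderiv_C_mul, pderiv_X_self, mul_one]
      · intro l _ hl
        rw [pderiv_C_mul, pderiv_X_of_ne hl, mul_zero]
      · simp
    rw [h1]
    simp only [pderiv_mul, map_add, map_mul, lsub_X, mul_add, Finset.sum_add_distrib]
    congr 1
    · rw [Finset.sum_mul]
      refine Finset.sum_congr rfl fun l _ => ?_
      ring
    · rw [Finset.sum_eq_single j]
      · rw [pderiv_X_self, map_one]; ring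
      · intro l _ hl
        rw [pderiv_X_of_ne hl.symm, map_zero]; ring
      · simp

/-- Divergence of a tuple of polynomials. -/
noncomputable def divF (F : Fin n → MvPolynomial (Fin n) A) : MvPolynomial (Fin n) A :=
  ∑ i, pderiv i (F i)

theorem divF_conj (g g' : Matrix (Fin n) (Fin n) A) (h : g' * g = 1)
    (F : Fin n → MvPolynomial (Fin n) A) : divF (conj g g' F) = lsub g' (divF F) := by
  simp only [divF, conj, map_sum, pderiv_C_mul, pderiv_lsub, Finset.mul_sum]
  have h1 : ∀ j l : Fin n, ∑ i, C (g i j) * (C (g' l i) * lsub g' (pderiv l (F j))) =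
      C ((g' * g) l j) * lsub g' (pderiv l (F j)) := by
    intro j l
    rw [Matrix.mul_apply, map_sum, Finset.sum_mul]
    refine Finset.sum_congr rfl fun i _ => ?_
    rw [map_mul]; ring
  rw [Finset.sum_comm]
  refine Finset.sum_congr rfl fun j _ => ?_
  rw [Finset.sum_comm]
  simp only [h1, h]
  rw [Finset.sum_eq_single j]
  · simp
  · intro l _ hl; rw [Matrix.one_apply_ne hl]; simp
  · simp

theorem map_divF (φ : A →+* B) (F : Fin n → MvPolynomial (Fin n) A) :
    MvPolynomial.map φ (divF F) = divF (fun i => MvPolynomial.map φ (F i)) := by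
  simp only [divF, map_sum, MvPolynomial.pderiv_map]

theorem divF_homog {e : ℕ} {F : Fin n → MvPolynomial (Fin n) A}
    (hF : ∀ i, (F i).IsHomogeneous (e + 1)) : (divF F).IsHomogeneous e := by
  refine IsHomogeneous.sum _ _ _ fun j _ => ?_
  exact (hF j).pderiv

theorem divF_X_mul {e : ℕ} {q : MvPolynomial (Fin n) A} (hq : q.IsHomogeneous e) :
    divF (fun i => X i * q) = C ((n + e : ℕ) : A) * q := by
  simp only [divF, pderiv_mul, pderiv_X_self, one_mul, Finset.sum_add_distrib]
  rw [hq.sum_X_mul_pderiv]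
  simp only [Finset.sum_const, Finset.card_univ, Fintype.card_fin, nsmul_eq_mul, Nat.cast_add,
    map_add, map_natCast]
  ring

/-- The polynomial `div F / (n + e)`. -/
noncomputable def qF (k : Type*) [Field k] [Algebra k A] (e : ℕ)
    (F : Fin n → MvPolynomial (Fin n) A) : MvPolynomial (Fin n) A :=
  C (algebraMap k A (((n + e : ℕ) : k)⁻¹)) * divF F

/-- The divergence free part of `F`. -/
noncomputable def f0F (k : Type*) [Field k] [Algebra k A] (e : ℕ)
    (F : Fin n → MvPolynomial (Fin n) A) : Fin n → MvPolynomial (Fin n) A :=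
  fun i => F i - X i * qF k e F

variable {k : Type*} [Field k] [Algebra k A] [Algebra k B]

theorem qF_homog {e : ℕ} {F : Fin n → MvPolynomial (Fin n) A}
    (hF : ∀ i, (F i).IsHomogeneous (e + 1)) : (qF k e F).IsHomogeneous e :=
  (divF_homog hF).C_mul _

theorem f0F_homog {e : ℕ} {F : Fin n → MvPolynomial (Fin n) A}
    (hF : ∀ i, (F i).IsHomogeneous (e + 1)) (i : Fin n) :
    (f0F k e F i).IsHomogeneous (e + 1) := by
  refine (hF i).sub ?_
  rw [add_comm e 1]
  exact (isHomogeneous_X _ _).mul (qF_homog hF)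

theorem divF_f0F [CharZero k] {e : ℕ} (hn : 0 < n) {F : Fin n → MvPolynomial (Fin n) A}
    (hF : ∀ i, (F i).IsHomogeneous (e + 1)) : divF (f0F k e F) = 0 := by
  have h1 : divF (f0F k e F) = divF F - divF (fun i => X i * qF k e F) := by
    simp only [divF, f0F, map_sub, Finset.sum_sub_distrib]
  rw [h1, divF_X_mul (qF_homog hF), qF, ← mul_assoc, ← map_mul]
  have h2 : ((n + e : ℕ) : A) * algebraMap k A (((n + e : ℕ) : k)⁻¹) = 1 := by
    rw [← map_natCast (algebraMap k A), ← map_mul, mul_inv_cancel₀, map_one]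
    exact Nat.cast_ne_zero.mpr (by omega)
  rw [h2, map_one, one_mul, sub_self]

theorem f0F_eq_self [CharZero k] {e : ℕ} {F : Fin n → MvPolynomial (Fin n) A}
    (h : divF F = 0) : f0F k e F = F := by
  funext i
  simp [f0F, qF, h]

theorem map_qF (φ : A →ₐ[k] B) (e : ℕ) (F : Fin n → MvPolynomial (Fin n) A) :
    MvPolynomial.map (φ : A →+* B) (qF k e F) =
      qF k e (fun i => MvPolynomial.map (φ : A →+* B) (F i)) := by
  simp only [qF, map_mul, MvPolynomial.map_C, map_divF]
  congr 2
  exact φ.commutes _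

theorem map_f0F (φ : A →ₐ[k] B) (e : ℕ) (F : Fin n → MvPolynomial (Fin n) A) (i : Fin n) :
    MvPolynomial.map (φ : A →+* B) (f0F k e F i) =
      f0F k e (fun i => MvPolynomial.map (φ : A →+* B) (F i)) i := by
  simp only [f0F, map_sub, map_mul, MvPolynomial.map_X, map_qF]

theorem qF_conj (e : ℕ) (g g' : Matrix (Fin n) (Fin n) A) (h : g' * g = 1)
    (F : Fin n → MvPolynomial (Fin n) A) : qF k e (conj g g' F) = lsub g' (qF k e F) := by
  rw [qF, divF_conj g g' h, qF, map_mul, lsub_C]

theorem f0F_conj (e : ℕ) (g g' : Matrix (Fin n) (Fin n) A) (h : g' * g = 1)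
    (F : Fin n → MvPolynomial (Fin n) A) :
    f0F k e (conj g g' F) = conj g g' (f0F k e F) := by
  have h' : g * g' = 1 := mul_eq_one_comm.1 h
  funext i
  simp only [f0F, qF_conj e g g' h, conj, map_sub, map_mul, mul_sub, Finset.sum_sub_distrib]
  congr 1
  have h1 : ∑ j, C (g i j) * (lsub g' (X j) * lsub g' (qF k e F)) =
      (∑ j, C (g i j) * lsub g' (X j)) * lsub g' (qF k e F) := by
    rw [Finset.sum_mul]
    refine Finset.sum_congr rfl fun j _ => ?_
    ring
  rw [h1]
  congr 1
  have h2 : ∑ j, C (g i j) * lsub g' (X j) = conj g g' (fun j => X j) i := rfl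
  rw [h2]
  simp only [conj, lsub_X, Finset.mul_sum]
  rw [Finset.sum_comm]
  have h3 : ∀ l, ∑ j, C (g i j) * (C (g' j l) * X l) =
      (C ((g * g') i l) * X l : MvPolynomial (Fin n) A) := by
    intro l
    rw [Matrix.mul_apply, map_sum, Finset.sum_mul]
    refine Finset.sum_congr rfl fun j _ => ?_
    rw [map_mul]; ring
  simp only [h3, h']
  rw [Finset.sum_eq_single i]
  · simp
  · intro j _ hj; rw [Matrix.one_apply_ne hj.symm]; simp
  · simp

end Pool.Agent.Lib.MP_82c165_ag
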