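import Mathlib
import Pool.Agent.Lib.MP_82c165_ag.PolyMap

/-!
Coefficient spaces of tuples of homogeneous forms, the conjugation action, and the function field
of the moduli space of endomorphisms of projective space.
-/

namespace Pool.Agent.Lib.MP_82c165_ag

open MvPolynomial Matrix

/-- Multi-indices in `n` variables of total degree `d`. -/
abbrev Mon (n d : ℕ) : Type := {α : Fin n →₀ ℕ // α.degree = d}

instance (n d : ℕ) : Finite (Mon n d) := (Finsupp.finite_of_degree_eq (σ := Fin n) d).to_subtype

noncomputable instance (n d : ℕ) : Fintype (Mon n d) := Fintype.ofFinite _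

/-- Index set of the coefficients of an `n`-tuple of forms of degree `d` in `n` variables. -/
abbrev Coeff (n d : ℕ) : Type := Fin n × Mon n d

/-- The `n`-tuple of forms of degree `d` with given coefficients. -/
noncomputable def formOf {n d : ℕ} {A : Type*} [CommRing A] (a : Coeff n d → A) :
    Fin n → MvPolynomial (Fin n) A :=
  fun i => ∑ α : Mon n d, monomial α.1 (a (i, α))

section

variable {n d : ℕ} {A B : Type*} [CommRing A] [CommRing B]

theorem coeff_formOf (a : Coeff n d → A) (i : Fin n) (α : Mon n d) :
    coeff α.1 (formOf a i) = a (i, α) := by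
  classical
  rw [formOf, coeff_sum, Finset.sum_eq_single α]
  · simp
  · intro β _ hβ
    rw [coeff_monomial, if_neg]
    intro h
    exact hβ (Subtype.ext h)
  · simp

theorem formOf_homog (a : Coeff n d → A) (i : Fin n) : (formOf a i).IsHomogeneous d := by
  refine IsHomogeneous.sum _ _ _ fun α _ => ?_
  exact isHomogeneous_monomial _ α.2

theorem formOf_coeff {F : Fin n → MvPolynomial (Fin n) A} (hF : ∀ i, (F i).IsHomogeneous d) :
    formOf (fun c : Coeff n d => coeff c.2.1 (F c.1)) = F := by
  classical
  funext i
  ext β
  by_cases hβ : β.degree = d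
  · exact coeff_formOf (fun c : Coeff n d => coeff c.2.1 (F c.1)) i ⟨β, hβ⟩
  · rw [(formOf_homog _ i).coeff_eq_zero hβ, (hF i).coeff_eq_zero hβ]

theorem map_formOf (φ : A →+* B) (a : Coeff n d → A) (i : Fin n) :
    MvPolynomial.map φ (formOf a i) = formOf (fun c => φ (a c)) i := by
  simp only [formOf, map_sum, map_monomial]

end

section

variable (k : Type*) [Field k] (n d : ℕ)

/-- The `n`-tuple of forms whose coefficients are the coordinate functions. -/
noncomputable def univForm : Fin n → MvPolynomial (Fin n) (MvPolynomial (Coeff n d) k) :=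
  formOf X

variable {k n d}

/-- The pull-back of polynomial functions on the space of `n`-tuples of forms of degree `d`
along `f ↦ g ∘ f ∘ g⁻¹`. -/
noncomputable def conjPull (g : GL (Fin n) k) :
    MvPolynomial (Coeff n d) k →ₐ[k] MvPolynomial (Coeff n d) k :=
  aeval fun c => coeff c.2.1
    (conj ((g : Matrix (Fin n) (Fin n) k).map C) ((g⁻¹ : GL (Fin n) k).1.map C)
      (univForm k n d) c.1)

theorem map_conjPull_univ (g : GL (Fin n) k) (i : Fin n) :
    MvPolynomial.map (conjPull (d := d) g : MvPolynomial (Coeff n d) k →+* MvPolynomial (Coeff n d) k)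
      (univForm k n d i) =
      conj ((g : Matrix (Fin n) (Fin n) k).map C) ((g⁻¹ : GL (Fin n) k).1.map C)
        (univForm k n d) i := by
  have h1 : ∀ i, (conj ((g : Matrix (Fin n) (Fin n) k).map C) ((g⁻¹ : GL (Fin n) k).1.map C)
        (univForm k n d) i).IsHomogeneous d :=
    conj_homog _ _ (fun j => formOf_homog _ j)
  rw [← congrFun (formOf_coeff h1) i, univForm, map_formOf]
  congr 1
  funext c
  simp [conjPull, univForm]

theorem conjPull_comp (g h : GL (Fin n) k) :
    (conjPull (d := d) g).comp (conjPull h) = conjPull (h * g) := by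
  apply MvPolynomial.algHom_ext
  intro c
  have h1 := map_conjPull_univ (d := d) g
  have h2 := map_conjPull_univ (d := d) h
  have h3 := map_conjPull_univ (d := d) (h * g)
  have key : ∀ i, MvPolynomial.map (((conjPull (d := d) g).comp (conjPull h) :
      MvPolynomial (Coeff n d) k →ₐ[k] MvPolynomial (Coeff n d) k) : MvPolynomial (Coeff n d) k →+* MvPolynomial (Coeff n d) k)
      (univForm k n d i) = MvPolynomial.map
        (conjPull (d := d) (h * g) : MvPolynomial (Coeff n d) k →+* MvPolynomial (Coeff n d) k)
        (univForm k n d i) := by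
    intro i
    have e1 : (((conjPull (d := d) g).comp (conjPull h) :
      MvPolynomial (Coeff n d) k →ₐ[k] MvPolynomial (Coeff n d) k) : MvPolynomial (Coeff n d) k →+* MvPolynomial (Coeff n d) k) =
      (conjPull (d := d) g : MvPolynomial (Coeff n d) k →+* MvPolynomial (Coeff n d) k).comp
        (conjPull (d := d) h : MvPolynomial (Coeff n d) k →+* MvPolynomial (Coeff n d) k) := rfl
    rw [e1, ← MvPolynomial.map_map, h2, map_conj, h3]
    have e2 : (fun j => MvPolynomial.map (conjPull (d := d) g : MvPolynomial (Coeff n d) k →+* MvPolynomial (Coeff n d) k)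
        (univForm k n d j)) = conj ((g : Matrix (Fin n) (Fin n) k).map C)
          ((g⁻¹ : GL (Fin n) k).1.map C) (univForm k n d) := funext h1
    rw [e2]
    have e3 : ∀ N : Matrix (Fin n) (Fin n) k,
        (N.map C).map (conjPull (d := d) g : MvPolynomial (Coeff n d) k →+* MvPolynomial (Coeff n d) k) = N.map C := by
      intro N
      ext i j
      simp only [Matrix.map_apply]
      congr 1
      exact (conjPull (d := d) g).commutes _
    rw [e3, e3, conj_conj]
    have e4 : ((h : Matrix (Fin n) (Fin n) k).map C * (g : Matrix (Fin n) (Fin n) k).map C :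
        Matrix (Fin n) (Fin n) (MvPolynomial (Coeff n d) k)) =
        ((h * g : GL (Fin n) k) : Matrix (Fin n) (Fin n) k).map C := by
      rw [← Matrix.map_mul]; rfl
    have e5 : ((g⁻¹ : GL (Fin n) k).1.map C * (h⁻¹ : GL (Fin n) k).1.map C :
        Matrix (Fin n) (Fin n) (MvPolynomial (Coeff n d) k)) =
        (((h * g)⁻¹ : GL (Fin n) k) : Matrix (Fin n) (Fin n) k).map C := by
      rw [← Matrix.map_mul, _root_.mul_inv_rev]; rfl
    rw [e4, e5]
  have h4 := congrArg (coeff c.2.1) (key c.1)
  rw [coeff_map, coeff_map, univForm, coeff_formOf] at h4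
  exact h4

theorem conjPull_one : conjPull (d := d) (1 : GL (Fin n) k) = AlgHom.id k _ := by
  apply MvPolynomial.algHom_ext
  intro c
  have h1 := congrArg (coeff c.2.1) (map_conjPull_univ (d := d) (1 : GL (Fin n) k) c.1)
  have e1 : ((1 : GL (Fin n) k) : Matrix (Fin n) (Fin n) k).map C =
      (1 : Matrix (Fin n) (Fin n) (MvPolynomial (Coeff n d) k)) := by
    rw [Units.val_one]; exact Matrix.map_one _ (map_zero _) (map_one _)
  rw [inv_one, e1, conj_one, coeff_map, univForm, coeff_formOf] at h1
  exact h1

theorem conjPull_inv_left (g : GL (Fin n) k) :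
    (conjPull (d := d) g).comp (conjPull g⁻¹) = AlgHom.id k _ := by
  rw [conjPull_comp, inv_mul_cancel, conjPull_one]

theorem conjPull_inv_right (g : GL (Fin n) k) :
    (conjPull (d := d) g⁻¹).comp (conjPull g) = AlgHom.id k _ := by
  rw [conjPull_comp, mul_inv_cancel, conjPull_one]

/-- The action of `g` on the coordinate ring, as an automorphism. -/
noncomputable def conjEquiv (g : GL (Fin n) k) :
    MvPolynomial (Coeff n d) k ≃ₐ[k] MvPolynomial (Coeff n d) k :=
  AlgEquiv.ofAlgHom (conjPull g) (conjPull g⁻¹) (conjPull_inv_left g) (conjPull_inv_right g)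

/-- The pull-back of polynomial functions along `f ↦ t f`. -/
noncomputable def scalePull (t : kˣ) :
    MvPolynomial (Coeff n d) k →ₐ[k] MvPolynomial (Coeff n d) k :=
  aeval fun c => C (t : k) * X c

theorem scalePull_inv_left (t : kˣ) :
    (scalePull (n := n) (d := d) t).comp (scalePull t⁻¹) = AlgHom.id k _ := by
  apply MvPolynomial.algHom_ext
  intro c
  simp only [scalePull, AlgHom.comp_apply, aeval_X, map_mul, AlgHom.id_apply]
  rw [← mul_assoc]
  have : (aeval fun c => C (t : k) * X c : MvPolynomial (Coeff n d) k →ₐ[k] MvPolynomial (Coeff n d) k)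
      (C ((t⁻¹ : kˣ) : k)) = C ((t⁻¹ : kˣ) : k) := by simp
  rw [this, ← map_mul, Units.inv_mul, map_one, one_mul]

theorem scalePull_inv_right (t : kˣ) :
    (scalePull (n := n) (d := d) t⁻¹).comp (scalePull t) = AlgHom.id k _ := by
  have h := scalePull_inv_left (n := n) (d := d) t⁻¹
  rwa [inv_inv] at h

/-- The pull-back along `f ↦ t f` as an automorphism of the coordinate ring. -/
noncomputable def scaleEquiv (t : kˣ) :
    MvPolynomial (Coeff n d) k ≃ₐ[k] MvPolynomial (Coeff n d) k :=
  AlgEquiv.ofAlgHom (scalePull t) (scalePull t⁻¹) (scalePull_inv_left t) (scalePull_inv_right t)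

end

/-! ### Rational functions -/

section

universe u

/-- The field `k(x_i : i ∈ ι)` of rational functions over `k` in variables indexed by `ι`, i.e. the
field of fractions of the polynomial ring. -/
def MvRatFun (k : Type u) [Field k] (ι : Type) : Type u := FractionRing (MvPolynomial ι k)

variable {k : Type u} [Field k] {ι : Type}

noncomputable instance instFieldMvRatFun : Field (MvRatFun k ι) :=
  FractionRing.field (MvPolynomial ι k)

noncomputable instance instAlgebraPolyMvRatFun : Algebra (MvPolynomial ι k) (MvRatFun k ι) :=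
  OreLocalization.instAlgebra

noncomputable instance instAlgebraMvRatFun : Algebra k (MvRatFun k ι) :=
  OreLocalization.instAlgebra

instance : IsScalarTower k (MvPolynomial ι k) (MvRatFun k ι) :=
  inferInstanceAs (IsScalarTower k (MvPolynomial ι k) (FractionRing (MvPolynomial ι k)))

instance : IsFractionRing (MvPolynomial ι k) (MvRatFun k ι) :=
  inferInstanceAs (IsFractionRing (MvPolynomial ι k) (FractionRing (MvPolynomial ι k)))

/-- The extension of an automorphism of a polynomial ring to the field of rational functions. -/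
noncomputable def fracEquiv (s : MvPolynomial ι k ≃ₐ[k] MvPolynomial ι k) :
    MvRatFun k ι ≃ₐ[k] MvRatFun k ι :=
  IsFractionRing.algEquivOfAlgEquiv s

variable {n d : ℕ}

/-- The action of `g` on rational functions: `φ ↦ (f ↦ φ(g ∘ f ∘ g⁻¹))`. -/
noncomputable def conjField (g : GL (Fin n) k) :
    MvRatFun k (Coeff n d) ≃ₐ[k] MvRatFun k (Coeff n d) :=
  fracEquiv (conjEquiv g)

/-- The action of the scalar `t` on rational functions: `φ ↦ (f ↦ φ(t f))`. -/
noncomputable def scaleField (t : kˣ) :
    MvRatFun k (Coeff n d) ≃ₐ[k] MvRatFun k (Coeff n d) :=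
  fracEquiv (scaleEquiv t)

variable (k) in
/-- The function field of the moduli space `M^N_d = End^N_d / PGL_{N+1}` over `k`: the field of
those rational functions on the space of `(N+1)`-tuples of forms of degree `d` in `N+1` variables
which are invariant under scaling (i.e. are rational functions on the projective space `P^M`, of
which `End^N_d` is a nonempty open subset) and under conjugation by `GL_{N+1}(k)`. -/
noncomputable def moduliFunctionField (N d : ℕ) :
    IntermediateField k (MvRatFun k (Coeff (N + 1) d)) :=
  IntermediateField.fixedField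
    (Subgroup.closure (Set.range scaleField ∪ Set.range conjField))

theorem mem_moduliFunctionField {N d : ℕ}
    (φ : MvRatFun k (Coeff (N + 1) d)) :
    φ ∈ moduliFunctionField k N d ↔
      (∀ t : kˣ, scaleField t φ = φ) ∧ ∀ g : GL (Fin (N + 1)) k, conjField g φ = φ := by
  rw [moduliFunctionField, IntermediateField.mem_fixedField_iff]
  constructor
  · intro h
    exact ⟨fun t => h _ (Subgroup.subset_closure (Or.inl ⟨t, rfl⟩)),
      fun g => h _ (Subgroup.subset_closure (Or.inr ⟨g, rfl⟩))⟩
  · rintro ⟨h1, h2⟩ s hs
    induction hs using Subgroup.closure_induction with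
    | mem x hx =>
      rcases hx with ⟨t, rfl⟩ | ⟨g, rfl⟩
      · exact h1 t
      · exact h2 g
    | one => rfl
    | mul x y _ _ hx hy => rw [AlgEquiv.mul_apply, hy, hx]
    | inv x _ hx =>
      apply x.injective
      rw [hx]
      exact AlgEquiv.apply_symm_apply x φ

end

end Pool.Agent.Lib.MP_82c165_ag
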