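import Mathlib
import Pool.Agent.Lib.MP_82c165_ag.Defs

/-!
Index sets of coefficients and their cardinalities.
-/

namespace Pool.Agent.Lib.MP_82c165_ag

open MvPolynomial

variable {m e : ℕ}

/-- the coefficients of `f0` which are free -/
def P0 (c : Coeff (m + 3) (e + 1)) : Prop :=
  ¬ (c.1 = Fin.last (m + 2) ∧ c.2.1 (Fin.last (m + 2)) ≠ 0)

/-- the coefficients of the normal form which are constant -/
def Q0 (c : Coeff (m + 3) (e + 1)) : Prop :=
  ∃ i, i ≠ Fin.last (m + 2) ∧ c.2.1 = Finsupp.single i (e + 1)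

theorem P0_of_Q0 {c : Coeff (m + 3) (e + 1)} (h : Q0 c) : P0 c := by
  obtain ⟨i, hi, h⟩ := h
  rintro ⟨_, h2⟩
  apply h2
  rw [h, Finsupp.single_eq_of_ne' hi]

theorem card_compl_P0 : Nat.card {c : Coeff (m + 3) (e + 1) // ¬ P0 c} = Nat.card (Mon (m + 3) e) := by
  symm
  refine Nat.card_congr (Equiv.ofBijective (fun β : Mon (m + 3) e =>
    (⟨(Fin.last (m + 2), ⟨β.1 + Finsupp.single (Fin.last (m + 2)) 1, by
      rw [map_add, β.2, Finsupp.degree_single]⟩), ?_⟩ :
      {c : Coeff (m + 3) (e + 1) // ¬ P0 c})) ⟨?_, ?_⟩)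
  · rw [P0, not_not]
    refine ⟨rfl, ?_⟩
    simp
  · intro β β' h
    have h1 := congrArg (fun c : {c : Coeff (m + 3) (e + 1) // ¬ P0 c} => c.1.2.1) h
    simp only [add_left_inj] at h1
    exact Subtype.ext h1
  · rintro ⟨⟨i, α⟩, h⟩
    rw [P0, not_not] at h
    obtain ⟨h1, h2⟩ := h
    simp only at h1 h2
    subst h1
    have h3 : α.1 - Finsupp.single (Fin.last (m + 2)) 1 + Finsupp.single (Fin.last (m + 2)) 1 = α.1 := by
      rw [tsub_add_cancel_of_le]
      rw [Finsupp.single_le_iff]
      omega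
    refine ⟨⟨α.1 - Finsupp.single (Fin.last (m + 2)) 1, ?_⟩, ?_⟩
    · have h4 := congrArg Finsupp.degree h3
      rw [map_add, Finsupp.degree_single, α.2] at h4
      omega
    · apply Subtype.ext
      simp only
      congr 1
      exact Subtype.ext h3

theorem card_Q0 : Nat.card {c : Coeff (m + 3) (e + 1) // Q0 c} = (m + 3) * (m + 2) := by
  have h1 : Nat.card (Fin (m + 3) × {i : Fin (m + 3) // i ≠ Fin.last (m + 2)}) =
      (m + 3) * (m + 2) := by
    rw [Nat.card_prod, Nat.card_eq_fintype_card, Nat.card_eq_fintype_card,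
      Fintype.card_subtype_compl]
    simp
  rw [← h1]
  symm
  refine Nat.card_congr (Equiv.ofBijective
    (fun p : Fin (m + 3) × {i : Fin (m + 3) // i ≠ Fin.last (m + 2)} =>
    (⟨(p.1, ⟨Finsupp.single p.2.1 (e + 1), by rw [Finsupp.degree_single]⟩), ?_⟩ :
      {c : Coeff (m + 3) (e + 1) // Q0 c})) ⟨?_, ?_⟩)
  · exact ⟨p.2.1, p.2.2, rfl⟩
  · rintro ⟨i, j⟩ ⟨i', j'⟩ h
    have h1 := congrArg (fun c : {c : Coeff (m + 3) (e + 1) // Q0 c} => c.1.1) h
    have h2 := congrArg (fun c : {c : Coeff (m + 3) (e + 1) // Q0 c} => c.1.2.1) h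
    simp only at h1 h2
    subst h1
    have h3 := (Finsupp.single_left_inj (by omega : e + 1 ≠ 0)).1 h2
    rw [Subtype.ext h3]
  · rintro ⟨⟨i, α⟩, ⟨j, hj, hα⟩⟩
    refine ⟨(i, ⟨j, hj⟩), ?_⟩
    apply Subtype.ext
    simp only
    congr 1
    exact Subtype.ext hα.symm

theorem card_add_compl {α : Type*} [Finite α] (p : α → Prop) :
    Nat.card {a // p a} + Nat.card {a // ¬ p a} = Nat.card α := by
  classical
  have := Fintype.ofFinite α
  rw [Nat.card_eq_fintype_card, Nat.card_eq_fintype_card, Nat.card_eq_fintype_card,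
    Fintype.card_subtype_compl]
  have := Fintype.card_subtype_le p
  omega

/-- the free coefficients of `f0` -/
abbrev I0 (m e : ℕ) : Type := {c : Coeff (m + 3) (e + 1) // P0 c}

/-- the free coefficients of the normal form -/
abbrev IS (m e : ℕ) : Type := {c : Coeff (m + 3) (e + 1) // P0 c ∧ ¬ Q0 c}

theorem card_I0 : Nat.card (I0 m e) + Nat.card (Mon (m + 3) e) =
    Nat.card (Coeff (m + 3) (e + 1)) := by
  rw [← card_compl_P0]
  exact card_add_compl _

theorem card_IS : Nat.card (IS m e) + (m + 3) * (m + 2) = Nat.card (I0 m e) := by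
  classical
  rw [← card_add_compl (fun c : I0 m e => Q0 c.1), ← card_Q0 (m := m) (e := e), add_comm]
  congr 1
  · refine Nat.card_congr ?_
    exact {
      toFun := fun c => ⟨⟨c.1, P0_of_Q0 c.2⟩, c.2⟩
      invFun := fun c => ⟨c.1.1, c.2⟩
      left_inv := fun c => rfl
      right_inv := fun c => rfl }
  · refine Nat.card_congr ?_
    exact {
      toFun := fun c => ⟨⟨c.1, c.2.1⟩, c.2.2⟩
      invFun := fun c => ⟨c.1.1, c.1.2, c.2⟩
      left_inv := fun c => rfl
      right_inv := fun c => rfl }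

theorem card_Mon (n d : ℕ) : Nat.card (Mon n d) = (n + d - 1).choose d := by
  classical
  have h1 : Nat.card (Mon n d) = Nat.card (Sym (Fin n) d) := by
    refine Nat.card_congr ?_
    exact {
      toFun := fun α => ⟨Finsupp.toMultiset α.1, by
        rw [Finsupp.card_toMultiset]
        exact α.2⟩
      invFun := fun s => ⟨Multiset.toFinsupp s.1, by
        have h2 : Multiset.card s.1 = (Multiset.toFinsupp s.1).degree := by
          conv_lhs => rw [← Multiset.toFinsupp_toMultiset s.1, Finsupp.card_toMultiset]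
          rfl
        exact h2.symm.trans s.2⟩
      left_inv := fun α => by
        apply Subtype.ext
        simp
      right_inv := fun s => by
        apply Subtype.ext
        simp }
  rw [h1, Nat.card_eq_fintype_card, Sym.card_sym_eq_choose, Fintype.card_fin]

theorem card_Coeff (n d : ℕ) : Nat.card (Coeff n d) = n * (n + d - 1).choose d := by
  rw [Nat.card_prod, card_Mon n d]
  simp

end Pool.Agent.Lib.MP_82c165_ag
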