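import Mathlib

/-!
Semilinear descent lemmas for a family of ring endomorphisms of a field.
-/

namespace Pool.Agent.Lib.MP_82c165_ag

section Finsupps

variable {K : Type*} [Field K] {Γ : Type*} (σ : Γ → K →+* K)

/-- Coordinatewise action of a ring endomorphism on finitely supported functions. -/
noncomputable def cact (g : Γ) {ι : Type*} (v : ι →₀ K) : ι →₀ K :=
  v.mapRange (σ g) (map_zero _)

theorem cact_apply (g : Γ) {ι : Type*} (v : ι →₀ K) (i : ι) : cact σ g v i = σ g (v i) := by
  simp [cact]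

theorem descent_finsupp {ι : Type*} (S : Submodule K (ι →₀ K))
    (hS : ∀ g, ∀ v ∈ S, cact σ g v ∈ S) :
    S ≤ Submodule.span K {w : ι →₀ K | w ∈ S ∧ ∀ g, cact σ g w = w} := by
  classical
  suffices H : ∀ m : ℕ, ∀ v ∈ S, v.support.card ≤ m →
      v ∈ Submodule.span K {w : ι →₀ K | w ∈ S ∧ ∀ g, cact σ g w = w} by
    intro v hv; exact H _ v hv le_rfl
  intro m
  induction m with
  | zero =>
    intro v hv hc
    have : v = 0 := by simpa using hc
    subst this
    exact Submodule.zero_mem _
  | succ m ih =>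
    intro v hv hc
    by_cases hv0 : v = 0
    · subst hv0; exact Submodule.zero_mem _
    have hT : ({w : ι →₀ K | w ∈ S ∧ w ≠ 0 ∧ w.support ⊆ v.support}).Nonempty :=
      ⟨v, hv, hv0, subset_rfl⟩
    obtain ⟨w, ⟨hwS, hw0, hwv⟩, hwmin⟩ :
        ∃ w ∈ {w : ι →₀ K | w ∈ S ∧ w ≠ 0 ∧ w.support ⊆ v.support},
          ∀ w' ∈ {w : ι →₀ K | w ∈ S ∧ w ≠ 0 ∧ w.support ⊆ v.support},
            w.support.card ≤ w'.support.card := by
      let f : (ι →₀ K) → ℕ := fun w => w.support.card
      refine ⟨Function.argminOn f _ hT, Function.argminOn_mem f _ hT, ?_⟩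
      intro w' hw'
      exact Function.argminOn_le f _ hw'
    obtain ⟨i, hi⟩ := Finsupp.support_nonempty_iff.mpr hw0
    have hwi : w i ≠ 0 := Finsupp.mem_support_iff.mp hi
    set w1 : ι →₀ K := (w i)⁻¹ • w with hw1
    have hw1S : w1 ∈ S := S.smul_mem _ hwS
    have hw1i : w1 i = 1 := by simp [hw1, inv_mul_cancel₀ hwi]
    have hw1supp : w1.support ⊆ w.support := Finsupp.support_smul
    have hinv : ∀ g, cact σ g w1 = w1 := by
      intro g
      by_contra hne
      have hd0 : cact σ g w1 - w1 ≠ 0 := sub_ne_zero.mpr hne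
      have hdS : cact σ g w1 - w1 ∈ S := S.sub_mem (hS g _ hw1S) hw1S
      have hsub : (cact σ g w1 - w1).support ⊆ w.support.erase i := by
        intro j hj
        have hj' : cact σ g w1 j - w1 j ≠ 0 := by simpa using Finsupp.mem_support_iff.mp hj
        rw [Finset.mem_erase]
        constructor
        · rintro rfl
          apply hj'
          rw [cact_apply, hw1i, map_one, sub_self]
        · by_contra hjw
          have : w1 j = 0 := by
            by_contra h
            exact hjw (hw1supp (Finsupp.mem_support_iff.mpr h))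
          apply hj'
          rw [cact_apply, this, map_zero, sub_zero]
      have hcard := hwmin (cact σ g w1 - w1)
        ⟨hdS, hd0, hsub.trans ((Finset.erase_subset _ _).trans hwv)⟩
      have hlt : (cact σ g w1 - w1).support.card < w.support.card :=
        lt_of_le_of_lt (Finset.card_le_card hsub) (Finset.card_erase_lt_of_mem hi)
      omega
    have hw1span : w1 ∈ Submodule.span K {w : ι →₀ K | w ∈ S ∧ ∀ g, cact σ g w = w} :=
      Submodule.subset_span ⟨hw1S, hinv⟩
    have hrest : v - v i • w1 ∈ Submodule.span K {w : ι →₀ K | w ∈ S ∧ ∀ g, cact σ g w = w} := by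
      apply ih
      · exact S.sub_mem hv (S.smul_mem _ hw1S)
      · have hsub : (v - v i • w1).support ⊆ v.support.erase i := by
          intro j hj
          have hj' : v j - v i * w1 j ≠ 0 := by simpa using Finsupp.mem_support_iff.mp hj
          rw [Finset.mem_erase]
          constructor
          · rintro rfl
            apply hj'
            rw [hw1i]; ring
          · by_contra hjv
            have h1 : v j = 0 := by simpa using hjv
            have h2 : w1 j = 0 := by
              by_contra h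
              exact hjv (hwv (hw1supp (Finsupp.mem_support_iff.mpr h)))
            apply hj'
            rw [h1, h2]; ring
        have hiv : i ∈ v.support := hwv hi
        have := Finset.card_le_card hsub
        have h3 := Finset.card_erase_lt_of_mem hiv
        omega
    have : v = (v - v i • w1) + v i • w1 := by abel
    rw [this]
    exact Submodule.add_mem _ hrest (Submodule.smul_mem _ _ hw1span)

end Finsupps

section Fields

variable {K L : Type*} [Field K] [Field L] [Algebra K L] {Γ : Type*}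
  (σ : Γ → L →+* L) (σK : Γ → K →+* K)

theorem linearCombination_cact (hσ : ∀ g a, σ g (algebraMap K L a) = algebraMap K L (σK g a))
    {ι : Type*} (w : ι → L) (hw : ∀ g i, σ g (w i) = w i) (g : Γ) (v : ι →₀ K) :
    Finsupp.linearCombination K w (cact σK g v) = σ g (Finsupp.linearCombination K w v) := by
  classical
  rw [Finsupp.linearCombination_apply, Finsupp.linearCombination_apply]
  rw [Finsupp.sum_of_support_subset (s := v.support)]
  · rw [Finsupp.sum, map_sum]
    refine Finset.sum_congr rfl fun i _ => ?_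
    rw [cact_apply, Algebra.smul_def, Algebra.smul_def, map_mul, hσ, hw]
  · intro i hi
    rw [Finsupp.mem_support_iff, cact_apply] at hi
    rw [Finsupp.mem_support_iff]
    intro h
    rw [h, map_zero] at hi
    exact hi rfl
  · intro i _
    rw [zero_smul]

/-- A stable `K`-subspace of the `K`-span of a set `M` of invariants is spanned by
its invariant elements lying in any subfield `E` containing `M` and the invariants of `K`. -/
theorem descent_span_gen (hσ : ∀ g a, σ g (algebraMap K L a) = algebraMap K L (σK g a))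
    (M : Set L) (hM : ∀ x ∈ M, ∀ g, σ g x = x) (E : Subfield L) (hME : M ⊆ E)
    (hKE : ∀ a : K, (∀ g, σK g a = a) → algebraMap K L a ∈ E)
    (S : Submodule K L) (hS1 : S ≤ Submodule.span K M)
    (hS : ∀ g, ∀ v ∈ S, σ g v ∈ S) :
    S ≤ Submodule.span K {x | x ∈ S ∧ x ∈ E ∧ ∀ g, σ g x = x} := by
  classical
  let w : M → L := fun x => (x : L)
  have hw : ∀ g (i : M), σ g (w i) = w i := fun g i => hM _ i.2 g
  let Lc := Finsupp.linearCombination K w
  have hD := descent_finsupp σK (S.comap Lc) (by
    intro g v hv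
    rw [Submodule.mem_comap] at hv ⊢
    rw [linearCombination_cact σ σK hσ w hw g v]
    exact hS g _ hv)
  intro v hv
  have hv1 : v ∈ Submodule.span K (Set.range w) := by
    have := hS1 hv
    have hr : (Set.range w) = M := by
      ext x; simp [w]
    rw [hr]; exact this
  rw [← Finsupp.range_linearCombination] at hv1
  obtain ⟨a, rfl⟩ := hv1
  have ha : a ∈ S.comap Lc := hv
  have ha2 := hD ha
  have h3 : Lc a ∈ (Submodule.span K
      {w : M →₀ K | w ∈ S.comap Lc ∧ ∀ g, cact σK g w = w}).map Lc :=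
    Submodule.mem_map_of_mem ha2
  rw [Submodule.map_span] at h3
  refine Submodule.span_mono ?_ h3
  rintro _ ⟨u, ⟨hu1, hu2⟩, rfl⟩
  refine ⟨hu1, ?_, ?_⟩
  · change Finsupp.linearCombination K w u ∈ E
    rw [Finsupp.linearCombination_apply]
    refine Subfield.sum_mem _ fun i _ => ?_
    change u i • w i ∈ E
    rw [Algebra.smul_def]
    refine E.mul_mem (hKE _ fun g => ?_) (hME i.2)
    have := congrArg (fun z => z i) (hu2 g)
    simpa [cact_apply] using this
  · intro g
    have := linearCombination_cact σ σK hσ w hw g u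
    rw [hu2 g] at this
    exact this.symm

/-- A stable `K`-subspace of the `K`-span of a field `F1` of invariants is spanned by its
intersection with `F1`. -/
theorem descent_span (hσ : ∀ g a, σ g (algebraMap K L a) = algebraMap K L (σK g a))
    (F1 : Subfield L) (hF1 : ∀ x ∈ F1, ∀ g, σ g x = x)
    (hKF : ∀ a : K, (∀ g, σK g a = a) → algebraMap K L a ∈ F1)
    (S : Submodule K L) (hS1 : S ≤ Submodule.span K (F1 : Set L))
    (hS : ∀ g, ∀ v ∈ S, σ g v ∈ S) :
    S ≤ Submodule.span K ((S : Set L) ∩ F1) := by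
  refine (descent_span_gen σ σK hσ (F1 : Set L) hF1 F1 subset_rfl hKF S hS1 hS).trans ?_
  exact Submodule.span_mono fun x hx => ⟨hx.1, hx.2.1⟩

/-- Conductor argument: a finite family `u`, stable up to `K`-linear combinations and contained in
the compositum of `K` and the field of invariants `F1`, is contained in the `K`-span of `F1`. -/
theorem conductor (hσ : ∀ g a, σ g (algebraMap K L a) = algebraMap K L (σK g a))
    (F1 : Subfield L) (hF1 : ∀ x ∈ F1, ∀ g, σ g x = x)
    (hKF : ∀ a : K, (∀ g, σK g a = a) → algebraMap K L a ∈ F1)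
    {ι : Type*} [Finite ι] (u : ι → L)
    (hu : ∀ i, u i ∈ IntermediateField.adjoin K (F1 : Set L))
    (hstab : ∀ g i, u i ∈ Submodule.span K (Set.range fun j => σ g (u j))) :
    ∀ i, u i ∈ Submodule.span K (F1 : Set L) := by
  classical
  cases nonempty_fintype ι
  -- the K-algebra generated by F1
  have hadj : Subalgebra.toSubmodule (Algebra.adjoin K (F1 : Set L)) =
      Submodule.span K (F1 : Set L) := by
    rw [Algebra.adjoin_eq_span]
    congr 1
    have : (F1 : Set L) = ((F1.toSubmonoid : Submonoid L) : Set L) := rfl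
    rw [this, Submonoid.closure_eq]
  set A := Algebra.adjoin K (F1 : Set L) with hA
  have hAmem : ∀ x, x ∈ A ↔ x ∈ Submodule.span K (F1 : Set L) := by
    intro x
    rw [← hadj]; rfl
  have hAσ : ∀ g, ∀ x ∈ A, σ g x ∈ A := by
    intro g x hx
    induction hx using Algebra.adjoin_induction with
    | mem x hx => rw [hF1 x hx g]; exact Algebra.subset_adjoin hx
    | algebraMap r => rw [hσ]; exact Subalgebra.algebraMap_mem _ _
    | add x y _ _ hx hy => rw [map_add]; exact add_mem hx hy
    | mul x y _ _ hx hy => rw [map_mul]; exact mul_mem hx hy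
  -- conductor
  let B : Submodule K L :=
    { carrier := {b | b ∈ A ∧ ∀ i, b * u i ∈ A}
      add_mem' := by
        rintro a b ⟨ha, ha'⟩ ⟨hb, hb'⟩
        refine ⟨add_mem ha hb, fun i => ?_⟩
        rw [add_mul]; exact add_mem (ha' i) (hb' i)
      zero_mem' := ⟨zero_mem _, fun i => by rw [zero_mul]; exact zero_mem _⟩
      smul_mem' := by
        rintro c b ⟨hb, hb'⟩
        refine ⟨A.smul_mem hb c, fun i => ?_⟩
        rw [smul_mul_assoc]; exact A.smul_mem (hb' i) c }
  have hBmem : ∀ b, b ∈ B ↔ (b ∈ A ∧ ∀ i, b * u i ∈ A) := fun b => Iff.rfl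
  have hBσ : ∀ g, ∀ b ∈ B, σ g b ∈ B := by
    intro g b hb
    rw [hBmem] at hb ⊢
    refine ⟨hAσ g b hb.1, fun i => ?_⟩
    have h1 : ∀ z ∈ Submodule.span K (Set.range fun j => σ g (u j)), σ g b * z ∈ A := by
      intro z hz
      induction hz using Submodule.span_induction with
      | mem x hx =>
        obtain ⟨j, rfl⟩ := hx
        change σ g b * σ g (u j) ∈ A
        rw [← map_mul]
        exact hAσ g _ (hb.2 j)
      | zero => rw [mul_zero]; exact zero_mem _
      | add x y _ _ hx hy => rw [mul_add]; exact add_mem hx hy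
      | smul a x _ hx => rw [mul_smul_comm]; exact A.smul_mem hx a
    exact h1 _ (hstab g i)
  have hBspan : B ≤ Submodule.span K (F1 : Set L) := fun b hb => (hAmem b).1 hb.1
  have hdes := descent_span σ σK hσ F1 hF1 hKF B hBspan hBσ
  -- B is nonzero
  have hBne : ∃ b ∈ B, b ≠ 0 := by
    have hden : ∀ i, ∃ s ∈ A, s ≠ 0 ∧ s * u i ∈ A := by
      intro i
      obtain ⟨r, hr, s, hs, hrs⟩ := IntermediateField.mem_adjoin_iff_div.1 (hu i)
      by_cases hs0 : s = 0
      · refine ⟨1, one_mem _, one_ne_zero, ?_⟩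
        rw [hrs, hs0, div_zero, mul_zero]; exact zero_mem _
      · refine ⟨s, hs, hs0, ?_⟩
        rw [hrs, mul_div_cancel₀ _ hs0]; exact hr
    choose s hs hs0 hsu using hden
    refine ⟨∏ i, s i, ?_, Finset.prod_ne_zero_iff.2 fun i _ => hs0 i⟩
    rw [hBmem]
    refine ⟨prod_mem fun i _ => hs i, fun i => ?_⟩
    rw [← Finset.prod_erase_mul _ _ (Finset.mem_univ i), mul_assoc]
    exact mul_mem (prod_mem fun j _ => hs j) (hsu i)
  obtain ⟨b, hb, hb0⟩ := hBne
  -- there is a nonzero element of F1 in B
  have hex : ∃ c, c ∈ B ∧ c ∈ F1 ∧ c ≠ 0 := by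
    by_contra hcon
    push Not at hcon
    have : (B : Set L) ∩ F1 ⊆ {0} := by
      rintro c ⟨hc1, hc2⟩
      exact hcon c hc1 hc2
    have h0 := Submodule.span_mono (R := K) this (hdes hb)
    rw [Submodule.span_singleton_eq_bot.mpr rfl] at h0
    exact hb0 (by simpa using h0)
  obtain ⟨c, hcB, hcF, hc0⟩ := hex
  intro i
  rw [← hAmem]
  have h1 : c * u i ∈ A := ((hBmem c).1 hcB).2 i
  have h2 : c⁻¹ ∈ A := Algebra.subset_adjoin (F1.inv_mem hcF)
  have h3 : u i = c⁻¹ * (c * u i) := by
    rw [← mul_assoc, inv_mul_cancel₀ hc0, one_mul]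
  rw [h3]
  exact mul_mem h2 h1

/-- Existence of an invariant frame. -/
theorem exists_frame (hσ : ∀ g a, σ g (algebraMap K L a) = algebraMap K L (σK g a))
    (F1 : Subfield L) (hF1 : ∀ x ∈ F1, ∀ g, σ g x = x)
    (hKF : ∀ a : K, (∀ g, σK g a = a) → algebraMap K L a ∈ F1)
    {ι : Type*} [Fintype ι] [DecidableEq ι] (u : ι → L) (hlin : LinearIndependent K u)
    (hu : ∀ i, u i ∈ IntermediateField.adjoin K (F1 : Set L))
    (hstab : ∀ g i, u i ∈ Submodule.span K (Set.range fun j => σ g (u j)))
    (hstab' : ∀ g i, σ g (u i) ∈ Submodule.span K (Set.range u)) :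
    ∃ b : Matrix ι ι K, IsUnit b ∧ ∀ i, ∑ j, b i j • u j ∈ F1 := by
  classical
  set S : Submodule K L := Submodule.span K (Set.range u) with hSdef
  have hcond := conductor σ σK hσ F1 hF1 hKF u hu hstab
  have hS1 : S ≤ Submodule.span K (F1 : Set L) := by
    rw [hSdef, Submodule.span_le]
    rintro _ ⟨i, rfl⟩
    exact hcond i
  have hSσ : ∀ g, ∀ v ∈ S, σ g v ∈ S := by
    intro g v hv
    rw [hSdef] at hv
    induction hv using Submodule.span_induction with
    | mem x hx => obtain ⟨i, rfl⟩ := hx; exact hstab' g i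
    | zero => rw [map_zero]; exact S.zero_mem
    | add x y _ _ hx hy => rw [map_add]; exact S.add_mem hx hy
    | smul a x _ hx =>
      rw [Algebra.smul_def, map_mul, hσ, ← Algebra.smul_def]; exact S.smul_mem _ hx
  have hdes := descent_span σ σK hσ F1 hF1 hKF S hS1 hSσ
  let T : (ι → K) →ₗ[K] L := Fintype.linearCombination K u
  have hTinj : Function.Injective T := by
    exact linearIndependent_iff_injective_fintypeLinearCombination.mp hlin
  let 𝔖 : Set (ι → K) := {c | T c ∈ F1}
  have hspan : ⊤ ≤ Submodule.span K 𝔖 := by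
    have hrange : LinearMap.range T = S := by
      rw [hSdef, ← Fintype.range_linearCombination]
    have hkey : S ≤ (Submodule.span K 𝔖).map T := by
      refine hdes.trans ?_
      rw [Submodule.span_le]
      rintro v ⟨hv1, hv2⟩
      have hv3 : v ∈ LinearMap.range T := by rw [hrange]; exact hv1
      obtain ⟨c, rfl⟩ := hv3
      exact Submodule.mem_map_of_mem (Submodule.subset_span hv2)
    intro c _
    have hc : T c ∈ S := by rw [← hrange]; exact ⟨c, rfl⟩
    obtain ⟨c', hc', hcc⟩ := hkey hc
    rw [← hTinj hcc]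
    exact hc'
  let B := Module.Basis.ofSpan hspan
  have hcard : Nonempty (ι ≃ ((linearIndepOn_empty K id).extend (Set.empty_subset 𝔖))) := by
    exact ⟨(Pi.basisFun K ι).indexEquiv B⟩
  obtain ⟨eqv⟩ := hcard
  let b : Matrix ι ι K := fun i => B (eqv i)
  refine ⟨b, ?_, fun i => ?_⟩
  · rw [← Matrix.linearIndependent_rows_iff_isUnit]
    exact B.linearIndependent.comp _ eqv.injective
  · have h1 : b i ∈ 𝔖 := Module.Basis.ofSpan_subset hspan ⟨eqv i, rfl⟩
    have h2 : T (b i) ∈ F1 := h1
    simpa [T, Fintype.linearCombination_apply] using h2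

/-- Invariants of a field generated over `K` by invariant elements. -/
theorem inv_adjoin (hσ : ∀ g a, σ g (algebraMap K L a) = algebraMap K L (σK g a))
    (W : Set L) (hw : ∀ g, ∀ x ∈ W, σ g x = x)
    (φ : L) (hφ : φ ∈ IntermediateField.adjoin K W) (hinv : ∀ g, σ g φ = φ)
    (E : Subfield L) (hKE : ∀ a : K, (∀ g, σK g a = a) → algebraMap K L a ∈ E)
    (hwE : W ⊆ E) : φ ∈ E := by
  classical
  by_cases hφ0 : φ = 0
  · rw [hφ0]; exact E.zero_mem
  set A := Algebra.adjoin K W with hA
  set M : Set L := (Submonoid.closure W : Set L) with hMdef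
  have hAspan : ∀ x, x ∈ A ↔ x ∈ Submodule.span K M := by
    intro x
    rw [hMdef, ← Algebra.adjoin_eq_span]; rfl
  have hM : ∀ x ∈ M, ∀ g, σ g x = x := by
    intro x hx g
    induction hx using Submonoid.closure_induction with
    | mem x hx => exact hw g x hx
    | one => exact map_one _
    | mul x y _ _ hx hy => rw [map_mul, hx, hy]
  have hME : M ⊆ E := by
    intro x hx
    induction hx using Submonoid.closure_induction with
    | mem x hx => exact hwE hx
    | one => exact E.one_mem
    | mul x y _ _ hx hy => exact E.mul_mem hx hy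
  have hAσ : ∀ g, ∀ x ∈ A, σ g x ∈ A := by
    intro g x hx
    induction hx using Algebra.adjoin_induction with
    | mem x hx => rw [hw g x hx]; exact Algebra.subset_adjoin hx
    | algebraMap r => rw [hσ]; exact Subalgebra.algebraMap_mem _ _
    | add x y _ _ hx hy => rw [map_add]; exact add_mem hx hy
    | mul x y _ _ hx hy => rw [map_mul]; exact mul_mem hx hy
  let B : Submodule K L :=
    { carrier := {b | b ∈ A ∧ b * φ ∈ A}
      add_mem' := by
        rintro a b ⟨ha, ha'⟩ ⟨hb, hb'⟩
        refine ⟨add_mem ha hb, ?_⟩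
        rw [add_mul]; exact add_mem ha' hb'
      zero_mem' := ⟨zero_mem _, by rw [zero_mul]; exact zero_mem _⟩
      smul_mem' := by
        rintro c b ⟨hb, hb'⟩
        refine ⟨A.smul_mem hb c, ?_⟩
        rw [smul_mul_assoc]; exact A.smul_mem hb' c }
  have hBmem : ∀ b, b ∈ B ↔ (b ∈ A ∧ b * φ ∈ A) := fun b => Iff.rfl
  have hBσ : ∀ g, ∀ b ∈ B, σ g b ∈ B := by
    intro g b hb
    rw [hBmem] at hb ⊢
    refine ⟨hAσ g b hb.1, ?_⟩
    have := hAσ g _ hb.2
    rwa [map_mul, hinv] at this
  have hBspan : B ≤ Submodule.span K M := fun b hb => (hAspan b).1 hb.1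
  have hdes := descent_span_gen σ σK hσ M hM E hME hKE B hBspan hBσ
  have hBne : ∃ b ∈ B, b ≠ 0 := by
    obtain ⟨r, hr, s, hs, hrs⟩ := IntermediateField.mem_adjoin_iff_div.1 hφ
    by_cases hs0 : s = 0
    · exfalso; apply hφ0; rw [hrs, hs0, div_zero]
    · refine ⟨s, ⟨hs, ?_⟩, hs0⟩
      rw [hrs, mul_div_cancel₀ _ hs0]; exact hr
  obtain ⟨b, hb, hb0⟩ := hBne
  have hex : ∃ c, c ∈ B ∧ c ∈ E ∧ (∀ g, σ g c = c) ∧ c ≠ 0 := by
    by_contra hcon
    push Not at hcon
    have : {x | x ∈ B ∧ x ∈ E ∧ ∀ g, σ g x = x} ⊆ {0} := by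
      rintro c ⟨hc1, hc2, hc3⟩
      exact hcon c hc1 hc2 hc3
    have h0 := Submodule.span_mono (R := K) this (hdes hb)
    rw [Submodule.span_singleton_eq_bot.mpr rfl] at h0
    exact hb0 (by simpa using h0)
  obtain ⟨c, hcB, hcE, hcinv, hc0⟩ := hex
  -- the product c * φ is invariant and in A
  have hP : c * φ ∈ A := hcB.2
  have hP0 : c * φ ≠ 0 := mul_ne_zero hc0 hφ0
  have hPinv : ∀ g, σ g (c * φ) = c * φ := fun g => by rw [map_mul, hcinv, hinv]
  have hS2 := descent_span_gen σ σK hσ M hM E hME hKE (Submodule.span K {c * φ}) (by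
      rw [Submodule.span_le]
      rintro _ rfl
      exact (hAspan _).1 hP) (by
      intro g v hv
      rw [Submodule.mem_span_singleton] at hv ⊢
      obtain ⟨a, rfl⟩ := hv
      refine ⟨σK g a, ?_⟩
      rw [Algebra.smul_def, Algebra.smul_def, map_mul, hσ, hPinv])
  have hex2 : ∃ x, x ∈ Submodule.span K {c * φ} ∧ x ∈ E ∧ (∀ g, σ g x = x) ∧ x ≠ 0 := by
    by_contra hcon
    push Not at hcon
    have : {x | x ∈ Submodule.span K {c * φ} ∧ x ∈ E ∧ ∀ g, σ g x = x} ⊆ {0} := by
      rintro x ⟨hx1, hx2, hx3⟩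
      exact hcon x hx1 hx2 hx3
    have h0 := Submodule.span_mono (R := K) this (hS2 (Submodule.mem_span_singleton_self _))
    rw [Submodule.span_singleton_eq_bot.mpr rfl] at h0
    exact hP0 (by simpa using h0)
  obtain ⟨x, hx1, hxE, hxinv, hx0⟩ := hex2
  obtain ⟨a, rfl⟩ := Submodule.mem_span_singleton.1 hx1
  have ha0 : algebraMap K L a ≠ 0 := by
    intro h
    apply hx0
    rw [Algebra.smul_def, h, zero_mul]
  have hainv : ∀ g, σK g a = a := by
    intro g
    have h1 := hxinv g
    rw [Algebra.smul_def, map_mul, hσ, hPinv] at h1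
    exact (algebraMap K L).injective (mul_right_cancel₀ hP0 h1)
  have haE : algebraMap K L a ∈ E := hKE a hainv
  have hfin : φ = c⁻¹ * ((algebraMap K L a)⁻¹ * (a • (c * φ))) := by
    rw [Algebra.smul_def]
    field_simp
  rw [hfin]
  exact E.mul_mem (E.inv_mem hcE) (E.mul_mem (E.inv_mem haE) hxE)

end Fields

end Pool.Agent.Lib.MP_82c165_ag
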