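import Mathlib

/-!
An element of a field of characteristic zero lies in a subfield iff it is not moved by any pair of
embeddings which agree on the subfield.
-/

namespace Pool.Agent.Lib.MP_82c165_ag

universe u

open IntermediateField TensorProduct

/-- Amalgamation of two field extensions. -/
theorem amalgam {E L Ω₁ : Type u} [Field E] [Field L] [Field Ω₁] [Algebra E L]
    (ψ : E →+* Ω₁) : ∃ (Ω : Type u) (_ : Field Ω) (i : L →+* Ω) (j : Ω₁ →+* Ω),
      ∀ a : E, i (algebraMap E L a) = j (ψ a) := by
  let _ : Algebra E Ω₁ := ψ.toAlgebra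
  have : Nontrivial (L ⊗[E] Ω₁) := inferInstance
  obtain ⟨m, hm⟩ := Ideal.exists_maximal (L ⊗[E] Ω₁)
  let _ : Field ((L ⊗[E] Ω₁) ⧸ m) := Ideal.Quotient.field m
  refine ⟨(L ⊗[E] Ω₁) ⧸ m, inferInstance,
    (Ideal.Quotient.mk m).comp (Algebra.TensorProduct.includeLeftRingHom),
    (Ideal.Quotient.mk m).comp
      (Algebra.TensorProduct.includeRight (R := E) (A := L) (B := Ω₁)).toRingHom, ?_⟩
  intro a
  have h : (algebraMap E L a) ⊗ₜ[E] (1 : Ω₁) = (1 : L) ⊗ₜ[E] (algebraMap E Ω₁ a) := by
    rw [Algebra.algebraMap_eq_smul_one, Algebra.algebraMap_eq_smul_one, TensorProduct.smul_tmul]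
  change Ideal.Quotient.mk m ((algebraMap E L a) ⊗ₜ[E] (1 : Ω₁)) =
    Ideal.Quotient.mk m ((1 : L) ⊗ₜ[E] (algebraMap E Ω₁ a))
  rw [h]

theorem mem_of_embeddings {L : Type u} [Field L] [CharZero L] (E : Subfield L) (u : L)
    (h : ∀ (Ω : Type u) (_ : Field Ω) (τ₁ τ₂ : L →+* Ω),
      (∀ a ∈ E, τ₁ a = τ₂ a) → τ₁ u = τ₂ u) : u ∈ E := by
  classical
  by_contra hu
  -- it suffices to move `u` by an embedding of `E(u)`
  have key : ∃ (Ω₁ : Type u) (_ : Field Ω₁) (_ : Algebra L Ω₁) (ψ : (E⟮u⟯ : IntermediateField E L) →+* Ω₁),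
      (∀ a : E, ψ (algebraMap E E⟮u⟯ a) = algebraMap L Ω₁ (a : L)) ∧
      ψ (AdjoinSimple.gen E u) ≠ algebraMap L Ω₁ u := by
    by_cases halg : IsAlgebraic E u
    · have hint : IsIntegral E u := halg.isIntegral
      refine ⟨AlgebraicClosure L, inferInstance, inferInstance, ?_⟩
      have hsep : (minpoly E u).Separable := (minpoly.irreducible hint).separable
      have hdeg : 2 ≤ (minpoly E u).natDegree := by
        have h1 : 0 < (minpoly E u).natDegree := minpoly.natDegree_pos hint
        by_contra hcon
        have h2 : (minpoly E u).natDegree = 1 := by omega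
        have h3 : (minpoly E u).degree = 1 := by
          rw [Polynomial.degree_eq_natDegree (minpoly.ne_zero hint), h2]; rfl
        obtain ⟨a, ha⟩ := minpoly.mem_range_of_degree_eq_one E u h3
        apply hu
        rw [← ha]
        exact a.2
      have hcard : ((minpoly E u).aroots (AlgebraicClosure L)).toFinset.card =
          (minpoly E u).natDegree := by
        classical
        have hsplit : ((minpoly E u).map (algebraMap E (AlgebraicClosure L))).Splits :=
          IsAlgClosed.splits _
        rw [Multiset.toFinset_card_of_nodup]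
        · rw [Polynomial.aroots_def, ← hsplit.natDegree_eq_card_roots,
            Polynomial.natDegree_map]
        · exact Polynomial.nodup_roots hsep.map
      obtain ⟨r, hr, hru⟩ : ∃ r ∈ ((minpoly E u).aroots (AlgebraicClosure L)).toFinset,
          r ≠ algebraMap L (AlgebraicClosure L) u := by
        apply Finset.exists_mem_ne
        rw [hcard]; omega
      rw [Multiset.mem_toFinset] at hr
      let ψ := (algHomAdjoinIntegralEquiv E (K := AlgebraicClosure L) hint).symm ⟨r, hr⟩
      refine ⟨ψ.toRingHom, ?_, ?_⟩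
      · intro a
        exact ψ.commutes a
      · change ψ (AdjoinSimple.gen E u) ≠ _
        rw [algHomAdjoinIntegralEquiv_symm_apply_gen]
        exact hru
    · have htr : Transcendental E u := halg
      have htr1 : Transcendental E (u + 1) := by
        intro h1
        apply halg
        have := h1.sub (isAlgebraic_one (R := E) (A := L))
        simpa using this
      refine ⟨L, inferInstance, inferInstance, ?_⟩
      let ψ : E⟮u⟯ →ₐ[E] L := ((E⟮u + 1⟯).val.comp
        (RatFunc.algEquivOfTranscendental (K := E) (u + 1) htr1).toAlgHom).comp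
        (RatFunc.algEquivOfTranscendental (K := E) u htr).symm.toAlgHom
      refine ⟨ψ.toRingHom, fun a => ψ.commutes a, ?_⟩
      have hψ : ψ (AdjoinSimple.gen E u) = u + 1 := by
        change ((RatFunc.algEquivOfTranscendental (K := E) (u + 1) htr1
          ((RatFunc.algEquivOfTranscendental (K := E) u htr).symm (AdjoinSimple.gen E u)) :
            E⟮u + 1⟯) : L) = u + 1
        rw [RatFunc.algEquivOfTranscendental_symm_gen, RatFunc.algEquivOfTranscendental_X]
      change ψ (AdjoinSimple.gen E u) ≠ _
      rw [hψ]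
      simp
  obtain ⟨Ω₁, _, _, ψ, hψ, hψu⟩ := key
  obtain ⟨Ω, _, i, j, hij⟩ := amalgam (E := (E⟮u⟯ : IntermediateField E L)) (L := L) ψ
  apply hψu
  apply j.injective
  have h1 := h Ω inferInstance i (j.comp (algebraMap L Ω₁)) (by
    intro a ha
    have := hij (algebraMap E E⟮u⟯ ⟨a, ha⟩)
    rw [hψ] at this
    exact this)
  have h2 := hij (AdjoinSimple.gen E u)
  rw [← h2]
  exact h1

end Pool.Agent.Lib.MP_82c165_ag
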