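import Mathlib

/-!
The special homogeneous map `f₁(v) = ((L v)_i ^ d)_i` and the triviality of its stabilizers.
-/

namespace Pool.Agent.Lib.MP_82c165_ag

open Matrix

section

variable (m : ℕ) (κ : Type*)

/-- The matrix `L`. -/
def LM [CommRing κ] : Matrix (Fin (m + 3)) (Fin (m + 3)) κ := fun i j =>
  (if j = i + 1 then 1 else 0) + (if i = Fin.last (m + 2) ∧ j = 1 then 1 else 0)

/-- The inverse of `L`. -/
def LI [CommRing κ] : Matrix (Fin (m + 3)) (Fin (m + 3)) κ := fun i j =>
  (if i = j + 1 then 1 else 0) - (if i = 0 ∧ j = 0 then 1 else 0)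

variable {m κ}

theorem LM_mul_apply [CommRing κ] (H : Matrix (Fin (m + 3)) (Fin (m + 3)) κ)
    (i k : Fin (m + 3)) :
    (LM m κ * H) i k = H (i + 1) k + if i = Fin.last (m + 2) then H 1 k else 0 := by
  rw [Matrix.mul_apply]
  simp only [LM, add_mul, ite_mul, one_mul, zero_mul, Finset.sum_add_distrib,
    Finset.sum_ite_eq', Finset.mem_univ, if_true]
  congr 1
  by_cases hi : i = Fin.last (m + 2)
  · simp [hi]
  · simp [hi]

theorem last_ne_zero' : Fin.last (m + 2) ≠ 0 := by
  intro h
  have := congrArg Fin.val h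
  simp at this

theorem last_ne_one' : Fin.last (m + 2) ≠ 1 := by
  intro h
  have := congrArg Fin.val h
  simp at this

theorem last_add_one' : Fin.last (m + 2) + 1 = 0 := by
  simp

theorem add_one_eq_zero' (i : Fin (m + 3)) : i + 1 = 0 ↔ i = Fin.last (m + 2) := by
  constructor
  · intro h
    rw [← last_add_one' (m := m)] at h
    exact add_right_cancel h
  · rintro rfl; exact last_add_one'

theorem mul_LM_apply [CommRing κ] (B : Matrix (Fin (m + 3)) (Fin (m + 3)) κ)
    (i k : Fin (m + 3)) :
    (B * LM m κ) i (k + 1) = B i k + if k = 0 then B i (Fin.last (m + 2)) else 0 := by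
  rw [Matrix.mul_apply]
  simp only [LM, mul_add, mul_ite, mul_one, mul_zero, Finset.sum_add_distrib, add_left_inj,
    Finset.sum_ite_eq, Finset.mem_univ, if_true]
  by_cases hk : k = 0
  · subst hk
    simp
  · have : ¬ (k + 1 = 1) := by
      intro h
      apply hk
      have h2 : k + 1 = 0 + 1 := by rw [h, zero_add]
      exact add_right_cancel h2
    simp [hk, this]

theorem LM_mul_LI [CommRing κ] : LM m κ * LI m κ = 1 := by
  ext i k
  rw [LM_mul_apply]
  simp only [LI, add_left_inj, Matrix.one_apply]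
  by_cases hi : i = Fin.last (m + 2)
  · subst hi
    rw [last_add_one']
    by_cases hk : k = 0
    · subst hk
      simp
    · have : ¬ ((1 : Fin (m + 3)) = k + 1) := by
        intro h
        apply hk
        have h2 : k + 1 = 0 + 1 := by rw [← h, zero_add]
        exact add_right_cancel h2
      simp [hk, this]
  · have : i + 1 ≠ 0 := fun h => hi ((add_one_eq_zero' i).1 h)
    simp [hi, this]

theorem LI_mul_LM [CommRing κ] : LI m κ * LM m κ = 1 := by
  exact mul_eq_one_comm.1 (LM_mul_LI (m := m) (κ := κ))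

theorem LM_diag [CommRing κ] (i : Fin (m + 3)) : LM m κ i i = 0 := by
  simp only [LM]
  have h1 : ¬ (i = i + 1) := by
    intro h
    have h2 : i + 0 = i + 1 := by rw [add_zero]; exact h
    have := add_left_cancel h2
    exact absurd this (by simp)
  have h2 : ¬ (i = Fin.last (m + 2) ∧ i = 1) := by
    rintro ⟨rfl, h⟩
    exact last_ne_one' h
  simp [h1, h2]

theorem LM_succ [CommRing κ] (i : Fin (m + 3)) : LM m κ i (i + 1) = 1 := by
  simp only [LM]
  have h2 : ¬ (i = Fin.last (m + 2) ∧ i + 1 = 1) := by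
    rintro ⟨rfl, h⟩
    rw [last_add_one'] at h
    exact absurd h (by simp)
  rw [if_pos trivial, if_neg h2, add_zero]

theorem LM_last_one [CommRing κ] : LM m κ (Fin.last (m + 2)) 1 = 1 := by
  simp [LM]

/-- Two nonzero entries are impossible if a `d`-th power of a linear form is a combination
of `d`-th powers. -/
theorem cross_zero [Field κ] [CharZero κ] {e : ℕ} (he : 1 ≤ e) (a b : κ)
    (h : ∀ c : κ, (c * a + b) ^ (e + 1) = c ^ (e + 1) * a ^ (e + 1) + b ^ (e + 1)) :
    a = 0 ∨ b = 0 := by
  open Polynomial in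
  have hpoly : (C a * X + C b) ^ (e + 1) = (C (a ^ (e + 1)) * X ^ (e + 1) + C (b ^ (e + 1)) : κ[X]) := by
    apply Polynomial.funext
    intro c
    simp only [eval_pow, eval_add, eval_mul, eval_C, eval_X]
    rw [mul_comm a c, h c]; ring
  have hder := congrArg (fun p => Polynomial.eval 0 (Polynomial.derivative p)) hpoly
  simp only [Polynomial.derivative_pow, Polynomial.derivative_add, Polynomial.derivative_mul,
    Polynomial.derivative_C, Polynomial.derivative_X, Polynomial.eval_mul, Polynomial.eval_add,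
    Polynomial.eval_pow, Polynomial.eval_C, Polynomial.eval_X,
    mul_zero, zero_mul, zero_add, mul_one, add_zero, add_tsub_cancel_right] at hder
  rw [zero_pow (by omega)] at hder
  simp only [mul_zero] at hder
  rcases mul_eq_zero.1 hder with h1 | h1
  · rcases mul_eq_zero.1 h1 with h2 | h2
    · exfalso
      have : ((e + 1 : ℕ) : κ) ≠ 0 := Nat.cast_ne_zero.mpr (by omega)
      exact this h2
    · right
      exact pow_eq_zero_iff (by omega) |>.1 h2
  · left; exact h1

/-- The map `f₁` on vectors. -/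
def F1 [CommRing κ] (d : ℕ) (v : Fin (m + 3) → κ) : Fin (m + 3) → κ :=
  fun i => (LM m κ *ᵥ v) i ^ d

theorem F1_LI [CommRing κ] (d : ℕ) (u : Fin (m + 3) → κ) :
    F1 d (LI m κ *ᵥ u) = fun i => u i ^ d := by
  funext i
  simp only [F1, Matrix.mulVec_mulVec, LM_mul_LI, Matrix.one_mulVec]

/-- Linear symmetries of `f₁` are scalars. -/
theorem symmetry_scalar [Field κ] [CharZero κ] {e : ℕ} (he : 1 ≤ e)
    (H : Matrix (Fin (m + 3)) (Fin (m + 3)) κ) (hH : IsUnit H)
    (hcomm : ∀ v : Fin (m + 3) → κ, H *ᵥ (F1 (e + 1) v) = F1 (e + 1) (H *ᵥ v)) :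
    ∃ β : κ, β ^ e = 1 ∧ H = β • (1 : Matrix (Fin (m + 3)) (Fin (m + 3)) κ) := by
  classical
  set B := LM m κ * H * LI m κ with hB
  have hBL : B * LM m κ = LM m κ * H := by
    rw [hB, Matrix.mul_assoc, LI_mul_LM, Matrix.mul_one]
  -- basic identity in the coordinates `u = L v`
  have hid : ∀ (u : Fin (m + 3) → κ) (i : Fin (m + 3)),
      ∑ j, H i j * u j ^ (e + 1) = (∑ j, B i j * u j) ^ (e + 1) := by
    intro u i
    have h1 := congrFun (hcomm (LI m κ *ᵥ u)) i
    rw [F1_LI] at h1
    simp only [F1, Matrix.mulVec_mulVec] at h1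
    rw [← Matrix.mul_assoc, ← hB] at h1
    simpa [Matrix.mulVec, dotProduct] using h1
  have hpow : ∀ i j, H i j = B i j ^ (e + 1) := by
    intro i j
    have := hid (Pi.single j 1) i
    rw [Finset.sum_eq_single j, Finset.sum_eq_single j] at this
    · simpa using this
    · intro k _ hk; simp [Pi.single_eq_of_ne hk]
    · simp
    · intro k _ hk; simp [Pi.single_eq_of_ne hk]
    · simp
  have hcross : ∀ i j k, j ≠ k → B i j = 0 ∨ B i k = 0 := by
    intro i j k hjk
    apply cross_zero he
    intro c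
    have := hid (Pi.single j c + Pi.single k 1) i
    have h1 : ∑ l, H i l * (Pi.single j c + Pi.single k 1 : Fin (m + 3) → κ) l ^ (e + 1) =
        H i j * c ^ (e + 1) + H i k := by
      rw [← Finset.add_sum_erase _ _ (Finset.mem_univ j), ← Finset.add_sum_erase _ _
        (Finset.mem_erase.2 ⟨hjk.symm, Finset.mem_univ k⟩)]
      rw [Finset.sum_eq_zero]
      · simp [Pi.single_eq_of_ne hjk, Pi.single_eq_of_ne hjk.symm]
      · intro l hl
        have hlk : l ≠ k := (Finset.mem_erase.1 hl).1
        have hlj : l ≠ j := (Finset.mem_erase.1 (Finset.mem_erase.1 hl).2).1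
        simp [Pi.single_eq_of_ne hlk, Pi.single_eq_of_ne hlj]
    have h2 : ∑ l, B i l * (Pi.single j c + Pi.single k 1 : Fin (m + 3) → κ) l =
        B i j * c + B i k := by
      rw [← Finset.add_sum_erase _ _ (Finset.mem_univ j), ← Finset.add_sum_erase _ _
        (Finset.mem_erase.2 ⟨hjk.symm, Finset.mem_univ k⟩)]
      rw [Finset.sum_eq_zero]
      · simp [Pi.single_eq_of_ne hjk, Pi.single_eq_of_ne hjk.symm]
      · intro l hl
        have hlk : l ≠ k := (Finset.mem_erase.1 hl).1
        have hlj : l ≠ j := (Finset.mem_erase.1 (Finset.mem_erase.1 hl).2).1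
        simp [Pi.single_eq_of_ne hlk, Pi.single_eq_of_ne hlj]
    rw [h1, h2, hpow, hpow] at this
    rw [mul_comm c, ← this]
    ring
  -- the fundamental relation
  have hrel : ∀ i k, B i k + (if k = 0 then B i (Fin.last (m + 2)) else 0) =
      B (i + 1) (k + 1) ^ (e + 1) + if i = Fin.last (m + 2) then B 1 (k + 1) ^ (e + 1) else 0 := by
    intro i k
    have h1 := congrFun (congrFun hBL i) (k + 1)
    rw [mul_LM_apply, LM_mul_apply, hpow, hpow] at h1
    exact h1
  have he1 : e + 1 ≠ 0 := by omega
  -- non last rows have zero last entry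
  have hlast : ∀ i, i ≠ Fin.last (m + 2) → B i (Fin.last (m + 2)) = 0 := by
    intro i hi
    by_contra hne
    have h0 : B i 0 = 0 := by
      rcases hcross i 0 (Fin.last (m + 2)) last_ne_zero'.symm with h | h
      · exact h
      · exact absurd h hne
    have h1 := hrel i 0
    rw [if_pos rfl, if_neg hi, h0, zero_add, zero_add, add_zero] at h1
    have h2 := hrel i (Fin.last (m + 2))
    rw [if_neg last_ne_zero', if_neg hi, add_zero, add_zero, last_add_one'] at h2
    rcases hcross (i + 1) 0 1 (by simp) with h | h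
    · rw [h, zero_pow he1] at h2; exact hne h2
    · rw [h, zero_pow he1] at h1; exact hne h1
  -- last column of `B` is nonzero
  have hll : B (Fin.last (m + 2)) (Fin.last (m + 2)) ≠ 0 := by
    intro h0
    have hcol : ∀ i, H i (Fin.last (m + 2)) = 0 := by
      intro i
      rw [hpow]
      by_cases hi : i = Fin.last (m + 2)
      · rw [hi, h0, zero_pow he1]
      · rw [hlast i hi, zero_pow he1]
    have hdet : H.det = 0 := Matrix.det_eq_zero_of_column_eq_zero _ hcol
    rw [Matrix.isUnit_iff_isUnit_det, hdet] at hH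
    exact not_isUnit_zero hH
  have hlrow : ∀ j, j ≠ Fin.last (m + 2) → B (Fin.last (m + 2)) j = 0 := by
    intro j hj
    rcases hcross (Fin.last (m + 2)) j _ hj with h | h
    · exact h
    · exact absurd h hll
  have h10 : B 1 0 = 0 := by
    have h2 := hrel 0 (Fin.last (m + 2))
    rw [if_neg last_ne_zero', if_neg last_ne_zero'.symm, add_zero, add_zero, last_add_one',
      zero_add, hlast 0 last_ne_zero'.symm] at h2
    exact (pow_eq_zero_iff he1).1 h2.symm
  have hβ0 : B (Fin.last (m + 2)) (Fin.last (m + 2)) = B 0 0 ^ (e + 1) := by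
    have h2 := hrel (Fin.last (m + 2)) (Fin.last (m + 2))
    rw [if_neg last_ne_zero', if_pos rfl, add_zero, last_add_one', h10, zero_pow he1,
      add_zero] at h2
    exact h2
  have h00 : B 0 0 ≠ 0 := by
    intro h
    rw [h, zero_pow he1] at hβ0
    exact hll hβ0
  have h01 : B 0 1 = 0 := by
    rcases hcross 0 0 1 (by simp) with h | h
    · exact absurd h h00
    · exact h
  have hβ1 : B (Fin.last (m + 2)) (Fin.last (m + 2)) = B 1 1 ^ (e + 1) := by
    have h2 := hrel (Fin.last (m + 2)) 0
    rw [if_pos rfl, if_pos rfl, last_add_one', hlrow 0 last_ne_zero'.symm, zero_add, zero_add,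
      h01, zero_pow he1, zero_add] at h2
    exact h2
  have hβ2 : B 0 0 = B 1 1 ^ (e + 1) := by
    have h2 := hrel 0 0
    rw [if_pos rfl, if_neg last_ne_zero'.symm, zero_add, add_zero,
      hlast 0 last_ne_zero'.symm, add_zero] at h2
    exact h2
  set β := B 0 0 with hβdef
  have hβeq : B (Fin.last (m + 2)) (Fin.last (m + 2)) = β := by rw [hβ1, ← hβ2]
  have hβd : β ^ (e + 1) = β := by rw [← hβ0, hβeq]
  -- all diagonal entries equal β
  have hdiag : ∀ i, B i i = β := by
    intro i
    induction i using Fin.reverseInduction with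
    | last => exact hβeq
    | cast j ih =>
      have hj : j.castSucc ≠ Fin.last (m + 2) := (Fin.castSucc_lt_last j).ne
      have h2 := hrel j.castSucc j.castSucc
      rw [if_neg hj, add_zero, Fin.coeSucc_eq_succ, ih, hβd] at h2
      by_cases hj0 : j.castSucc = 0
      · rw [if_pos hj0, hlast _ hj, add_zero] at h2
        exact h2
      · rw [if_neg hj0, add_zero] at h2
        exact h2
  have hoff : ∀ i j, i ≠ j → B i j = 0 := by
    intro i j hij
    rcases hcross i j i hij.symm with h | h
    · exact h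
    · rw [hdiag] at h; exact absurd h h00
  refine ⟨β, ?_, ?_⟩
  · have : β ^ e * β = 1 * β := by rw [← pow_succ, hβd, one_mul]
    exact mul_right_cancel₀ h00 this
  · ext i j
    rw [hpow, Matrix.smul_apply, Matrix.one_apply]
    by_cases hij : i = j
    · subst hij
      rw [hdiag, hβd]; simp
    · rw [hoff i j hij, zero_pow he1, if_neg hij]; simp

/-- Infinitesimal linear symmetries of `f₁` vanish. -/
theorem infinitesimal_zero [Field κ] [CharZero κ] {e : ℕ} (he : 1 ≤ e)
    (N : Matrix (Fin (m + 3)) (Fin (m + 3)) κ)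
    (hcomm : ∀ (v : Fin (m + 3) → κ) (i : Fin (m + 3)), (N *ᵥ (F1 (e + 1) v)) i =
      ((e + 1 : ℕ) : κ) * (LM m κ *ᵥ v) i ^ e * (LM m κ *ᵥ (N *ᵥ v)) i) :
    N = 0 := by
  classical
  set C := LM m κ * N * LI m κ with hC
  have hCL : C * LM m κ = LM m κ * N := by
    rw [hC, Matrix.mul_assoc, LI_mul_LM, Matrix.mul_one]
  have hid : ∀ (u : Fin (m + 3) → κ) (i : Fin (m + 3)),
      ∑ j, N i j * u j ^ (e + 1) = ((e + 1 : ℕ) : κ) * u i ^ e * ∑ j, C i j * u j := by
    intro u i
    have h1 := hcomm (LI m κ *ᵥ u) i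
    rw [F1_LI] at h1
    simp only [Matrix.mulVec_mulVec] at h1
    rw [← Matrix.mul_assoc, ← hC, LM_mul_LI, Matrix.one_mulVec] at h1
    simpa [Matrix.mulVec, dotProduct] using h1
  have he0 : e ≠ 0 := by omega
  have hd0 : ((e + 1 : ℕ) : κ) ≠ 0 := Nat.cast_ne_zero.mpr (by omega)
  have hoff : ∀ i j, i ≠ j → N i j = 0 := by
    intro i j hij
    have := hid (Pi.single j 1) i
    rw [Finset.sum_eq_single j, Pi.single_eq_of_ne hij, zero_pow he0] at this
    · simpa using this
    · intro k _ hk; simp [Pi.single_eq_of_ne hk]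
    · simp
  have hdiag : ∀ i, N i i = ((e + 1 : ℕ) : κ) * C i i := by
    intro i
    have := hid (Pi.single i 1) i
    rw [Finset.sum_eq_single i, Finset.sum_eq_single i] at this
    · simpa using this
    · intro k _ hk; simp [Pi.single_eq_of_ne hk]
    · simp
    · intro k _ hk; simp [Pi.single_eq_of_ne hk]
    · simp
  have hCoff : ∀ i j, i ≠ j → C i j = 0 := by
    intro i j hij
    have := hid (Pi.single i 1 + Pi.single j 1) i
    have h1 : ∑ l, N i l * (Pi.single i 1 + Pi.single j 1 : Fin (m + 3) → κ) l ^ (e + 1) =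
        N i i + N i j := by
      rw [← Finset.add_sum_erase _ _ (Finset.mem_univ i), ← Finset.add_sum_erase _ _
        (Finset.mem_erase.2 ⟨hij.symm, Finset.mem_univ j⟩)]
      rw [Finset.sum_eq_zero]
      · simp [Pi.single_eq_of_ne hij, Pi.single_eq_of_ne hij.symm]
      · intro l hl
        have hlk : l ≠ j := (Finset.mem_erase.1 hl).1
        have hlj : l ≠ i := (Finset.mem_erase.1 (Finset.mem_erase.1 hl).2).1
        simp [Pi.single_eq_of_ne hlk, Pi.single_eq_of_ne hlj]
    have h2 : ∑ l, C i l * (Pi.single i 1 + Pi.single j 1 : Fin (m + 3) → κ) l =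
        C i i + C i j := by
      rw [← Finset.add_sum_erase _ _ (Finset.mem_univ i), ← Finset.add_sum_erase _ _
        (Finset.mem_erase.2 ⟨hij.symm, Finset.mem_univ j⟩)]
      rw [Finset.sum_eq_zero]
      · simp [Pi.single_eq_of_ne hij, Pi.single_eq_of_ne hij.symm]
      · intro l hl
        have hlk : l ≠ j := (Finset.mem_erase.1 hl).1
        have hlj : l ≠ i := (Finset.mem_erase.1 (Finset.mem_erase.1 hl).2).1
        simp [Pi.single_eq_of_ne hlk, Pi.single_eq_of_ne hlj]
    rw [h1, h2, hoff i j hij, hdiag i] at this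
    simp only [Pi.add_apply, Pi.single_eq_same, Pi.single_eq_of_ne hij, add_zero, one_pow,
      mul_one] at this
    have h3 : ((e + 1 : ℕ) : κ) * C i j = 0 := by linear_combination -this
    rcases mul_eq_zero.1 h3 with h | h
    · exact absurd h hd0
    · exact h
  -- edge relations
  have hedge : ∀ i k, LM m κ i k = 1 → N k k = C i i := by
    intro i k hik
    have h1 := congrFun (congrFun hCL i) k
    rw [Matrix.mul_apply, Matrix.mul_apply, Finset.sum_eq_single i, Finset.sum_eq_single k] at h1
    · rw [hik] at h1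
      simpa using h1.symm
    · intro j _ hj; rw [hoff j k hj, mul_zero]
    · simp
    · intro j _ hj; rw [hCoff i j hj.symm, zero_mul]
    · simp
  have hstep : ∀ i, N i i = ((e + 1 : ℕ) : κ) * N (i + 1) (i + 1) := by
    intro i
    rw [hedge i (i + 1) (LM_succ i), ← hdiag]
  have h1 : N (Fin.last (m + 2)) (Fin.last (m + 2)) = ((e + 1 : ℕ) : κ) * N 0 0 := by
    have := hstep (Fin.last (m + 2))
    rwa [last_add_one'] at this
  have h2 : N (Fin.last (m + 2)) (Fin.last (m + 2)) = ((e + 1 : ℕ) : κ) * N 1 1 := by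
    rw [hedge _ 1 LM_last_one, ← hdiag]
  have h3 : N 0 0 = ((e + 1 : ℕ) : κ) * N 1 1 := by
    have := hstep 0
    rwa [zero_add] at this
  have h4 : N 0 0 = N (Fin.last (m + 2)) (Fin.last (m + 2)) := by rw [h3, h2]
  have h5 : N 0 0 = 0 := by
    have h6 : (e : κ) * N 0 0 = 0 := by
      have : N 0 0 = ((e + 1 : ℕ) : κ) * N 0 0 := by rw [← h1, ← h4]
      push_cast at this
      linear_combination -this
    rcases mul_eq_zero.1 h6 with h | h
    · exact absurd (Nat.cast_eq_zero.1 h) he0
    · exact h
  have hall : ∀ i, N i i = 0 := by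
    intro i
    induction i using Fin.reverseInduction with
    | last => rw [← h4]; exact h5
    | cast j ih => rw [hstep, Fin.coeSucc_eq_succ, ih, mul_zero]
  ext i j
  by_cases hij : i = j
  · subst hij; exact hall i
  · exact hoff i j hij

end

end Pool.Agent.Lib.MP_82c165_ag
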