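import Mathlib
import Pool.Agent.Lib.MP_82c165_ag.Special

/-!
Generic rigidity: a family of homogeneous maps specialising to `f₁` has generically only scalar
linear symmetries.
-/

namespace Pool.Agent.Lib.MP_82c165_ag

open Matrix

section

variable {m : ℕ}

/-- The polynomial form of `f₁`. -/
noncomputable def f1P (m : ℕ) (R : Type*) [CommRing R] (d : ℕ) (i : Fin (m + 3)) :
    MvPolynomial (Fin (m + 3)) R :=
  (∑ j, MvPolynomial.C (LM m R i j) * MvPolynomial.X j) ^ d

theorem map_LM {R S : Type*} [CommRing R] [CommRing S] (φ : R →+* S) (i j : Fin (m + 3)) :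
    φ (LM m R i j) = LM m S i j := by
  simp only [LM, map_add]
  congr 1 <;> split_ifs <;> simp

theorem map_f1P {R S : Type*} [CommRing R] [CommRing S] (φ : R →+* S) (d : ℕ)
    (i : Fin (m + 3)) : MvPolynomial.map φ (f1P m R d i) = f1P m S d i := by
  simp only [f1P, map_pow, map_sum, map_mul, MvPolynomial.map_X, map_LM]

theorem eval_f1P {R : Type*} [CommRing R] (d : ℕ) (i : Fin (m + 3)) (v : Fin (m + 3) → R) :
    MvPolynomial.eval v (f1P m R d i) = F1 d v i := by
  simp only [f1P, map_pow, map_sum, map_mul, MvPolynomial.eval_C, MvPolynomial.eval_X, F1,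
    Matrix.mulVec, dotProduct]

theorem F1_eq_zero {κ : Type*} [Field κ] {d : ℕ} (v : Fin (m + 3) → κ)
    (h : ∀ i, F1 d v i = 0) : v = 0 ∨ d = 0 := by
  by_cases hd : d = 0
  · right; exact hd
  left
  have h1 : LM m κ *ᵥ v = 0 := by
    funext i
    exact (pow_eq_zero_iff hd).1 (h i)
  have h2 : LI m κ *ᵥ (LM m κ *ᵥ v) = v := by
    rw [Matrix.mulVec_mulVec, LI_mul_LM, Matrix.one_mulVec]
  rw [← h2, h1, Matrix.mulVec_zero]

end

section

variable {m : ℕ} {R Ω : Type*} [CommRing R] [Field Ω]

/-- Evaluation of a tuple of polynomials over `R` at a vector of a field `Ω` over `R`. -/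
noncomputable def ev2 (φ : R →+* Ω) (F : Fin (m + 3) → MvPolynomial (Fin (m + 3)) R)
    (v : Fin (m + 3) → Ω) : Fin (m + 3) → Ω := fun i => MvPolynomial.eval₂ φ v (F i)

theorem ev2_smul (φ : R →+* Ω) (F : Fin (m + 3) → MvPolynomial (Fin (m + 3)) R) {d : ℕ}
    (hF : ∀ i, (F i).IsHomogeneous d) (c : Ω) (v : Fin (m + 3) → Ω) :
    ev2 φ F (c • v) = c ^ d • ev2 φ F v := by
  funext i
  simp only [ev2, Pi.smul_apply, smul_eq_mul]
  rw [MvPolynomial.eval₂_eq', MvPolynomial.eval₂_eq', Finset.mul_sum]
  refine Finset.sum_congr rfl fun a ha => ?_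
  have hdeg : ∑ j, a j = d := by
    have := hF i (MvPolynomial.mem_support_iff.1 ha)
    rw [← this, Finsupp.weight_apply, Finsupp.sum_fintype]
    · simp
    · simp
  simp only [Pi.smul_apply, smul_eq_mul, mul_pow, Finset.prod_mul_distrib]
  rw [Finset.prod_pow_eq_pow_sum, hdeg]
  ring

end

section main

open IsLocalRing

variable {m : ℕ} {R Ω : Type*} [CommRing R] [Field Ω]

theorem ev2_coe (V : ValuationSubring Ω) (ψ : R →+* V)
    (F : Fin (m + 3) → MvPolynomial (Fin (m + 3)) R) (v : Fin (m + 3) → V) :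
    ev2 (V.subtype.comp ψ) F (fun i => (v i : Ω)) =
      fun i => ((MvPolynomial.eval₂ ψ v (F i) : V) : Ω) := by
  funext i
  have := MvPolynomial.eval₂_comp_left V.subtype ψ v (F i)
  simp only [ev2]
  exact this.symm

theorem res_ev (V : ValuationSubring Ω) (ψ : R →+* V) {d : ℕ}
    (F : Fin (m + 3) → MvPolynomial (Fin (m + 3)) R)
    (hres : ∀ i, MvPolynomial.map ((residue V).comp ψ) (F i) = f1P m (ResidueField V) d i)
    (v : Fin (m + 3) → V) (i : Fin (m + 3)) :
    residue V (MvPolynomial.eval₂ ψ v (F i)) = F1 d (fun j => residue V (v j)) i := by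
  rw [MvPolynomial.eval₂_comp_left, ← eval_f1P, ← hres, MvPolynomial.eval_map]
  rfl

theorem entries_mem (V : ValuationSubring Ω) (ψ : R →+* V) {e : ℕ} (he : 1 ≤ e)
    (F : Fin (m + 3) → MvPolynomial (Fin (m + 3)) R)
    (hF : ∀ i, (F i).IsHomogeneous (e + 1))
    (hres : ∀ i, MvPolynomial.map ((residue V).comp ψ) (F i) =
      f1P m (ResidueField V) (e + 1) i)
    (H : Matrix (Fin (m + 3)) (Fin (m + 3)) Ω)
    (hcomm : ∀ v, H *ᵥ ev2 (V.subtype.comp ψ) F v = ev2 (V.subtype.comp ψ) F (H *ᵥ v)) :
    ∀ i j, H i j ∈ V := by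
  classical
  obtain ⟨p, hp⟩ : ∃ p : Fin (m + 3) × Fin (m + 3),
      ∀ q : Fin (m + 3) × Fin (m + 3), V.valuation (H q.1 q.2) ≤ V.valuation (H p.1 p.2) :=
    Finite.exists_max (fun q : Fin (m + 3) × Fin (m + 3) => V.valuation (H q.1 q.2))
  set c := H p.1 p.2 with hc
  by_cases hc0 : c = 0
  · intro i j
    have h1 := hp (i, j)
    rw [hc0, map_zero] at h1
    have h2 : H i j = 0 := by
      have := le_antisymm h1 zero_le
      exact (map_eq_zero _).1 this
    rw [h2]; exact V.zero_mem
  have hwc : V.valuation c ≠ 0 := (map_ne_zero _).2 hc0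
  have hwcpos : 0 < V.valuation c := zero_lt_iff.2 hwc
  -- normalised column
  have hmem : ∀ i, H i p.2 / c ∈ V := by
    intro i
    rw [← V.valuation_le_one_iff, map_div₀]
    exact div_le_one_of_le₀ (hp (i, p.2)) zero_le
  let v' : Fin (m + 3) → V := fun i => ⟨H i p.2 / c, hmem i⟩
  have hv'1 : v' p.1 = 1 := by
    apply Subtype.ext
    change H p.1 p.2 / c = 1
    rw [← hc, div_self hc0]
  have hcol : H *ᵥ (Pi.single p.2 1) = c • (fun i => (v' i : Ω)) := by
    funext i
    rw [Matrix.mulVec_single_one]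
    simp only [Matrix.col_apply, Pi.smul_apply, smul_eq_mul]
    change H i p.2 = c * (H i p.2 / c)
    rw [mul_div_cancel₀ _ hc0]
  -- a coordinate where `F v'` is a unit
  obtain ⟨i₁, hi₁⟩ : ∃ i, V.valuation ((MvPolynomial.eval₂ ψ v' (F i) : V) : Ω) = 1 := by
    by_contra hcon
    push Not at hcon
    have hz : ∀ i, F1 (e + 1) (fun j => residue V (v' j)) i = 0 := by
      intro i
      rw [← res_ev V ψ F hres]
      by_contra hne
      have := (residue_ne_zero_iff_isUnit _).1 hne
      rw [V.valuation_eq_one_iff] at this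
      exact hcon i this
    rcases F1_eq_zero _ hz with h | h
    · have h1 := congrFun h p.1
      simp only [hv'1, map_one, Pi.zero_apply] at h1
      exact one_ne_zero h1
    · omega
  have h1 := congrFun (hcomm (Pi.single p.2 1)) i₁
  rw [hcol, ev2_smul _ _ hF, ev2_coe] at h1
  simp only [Pi.smul_apply, smul_eq_mul] at h1
  -- the left-hand side has valuation at most that of `c`
  have hsingle : (Pi.single p.2 1 : Fin (m + 3) → Ω) =
      fun i => (((Pi.single p.2 1 : Fin (m + 3) → V) i : V) : Ω) := by
    funext i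
    by_cases hi : i = p.2
    · subst hi; simp
    · simp [Pi.single_eq_of_ne hi]
  have hle : V.valuation ((H *ᵥ ev2 (V.subtype.comp ψ) F (Pi.single p.2 1)) i₁) ≤
      V.valuation c := by
    rw [hsingle, ev2_coe, Matrix.mulVec, dotProduct]
    refine Valuation.map_sum_le _ fun j _ => ?_
    rw [map_mul]
    calc _ ≤ V.valuation c * 1 := by
          gcongr
          · exact hp (i₁, j)
          · exact V.valuation_le_one _
      _ = _ := mul_one _
  rw [h1, map_mul, map_pow, hi₁, mul_one] at hle
  -- hence `c` has valuation at most one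
  have hcle : V.valuation c ≤ 1 := by
    by_contra hgt
    push Not at hgt
    have : V.valuation c ^ 1 < V.valuation c ^ (e + 1) := by
      exact pow_lt_pow_right₀ hgt (by omega)
    rw [pow_one] at this
    exact absurd hle (not_le.2 this)
  intro i j
  rw [← V.valuation_le_one_iff]
  exact (hp (i, j)).trans hcle

theorem lin_poly {S : Type*} [CommRing S] {n : ℕ} (a b c : Fin n → S) :
    ∑ j, Polynomial.C (a j) * (Polynomial.C (b j) + Polynomial.X * Polynomial.C (c j)) =
      Polynomial.C (∑ j, a j * b j) + Polynomial.X * Polynomial.C (∑ j, a j * c j) := by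
  rw [map_sum, map_sum, Finset.mul_sum, ← Finset.sum_add_distrib]
  refine Finset.sum_congr rfl fun j _ => ?_
  rw [map_mul, map_mul]
  ring

/-- If `H` reduces to the identity modulo the maximal ideal and commutes with `F`, then `H = 1`. -/
theorem eq_one_of_residue (V : ValuationSubring Ω) [CharZero (ResidueField V)]
    (ψ : R →+* V) {e : ℕ} (he : 1 ≤ e)
    (F : Fin (m + 3) → MvPolynomial (Fin (m + 3)) R)
    (hres : ∀ i, MvPolynomial.map ((residue V).comp ψ) (F i) =
      f1P m (ResidueField V) (e + 1) i)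
    (H : Matrix (Fin (m + 3)) (Fin (m + 3)) Ω)
    (hcomm : ∀ v, H *ᵥ ev2 (V.subtype.comp ψ) F v = ev2 (V.subtype.comp ψ) F (H *ᵥ v))
    (hH : ∀ i j, V.valuation ((H - 1) i j) < 1) : H = 1 := by
  classical
  obtain ⟨p, hp⟩ : ∃ p : Fin (m + 3) × Fin (m + 3),
      ∀ q : Fin (m + 3) × Fin (m + 3),
        V.valuation ((H - 1) q.1 q.2) ≤ V.valuation ((H - 1) p.1 p.2) :=
    Finite.exists_max (fun q : Fin (m + 3) × Fin (m + 3) => V.valuation ((H - 1) q.1 q.2))
  set c := (H - 1) p.1 p.2 with hc
  by_cases hc0 : c = 0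
  · have h3 : H - 1 = 0 := by
      ext i j
      have h1 := hp (i, j)
      rw [hc0, map_zero] at h1
      have := le_antisymm h1 zero_le
      exact (map_eq_zero _).1 this
    exact sub_eq_zero.1 h3
  exfalso
  have hwc : V.valuation c ≠ 0 := (map_ne_zero _).2 hc0
  have hwcpos : 0 < V.valuation c := zero_lt_iff.2 hwc
  have hwc1 : V.valuation c < 1 := hH p.1 p.2
  have hcV : c ∈ V := (V.valuation_le_one_iff c).1 hwc1.le
  let cV : V := ⟨c, hcV⟩
  have hcres : residue V cV = 0 := by
    rw [residue_eq_zero_iff, V.valuation_lt_one_iff]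
    exact hwc1
  have hmem : ∀ i j, (H - 1) i j / c ∈ V := by
    intro i j
    rw [← V.valuation_le_one_iff, map_div₀]
    exact div_le_one_of_le₀ (hp (i, j)) zero_le
  let N : Matrix (Fin (m + 3)) (Fin (m + 3)) V := fun i j => ⟨(H - 1) i j / c, hmem i j⟩
  have hN1 : N p.1 p.2 = 1 := by
    apply Subtype.ext
    change (H - 1) p.1 p.2 / c = 1
    rw [← hc, div_self hc0]
  have hHN : ∀ (v : Fin (m + 3) → V) (i : Fin (m + 3)),
      (H *ᵥ (fun j => (v j : Ω))) i = ((v i + cV * (N *ᵥ v) i : V) : Ω) := by
    intro v i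
    have h1 : H = 1 + (H - 1) := by abel
    have h2 : (H *ᵥ (fun j => (v j : Ω))) i = (v i : Ω) + ((H - 1) *ᵥ (fun j => (v j : Ω))) i := by
      conv_lhs => rw [h1, Matrix.add_mulVec, Matrix.one_mulVec]
      rfl
    rw [h2]
    push_cast
    congr 1
    simp only [Matrix.mulVec, dotProduct]
    push_cast
    rw [Finset.mul_sum]
    refine Finset.sum_congr rfl fun j _ => ?_
    change _ = c * ((H - 1) i j / c * (v j : Ω))
    rw [← mul_assoc, mul_div_cancel₀ _ hc0]
  set Nb : Matrix (Fin (m + 3)) (Fin (m + 3)) (ResidueField V) := fun i j => residue V (N i j)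
    with hNb
  have hNb0 : Nb = 0 := by
    apply infinitesimal_zero he
    intro vb i
    -- lift the vector
    have hsurj : Function.Surjective (residue V) := residue_surjective
    choose v hv using fun j => hsurj (vb j)
    have hvb : vb = fun j => residue V (v j) := by funext j; exact (hv j).symm
    -- one variable polynomial
    let u : Fin (m + 3) → V := N *ᵥ v
    let G : Polynomial V := MvPolynomial.eval₂ (Polynomial.C.comp ψ)
      (fun j => Polynomial.C (v j) + Polynomial.X * Polynomial.C (u j)) (F i)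
    have hG : ∀ t : V, Polynomial.eval t G =
        MvPolynomial.eval₂ ψ (fun j => v j + t * u j) (F i) := by
      intro t
      have h1 := MvPolynomial.eval₂_comp_left (Polynomial.evalRingHom t) (Polynomial.C.comp ψ)
        (fun j => Polynomial.C (v j) + Polynomial.X * Polynomial.C (u j)) (F i)
      have h2 : (Polynomial.evalRingHom t).comp (Polynomial.C.comp ψ) = ψ := by
        ext r; simp
      have h3 : (⇑(Polynomial.evalRingHom t) ∘
          fun j => Polynomial.C (v j) + Polynomial.X * Polynomial.C (u j)) =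
          fun j => v j + t * u j := by
        funext j
        simp only [Function.comp_apply, Polynomial.coe_evalRingHom, Polynomial.eval_add,
          Polynomial.eval_C, Polynomial.eval_mul, Polynomial.eval_X]
      rw [h2, h3] at h1
      exact h1
    -- commutation at `v`
    have hcv := congrFun (hcomm (fun j => (v j : Ω))) i
    rw [ev2_coe, hHN] at hcv
    have hHv : (H *ᵥ fun j => (v j : Ω)) = fun j => ((v j + cV * u j : V) : Ω) := by
      funext j; exact hHN v j
    rw [hHv, ev2_coe] at hcv
    have hcv' : MvPolynomial.eval₂ ψ v (F i) +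
        cV * (N *ᵥ fun j => MvPolynomial.eval₂ ψ v (F j)) i =
        MvPolynomial.eval₂ ψ (fun j => v j + cV * u j) (F i) := Subtype.ext hcv
    obtain ⟨⟨q, hq⟩⟩ : Nonempty {q : V // Polynomial.eval (0 + cV) G =
        Polynomial.eval 0 G + Polynomial.eval 0 (Polynomial.derivative G) * cV + q * cV ^ 2} :=
      ⟨Polynomial.binomExpansion G 0 cV⟩
    rw [zero_add, hG, hG, ← hcv'] at hq
    have h0 : (fun j => v j + (0 : V) * u j) = v := by funext j; simp
    rw [h0] at hq
    have hcV0 : cV ≠ 0 := fun h => hc0 (congrArg Subtype.val h)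
    have hdiv : (N *ᵥ fun j => MvPolynomial.eval₂ ψ v (F j)) i =
        Polynomial.eval 0 (Polynomial.derivative G) + q * cV := by
      apply mul_left_cancel₀ hcV0
      linear_combination hq
    have hr := congrArg (residue V) hdiv
    rw [map_add, map_mul, hcres, mul_zero, add_zero] at hr
    -- the left-hand side
    have hleft : residue V ((N *ᵥ fun j => MvPolynomial.eval₂ ψ v (F j)) i) =
        (Nb *ᵥ F1 (e + 1) vb) i := by
      simp only [Matrix.mulVec, dotProduct, map_sum, map_mul, hNb]
      refine Finset.sum_congr rfl fun j _ => ?_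
      rw [res_ev V ψ F hres, hvb]
    -- the right-hand side
    have hright : residue V (Polynomial.eval 0 (Polynomial.derivative G)) =
        ((e + 1 : ℕ) : ResidueField V) * (LM m _ *ᵥ vb) i ^ e *
          (LM m _ *ᵥ (Nb *ᵥ vb)) i := by
      have h1 : residue V (Polynomial.eval 0 (Polynomial.derivative G)) =
          Polynomial.eval 0 (Polynomial.derivative (G.map (residue V))) := by
        rw [Polynomial.derivative_map, ← map_zero (residue V), Polynomial.eval_map,
          Polynomial.eval₂_at_apply]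
      have h2 : G.map (residue V) = (Polynomial.C ((LM m _ *ᵥ vb) i) +
          Polynomial.X * Polynomial.C ((LM m _ *ᵥ (Nb *ᵥ vb)) i)) ^ (e + 1) := by
        have h3 := MvPolynomial.eval₂_comp_left (Polynomial.mapRingHom (residue V))
          (Polynomial.C.comp ψ)
          (fun j => Polynomial.C (v j) + Polynomial.X * Polynomial.C (u j)) (F i)
        have h4 : (Polynomial.mapRingHom (residue V)).comp (Polynomial.C.comp ψ) =
            Polynomial.C.comp ((residue V).comp ψ) := by
          ext r; simp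
        rw [h4] at h3
        have h5 := MvPolynomial.eval₂_map ((residue V).comp ψ)
          (⇑(Polynomial.mapRingHom (residue V)) ∘
          fun j => Polynomial.C (v j) + Polynomial.X * Polynomial.C (u j))
          (Polynomial.C : ResidueField V →+* _) (F i)
        rw [← h5, hres] at h3
        change G.map (residue V) = _ at h3
        rw [h3]
        simp only [f1P, MvPolynomial.eval₂_pow, MvPolynomial.eval₂_sum, MvPolynomial.eval₂_mul,
          MvPolynomial.eval₂_C, MvPolynomial.eval₂_X]
        congr 1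
        have hu : ∀ j, residue V (u j) = (Nb *ᵥ vb) j := by
          intro j
          simp only [u, Matrix.mulVec, dotProduct, map_sum, map_mul, hNb, hvb]
        simp only [Function.comp_apply, Polynomial.coe_mapRingHom, Polynomial.map_add,
          Polynomial.map_mul, Polynomial.map_C, Polynomial.map_X, hu, hv]
        exact lin_poly _ _ _
      rw [h1, h2]
      simp only [Polynomial.derivative_pow, Polynomial.derivative_add, Polynomial.derivative_mul,
        Polynomial.derivative_C, Polynomial.derivative_X, Polynomial.eval_mul,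
        Polynomial.eval_add, Polynomial.eval_pow, Polynomial.eval_C, Polynomial.eval_X,
        mul_zero, zero_mul, zero_add, one_mul, add_zero, add_tsub_cancel_right]
    rw [← hleft, hr, hright]
  have h1 := congrFun (congrFun hNb0 p.1) p.2
  simp only [hNb, hN1, map_one, Matrix.zero_apply] at h1
  exact one_ne_zero h1

/-- Generic rigidity. -/
theorem rigidity {k : Type*} [Field k] [IsAlgClosed k] [CharZero k] [Algebra k R]
    (ev : R →ₐ[k] k) (φ : R →+* Ω) (hφ : Function.Injective φ) {e : ℕ} (he : 1 ≤ e)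
    (F : Fin (m + 3) → MvPolynomial (Fin (m + 3)) R)
    (hF : ∀ i, (F i).IsHomogeneous (e + 1))
    (hev : ∀ i, MvPolynomial.map (ev : R →+* k) (F i) = f1P m k (e + 1) i)
    (H : Matrix (Fin (m + 3)) (Fin (m + 3)) Ω) (hH : IsUnit H)
    (hcomm : ∀ v, H *ᵥ ev2 φ F v = ev2 φ F (H *ᵥ v)) :
    ∃ ζ : k, ζ ^ e = 1 ∧
      H = φ (algebraMap k R ζ) • (1 : Matrix (Fin (m + 3)) (Fin (m + 3)) Ω) := by
  classical
  -- a valuation ring dominating the local ring of the special point
  let eR : R ≃+* φ.range := RingEquiv.ofBijective φ.rangeRestrict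
    ⟨fun a b h => hφ (congrArg Subtype.val h), φ.rangeRestrict_surjective⟩
  let I : Ideal φ.range := (RingHom.ker (ev : R →+* k)).comap (eR.symm : φ.range →+* R)
  have hI : I ≠ ⊤ := by
    intro h
    have h1 : (1 : φ.range) ∈ I := by rw [h]; trivial
    rw [Ideal.mem_comap, map_one, RingHom.mem_ker, map_one] at h1
    exact one_ne_zero h1
  obtain ⟨V, hAV, hIV⟩ := Ideal.image_subset_nonunits_valuationSubring I hI
  let ψ : R →+* V := φ.codRestrict V.toSubring (fun r => hAV ⟨r, rfl⟩)
  have hψ : V.subtype.comp ψ = φ := by ext r; rfl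
  have hψker : ∀ r, ev r = 0 → residue V (ψ r) = 0 := by
    intro r hr
    rw [residue_eq_zero_iff, V.valuation_lt_one_iff]
    have h1 : φ.range.subtype (eR r) ∈ V.nonunits := by
      apply hIV
      refine ⟨eR r, ?_, rfl⟩
      change eR r ∈ I
      rw [Ideal.mem_comap, RingHom.mem_ker]
      simp only [RingEquiv.coe_toRingHom, RingEquiv.symm_apply_apply]
      exact hr
    rw [ValuationSubring.mem_nonunits_iff] at h1
    exact h1
  let ik : k →+* ResidueField V := ((residue V).comp ψ).comp (algebraMap k R)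
  have hfac : (residue V).comp ψ = ik.comp (ev : R →+* k) := by
    ext r
    have h1 : ev (r - algebraMap k R (ev r)) = 0 := by
      rw [map_sub, AlgHom.commutes]; simp
    have h2 := hψker _ h1
    rw [map_sub, map_sub, sub_eq_zero] at h2
    exact h2
  have : CharZero (ResidueField V) := charZero_of_injective_ringHom ik.injective
  have hres : ∀ i, MvPolynomial.map ((residue V).comp ψ) (F i) =
      f1P m (ResidueField V) (e + 1) i := by
    intro i
    rw [hfac, ← MvPolynomial.map_map, hev, map_f1P]
  have hcomm' : ∀ v, H *ᵥ ev2 (V.subtype.comp ψ) F v = ev2 (V.subtype.comp ψ) F (H *ᵥ v) := by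
    rw [hψ]; exact hcomm
  have hdet : IsUnit H.det := (Matrix.isUnit_iff_isUnit_det _).1 hH
  have hinv1 : H * H⁻¹ = 1 := Matrix.mul_nonsing_inv _ hdet
  have hinv2 : H⁻¹ * H = 1 := Matrix.nonsing_inv_mul _ hdet
  have hcommi : ∀ v, H⁻¹ *ᵥ ev2 (V.subtype.comp ψ) F v =
      ev2 (V.subtype.comp ψ) F (H⁻¹ *ᵥ v) := by
    intro v
    have h1 := hcomm' (H⁻¹ *ᵥ v)
    rw [Matrix.mulVec_mulVec, hinv1, Matrix.one_mulVec] at h1
    rw [← h1, Matrix.mulVec_mulVec, hinv2, Matrix.one_mulVec]
  have hmem := entries_mem V ψ he F hF hres H hcomm'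
  have hmemi := entries_mem V ψ he F hF hres H⁻¹ hcommi
  let HV : Matrix (Fin (m + 3)) (Fin (m + 3)) V := fun i j => ⟨H i j, hmem i j⟩
  let HiV : Matrix (Fin (m + 3)) (Fin (m + 3)) V := fun i j => ⟨H⁻¹ i j, hmemi i j⟩
  have hHV : HV * HiV = 1 := by
    ext i j
    have h1 := congrFun (congrFun hinv1 i) j
    rw [Matrix.mul_apply] at h1 ⊢
    push_cast
    change ∑ l, H i l * H⁻¹ l j = _
    rw [h1, Matrix.one_apply, Matrix.one_apply]
    split_ifs <;> rfl
  let Hb : Matrix (Fin (m + 3)) (Fin (m + 3)) (ResidueField V) := HV.map (residue V)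
  have hHb : IsUnit Hb := by
    have h1 : Hb * HiV.map (residue V) = 1 := by
      rw [← Matrix.map_mul, hHV]
      exact Matrix.map_one _ (map_zero _) (map_one _)
    exact IsUnit.of_mul_eq_one _ h1
  have hcb : ∀ vb : Fin (m + 3) → ResidueField V,
      Hb *ᵥ (F1 (e + 1) vb) = F1 (e + 1) (Hb *ᵥ vb) := by
    intro vb
    have hsurj : Function.Surjective (residue V) := residue_surjective
    choose v hv using fun j => hsurj (vb j)
    have hvb : vb = fun j => residue V (v j) := by funext j; exact (hv j).symm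
    funext i
    have h1 := congrFun (hcomm' (fun j => (v j : Ω))) i
    rw [ev2_coe] at h1
    have h2 : (H *ᵥ fun j => (v j : Ω)) = fun j => (((HV *ᵥ v) j : V) : Ω) := by
      funext j
      simp only [Matrix.mulVec, dotProduct]
      push_cast
      rfl
    rw [h2, ev2_coe] at h1
    have h3 : (HV *ᵥ fun j => MvPolynomial.eval₂ ψ v (F j)) i =
        MvPolynomial.eval₂ ψ (HV *ᵥ v) (F i) := by
      apply Subtype.ext
      refine Eq.trans ?_ h1
      simp only [Matrix.mulVec, dotProduct]
      push_cast
      rfl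
    have h4 := congrArg (residue V) h3
    rw [res_ev V ψ F hres] at h4
    have h5 : residue V ((HV *ᵥ fun j => MvPolynomial.eval₂ ψ v (F j)) i) =
        (Hb *ᵥ F1 (e + 1) vb) i := by
      simp only [Matrix.mulVec, dotProduct, map_sum, map_mul, Hb, Matrix.map_apply]
      refine Finset.sum_congr rfl fun j _ => ?_
      rw [res_ev V ψ F hres, hvb]
    have h6 : (fun j => residue V ((HV *ᵥ v) j)) = Hb *ᵥ vb := by
      funext j
      simp only [Matrix.mulVec, dotProduct, map_sum, map_mul, Hb, Matrix.map_apply, hvb]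
    rw [h5, h6] at h4
    exact h4
  obtain ⟨β, hβe, hβ⟩ := symmetry_scalar he Hb hHb hcb
  -- `β` comes from `k`
  have hζ : ∃ ζ : k, ik ζ = β := by
    let _ : Algebra k (ResidueField V) := ik.toAlgebra
    have hint : IsIntegral k β := by
      refine ⟨Polynomial.X ^ e - 1, Polynomial.monic_X_pow_sub_C 1 (by omega), ?_⟩
      simp [hβe]
    have hirr := minpoly.irreducible hint
    have hdeg := IsAlgClosed.degree_eq_one_of_irreducible k hirr
    obtain ⟨ζ, hζ⟩ := minpoly.mem_range_of_degree_eq_one k β hdeg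
    exact ⟨ζ, hζ⟩
  obtain ⟨ζ, hζ⟩ := hζ
  have hζe : ζ ^ e = 1 := by
    apply ik.injective
    rw [map_pow, hζ, hβe, map_one]
  refine ⟨ζ, hζe, ?_⟩
  set z : Ω := φ (algebraMap k R ζ) with hz
  have hze : z ^ e = 1 := by
    rw [hz, ← map_pow, ← map_pow, hζe, map_one, map_one]
  have hz0 : z ≠ 0 := by
    intro h
    rw [h, zero_pow (by omega)] at hze
    exact zero_ne_one hze
  have hzi : (z⁻¹) ^ (e + 1) = z⁻¹ := by
    rw [pow_succ, inv_pow, hze, inv_one, one_mul]
  -- apply the infinitesimal statement to `z⁻¹ H`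
  have hone : z⁻¹ • H = 1 := by
    apply eq_one_of_residue V ψ he F hres
    · intro v
      rw [Matrix.smul_mulVec, hcomm', Matrix.smul_mulVec, ev2_smul _ _ hF, hzi]
    · intro i j
      have hzV : z⁻¹ ∈ V := by
        have : z⁻¹ = z ^ (e - 1) := by
          have h1 : z ^ (e - 1) * z = 1 := by rw [← pow_succ, Nat.sub_add_cancel he, hze]
          exact (eq_inv_of_mul_eq_one_left h1).symm
        rw [this]
        exact pow_mem (ψ (algebraMap k R ζ)).2 _
      let ziV : V := ⟨z⁻¹, hzV⟩
      have hzres : residue V ziV * β = 1 := by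
        have h1 : ziV * ψ (algebraMap k R ζ) = 1 := by
          apply Subtype.ext
          change z⁻¹ * z = 1
          exact inv_mul_cancel₀ hz0
        have h2 := congrArg (residue V) h1
        rw [map_mul, map_one] at h2
        rw [← hζ]
        exact h2
      have h1 : (z⁻¹ • H - 1) i j = ((ziV * HV i j - (1 : Matrix (Fin (m + 3)) (Fin (m + 3)) V) i j : V) : Ω) := by
        push_cast
        rw [Matrix.sub_apply, Matrix.smul_apply, Matrix.one_apply, Matrix.one_apply]
        split_ifs <;> rfl
      rw [h1, ← V.valuation_lt_one_iff, ← residue_eq_zero_iff, map_sub, map_mul]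
      have h2 : residue V (HV i j) = β * (1 : Matrix (Fin (m + 3)) (Fin (m + 3)) _) i j := by
        have := congrFun (congrFun hβ i) j
        exact this
      rw [h2, ← mul_assoc, hzres, one_mul, Matrix.one_apply, Matrix.one_apply]
      split_ifs <;> simp
  have := congrArg (fun M => z • M) hone
  simp only [smul_smul, mul_inv_cancel₀ hz0, one_smul] at this
  exact this

end main

end Pool.Agent.Lib.MP_82c165_ag
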