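import Mathlib
import Pool.Agent.Lib.MP_82c165_ag.Defs
import Pool.Agent.Lib.MP_82c165_ag.Rigid

/-!
The generic situation: a field `L` with a generic tuple of forms and a generic vector.
-/

namespace Pool.Agent.Lib.MP_82c165_ag

open MvPolynomial Matrix

universe u v

/-- Generic data: a field `L` over `k` with algebraically independent coefficients `a` of a
tuple of forms and algebraically independent coordinates `x` of a vector, together with
the action of `GL_n(k)`. -/
structure GD (k : Type u) [Field k] (m e : ℕ) (L : Type v) [Field L] [Algebra k L] where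
  a : Coeff (m + 3) (e + 1) → L
  x : Fin (m + 3) → L
  ind : AlgebraicIndependent k (Sum.elim a x)
  σ : GL (Fin (m + 3)) k → L →ₐ[k] L
  σa : ∀ g i, MvPolynomial.map (σ g : L →+* L) (formOf a i) =
    conj ((g : Matrix (Fin (m + 3)) (Fin (m + 3)) k).map (algebraMap k L))
      ((g⁻¹ : GL (Fin (m + 3)) k).1.map (algebraMap k L)) (formOf a) i
  σx : ∀ g, (fun i => σ g (x i)) =
    (g : Matrix (Fin (m + 3)) (Fin (m + 3)) k).map (algebraMap k L) *ᵥ x

section poly

variable {n : ℕ} {A B : Type*} [CommRing A] [CommRing B]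

/-- iterates of a vector under a tuple of polynomials -/
noncomputable def iter (F : Fin n → MvPolynomial (Fin n) A) (v : Fin n → A) : ℕ → Fin n → A
  | 0 => v
  | j + 1 => fun i => eval (iter F v j) (F i)

/-- the matrix with columns the iterates of `v` -/
noncomputable def frame (F : Fin n → MvPolynomial (Fin n) A) (v : Fin n → A) :
    Matrix (Fin n) (Fin n) A := fun i j => iter F v j i

theorem map_iter (φ : A →+* B) (F : Fin n → MvPolynomial (Fin n) A) (v : Fin n → A) (j : ℕ) :
    (fun i => φ (iter F v j i)) = iter (fun i => MvPolynomial.map φ (F i)) (fun i => φ (v i)) j := by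
  induction j with
  | zero => rfl
  | succ j ih =>
    funext i
    simp only [iter]
    rw [← ih, MvPolynomial.eval_map]
    exact MvPolynomial.eval₂_comp φ (iter F v j) (F i)

theorem map_frame (φ : A →+* B) (F : Fin n → MvPolynomial (Fin n) A) (v : Fin n → A) :
    (frame F v).map φ = frame (fun i => MvPolynomial.map φ (F i)) (fun i => φ (v i)) := by
  ext i j
  exact congrFun (map_iter φ F v j) i

theorem iter_conj (g g' : Matrix (Fin n) (Fin n) A) (h : g' * g = 1)
    (F : Fin n → MvPolynomial (Fin n) A) (v : Fin n → A) (j : ℕ) :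
    iter (conj g g' F) (g *ᵥ v) j = g *ᵥ iter F v j := by
  induction j with
  | zero => rfl
  | succ j ih =>
    simp only [iter]
    rw [ih, eval_conj, Matrix.mulVec_mulVec, h, Matrix.one_mulVec]

theorem frame_conj (g g' : Matrix (Fin n) (Fin n) A) (h : g' * g = 1)
    (F : Fin n → MvPolynomial (Fin n) A) (v : Fin n → A) :
    frame (conj g g' F) (g *ᵥ v) = g * frame F v := by
  ext i j
  change iter (conj g g' F) (g *ᵥ v) j i = _
  rw [iter_conj g g' h]
  rfl

end poly

section special

open scoped Fin.NatCast Fin.CommRing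

variable {m : ℕ} {κ : Type*} [Field κ]

theorem divF_f1P (d : ℕ) : divF (f1P m κ d) = 0 := by
  rw [divF]
  refine Finset.sum_eq_zero fun i _ => ?_
  rw [f1P, pderiv_pow]
  have h1 : pderiv i (∑ j, C (LM m κ i j) * X j : MvPolynomial (Fin (m + 3)) κ) =
      C (LM m κ i i) := by
    rw [map_sum, Finset.sum_eq_single i]
    · rw [pderiv_C_mul, pderiv_X_self, mul_one]
    · intro l _ hl
      rw [pderiv_C_mul, pderiv_X_of_ne hl, mul_zero]
    · simp
  rw [h1, LM_diag, map_zero, mul_zero]

theorem f1P_homog (d : ℕ) (i : Fin (m + 3)) : (f1P m κ d i).IsHomogeneous d := by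
  have h1 : (∑ j, C (LM m κ i j) * X j : MvPolynomial (Fin (m + 3)) κ).IsHomogeneous 1 := by
    refine IsHomogeneous.sum _ _ _ fun j _ => ?_
    exact isHomogeneous_C_mul_X _ _
  have := h1.pow d
  rwa [one_mul] at this

theorem iter_f1P (d : ℕ) (hd : d ≠ 0) (j : ℕ) (hj : j ≤ m + 2) :
    iter (f1P m κ d) (Pi.single 0 1) j = Pi.single (-(j : Fin (m + 3))) 1 := by
  induction j with
  | zero => simp [iter]
  | succ j ih =>
    funext i
    simp only [iter]
    rw [ih (by omega), eval_f1P, F1, Matrix.mulVec_single_one]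
    simp only [Matrix.col_apply, LM]
    have hne : ¬ (-(j : Fin (m + 3)) = 1) := by
      intro h
      have h2 : ((j + 1 : ℕ) : Fin (m + 3)) = 0 := by
        push_cast
        have h3 : (j : Fin (m + 3)) + 1 = 0 := by
          rw [← h]; abel
        exact h3
      have h3 := congrArg Fin.val h2
      rw [Fin.val_natCast, Nat.mod_eq_of_lt (by omega)] at h3
      simp at h3
    have h1 : ¬ (i = Fin.last (m + 2) ∧ -(j : Fin (m + 3)) = 1) := fun h => hne h.2
    rw [if_neg h1, add_zero]
    by_cases hi : i = -((j + 1 : ℕ) : Fin (m + 3))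
    · subst hi
      have h2 : -(j : Fin (m + 3)) = -((j + 1 : ℕ) : Fin (m + 3)) + 1 := by
        push_cast; abel
      rw [if_pos h2, one_pow]
      simp
    · have h2 : ¬ (-(j : Fin (m + 3)) = i + 1) := by
        intro h3
        apply hi
        push_cast
        have h4 : i = (i + 1) - 1 := by abel
        rw [h4, ← h3]; abel
      rw [if_neg h2, zero_pow hd, Pi.single_eq_of_ne hi]

theorem frame_f1P_det (d : ℕ) (hd : d ≠ 0) :
    (frame (f1P m κ d) (Pi.single 0 1)).det ≠ 0 := by
  have h1 : frame (f1P m κ d) (Pi.single 0 1) * frame (f1P m κ d) (Pi.single 0 1) = 1 := by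
    have h2 : ∀ i j : Fin (m + 3), frame (f1P m κ d) (Pi.single 0 1) i j =
        if i = -j then (1 : κ) else 0 := by
      intro i j
      rw [frame, iter_f1P d hd j (by omega), Pi.single_apply]
      simp
    ext i j
    rw [Matrix.mul_apply]
    simp only [h2]
    rw [Finset.sum_eq_single (-i)]
    · simp only [neg_neg, if_true, one_mul, Matrix.one_apply]
      by_cases hij : i = j
      · subst hij; simp
      · rw [if_neg hij, if_neg]
        intro h; exact hij (neg_injective h)
    · intro l _ hl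
      rw [if_neg, zero_mul]
      intro h; apply hl; rw [h, neg_neg]
    · simp
  intro h
  have h2 := congrArg Matrix.det h1
  rw [Matrix.det_mul, h, mul_zero, Matrix.det_one] at h2
  exact zero_ne_one h2

end special

/-! ### Coefficients in a subfield -/

section coeffs

variable {k : Type*} [Field k] {L : Type*} [Field L] [Algebra k L] {n : ℕ}

/-- The ring of polynomials with coefficients in `E`. -/
noncomputable def CI (n : ℕ) (E : IntermediateField k L) : Subring (MvPolynomial (Fin n) L) :=
  (MvPolynomial.map (σ := Fin n) (algebraMap E L)).range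

theorem mem_CI {E : IntermediateField k L} {P : MvPolynomial (Fin n) L} :
    P ∈ CI n E ↔ ∀ α, coeff α P ∈ E := by
  constructor
  · rintro ⟨Q, rfl⟩ α
    rw [coeff_map]
    exact (coeff α Q).2
  · intro h
    have h1 : P ∈ Set.range (MvPolynomial.map (σ := Fin n) (algebraMap E L)) := by
      rw [MvPolynomial.mem_range_map_iff_coeffs_subset]
      intro c hc
      rw [Finset.mem_coe, MvPolynomial.mem_coeffs_iff] at hc
      obtain ⟨α, _, rfl⟩ := hc
      exact ⟨⟨_, h α⟩, rfl⟩
    exact h1

theorem C_mem_CI {E : IntermediateField k L} {c : L} (hc : c ∈ E) : C c ∈ CI n E :=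
  ⟨C ⟨c, hc⟩, by rw [MvPolynomial.map_C]; rfl⟩

theorem X_mem_CI {E : IntermediateField k L} (i : Fin n) : X i ∈ CI n E :=
  ⟨X i, by rw [MvPolynomial.map_X]⟩

theorem lsub_mem_CI {E : IntermediateField k L} {M : Matrix (Fin n) (Fin n) L}
    (hM : ∀ i j, M i j ∈ E) {P : MvPolynomial (Fin n) L} (hP : P ∈ CI n E) :
    lsub M P ∈ CI n E := by
  obtain ⟨Q, rfl⟩ := hP
  refine ⟨lsub (fun i j => ⟨M i j, hM i j⟩) Q, ?_⟩
  rw [map_lsub]
  rfl

theorem conj_mem_CI {E : IntermediateField k L} {g g' : Matrix (Fin n) (Fin n) L}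
    (hg : ∀ i j, g i j ∈ E) (hg' : ∀ i j, g' i j ∈ E) {F : Fin n → MvPolynomial (Fin n) L}
    (hF : ∀ i, F i ∈ CI n E) (i : Fin n) : conj g g' F i ∈ CI n E :=
  sum_mem fun j _ => mul_mem (C_mem_CI (hg i j)) (lsub_mem_CI hg' (hF j))

theorem eval_mem_of_CI {E : IntermediateField k L} {v : Fin n → L} (hv : ∀ i, v i ∈ E)
    {P : MvPolynomial (Fin n) L} (hP : P ∈ CI n E) : eval v P ∈ E := by
  rw [MvPolynomial.eval_eq']
  refine sum_mem fun α _ => mul_mem (mem_CI.1 hP α) (prod_mem fun i _ => pow_mem (hv i) _)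

theorem iter_mem {E : IntermediateField k L} {v : Fin n → L} (hv : ∀ i, v i ∈ E)
    {F : Fin n → MvPolynomial (Fin n) L} (hF : ∀ i, F i ∈ CI n E) (j : ℕ) (i : Fin n) :
    iter F v j i ∈ E := by
  induction j generalizing i with
  | zero => exact hv i
  | succ j ih => exact eval_mem_of_CI ih (hF i)

theorem map_matrix_inv {K₁ K₂ : Type*} [Field K₁] [Field K₂] (φ : K₁ →+* K₂) {n : ℕ}
    (M : Matrix (Fin n) (Fin n) K₁) : (M.map φ)⁻¹ = (M⁻¹).map φ := by
  rw [Matrix.inv_def, Matrix.inv_def, Ring.inverse_eq_inv', Ring.inverse_eq_inv']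
  have h1 : (M.map φ).det = φ M.det := (RingHom.map_det φ M).symm
  have h2 : (M.map φ).adjugate = M.adjugate.map φ := (RingHom.map_adjugate φ M).symm
  rw [h1, h2]
  ext i j
  simp

theorem inv_mem_of_mem {E : IntermediateField k L} {M : Matrix (Fin n) (Fin n) L}
    (hM : ∀ i j, M i j ∈ E) (i j : Fin n) : M⁻¹ i j ∈ E := by
  let M' : Matrix (Fin n) (Fin n) E := fun i j => ⟨M i j, hM i j⟩
  have h1 : M = M'.map (algebraMap E L) := rfl
  have h2 : M⁻¹ = (M'⁻¹).map (algebraMap E L) := by
    rw [h1, map_matrix_inv]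
  rw [h2]
  exact (M'⁻¹ i j).2

end coeffs

end Pool.Agent.Lib.MP_82c165_ag
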