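import Mathlib

/-!
Auxiliary lemmas on algebraic independence and purely transcendental extensions.
-/

namespace Pool.Agent.Lib.MP_82c165_ag

open IntermediateField Set
open scoped IntermediateField.algebraAdjoinAdjoin

theorem algebraicIndependent_iff_monomials {ι R A : Type*} [CommRing R] [CommRing A] [Algebra R A]
    (x : ι → A) : AlgebraicIndependent R x ↔
      LinearIndependent R (fun m : ι →₀ ℕ => MvPolynomial.aeval x (MvPolynomial.monomial m (1 : R))) := by
  classical
  rw [AlgebraicIndependent, LinearIndependent]
  have h : ∀ p : (ι →₀ ℕ) →₀ R, Finsupp.linearCombination R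
      (fun m : ι →₀ ℕ => MvPolynomial.aeval x (MvPolynomial.monomial m (1 : R))) p =
      MvPolynomial.aeval x ((MvPolynomial.basisMonomials ι R).repr.symm p) := by
    intro p
    rw [Finsupp.linearCombination_apply, Module.Basis.repr_symm_apply,
      Finsupp.linearCombination_apply, Finsupp.sum, Finsupp.sum, map_sum]
    refine Finset.sum_congr rfl fun i _ => ?_
    rw [map_smul, MvPolynomial.coe_basisMonomials]
  constructor
  · intro hinj p q hpq
    rw [h, h] at hpq
    exact (MvPolynomial.basisMonomials ι R).repr.symm.injective (hinj hpq)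
  · intro hinj p q hpq
    apply (MvPolynomial.basisMonomials ι R).repr.injective
    apply hinj
    rw [h, h]
    simpa using hpq

theorem algebraicIndependent_adjoin_field {k L : Type*} [Field k] [Field L] [Algebra k L]
    {ι ι' : Type*} {x : ι → L} {y : ι' → L}
    (h : AlgebraicIndependent k (Sum.elim y x)) :
    AlgebraicIndependent (IntermediateField.adjoin k (range x)) y := by
  have h2 := (AlgebraicIndependent.sumElim_iff.1 h).2
  rw [algebraicIndependent_iff_monomials] at h2 ⊢
  have h3 := (LinearIndependent.iff_fractionRing (Algebra.adjoin k (range x))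
    (IntermediateField.adjoin k (range x))).1 h2
  have h4 : (fun m : ι' →₀ ℕ => MvPolynomial.aeval y
        (MvPolynomial.monomial m (1 : IntermediateField.adjoin k (range x)))) =
      (fun m : ι' →₀ ℕ => MvPolynomial.aeval y
        (MvPolynomial.monomial m (1 : Algebra.adjoin k (range x)))) := by
    funext m
    rw [MvPolynomial.aeval_monomial, MvPolynomial.aeval_monomial, map_one, map_one]
  rw [h4]
  exact h3

open Cardinal in
theorem algebraicIndependent_of_card {k A : Type*} [Field k] [Field A] [Algebra k A]
    {ι ι' : Type*} [Finite ι] [Finite ι'] (y : ι' → A) (hy : AlgebraicIndependent k y)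
    (x : ι → A) (alg : Algebra.IsAlgebraic (IntermediateField.adjoin k (range x)) A)
    (hc : Nat.card ι ≤ Nat.card ι') : AlgebraicIndependent k x := by
  have h1 : Algebra.IsAlgebraic (Algebra.adjoin k (range x))
      (IntermediateField.adjoin k (range x)) :=
    IsLocalization.isAlgebraic _ (nonZeroDivisors (Algebra.adjoin k (range x)))
  have h2 : IsScalarTower (Algebra.adjoin k (range x))
      (IntermediateField.adjoin k (range x)) A := inferInstance
  have h3 : Algebra.IsAlgebraic (Algebra.adjoin k (range x)) A :=
    Algebra.IsAlgebraic.trans _ (IntermediateField.adjoin k (range x)) _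
  refine (Algebra.IsAlgebraic.isTranscendenceBasis_of_lift_le_trdeg_of_finite k x ?_).1
  have h4 := hy.lift_cardinalMk_le_trdeg
  rw [← Nat.cast_card, Cardinal.lift_natCast, Cardinal.nat_le_lift_iff] at h4
  rw [← Nat.cast_card, Cardinal.lift_natCast, Cardinal.nat_le_lift_iff]
  exact (Nat.cast_le.2 hc).trans h4

/-- Version inside an ambient field. -/
theorem algebraicIndependent_of_card_in {k L : Type*} [Field k] [Field L] [Algebra k L]
    (E : IntermediateField k L) {ι ι' : Type*} [Finite ι] [Finite ι'] (y : ι' → L)
    (hyE : ∀ j, y j ∈ E) (hy : AlgebraicIndependent k y)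
    (x : ι → L) (hxE : ∀ i, x i ∈ E)
    (alg : ∀ a ∈ E, IsAlgebraic (IntermediateField.adjoin k (range x)) a)
    (hc : Nat.card ι ≤ Nat.card ι') : AlgebraicIndependent k x := by
  let xE : ι → E := fun i => ⟨x i, hxE i⟩
  let yE : ι' → E := fun i => ⟨y i, hyE i⟩
  have hx' : x = E.val ∘ xE := rfl
  have hy' : y = E.val ∘ yE := rfl
  have hinj : Function.Injective E.val := E.val.injective
  rw [hx', AlgHom.algebraicIndependent_iff _ hinj]
  rw [hy', AlgHom.algebraicIndependent_iff _ hinj] at hy
  have hmap : (IntermediateField.adjoin k (range xE)).map E.val =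
      IntermediateField.adjoin k (range x) := by
    rw [IntermediateField.adjoin_map, hx', Set.range_comp]
  refine algebraicIndependent_of_card yE hy xE ⟨fun a => ?_⟩ hc
  have ha := alg (a : L) a.2
  let f : IntermediateField.adjoin k (range xE) →+* IntermediateField.adjoin k (range x) :=
    { toFun := fun b => ⟨E.val (b : E), by
        rw [← hmap]; exact ⟨(b : E), b.2, rfl⟩⟩
      map_one' := rfl
      map_mul' := fun _ _ => rfl
      map_zero' := rfl
      map_add' := fun _ _ => rfl }
  have hf : Function.Surjective f := by
    rintro ⟨b, hb⟩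
    rw [← hmap] at hb
    obtain ⟨c, hc1, hc2⟩ := hb
    exact ⟨⟨c, hc1⟩, Subtype.ext hc2⟩
  exact ha.of_ringHom_of_comp_eq f (E.val : E →+* L) hf hinj rfl

theorem adjoin_restrict_le {k L : Type*} [Field k] [Field L] [Algebra k L]
    {F' N : IntermediateField k L} {S : Set L} (h1 : F' ≤ N) (h2 : S ⊆ N) :
    (IntermediateField.adjoin F' S).restrictScalars k ≤ N := by
  have h3 : IntermediateField.adjoin F' S ≤ IntermediateField.extendScalars h1 := by
    rw [IntermediateField.adjoin_le_iff]
    exact h2
  intro x hx
  exact h3 hx

/-- Cancellation lemma for purely transcendental extensions. -/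
theorem assembly {k L : Type*} [Field k] [Field L] [Algebra k L]
    (F' F1 KG : IntermediateField k L) {ι κ ρ : Type*}
    (z : ι → L) (hz : AlgebraicIndependent F' z)
    (hz1 : (IntermediateField.adjoin F' (range z)).restrictScalars k = F1)
    (q : κ → L) (hq : AlgebraicIndependent F' q)
    (hq1 : (IntermediateField.adjoin F' (range q)).restrictScalars k = KG)
    (s : ρ → L) (hs : AlgebraicIndependent k s)
    (hs1 : IntermediateField.adjoin k (range s) = F1) (emb : ι ↪ κ) :
    ∃ v : ({j : κ // j ∉ range emb} ⊕ ρ) → L,
      AlgebraicIndependent k v ∧ IntermediateField.adjoin k (range v) = KG := by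
  classical
  have tower : ∀ E : IntermediateField F' L, IsScalarTower k E L :=
    fun E => IsScalarTower.of_algebraMap_eq fun x => rfl
  set q1 : ι → L := q ∘ emb with hq1def
  set q2 : {j : κ // j ∉ range emb} → L := fun j => q j with hq2def
  have hq1ind : AlgebraicIndependent F' q1 := hq.comp emb emb.injective
  have tz := tower (IntermediateField.adjoin F' (range z))
  set E3 := IntermediateField.adjoin F' (range q1) with hE3
  have t3 := tower E3
  let θ : IntermediateField.adjoin F' (range z) ≃ₐ[F'] E3 :=
    hz.aevalEquivField.symm.trans hq1ind.aevalEquivField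
  have hsmem : ∀ i, s i ∈ IntermediateField.adjoin F' (range z) := by
    intro i
    have : s i ∈ F1 := by
      rw [← hs1]; exact IntermediateField.subset_adjoin _ _ ⟨i, rfl⟩
    rw [← hz1] at this
    exact this
  let s1 : ρ → IntermediateField.adjoin F' (range z) := fun i => ⟨s i, hsmem i⟩
  let θk : IntermediateField.adjoin F' (range z) →ₐ[k] E3 := (θ.restrictScalars k).toAlgHom
  let s3 : ρ → E3 := fun i => θk (s1 i)
  have hs1ind : AlgebraicIndependent k s1 := by
    have h1 : s = (IsScalarTower.toAlgHom k (IntermediateField.adjoin F' (range z)) L) ∘ s1 := rfl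
    rw [h1, AlgHom.algebraicIndependent_iff _ (RingHom.injective _)] at hs
    exact hs
  have hs3ind : AlgebraicIndependent k s3 := hs1ind.map' (f := θk) θk.injective
  have htop1 : IntermediateField.adjoin k (range s1) = ⊤ := by
    apply IntermediateField.map_injective
      (IsScalarTower.toAlgHom k (IntermediateField.adjoin F' (range z)) L)
    rw [IntermediateField.adjoin_map, ← Set.range_comp]
    have h2 : (IsScalarTower.toAlgHom k (IntermediateField.adjoin F' (range z)) L) ∘ s1 = s := rfl
    rw [h2, hs1, ← hz1]
    ext x
    constructor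
    · intro hx
      exact ⟨⟨x, hx⟩, trivial, rfl⟩
    · rintro ⟨y, _, rfl⟩
      exact y.2
  have htop3 : IntermediateField.adjoin k (range s3) = ⊤ := by
    have h1 : (IntermediateField.adjoin k (range s1)).map θk =
        IntermediateField.adjoin k (range s3) := by
      rw [IntermediateField.adjoin_map, ← Set.range_comp]; rfl
    rw [← h1, htop1]
    ext x
    constructor
    · intro _; trivial
    · intro _
      exact ⟨θ.symm x, trivial, θ.apply_symm_apply x⟩
  -- independence of the remaining variables
  have hsum : AlgebraicIndependent F' (Sum.elim q2 q1) := by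
    have h1 : Sum.elim q2 q1 = q ∘ (Sum.elim (fun j : {j : κ // j ∉ range emb} => (j : κ)) emb) := by
      funext i; cases i <;> rfl
    rw [h1]
    apply hq.comp
    rw [Sum.elim_injective]
    refine ⟨Subtype.val_injective, emb.injective, ?_⟩
    intro a b hab
    exact a.2 ⟨b, hab.symm⟩
  have hq2ind : AlgebraicIndependent E3 q2 := algebraicIndependent_adjoin_field hsum
  refine ⟨Sum.elim q2 (algebraMap E3 L ∘ s3), ?_, ?_⟩
  · exact AlgebraicIndependent.sumElim_comp hs3ind hq2ind
  · -- generation
    have hE3k : IntermediateField.adjoin k (range (algebraMap E3 L ∘ s3)) =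
        E3.restrictScalars k := by
      have h1 : (IntermediateField.adjoin k (range s3)).map (IsScalarTower.toAlgHom k E3 L) =
          IntermediateField.adjoin k (range (algebraMap E3 L ∘ s3)) := by
        rw [IntermediateField.adjoin_map, ← Set.range_comp]; rfl
      rw [← h1, htop3]
      ext x
      constructor
      · rintro ⟨y, _, rfl⟩
        exact y.2
      · intro hx
        exact ⟨⟨x, hx⟩, trivial, rfl⟩
    have hrange : range q = range q1 ∪ range q2 := by
      ext x
      constructor
      · rintro ⟨j, rfl⟩
        by_cases hj : j ∈ range emb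
        · obtain ⟨i, rfl⟩ := hj
          left; exact ⟨i, rfl⟩
        · right; exact ⟨⟨j, hj⟩, rfl⟩
      · rintro (⟨i, rfl⟩ | ⟨j, rfl⟩)
        · exact ⟨emb i, rfl⟩
        · exact ⟨j, rfl⟩
    have hq_mem : ∀ j, q j ∈ KG := by
      intro j
      rw [← hq1]
      exact IntermediateField.subset_adjoin F' _ ⟨j, rfl⟩
    have hF'KG : F' ≤ KG := by
      intro x hx
      rw [← hq1]
      exact (IntermediateField.adjoin F' (range q)).algebraMap_mem ⟨x, hx⟩
    have hE3KG : E3.restrictScalars k ≤ KG := by
      apply adjoin_restrict_le hF'KG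
      rintro _ ⟨i, rfl⟩
      exact hq_mem _
    apply le_antisymm
    · rw [IntermediateField.adjoin_le_iff]
      rintro _ ⟨i | i, rfl⟩
      · exact hq_mem _
      · exact hE3KG (s3 i).2
    · rw [← hq1]
      set N := IntermediateField.adjoin k (range (Sum.elim q2 (algebraMap E3 L ∘ s3))) with hN
      have h1 : E3.restrictScalars k ≤ N := by
        rw [← hE3k]
        apply IntermediateField.adjoin.mono
        rintro _ ⟨i, rfl⟩
        exact ⟨Sum.inr i, rfl⟩
      have h2 : F' ≤ N := by
        intro x hx
        exact h1 (E3.algebraMap_mem ⟨x, hx⟩)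
      apply adjoin_restrict_le h2
      rw [hrange]
      rintro x (⟨i, rfl⟩ | ⟨j, rfl⟩)
      · exact h1 (IntermediateField.subset_adjoin F' _ ⟨i, rfl⟩)
      · exact IntermediateField.subset_adjoin k _ ⟨Sum.inl j, rfl⟩

end Pool.Agent.Lib.MP_82c165_ag
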