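import Mathlib
import Pool.Agent.Lib.MP_82c165_ag.Generic
import Pool.Agent.Lib.MP_82c165_ag.Descent
import Pool.Agent.Lib.MP_82c165_ag.Embed
import Pool.Agent.Lib.MP_82c165_ag.Trans

/-!
Theory of the generic situation.
-/

namespace Pool.Agent.Lib.MP_82c165_ag

open MvPolynomial Matrix

universe u v

namespace GD

variable {k : Type u} [Field k] {m e : ℕ} {L : Type v} [Field L] [Algebra k L]
  (D : GD k m e L)

/-- the constant matrix `g` -/
def cm (L : Type v) [Field L] [Algebra k L] (g : GL (Fin (m + 3)) k) :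
    Matrix (Fin (m + 3)) (Fin (m + 3)) L :=
  (g : Matrix (Fin (m + 3)) (Fin (m + 3)) k).map (algebraMap k L)

theorem cm_inv_mul (g : GL (Fin (m + 3)) k) : cm L g⁻¹ * cm L g = 1 := by
  rw [cm, cm, ← Matrix.map_mul, ← Units.val_mul, inv_mul_cancel, Units.val_one]
  exact Matrix.map_one _ (map_zero _) (map_one _)

theorem cm_mul_inv (g : GL (Fin (m + 3)) k) : cm L g * cm L g⁻¹ = 1 := by
  rw [cm, cm, ← Matrix.map_mul, ← Units.val_mul, mul_inv_cancel, Units.val_one]
  exact Matrix.map_one _ (map_zero _) (map_one _)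

theorem cm_map {L' : Type*} [Field L'] [Algebra k L'] (τ : L →ₐ[k] L')
    (g : GL (Fin (m + 3)) k) : (cm L g).map τ = cm L' g := by
  ext i j
  exact τ.commutes _

/-- the generic tuple of forms -/
noncomputable def f : Fin (m + 3) → MvPolynomial (Fin (m + 3)) L := formOf D.a

/-- the form `div f / (n + e)` -/
noncomputable def q : MvPolynomial (Fin (m + 3)) L := qF k e D.f

/-- the divergence free part of `f` -/
noncomputable def f0 : Fin (m + 3) → MvPolynomial (Fin (m + 3)) L := f0F k e D.f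

theorem f_homog (i : Fin (m + 3)) : (D.f i).IsHomogeneous (e + 1) := formOf_homog _ i

theorem q_homog : D.q.IsHomogeneous e := qF_homog D.f_homog

theorem f0_homog (i : Fin (m + 3)) : (D.f0 i).IsHomogeneous (e + 1) := f0F_homog D.f_homog i

theorem f_eq (i : Fin (m + 3)) : D.f i = D.f0 i + X i * D.q := by
  simp [f0, f0F, q]

theorem divF_f0 [CharZero k] : divF D.f0 = 0 := divF_f0F (by omega) D.f_homog

theorem σf (g : GL (Fin (m + 3)) k) :
    (fun i => MvPolynomial.map (D.σ g : L →+* L) (D.f i)) = conj (cm L g) (cm L g⁻¹) D.f :=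
  funext fun i => D.σa g i

theorem σq (g : GL (Fin (m + 3)) k) :
    MvPolynomial.map (D.σ g : L →+* L) D.q = lsub (cm L g⁻¹) D.q := by
  rw [q, map_qF, D.σf, qF_conj e _ _ (cm_inv_mul g)]

theorem σf0 (g : GL (Fin (m + 3)) k) :
    (fun i => MvPolynomial.map (D.σ g : L →+* L) (D.f0 i)) =
      conj (cm L g) (cm L g⁻¹) D.f0 := by
  funext i
  rw [f0, map_f0F, D.σf, f0F_conj e _ _ (cm_inv_mul g)]

/-- the frame `x, f₀(x), f₀(f₀(x)), …` -/
noncomputable def M : Matrix (Fin (m + 3)) (Fin (m + 3)) L := frame D.f0 D.x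

theorem σM (g : GL (Fin (m + 3)) k) : D.M.map (D.σ g) = cm L g * D.M := by
  have h1 := map_frame (D.σ g : L →+* L) D.f0 D.x
  rw [D.σf0] at h1
  have h2 : (fun i => (D.σ g : L →+* L) (D.x i)) = cm L g *ᵥ D.x := D.σx g
  rw [h2, frame_conj _ _ (cm_inv_mul g)] at h1
  exact h1

/-! Specialisation -/

/-- the polynomial version of `f` -/
noncomputable def fR (k : Type u) [Field k] (m e : ℕ) : Fin (m + 3) →
    MvPolynomial (Fin (m + 3)) (MvPolynomial (Coeff (m + 3) (e + 1) ⊕ Fin (m + 3)) k) :=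
  formOf (fun c => X (Sum.inl c))

/-- the polynomial version of `f0` -/
noncomputable def f0R (k : Type u) [Field k] (m e : ℕ) : Fin (m + 3) →
    MvPolynomial (Fin (m + 3)) (MvPolynomial (Coeff (m + 3) (e + 1) ⊕ Fin (m + 3)) k) :=
  f0F k e (fR k m e)

theorem f0R_homog (i : Fin (m + 3)) : (f0R k m e i).IsHomogeneous (e + 1) :=
  f0F_homog (fun i => formOf_homog _ i) i

/-- the evaluation map -/
noncomputable def ae : MvPolynomial (Coeff (m + 3) (e + 1) ⊕ Fin (m + 3)) k →ₐ[k] L :=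
  aeval (Sum.elim D.a D.x)

theorem ae_inj : Function.Injective D.ae := D.ind

theorem map_ae_f0R : (fun i => MvPolynomial.map (D.ae : _ →+* L) (f0R k m e i)) = D.f0 := by
  funext i
  rw [f0R, map_f0F, f0]
  congr 1
  funext j
  rw [fR, map_formOf, f]
  congr 1
  funext c
  simp [ae]

/-- the special point -/
noncomputable def evS (k : Type u) [Field k] (m e : ℕ) :
    MvPolynomial (Coeff (m + 3) (e + 1) ⊕ Fin (m + 3)) k →ₐ[k] k :=
  aeval (Sum.elim (fun c => coeff c.2.1 (f1P m k (e + 1) c.1)) (Pi.single 0 1))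

theorem map_evS_f0R [CharZero k] :
    (fun i => MvPolynomial.map (evS k m e : _ →+* k) (f0R k m e i)) = f1P m k (e + 1) := by
  have h1 : (fun i => MvPolynomial.map (evS k m e : _ →+* k) (fR k m e i)) =
      f1P m k (e + 1) := by
    funext i
    rw [fR, map_formOf, ← congrFun (formOf_coeff (d := e + 1) (f1P_homog (m := m) (e + 1))) i]
    congr 1
    funext c
    simp [evS]
  funext i
  rw [f0R, map_f0F, h1, f0F_eq_self (divF_f1P _)]

theorem det_ne_zero [CharZero k] : D.M.det ≠ 0 := by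
  let MR := frame (f0R k m e) (fun i => X (Sum.inr i))
  have h1 : MR.map (D.ae : _ →+* L) = D.M := by
    rw [map_frame, D.map_ae_f0R, M]
    congr 1
    funext i
    simp [ae]
  have h2 : MR.map (evS k m e : _ →+* k) = frame (f1P m k (e + 1)) (Pi.single 0 1) := by
    rw [map_frame, map_evS_f0R]
    congr 1
    funext i
    simp [evS]
  have h3 : MR.det ≠ 0 := by
    intro h
    have h4 : (evS k m e : _ →+* k) MR.det = (MR.map (evS k m e : _ →+* k)).det :=
      RingHom.map_det _ _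
    rw [h, map_zero, h2] at h4
    exact frame_f1P_det (e + 1) (by omega) h4.symm
  rw [← h1]
  have h4 : (D.ae : _ →+* L) MR.det = (MR.map (D.ae : _ →+* L)).det := RingHom.map_det _ _
  rw [← h4]
  intro h
  exact h3 (D.ae_inj (by rw [map_zero]; exact h))

theorem isUnit_M [CharZero k] : IsUnit D.M := by
  rw [Matrix.isUnit_iff_isUnit_det]
  exact isUnit_iff_ne_zero.2 D.det_ne_zero

theorem M_inv_mul [CharZero k] : D.M⁻¹ * D.M = 1 :=
  Matrix.nonsing_inv_mul _ ((Matrix.isUnit_iff_isUnit_det _).1 D.isUnit_M)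

theorem M_mul_inv [CharZero k] : D.M * D.M⁻¹ = 1 :=
  Matrix.mul_nonsing_inv _ ((Matrix.isUnit_iff_isUnit_det _).1 D.isUnit_M)

/-- the normal form of `f0` -/
noncomputable def nf : Fin (m + 3) → MvPolynomial (Fin (m + 3)) L := conj D.M⁻¹ D.M D.f0

theorem nf_homog (i : Fin (m + 3)) : (D.nf i).IsHomogeneous (e + 1) :=
  conj_homog _ _ D.f0_homog i

theorem divF_nf [CharZero k] : divF D.nf = 0 := by
  rw [nf, divF_conj _ _ D.M_mul_inv, D.divF_f0, map_zero]

theorem σnf [CharZero k] (g : GL (Fin (m + 3)) k) :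
    (fun i => MvPolynomial.map (D.σ g : L →+* L) (D.nf i)) = D.nf := by
  funext i
  have h0 : D.M.map (D.σ g : L →+* L) = cm L g * D.M := D.σM g
  rw [nf, map_conj, D.σf0, ← map_matrix_inv, h0, conj_conj]
  have h1 : (cm L g * D.M)⁻¹ * cm L g = D.M⁻¹ := by
    rw [Matrix.mul_inv_rev, Matrix.mul_assoc]
    have : (cm L g)⁻¹ = cm L g⁻¹ := Matrix.inv_eq_left_inv (cm_inv_mul g)
    rw [this, cm_inv_mul, Matrix.mul_one]
  have h2 : cm L g⁻¹ * (cm L g * D.M) = D.M := by
    rw [← Matrix.mul_assoc, cm_inv_mul, Matrix.one_mul]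
  rw [h1, h2]

/-- `M 𝒩(z) = f₀(M z)` -/
theorem M_nf [CharZero k] : conj D.M 1 D.nf = conj 1 D.M D.f0 := by
  rw [nf, conj_conj, D.M_mul_inv, Matrix.mul_one]

theorem f0_eq [CharZero k] : D.f0 = conj D.M D.M⁻¹ D.nf := by
  rw [nf, conj_conj, D.M_mul_inv, conj_one]

end GD

end Pool.Agent.Lib.MP_82c165_ag
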