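import Mathlib
import Pool.Agent.Lib.MP_82c165_ag.Theory

/-!
The fields attached to the generic situation.
-/

namespace Pool.Agent.Lib.MP_82c165_ag

open MvPolynomial Matrix

universe u v

namespace GD

variable {k : Type u} [Field k] {m e : ℕ} {L : Type v} [Field L] [Algebra k L]
  (D : GD k m e L)

/-- the invariant elements of `E` -/
def inv (E : IntermediateField k L) : IntermediateField k L where
  carrier := {φ | φ ∈ E ∧ ∀ g, D.σ g φ = φ}
  mul_mem' := fun {a b} ha hb => ⟨mul_mem ha.1 hb.1, fun g => by rw [map_mul, ha.2, hb.2]⟩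
  add_mem' := fun {a b} ha hb => ⟨add_mem ha.1 hb.1, fun g => by rw [map_add, ha.2, hb.2]⟩
  algebraMap_mem' := fun r => ⟨E.algebraMap_mem r, fun g => AlgHom.commutes _ r⟩
  inv_mem' := fun a ha => ⟨inv_mem ha.1, fun g => by rw [map_inv₀, ha.2]⟩

theorem mem_inv {E : IntermediateField k L} {φ : L} :
    φ ∈ D.inv E ↔ φ ∈ E ∧ ∀ g, D.σ g φ = φ := Iff.rfl

theorem inv_mono {E E' : IntermediateField k L} (h : E ≤ E') : D.inv E ≤ D.inv E' :=
  fun _ hx => ⟨h hx.1, hx.2⟩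

/-- the set of coefficients of a tuple of polynomials -/
def cf (F : Fin (m + 3) → MvPolynomial (Fin (m + 3)) L) : Set L :=
  {c | ∃ i α, c = coeff α (F i)}

theorem coeff_mem_adjoin_cf (F : Fin (m + 3) → MvPolynomial (Fin (m + 3)) L) (i) (α) :
    coeff α (F i) ∈ IntermediateField.adjoin k (cf F) :=
  IntermediateField.subset_adjoin _ _ ⟨i, α, rfl⟩

/-- the field of coefficients of `f0` -/
noncomputable def K0 : IntermediateField k L := IntermediateField.adjoin k (cf D.f0)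

/-- the field generated by the coefficients of `f0` and by the coordinates of `x` -/
noncomputable def Om : IntermediateField k L :=
  IntermediateField.adjoin k (cf D.f0 ∪ Set.range D.x)

/-- the field of coefficients of `f` -/
noncomputable def K1 : IntermediateField k L := IntermediateField.adjoin k (Set.range D.a)

/-- the field of coefficients of the normal form -/
noncomputable def F2 : IntermediateField k L := IntermediateField.adjoin k (cf D.nf)

theorem stable_adjoin {S : Set L} (h : ∀ g, ∀ s ∈ S, D.σ g s ∈ IntermediateField.adjoin k S)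
    (g) (a : L) (ha : a ∈ IntermediateField.adjoin k S) :
    D.σ g a ∈ IntermediateField.adjoin k S := by
  have h1 : (IntermediateField.adjoin k S).map (D.σ g) ≤ IntermediateField.adjoin k S := by
    rw [IntermediateField.adjoin_map, IntermediateField.adjoin_le_iff]
    rintro _ ⟨s, hs, rfl⟩
    exact h g s hs
  exact h1 ⟨a, ha, rfl⟩

theorem cm_mem (E : IntermediateField k L) (g : GL (Fin (m + 3)) k) (i j) : cm L g i j ∈ E :=
  E.algebraMap_mem _

theorem K0_le_Om : D.K0 ≤ D.Om := IntermediateField.adjoin.mono _ _ _ Set.subset_union_left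

theorem x_mem_Om (i) : D.x i ∈ D.Om :=
  IntermediateField.subset_adjoin _ _ (Or.inr ⟨i, rfl⟩)

theorem f0_mem_K0 (i) : D.f0 i ∈ CI (m + 3) D.K0 :=
  mem_CI.2 fun α => coeff_mem_adjoin_cf _ i α

theorem f0_mem_Om (i) : D.f0 i ∈ CI (m + 3) D.Om :=
  mem_CI.2 fun α => D.K0_le_Om (coeff_mem_adjoin_cf _ i α)

theorem σ_coeff_f0_mem (g) (i) (α) : D.σ g (coeff α (D.f0 i)) ∈ D.K0 := by
  have h1 : D.σ g (coeff α (D.f0 i)) = coeff α (conj (cm L g) (cm L g⁻¹) D.f0 i) := by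
    rw [← congrFun (D.σf0 g) i, coeff_map]; rfl
  rw [h1]
  exact mem_CI.1 (conj_mem_CI (cm_mem _ g) (cm_mem _ g⁻¹) D.f0_mem_K0 i) α

theorem σ_mem_K0 (g) (a : L) (ha : a ∈ D.K0) : D.σ g a ∈ D.K0 := by
  refine D.stable_adjoin ?_ g a ha
  rintro g _ ⟨i, α, rfl⟩
  exact D.σ_coeff_f0_mem g i α

theorem σ_x (g) (i) : D.σ g (D.x i) = ∑ j, cm L g i j * D.x j := congrFun (D.σx g) i

theorem σ_mem_Om (g) (a : L) (ha : a ∈ D.Om) : D.σ g a ∈ D.Om := by
  refine D.stable_adjoin ?_ g a ha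
  rintro g _ (⟨i, α, rfl⟩ | ⟨i, rfl⟩)
  · exact D.K0_le_Om (D.σ_coeff_f0_mem g i α)
  · rw [D.σ_x]
    exact sum_mem fun j _ => mul_mem (cm_mem D.Om g i j) (D.x_mem_Om j)

theorem f_mem_K1 (i) : D.f i ∈ CI (m + 3) D.K1 := by
  refine sum_mem fun α _ => ?_
  refine mem_CI.2 fun β => ?_
  classical
  rw [coeff_monomial]
  split_ifs
  · exact IntermediateField.subset_adjoin _ _ ⟨_, rfl⟩
  · exact zero_mem _

theorem σ_mem_K1 (g) (a : L) (ha : a ∈ D.K1) : D.σ g a ∈ D.K1 := by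
  refine D.stable_adjoin ?_ g a ha
  rintro g _ ⟨c, rfl⟩
  have h1 : D.σ g (D.a c) = coeff c.2.1 (conj (cm L g) (cm L g⁻¹) D.f c.1) := by
    rw [← congrFun (D.σf g) c.1, coeff_map, f, coeff_formOf]; rfl
  rw [h1]
  exact mem_CI.1 (conj_mem_CI (cm_mem _ g) (cm_mem _ g⁻¹) D.f_mem_K1 c.1) _

/-- restriction of the action to a stable subfield -/
noncomputable def σR (E : IntermediateField k L) (hE : ∀ g, ∀ a ∈ E, D.σ g a ∈ E)
    (g : GL (Fin (m + 3)) k) : E →+* E :=
  ((D.σ g : L →+* L).comp (algebraMap E L)).codRestrict E (fun a => hE g a a.2)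

theorem σR_spec (E : IntermediateField k L) (hE : ∀ g, ∀ a ∈ E, D.σ g a ∈ E)
    (g : GL (Fin (m + 3)) k) (a : E) :
    (D.σ g : L →+* L) (algebraMap E L a) = algebraMap E L (D.σR E hE g a) := rfl

theorem pderiv_mem_CI {n : ℕ} {E : IntermediateField k L} {P : MvPolynomial (Fin n) L}
    (hP : P ∈ CI n E) (i : Fin n) : pderiv i P ∈ CI n E := by
  obtain ⟨Q, rfl⟩ := hP
  exact ⟨pderiv i Q, by rw [pderiv_map]⟩

theorem q_mem_K1 : D.q ∈ CI (m + 3) D.K1 := by
  refine mul_mem (C_mem_CI (D.K1.algebraMap_mem _)) (sum_mem fun i _ => ?_)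
  exact pderiv_mem_CI (D.f_mem_K1 i) i

theorem K0_le_K1 : D.K0 ≤ D.K1 := by
  rw [K0, IntermediateField.adjoin_le_iff]
  rintro _ ⟨i, α, rfl⟩
  refine mem_CI.1 ?_ α
  exact sub_mem (D.f_mem_K1 i) (mul_mem (X_mem_CI i) D.q_mem_K1)

theorem M_mem (i j) : D.M i j ∈ D.Om := iter_mem D.x_mem_Om D.f0_mem_Om j i

theorem M_inv_mem (i j) : D.M⁻¹ i j ∈ D.Om := inv_mem_of_mem D.M_mem i j

theorem nf_mem_Om (i) : D.nf i ∈ CI (m + 3) D.Om :=
  conj_mem_CI D.M_inv_mem D.M_mem D.f0_mem_Om i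

theorem det_mem : D.M.det ∈ D.Om := by
  rw [Matrix.det_apply]
  refine sum_mem fun s _ => ?_
  refine zsmul_mem ?_ _
  exact prod_mem fun i _ => D.M_mem _ _

theorem cm_det (g : GL (Fin (m + 3)) k) :
    (cm L g).det = algebraMap k L (g : Matrix (Fin (m + 3)) (Fin (m + 3)) k).det :=
  (RingHom.map_det (algebraMap k L) _).symm

theorem σ_det (g) : D.σ g D.M.det =
    algebraMap k L (g : Matrix (Fin (m + 3)) (Fin (m + 3)) k).det * D.M.det := by
  have h1 : D.σ g D.M.det = (D.M.map (D.σ g)).det := AlgHom.map_det _ _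
  rw [h1, D.σM, Matrix.det_mul, cm_det]

theorem M_zero (i) : D.M i 0 = D.x i := rfl

theorem nf_mem_F2 (i) : D.nf i ∈ CI (m + 3) D.F2 :=
  mem_CI.2 fun α => coeff_mem_adjoin_cf _ i α

variable [CharZero k]

theorem σ_coeff_nf (g) (i) (α) : D.σ g (coeff α (D.nf i)) = coeff α (D.nf i) := by
  conv_rhs => rw [← congrFun (D.σnf g) i, coeff_map]
  rfl

theorem F2_le : D.F2 ≤ D.inv D.Om := by
  rw [F2, IntermediateField.adjoin_le_iff]
  rintro _ ⟨i, α, rfl⟩
  exact ⟨mem_CI.1 (D.nf_mem_Om i) α, fun g => D.σ_coeff_nf g i α⟩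

end GD

end Pool.Agent.Lib.MP_82c165_ag
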