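import Mathlib

/-!
Invariants of `GL_n(k)` in a field generated over invariant elements by the entries of an
invertible matrix on which the group acts by left multiplication.
-/

namespace Pool.Agent.Lib.MP_82c165_ag

open MvPolynomial Matrix

variable {k L : Type*} [Field k] [Infinite k] [Field L] [Algebra k L] {n : ℕ}

theorem slice_lemma (F2 : IntermediateField k L) (M : Matrix (Fin n) (Fin n) L)
    (hM : M.det ≠ 0) (σ : GL (Fin n) k → L →ₐ[k] L) (hσF : ∀ g, ∀ a ∈ F2, σ g a = a)
    (hσM : ∀ g, M.map (σ g) = (g : Matrix (Fin n) (Fin n) k).map (algebraMap k L) * M)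
    (φ : L)
    (hφ : φ ∈ IntermediateField.adjoin F2 (Set.range fun p : Fin n × Fin n => M p.1 p.2))
    (hinv : ∀ g, σ g φ = φ) : φ ∈ F2 := by
  classical
  obtain ⟨P, Q, hPQ⟩ := (IntermediateField.mem_adjoin_range_iff _ _ _).1 hφ
  set Mv : Fin n × Fin n → L := fun p => M p.1 p.2 with hMv
  by_cases hQ : aeval Mv Q = 0
  · rw [hPQ, hQ, div_zero]; exact zero_mem _
  -- action on polynomial expressions
  have hact : ∀ (g : GL (Fin n) k) (R : MvPolynomial (Fin n × Fin n) F2),
      σ g (aeval Mv R) = aeval (fun p : Fin n × Fin n =>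
        ((g : Matrix (Fin n) (Fin n) k).map (algebraMap k L) * M) p.1 p.2) R := by
    intro g R
    rw [← hσM]
    rw [MvPolynomial.aeval_def, MvPolynomial.aeval_def]
    have h1 := MvPolynomial.eval₂_comp_left (σ g : L →+* L) (algebraMap F2 L) Mv R
    have h2 : (σ g : L →+* L).comp (algebraMap F2 L) = algebraMap F2 L := by
      ext a
      exact hσF g a a.2
    rw [h2] at h1
    exact h1
  -- the polynomial identity
  let T : MvPolynomial (Fin n × Fin n) F2 → MvPolynomial (Fin n × Fin n) L :=
    fun R => aeval (fun p : Fin n × Fin n => ∑ l, X (p.1, l) * C (M l p.2)) R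
  have hT : ∀ (R : MvPolynomial (Fin n × Fin n) F2) (h : Fin n × Fin n → L),
      eval h (T R) = aeval (fun p : Fin n × Fin n => (Matrix.of (fun i j => h (i, j)) * M) p.1 p.2) R := by
    intro R h
    have h1 := MvPolynomial.eval₂_comp_left (eval h)
      (algebraMap F2 (MvPolynomial (Fin n × Fin n) L))
      (fun p : Fin n × Fin n => ∑ l, X (p.1, l) * C (M l p.2)) R
    change eval h (eval₂ _ _ R) = _
    rw [h1, MvPolynomial.aeval_def]
    congr 1
    · ext a
      change eval h (C _) = _
      rw [eval_C]; rfl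
    · funext p
      simp [Matrix.mul_apply]
  let Φ : MvPolynomial (Fin n × Fin n) L :=
    (T P * C (aeval Mv Q) - C (aeval Mv P) * T Q) * (mvPolynomialX (Fin n) (Fin n) L).det
  have hΦ : Φ = 0 := by
    have hs : ∀ _ : Fin n × Fin n, (Set.range (algebraMap k L)).Infinite := fun _ =>
      Set.infinite_range_of_injective (algebraMap k L).injective
    refine MvPolynomial.funext_set (fun _ => Set.range (algebraMap k L)) hs fun h hh => ?_
    rw [map_zero]
    have hh' : ∀ p, ∃ c : k, algebraMap k L c = h p := fun p => hh p (Set.mem_univ _)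
    choose h0 hh0 using hh'
    let g0 : Matrix (Fin n) (Fin n) k := Matrix.of fun i j => h0 (i, j)
    have hg0 : Matrix.of (fun i j => h (i, j)) = g0.map (algebraMap k L) := by
      ext i j
      exact (hh0 (i, j)).symm
    have hdet : eval h (mvPolynomialX (Fin n) (Fin n) L).det = algebraMap k L g0.det := by
      have h1 : eval h (mvPolynomialX (Fin n) (Fin n) L).det =
          ((mvPolynomialX (Fin n) (Fin n) L).map (eval h)).det := RingHom.map_det _ _
      have h2 : (mvPolynomialX (Fin n) (Fin n) L).map (eval h) = g0.map (algebraMap k L) := by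
        rw [← hg0]
        ext i j
        simp
      rw [h1, h2]
      exact (RingHom.map_det (algebraMap k L) _).symm
    by_cases hd : g0.det = 0
    · change eval h (_ * _) = 0
      rw [map_mul, hdet, hd, map_zero, mul_zero]
    · have hu : IsUnit g0 := by
        rw [Matrix.isUnit_iff_isUnit_det]; exact isUnit_iff_ne_zero.2 hd
      obtain ⟨g, hg⟩ := hu
      have hP := hact g P
      have hQ' := hact g Q
      have hTP := hT P h
      have hTQ := hT Q h
      rw [hg0, ← hg] at hTP hTQ
      rw [← hTP] at hP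
      rw [← hTQ] at hQ'
      have h1 := hinv g
      rw [hPQ, map_div₀] at h1
      have hQ0 : σ g (aeval Mv Q) ≠ 0 := (map_ne_zero (σ g)).2 hQ
      rw [div_eq_div_iff hQ0 hQ, hP, hQ'] at h1
      change eval h (_ * _) = 0
      rw [map_mul, map_sub, map_mul, map_mul, eval_C, eval_C, h1, sub_self, zero_mul]
  have hfac : T P * C (aeval Mv Q) - C (aeval Mv P) * T Q = 0 :=
    (mul_eq_zero.1 hΦ).resolve_right (det_mvPolynomialX_ne_zero (Fin n) L)
  have hQne : Q ≠ 0 := fun h => hQ (by rw [h, map_zero])
  have hinf : Infinite F2 := Infinite.of_injective (algebraMap k F2) (algebraMap k F2).injective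
  obtain ⟨g0, hg0⟩ : ∃ g0 : Fin n × Fin n → F2, eval g0 Q ≠ 0 := by
    by_contra hcon
    push Not at hcon
    exact hQne (MvPolynomial.funext fun x => by rw [hcon x, map_zero])
  let G0 : Matrix (Fin n) (Fin n) L := Matrix.of fun i j => (g0 (i, j) : L)
  let h : Fin n × Fin n → L := fun p => (G0 * M⁻¹) p.1 p.2
  have hh : (Matrix.of (fun i j => h (i, j)) * M) = G0 := by
    have h1 : Matrix.of (fun i j => h (i, j)) = G0 * M⁻¹ := rfl
    rw [h1, Matrix.mul_assoc, Matrix.nonsing_inv_mul _ (isUnit_iff_ne_zero.2 hM), Matrix.mul_one]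
  have hev : ∀ R : MvPolynomial (Fin n × Fin n) F2, eval h (T R) = algebraMap F2 L (eval g0 R) := by
    intro R
    rw [hT, hh]
    have h1 := MvPolynomial.eval₂_comp_left (algebraMap F2 L) (RingHom.id F2) g0 R
    rw [RingHom.comp_id] at h1
    rw [MvPolynomial.aeval_def]
    exact h1.symm
  have h1 := congrArg (eval h) hfac
  rw [map_sub, map_mul, map_mul, eval_C, eval_C, hev, hev, map_zero, sub_eq_zero] at h1
  have hne : algebraMap F2 L (eval g0 Q) ≠ 0 := fun h2 =>
    hg0 ((algebraMap F2 L).injective (by rw [h2, map_zero]))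
  have h2 : φ = algebraMap F2 L (eval g0 P) / algebraMap F2 L (eval g0 Q) := by
    rw [hPQ, div_eq_div_iff hQ hne, ← h1]
  rw [h2]
  exact div_mem (eval g0 P).2 (eval g0 Q).2

end Pool.Agent.Lib.MP_82c165_ag
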