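import Mathlib
import Pool.Agent.Lib.MP_82c165_ag.Fields
import Pool.Agent.Lib.MP_82c165_ag.Slice

/-!
Invariants of the generic situation.
-/

namespace Pool.Agent.Lib.MP_82c165_ag

open MvPolynomial Matrix

universe u v

theorem adjoin_le_restrict {k L : Type*} [Field k] [Field L] [Algebra k L]
    (F' : IntermediateField k L) {S T : Set L}
    (h : S ⊆ IntermediateField.adjoin F' T) :
    IntermediateField.adjoin k S ≤ (IntermediateField.adjoin F' T).restrictScalars k := by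
  rw [IntermediateField.adjoin_le_iff]
  exact h

namespace GD

variable {k : Type u} [Field k] {m e : ℕ} {L : Type v} [Field L] [Algebra k L]
  (D : GD k m e L) [CharZero k]

theorem inv_Om : D.inv D.Om = D.F2 := by
  refine le_antisymm ?_ D.F2_le
  rintro φ ⟨hφ, hinv⟩
  have : Infinite k := inferInstance
  refine slice_lemma D.F2 D.M D.det_ne_zero D.σ (fun g a ha => (D.F2_le ha).2 g) D.σM φ ?_ hinv
  set N := IntermediateField.adjoin D.F2
    (Set.range fun p : Fin (m + 3) × Fin (m + 3) => D.M p.1 p.2) with hN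
  have hMN : ∀ i j, D.M i j ∈ N.restrictScalars k := fun i j =>
    IntermediateField.subset_adjoin D.F2 _ ⟨(i, j), rfl⟩
  have hnf : ∀ i, D.nf i ∈ CI (m + 3) (N.restrictScalars k) := fun i =>
    mem_CI.2 fun α => N.algebraMap_mem ⟨_, mem_CI.1 (D.nf_mem_F2 i) α⟩
  have hle : D.Om ≤ N.restrictScalars k := by
    rw [Om, IntermediateField.adjoin_le_iff]
    rintro _ (⟨i, α, rfl⟩ | ⟨i, rfl⟩)
    · rw [D.f0_eq]
      exact mem_CI.1 (conj_mem_CI hMN (inv_mem_of_mem hMN) hnf i) α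
    · rw [← D.M_zero]
      exact hMN i 0
  exact hle hφ

end GD

/-! ### Rigidity for a pair of embeddings -/

namespace GD

variable {k : Type u} [Field k] {m e : ℕ} {L : Type v} [Field L] [Algebra k L]
  (D : GD k m e L) [CharZero k] [IsAlgClosed k]

theorem rigid_step (he : 1 ≤ e) {Ω : Type*} [Field Ω] (τ₁ τ₂ : L →+* Ω)
    (hf0 : ∀ i α, τ₁ (coeff α (D.f0 i)) = τ₂ (coeff α (D.f0 i)))
    (hnf : ∀ i α, τ₁ (coeff α (D.nf i)) = τ₂ (coeff α (D.nf i))) :
    ∃ ζ : k, ζ ^ e = 1 ∧ D.M.map τ₂ = τ₁ (algebraMap k L ζ) • D.M.map τ₁ := by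
  set F := fun i => MvPolynomial.map τ₁ (D.f0 i) with hF
  set G := fun i => MvPolynomial.map τ₁ (D.nf i) with hG
  have hF2 : F = fun i => MvPolynomial.map τ₂ (D.f0 i) := by
    funext i
    ext α
    rw [hF]
    simp only [coeff_map]
    exact hf0 i α
  have hG2 : G = fun i => MvPolynomial.map τ₂ (D.nf i) := by
    funext i
    ext α
    rw [hG]
    simp only [coeff_map]
    exact hnf i α
  have e1 : D.M.map τ₁ * (D.M.map τ₁)⁻¹ = 1 := by
    rw [map_matrix_inv, ← Matrix.map_mul, D.M_mul_inv]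
    exact Matrix.map_one _ (map_zero _) (map_one _)
  have e2 : D.M.map τ₂ * (D.M.map τ₂)⁻¹ = 1 := by
    rw [map_matrix_inv, ← Matrix.map_mul, D.M_mul_inv]
    exact Matrix.map_one _ (map_zero _) (map_one _)
  have e1' : (D.M.map τ₁)⁻¹ * D.M.map τ₁ = 1 := mul_eq_one_comm.1 e1
  have e2' : (D.M.map τ₂)⁻¹ * D.M.map τ₂ = 1 := mul_eq_one_comm.1 e2
  have c1 : F = conj (D.M.map τ₁) (D.M.map τ₁)⁻¹ G := by
    funext i
    rw [hF]
    simp only
    conv_lhs => rw [D.f0_eq]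
    rw [map_conj, ← map_matrix_inv]
  have c2 : F = conj (D.M.map τ₂) (D.M.map τ₂)⁻¹ G := by
    rw [hF2, hG2]
    funext i
    conv_lhs => rw [D.f0_eq]
    rw [map_conj, ← map_matrix_inv]
  have c3 : G = conj (D.M.map τ₁)⁻¹ (D.M.map τ₁) F := by
    rw [c1, conj_conj, e1', conj_one]
  set H := D.M.map τ₂ * (D.M.map τ₁)⁻¹ with hH
  set H' := D.M.map τ₁ * (D.M.map τ₂)⁻¹ with hH'
  have hHH' : H * H' = 1 := by
    rw [hH, hH', Matrix.mul_assoc, ← Matrix.mul_assoc (D.M.map τ₁)⁻¹, e1', Matrix.one_mul, e2]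
  have hH'H : H' * H = 1 := mul_eq_one_comm.1 hHH'
  have c4 : F = conj H H' F := by
    conv_lhs => rw [c2, c3, conj_conj]
  have hev : ∀ v, ev2 (τ₁.comp (D.ae : MvPolynomial (Coeff (m + 3) (e + 1) ⊕ Fin (m + 3)) k →+* L)) (f0R k m e) v = fun i => eval v (F i) := by
    intro v
    funext i
    have h1 : F i = MvPolynomial.map (τ₁.comp (D.ae : MvPolynomial (Coeff (m + 3) (e + 1) ⊕ Fin (m + 3)) k →+* L)) (f0R k m e i) := by
      rw [← MvPolynomial.map_map]
      have := congrFun D.map_ae_f0R i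
      rw [this]
    rw [h1, MvPolynomial.eval_map, ev2]
  have hcomm : ∀ v, H *ᵥ ev2 (τ₁.comp (D.ae : MvPolynomial (Coeff (m + 3) (e + 1) ⊕ Fin (m + 3)) k →+* L)) (f0R k m e) v =
      ev2 (τ₁.comp (D.ae : MvPolynomial (Coeff (m + 3) (e + 1) ⊕ Fin (m + 3)) k →+* L)) (f0R k m e) (H *ᵥ v) := by
    intro v
    rw [hev, hev]
    conv_rhs => rw [c4]
    rw [eval_conj, Matrix.mulVec_mulVec, hH'H, Matrix.one_mulVec]
  have hHu : IsUnit H := ⟨⟨H, H', hHH', hH'H⟩, rfl⟩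
  have hinj : Function.Injective (τ₁.comp (D.ae : MvPolynomial (Coeff (m + 3) (e + 1) ⊕ Fin (m + 3)) k →+* L)) := τ₁.injective.comp D.ae_inj
  have hev' : ∀ i, MvPolynomial.map (evS k m e : _ →+* k) (f0R k m e i) = f1P m k (e + 1) i :=
    fun i => congrFun map_evS_f0R i
  obtain ⟨ζ, hζ, hHζ⟩ := rigidity (R := MvPolynomial (Coeff (m + 3) (e + 1) ⊕ Fin (m + 3)) k)
    (k := k) (evS k m e) (τ₁.comp (D.ae : MvPolynomial (Coeff (m + 3) (e + 1) ⊕ Fin (m + 3)) k →+* L))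
    hinj he (f0R k m e) (fun i => f0R_homog i) hev' H hHu hcomm
  refine ⟨ζ, hζ, ?_⟩
  have h1 : D.M.map τ₂ = H * D.M.map τ₁ := by
    rw [hH, Matrix.mul_assoc, e1', Matrix.mul_one]
  rw [h1, hHζ, Matrix.smul_mul, Matrix.one_mul]
  congr 1
  rw [RingHom.comp_apply]
  congr 1
  exact D.ae.commutes ζ

end GD

end Pool.Agent.Lib.MP_82c165_ag
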