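import Mathlib
import Pool.Agent.Lib.MP_82c165_ag.Invariants
import Pool.Agent.Lib.MP_82c165_ag.Count

/-!
Algebraic independence by counting.
-/

namespace Pool.Agent.Lib.MP_82c165_ag

open MvPolynomial Matrix

universe u v

theorem divfree_coeff {k L : Type*} [Field k] [Field L] [Algebra k L] [CharZero L] {m e : ℕ}
    (F : Fin (m + 3) → MvPolynomial (Fin (m + 3)) L) (hF : ∀ i, (F i).IsHomogeneous (e + 1))
    (hdiv : divF F = 0) (E : IntermediateField k L)
    (hE : ∀ c : I0 m e, coeff c.1.2.1 (F c.1.1) ∈ E) (i : Fin (m + 3)) (α : Fin (m + 3) →₀ ℕ) :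
    coeff α (F i) ∈ E := by
  classical
  by_cases hα : α.degree = e + 1
  · by_cases hP : P0 (m := m) (e := e) (i, ⟨α, hα⟩)
    · exact hE ⟨(i, ⟨α, hα⟩), hP⟩
    · rw [P0, not_not] at hP
      obtain ⟨h1, h2⟩ := hP
      simp only at h1 h2
      subst h1
      set β := α - Finsupp.single (Fin.last (m + 2)) 1 with hβ
      have h3 : β + Finsupp.single (Fin.last (m + 2)) 1 = α := by
        rw [hβ, tsub_add_cancel_of_le]
        rw [Finsupp.single_le_iff]
        omega
      have hdegβ : β.degree = e := by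
        have h4 := congrArg Finsupp.degree h3
        rw [map_add, Finsupp.degree_single, hα] at h4
        omega
      have h4 := congrArg (coeff β) hdiv
      rw [divF, coeff_sum, coeff_zero] at h4
      simp only [coeff_pderiv] at h4
      rw [← Finset.add_sum_erase _ _ (Finset.mem_univ (Fin.last (m + 2))), h3] at h4
      have h5 : ((β (Fin.last (m + 2)) : L) + 1) ≠ 0 := Nat.cast_add_one_ne_zero _
      have h6 : coeff α (F (Fin.last (m + 2))) =
          - (∑ x ∈ Finset.univ.erase (Fin.last (m + 2)),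
            coeff (β + Finsupp.single x 1) (F x) * ((β x : L) + 1)) /
              ((β (Fin.last (m + 2)) : L) + 1) := by
        rw [eq_div_iff h5]
        linear_combination h4
      rw [h6]
      have hnat : ∀ a : ℕ, ((a : L) + 1) ∈ E := fun a => add_mem (natCast_mem E a) (one_mem E)
      refine div_mem (neg_mem (sum_mem fun x hx => mul_mem ?_ (hnat _))) (hnat _)
      have hx1 : x ≠ Fin.last (m + 2) := (Finset.mem_erase.1 hx).1
      exact hE ⟨(x, ⟨β + Finsupp.single x 1, by
        rw [map_add, Finsupp.degree_single, hdegβ]⟩), fun h => hx1 h.1⟩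
  · rw [(hF i).coeff_eq_zero hα]
    exact zero_mem _

namespace GD

variable {k : Type u} [Field k] {m e : ℕ} {L : Type v} [Field L] [Algebra k L]
  (D : GD k m e L)

/-- the free coefficients of `f0` -/
noncomputable def a0 (c : I0 m e) : L := coeff c.1.2.1 (D.f0 c.1.1)

/-- the coefficients of `q` -/
noncomputable def qc (β : Mon (m + 3) e) : L := coeff β.1 D.q

/-- the free coefficients of the normal form -/
noncomputable def sc (c : IS m e) : L := coeff c.1.2.1 (D.nf c.1.1)

variable [CharZero k]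

theorem charZero (_ : GD k m e L) : CharZero L :=
  charZero_of_injective_algebraMap (algebraMap k L).injective

theorem K0_eq : D.K0 = IntermediateField.adjoin k (Set.range D.a0) := by
  have := D.charZero
  apply le_antisymm
  · rw [K0, IntermediateField.adjoin_le_iff]
    rintro _ ⟨i, α, rfl⟩
    exact divfree_coeff D.f0 D.f0_homog D.divF_f0 (IntermediateField.adjoin k (Set.range D.a0))
      (fun c => IntermediateField.subset_adjoin _ _ ⟨c, rfl⟩) i α
  · rw [IntermediateField.adjoin_le_iff]
    rintro _ ⟨c, rfl⟩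
    exact coeff_mem_adjoin_cf _ _ _

omit [CharZero k] in
theorem a_eq (c : Coeff (m + 3) (e + 1)) : D.a c = coeff c.2.1 (D.f c.1) := by
  rw [f, coeff_formOf]

omit [CharZero k] in
theorem coeff_q_mem {E : IntermediateField k L} (h : ∀ β, D.qc β ∈ E) (β : Fin (m + 3) →₀ ℕ) :
    coeff β D.q ∈ E := by
  by_cases hβ : β.degree = e
  · exact h ⟨β, hβ⟩
  · rw [D.q_homog.coeff_eq_zero hβ]
    exact zero_mem _

theorem indep1 : AlgebraicIndependent k (Sum.elim (Sum.elim D.qc D.x) D.a0) := by
  have := D.charZero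
  set E := IntermediateField.adjoin k (Set.range (Sum.elim D.a D.x)) with hE
  have hK1E : D.K1 ≤ E := IntermediateField.adjoin.mono _ _ _ (by
    rintro _ ⟨c, rfl⟩; exact ⟨Sum.inl c, rfl⟩)
  refine algebraicIndependent_of_card_in E (Sum.elim D.a D.x)
    (fun j => IntermediateField.subset_adjoin _ _ ⟨j, rfl⟩) D.ind _ ?_ ?_ ?_
  · rintro ((β | i) | c)
    · exact hK1E (mem_CI.1 D.q_mem_K1 _)
    · exact IntermediateField.subset_adjoin _ _ ⟨Sum.inr i, rfl⟩
    · exact hK1E (D.K0_le_K1 (coeff_mem_adjoin_cf _ _ _))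
  · intro a ha
    set N := IntermediateField.adjoin k (Set.range (Sum.elim (Sum.elim D.qc D.x) D.a0)) with hN
    have hle : E ≤ N := by
      rw [hE, IntermediateField.adjoin_le_iff]
      rintro _ ⟨c | i, rfl⟩
      · simp only [Sum.elim_inl]
        rw [D.a_eq, D.f_eq]
        refine mem_CI.1 (add_mem ?_ (mul_mem (X_mem_CI _) ?_)) _
        · refine mem_CI.2 fun α => ?_
          exact divfree_coeff D.f0 D.f0_homog D.divF_f0 N
            (fun c => IntermediateField.subset_adjoin _ _ ⟨Sum.inr c, rfl⟩) _ α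
        · refine mem_CI.2 fun β => D.coeff_q_mem (fun β => ?_) β
          exact IntermediateField.subset_adjoin _ _ ⟨Sum.inl (Sum.inl β), rfl⟩
      · exact IntermediateField.subset_adjoin _ _ ⟨Sum.inl (Sum.inr i), rfl⟩
    have h1 : a ∈ N := hle ha
    exact isAlgebraic_algebraMap (⟨a, h1⟩ : N)
  · rw [Nat.card_sum, Nat.card_sum, Nat.card_sum, ← card_I0]
    omega

theorem indep_qx : AlgebraicIndependent D.K0 (Sum.elim D.qc D.x) := by
  rw [K0_eq]
  exact algebraicIndependent_adjoin_field D.indep1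

theorem indep_q : AlgebraicIndependent D.K0 D.qc :=
  D.indep_qx.comp Sum.inl Sum.inl_injective

theorem indep_x : AlgebraicIndependent D.K0 D.x :=
  D.indep_qx.comp Sum.inr Sum.inr_injective

theorem indep_xa : AlgebraicIndependent k (Sum.elim D.x D.a0) := by
  have h := D.indep1.comp (Sum.elim (fun i => Sum.inl (Sum.inr i)) Sum.inr)
    (by
      rw [Sum.elim_injective]
      refine ⟨fun i j h => by simpa using h, Sum.inr_injective, fun a b => by simp⟩)
  have h1 : (Sum.elim (Sum.elim D.qc D.x) D.a0) ∘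
      (Sum.elim (fun i => Sum.inl (Sum.inr i)) Sum.inr) = Sum.elim D.x D.a0 := by
    funext i
    cases i <;> rfl
  rwa [h1] at h

/-! ### The normal form -/

omit [CharZero k] in
theorem M_mulVec_single (i : Fin (m + 3)) : D.M *ᵥ Pi.single i 1 = iter D.f0 D.x i := by
  rw [Matrix.mulVec_single_one]
  rfl

theorem eval_nf (i j : Fin (m + 3)) (hi : i ≠ Fin.last (m + 2)) :
    eval (Pi.single i 1) (D.nf j) = (Pi.single (i + 1) 1 : Fin (m + 3) → L) j := by
  have h1 : (fun j => eval (Pi.single i 1) (D.nf j)) = (Pi.single (i + 1) 1 : Fin (m + 3) → L) := by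
    rw [nf, eval_conj, D.M_mulVec_single]
    have h2 : (fun l => eval (iter D.f0 D.x i) (D.f0 l)) = iter D.f0 D.x (i + 1 : Fin (m + 3)) := by
      have h3 : ((i + 1 : Fin (m + 3)) : ℕ) = (i : ℕ) + 1 := by
        rw [Fin.val_add_one_of_lt]
        exact lt_of_le_of_ne (Fin.le_last _) hi
      rw [h3]; rfl
    rw [h2, ← D.M_mulVec_single, Matrix.mulVec_mulVec, D.M_inv_mul, Matrix.one_mulVec]
  exact congrFun h1 j

theorem coeff_nf_const (i j : Fin (m + 3)) (hi : i ≠ Fin.last (m + 2)) :
    coeff (Finsupp.single i (e + 1)) (D.nf j) = (Pi.single (i + 1) 1 : Fin (m + 3) → L) j := by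
  classical
  rw [← D.eval_nf i j hi, MvPolynomial.eval_eq']
  symm
  rw [Finset.sum_eq_single (Finsupp.single i (e + 1))]
  · rw [Finset.prod_eq_one, mul_one]
    intro l _
    by_cases hl : l = i
    · subst hl; simp
    · rw [Finsupp.single_eq_of_ne hl, pow_zero]
  · intro α hα hne
    have hdeg : α.degree = e + 1 := by
      by_contra h
      exact (mem_support_iff.1 hα) ((D.nf_homog j).coeff_eq_zero h)
    obtain ⟨l, hl, hαl⟩ : ∃ l, l ≠ i ∧ α l ≠ 0 := by
      by_contra hcon
      push Not at hcon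
      apply hne
      have h1 : α = Finsupp.single i (α i) := by
        ext l
        by_cases hl : l = i
        · subst hl; simp
        · rw [Finsupp.single_eq_of_ne hl, hcon l hl]
      rw [h1, Finsupp.degree_single] at hdeg
      rw [h1, hdeg]
    rw [Finset.prod_eq_zero (Finset.mem_univ l), mul_zero]
    rw [Pi.single_eq_of_ne hl, zero_pow hαl]
  · intro h
    rw [notMem_support_iff.1 h, zero_mul]

theorem F2_eq : D.F2 = IntermediateField.adjoin k (Set.range D.sc) := by
  have := D.charZero
  apply le_antisymm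
  · rw [F2, IntermediateField.adjoin_le_iff]
    rintro _ ⟨i, α, rfl⟩
    refine divfree_coeff D.nf D.nf_homog D.divF_nf (IntermediateField.adjoin k (Set.range D.sc))
      (fun c => ?_) i α
    by_cases hc : Q0 c.1
    · obtain ⟨i, hi, hα⟩ := hc
      rw [hα, D.coeff_nf_const i _ hi, Pi.single_apply]
      split_ifs
      · exact one_mem _
      · exact zero_mem _
    · exact IntermediateField.subset_adjoin _ _ ⟨⟨c.1, c.2, hc⟩, rfl⟩
  · rw [IntermediateField.adjoin_le_iff]
    rintro _ ⟨c, rfl⟩
    exact coeff_mem_adjoin_cf _ _ _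

/-- the family generating `Om` algebraically -/
theorem indep2 : AlgebraicIndependent k
    (Sum.elim D.sc (fun p : Fin (m + 3) × Fin (m + 3) => D.M p.1 p.2)) := by
  have := D.charZero
  refine algebraicIndependent_of_card_in D.Om (Sum.elim D.x D.a0) ?_ D.indep_xa _ ?_ ?_ ?_
  · rintro (i | c)
    · exact D.x_mem_Om i
    · exact D.K0_le_Om (coeff_mem_adjoin_cf _ _ _)
  · rintro (c | p)
    · exact (D.F2_le (coeff_mem_adjoin_cf _ _ _)).1
    · exact D.M_mem _ _
  · intro a ha
    set N := IntermediateField.adjoin k (Set.range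
      (Sum.elim D.sc (fun p : Fin (m + 3) × Fin (m + 3) => D.M p.1 p.2))) with hN
    have hM : ∀ i j, D.M i j ∈ N := fun i j =>
      IntermediateField.subset_adjoin _ _ ⟨Sum.inr (i, j), rfl⟩
    have hF2 : D.F2 ≤ N := by
      rw [D.F2_eq]
      apply IntermediateField.adjoin.mono
      rintro _ ⟨c, rfl⟩
      exact ⟨Sum.inl c, rfl⟩
    have hnf : ∀ i, D.nf i ∈ CI (m + 3) N := fun i =>
      mem_CI.2 fun α => hF2 (mem_CI.1 (D.nf_mem_F2 i) α)
    have hle : D.Om ≤ N := by
      rw [Om, IntermediateField.adjoin_le_iff]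
      rintro _ (⟨i, α, rfl⟩ | ⟨i, rfl⟩)
      · rw [D.f0_eq]
        exact mem_CI.1 (conj_mem_CI hM (inv_mem_of_mem hM) hnf i) α
      · rw [← D.M_zero]
        exact hM i 0
    exact isAlgebraic_algebraMap (⟨a, hle ha⟩ : N)
  · rw [Nat.card_sum, Nat.card_sum, ← card_IS, Nat.card_prod]
    simp only [Nat.card_eq_fintype_card, Fintype.card_fin]
    have : (m + 3) * (m + 3) = (m + 3) * (m + 2) + (m + 3) := by ring
    omega

theorem indep_s : AlgebraicIndependent k D.sc :=
  D.indep2.comp Sum.inl Sum.inl_injective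

end GD

end Pool.Agent.Lib.MP_82c165_ag
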