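import Mathlib
import Pool.Agent.Lib.MP_82c165_ag.Indep

/-!
Invariant frames in the generic situation.
-/

namespace Pool.Agent.Lib.MP_82c165_ag

open MvPolynomial Matrix

universe u v

theorem algInd_of_le {k L : Type*} [Field k] [Field L] [Algebra k L]
    {F' K : IntermediateField k L} (h : F' ≤ K) {ι : Type*} {z : ι → L}
    (hz : AlgebraicIndependent K z) : AlgebraicIndependent F' z := by
  let _ : Algebra F' K := (IntermediateField.inclusion h).toRingHom.toAlgebra
  have : IsScalarTower F' K L := IsScalarTower.of_algebraMap_eq (fun x => rfl)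
  exact hz.restrictScalars (IntermediateField.inclusion h).injective

namespace GD

variable {k : Type u} [Field k] {m e : ℕ} {L : Type v} [Field L] [Algebra k L]
  (D : GD k m e L) [CharZero k] [IsAlgClosed k]

theorem mem_adjoin_inv (he : 1 ≤ e) (w : L)
    (hw : ∀ (Ω : Type v) (_ : Field Ω) (τ₁ τ₂ : L →+* Ω) (ζ : k), ζ ^ e = 1 →
      D.M.map τ₂ = τ₁ (algebraMap k L ζ) • D.M.map τ₁ → τ₁ w = τ₂ w) :
    w ∈ IntermediateField.adjoin D.K0 (D.inv D.Om : Set L) := by
  have := D.charZero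
  refine mem_of_embeddings (IntermediateField.adjoin D.K0 (D.inv D.Om : Set L)).toSubfield w ?_
  intro Ω _ τ₁ τ₂ hτ
  obtain ⟨ζ, hζ, hM⟩ := D.rigid_step he τ₁ τ₂
    (fun i α => hτ _ ((IntermediateField.adjoin D.K0 (D.inv D.Om : Set L)).algebraMap_mem
      (⟨_, coeff_mem_adjoin_cf D.f0 i α⟩ : D.K0)))
    (fun i α => hτ _ (IntermediateField.subset_adjoin D.K0 _
      (D.F2_le (coeff_mem_adjoin_cf D.nf i α))))
  exact hw Ω _ τ₁ τ₂ ζ hζ hM

section pairs

variable {D}

omit [CharZero k] [IsAlgClosed k] in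
theorem pair_det {Ω : Type*} [Field Ω] {τ₁ τ₂ : L →+* Ω} {ζ : k}
    (hM : D.M.map τ₂ = τ₁ (algebraMap k L ζ) • D.M.map τ₁) :
    τ₂ D.M.det = τ₁ (algebraMap k L ζ) ^ (m + 3) * τ₁ D.M.det := by
  have h1 : τ₂ D.M.det = (D.M.map τ₂).det := RingHom.map_det _ _
  have h2 : τ₁ D.M.det = (D.M.map τ₁).det := RingHom.map_det _ _
  rw [h1, h2, hM, Matrix.det_smul, Fintype.card_fin]

omit [CharZero k] [IsAlgClosed k] in
theorem pair_x {Ω : Type*} [Field Ω] {τ₁ τ₂ : L →+* Ω} {ζ : k}
    (hM : D.M.map τ₂ = τ₁ (algebraMap k L ζ) • D.M.map τ₁) (i : Fin (m + 3)) :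
    τ₂ (D.x i) = τ₁ (algebraMap k L ζ) * τ₁ (D.x i) := by
  have h1 := congrFun (congrFun hM i) 0
  exact h1

end pairs

theorem det_pow_mem (he : 1 ≤ e) :
    D.M.det ^ e ∈ IntermediateField.adjoin D.K0 (D.inv D.Om : Set L) := by
  refine D.mem_adjoin_inv he _ ?_
  intro Ω _ τ₁ τ₂ ζ hζ hM
  have hζ' : τ₁ (algebraMap k L ζ) ^ e = 1 := by rw [← map_pow, ← map_pow, hζ, map_one, map_one]
  rw [map_pow, map_pow, pair_det hM, mul_pow, ← pow_mul, mul_comm (m + 3) e, pow_mul, hζ',
    one_pow, one_mul]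

theorem u_mem (he : 1 ≤ e) {t s : ℕ} (hts : (m + 3) * t = 1 + e * s) (i : Fin (m + 3)) :
    D.x i / D.M.det ^ t ∈ IntermediateField.adjoin D.K0 (D.inv D.Om : Set L) := by
  refine D.mem_adjoin_inv he _ ?_
  intro Ω _ τ₁ τ₂ ζ hζ hM
  have hζ' : τ₁ (algebraMap k L ζ) ^ e = 1 := by rw [← map_pow, ← map_pow, hζ, map_one, map_one]
  rw [map_div₀, map_div₀, map_pow, map_pow, pair_det hM, pair_x hM, mul_pow, ← pow_mul, hts,
    pow_add, pow_mul, pow_one, hζ', one_pow, mul_one]
  rw [mul_div_mul_left]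
  intro h
  have h1 : ζ = 0 := by
    rw [map_eq_zero, map_eq_zero] at h
    exact h
  rw [h1, zero_pow (by omega)] at hζ
  exact zero_ne_one hζ

end GD

/-- a frame which is semi-invariant -/
structure FD {k : Type u} [Field k] {m e : ℕ} {L : Type v} [Field L] [Algebra k L]
    (D : GD k m e L) (t : ℕ) where
  b : Matrix (Fin (m + 3)) (Fin (m + 3)) L
  c : L
  hb : ∀ i j, b i j ∈ D.K0
  hdet : b.det ≠ 0
  hc : c ∈ D.K0
  hc0 : c ≠ 0
  hy : ∀ i, (∑ j, b i j * D.x j) / D.M.det ^ t ∈ D.inv D.Om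
  hce : c * D.M.det ^ e ∈ D.inv D.Om

namespace GD

variable {k : Type u} [Field k] {m e : ℕ} {L : Type v} [Field L] [Algebra k L]
  (D : GD k m e L) [CharZero k] [IsAlgClosed k]

theorem exists_FD (he : 1 ≤ e) {t s : ℕ} (hts : (m + 3) * t = 1 + e * s) :
    Nonempty (FD D t) := by
  classical
  have hdet0 := D.det_ne_zero
  have hF1 : ∀ x ∈ (D.inv D.Om).toSubfield, ∀ g, (D.σ g : L →+* L) x = x := fun x hx g => hx.2 g
  have hKF : ∀ a : D.K0, (∀ g, D.σR D.K0 D.σ_mem_K0 g a = a) →
      algebraMap D.K0 L a ∈ (D.inv D.Om).toSubfield := by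
    intro a ha
    refine ⟨D.K0_le_Om a.2, fun g => ?_⟩
    have h1 := congrArg (fun x : D.K0 => (x : L)) (ha g)
    exact h1
  have hgdet : ∀ g : GL (Fin (m + 3)) k,
      algebraMap k L (g : Matrix (Fin (m + 3)) (Fin (m + 3)) k).det ≠ 0 := by
    intro g
    rw [Ne, map_eq_zero]
    have := (Matrix.isUnit_iff_isUnit_det _).1 g.isUnit
    exact this.ne_zero
  -- the first frame
  let w : Fin (m + 3) → L := fun i => D.x i / D.M.det ^ t
  have hlin : LinearIndependent D.K0 w := by
    have h1 : LinearIndependent D.K0 D.x := D.indep_x.linearIndependent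
    have h2 := h1.map' (LinearMap.mulLeft D.K0 (D.M.det ^ t)⁻¹) (by
      rw [LinearMap.ker_eq_bot]
      intro a b hab
      exact mul_left_cancel₀ (inv_ne_zero (pow_ne_zero _ hdet0)) hab)
    have h3 : w = (LinearMap.mulLeft D.K0 (D.M.det ^ t)⁻¹) ∘ D.x := by
      funext i
      simp only [w, Function.comp, LinearMap.mulLeft_apply]
      rw [div_eq_mul_inv, mul_comm]
    rw [h3]; exact h2
  have hσw : ∀ g i, D.σ g (w i) = ∑ j, (algebraMap k L
      ((g : Matrix (Fin (m + 3)) (Fin (m + 3)) k) i j /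
        (g : Matrix (Fin (m + 3)) (Fin (m + 3)) k).det ^ t)) * w j := by
    intro g i
    simp only [w]
    rw [map_div₀, map_pow, D.σ_det, D.σ_x, mul_pow, Finset.sum_div]
    refine Finset.sum_congr rfl fun j _ => ?_
    rw [map_div₀, map_pow]
    have := hgdet g
    simp only [cm, Matrix.map_apply]
    field_simp
  have hstab' : ∀ g i, (D.σ g : L →+* L) (w i) ∈ Submodule.span D.K0 (Set.range w) := by
    intro g i
    have h1 : (D.σ g : L →+* L) (w i) = D.σ g (w i) := rfl
    rw [h1, hσw]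
    refine Submodule.sum_mem _ fun j _ => ?_
    have h2 : ∀ a : k, algebraMap k L a * w j = (algebraMap k D.K0 a) • w j := by
      intro a
      rw [Algebra.smul_def]; rfl
    rw [h2]
    exact Submodule.smul_mem _ _ (Submodule.subset_span ⟨j, rfl⟩)
  have hstab : ∀ g i, w i ∈ Submodule.span D.K0 (Set.range fun j => (D.σ g : L →+* L) (w j)) := by
    intro g i
    have h1 : w i = ∑ j, (algebraMap k L
      ((g⁻¹ : GL (Fin (m + 3)) k).1 i j *
        (g : Matrix (Fin (m + 3)) (Fin (m + 3)) k).det ^ t)) * (D.σ g : L →+* L) (w j) := by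
      have h2 : ∀ j, (D.σ g : L →+* L) (w j) = D.σ g (w j) := fun j => rfl
      simp only [h2, hσw, Finset.mul_sum]
      rw [Finset.sum_comm]
      have h3 : ∀ l, ∑ j, (algebraMap k L) ((g⁻¹ : GL (Fin (m + 3)) k).1 i j *
          (g : Matrix (Fin (m + 3)) (Fin (m + 3)) k).det ^ t) *
          ((algebraMap k L) ((g : Matrix (Fin (m + 3)) (Fin (m + 3)) k) j l /
          (g : Matrix (Fin (m + 3)) (Fin (m + 3)) k).det ^ t) * w l) =
          (if i = l then 1 else 0) * w l := by
        intro l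
        have h4 : ((g⁻¹ : GL (Fin (m + 3)) k).1 * (g : Matrix (Fin (m + 3)) (Fin (m + 3)) k)) i l =
            if i = l then 1 else 0 := by
          rw [← Units.val_mul, inv_mul_cancel, Units.val_one, Matrix.one_apply]
        rw [Matrix.mul_apply] at h4
        have h5 := congrArg (algebraMap k L) h4
        rw [map_sum] at h5
        have h6 : (algebraMap k L) (if i = l then 1 else 0) = if i = l then 1 else 0 := by
          split_ifs <;> simp
        rw [h6] at h5
        rw [← h5, Finset.sum_mul]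
        refine Finset.sum_congr rfl fun j _ => ?_
        rw [map_mul, map_div₀, map_pow, map_mul]
        have := hgdet g
        field_simp
      simp only [h3]
      simp
    rw [h1]
    refine Submodule.sum_mem _ fun j _ => ?_
    have h2 : ∀ a : k, algebraMap k L a * (D.σ g : L →+* L) (w j) =
        (algebraMap k D.K0 a) • (D.σ g : L →+* L) (w j) := by
      intro a
      rw [Algebra.smul_def]; rfl
    rw [h2]
    exact Submodule.smul_mem _ _ (Submodule.subset_span ⟨j, rfl⟩)
  obtain ⟨b, hb, hbF⟩ := exists_frame (fun g => (D.σ g : L →+* L)) (D.σR D.K0 D.σ_mem_K0)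
    (D.σR_spec D.K0 D.σ_mem_K0) (D.inv D.Om).toSubfield hF1 hKF w hlin
    (fun i => D.u_mem he hts i) hstab hstab'
  -- the second frame
  let w' : Unit → L := fun _ => D.M.det ^ e
  have hlin' : LinearIndependent D.K0 w' := by
    rw [linearIndependent_unique_iff]
    exact pow_ne_zero _ hdet0
  have hσw' : ∀ g i, D.σ g (w' i) = algebraMap k L
        ((g : Matrix (Fin (m + 3)) (Fin (m + 3)) k).det ^ e) * w' i := by
    intro g i
    simp only [w']
    rw [map_pow, D.σ_det, mul_pow, map_pow]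
  have hstab2' : ∀ g i, (D.σ g : L →+* L) (w' i) ∈ Submodule.span D.K0 (Set.range w') := by
    intro g i
    have h1 : (D.σ g : L →+* L) (w' i) = D.σ g (w' i) := rfl
    rw [h1, hσw' g i]
    have h2 : ∀ a : k, algebraMap k L a * w' i = (algebraMap k D.K0 a) • w' i := by
      intro a
      rw [Algebra.smul_def]; rfl
    rw [h2]
    exact Submodule.smul_mem _ _ (Submodule.subset_span ⟨i, rfl⟩)
  have hstab2 : ∀ g i, w' i ∈
      Submodule.span D.K0 (Set.range fun j => (D.σ g : L →+* L) (w' j)) := by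
    intro g i
    have h1 : w' i = (algebraMap k D.K0
        (((g : Matrix (Fin (m + 3)) (Fin (m + 3)) k).det ^ e)⁻¹)) • (D.σ g : L →+* L) (w' i) := by
      have h2 : (D.σ g : L →+* L) (w' i) = D.σ g (w' i) := rfl
      rw [h2, hσw' g i, Algebra.smul_def]
      have h3 : (algebraMap D.K0 L) ((algebraMap k D.K0)
          (((g : Matrix (Fin (m + 3)) (Fin (m + 3)) k).det ^ e)⁻¹)) =
          (algebraMap k L) (((g : Matrix (Fin (m + 3)) (Fin (m + 3)) k).det ^ e)⁻¹) := rfl
      rw [h3, map_inv₀, map_pow, ← mul_assoc, inv_mul_cancel₀ (pow_ne_zero _ (hgdet g)), one_mul]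
    rw [h1]
    exact Submodule.smul_mem _ _ (Submodule.subset_span ⟨i, rfl⟩)
  obtain ⟨c, hc, hcF⟩ := exists_frame (fun g => (D.σ g : L →+* L)) (D.σR D.K0 D.σ_mem_K0)
    (D.σR_spec D.K0 D.σ_mem_K0) (D.inv D.Om).toSubfield hF1 hKF w' hlin'
    (fun i => D.det_pow_mem he) hstab2 hstab2'
  refine ⟨⟨b.map (algebraMap D.K0 L), c () (), fun i j => (b i j).2, ?_, (c () ()).2, ?_,
    fun i => ?_, ?_⟩⟩
  · have h1 : (b.map (algebraMap D.K0 L)).det = algebraMap D.K0 L b.det :=
      (RingHom.map_det (algebraMap D.K0 L) b).symm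
    rw [h1, Ne, map_eq_zero]
    exact ((Matrix.isUnit_iff_isUnit_det _).1 hb).ne_zero
  · have h1 := ((Matrix.isUnit_iff_isUnit_det _).1 hc).ne_zero
    rw [Matrix.det_unique] at h1
    intro h2
    apply h1
    exact Subtype.ext h2
  · have h1 := hbF i
    have h2 : (∑ j, (b.map (algebraMap D.K0 L)) i j * D.x j) / D.M.det ^ t =
        ∑ j, b i j • w j := by
      rw [Finset.sum_div]
      refine Finset.sum_congr rfl fun j _ => ?_
      rw [Algebra.smul_def, Matrix.map_apply, mul_div_assoc]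
    rw [h2]
    exact h1
  · have h1 := hcF ()
    have h2 : ((c () () : D.K0) : L) * D.M.det ^ e = ∑ j, c () j • w' j := by
      rw [Finset.univ_unique, Finset.sum_singleton, Algebra.smul_def]
      rfl
    rw [h2]
    exact h1

end GD

end Pool.Agent.Lib.MP_82c165_ag
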