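import Mathlib
import Pool.Agent.Lib.MP_82c165_ag.FrameData

/-!
The invariant fields in terms of a semi-invariant frame.
-/

namespace Pool.Agent.Lib.MP_82c165_ag

open MvPolynomial Matrix

universe u v

theorem root_of_unity_mem {k Ω : Type*} [Field k] [IsAlgClosed k] [Field Ω] (φ : k →+* Ω) {e : ℕ}
    (he : 1 ≤ e) {ζ : Ω} (hζ : ζ ^ e = 1) : ∃ ξ : k, ξ ^ e = 1 ∧ φ ξ = ζ := by
  classical
  have hs := IsAlgClosed.splits (Polynomial.X ^ e - 1 : Polynomial k)
  have hne : (Polynomial.X ^ e - 1 : Polynomial k) ≠ 0 :=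
    (Polynomial.monic_X_pow_sub_C (1 : k) (by omega)).ne_zero
  have h1 : (Polynomial.X ^ e - 1 : Polynomial k).eval₂ φ ζ = 0 := by
    simp [hζ]
  have h2 := hs.map φ
  have h3 : ζ ∈ ((Polynomial.X ^ e - 1 : Polynomial k).map φ).roots := by
    rw [Polynomial.mem_roots ((Polynomial.map_ne_zero_iff φ.injective).2 hne)]
    rw [Polynomial.IsRoot, Polynomial.eval_map]
    exact h1
  rw [hs.roots_map φ] at h3
  obtain ⟨ξ, hξ, hξ'⟩ := Multiset.mem_map.1 h3
  refine ⟨ξ, ?_, hξ'⟩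
  have h4 := (Polynomial.mem_roots hne).1 hξ
  simpa [sub_eq_zero] using h4

theorem adjoin_algebraic {K L : Type*} [Field K] [Field L] [Algebra K L] (S : Set L)
    (N : IntermediateField K L) (h : ∀ s ∈ S, IsAlgebraic N s) (a : L)
    (ha : a ∈ IntermediateField.adjoin K S) : IsAlgebraic N a := by
  induction ha using IntermediateField.adjoin_induction with
  | mem x hx => exact h x hx
  | algebraMap x =>
    have h1 := isAlgebraic_algebraMap (R := N) (A := L) (algebraMap K N x)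
    exact h1
  | add x y _ _ hx hy => exact hx.add hy
  | inv x _ hx => exact hx.inv
  | mul x y _ _ hx hy => exact hx.mul hy

namespace GD

variable {k : Type u} [Field k] {m e : ℕ} {L : Type v} [Field L] [Algebra k L]
  (D : GD k m e L)

/-- the scalar matrix `ζ` as an element of the group -/
noncomputable def scal (m : ℕ) (ζ : k) (hζ : ζ ≠ 0) : GL (Fin (m + 3)) k :=
  ⟨ζ • 1, ζ⁻¹ • 1, by
    rw [smul_mul_smul_comm, mul_one, mul_inv_cancel₀ hζ, one_smul], by
    rw [smul_mul_smul_comm, mul_one, inv_mul_cancel₀ hζ, one_smul]⟩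

theorem cm_scal (ζ : k) (hζ : ζ ≠ 0) :
    cm L (scal m ζ hζ) = algebraMap k L ζ • (1 : Matrix (Fin (m + 3)) (Fin (m + 3)) L) := by
  ext i j
  simp only [cm, scal, Matrix.map_apply, Matrix.smul_apply, Matrix.one_apply, smul_eq_mul]
  split_ifs <;> simp

theorem cm_scal_inv (ζ : k) (hζ : ζ ≠ 0) :
    cm L (scal m ζ hζ)⁻¹ = algebraMap k L ζ⁻¹ • (1 : Matrix (Fin (m + 3)) (Fin (m + 3)) L) := by
  have h1 : (scal m ζ hζ)⁻¹ = scal m ζ⁻¹ (inv_ne_zero hζ) := by
    apply Units.ext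
    simp [scal]
  rw [h1, cm_scal]

theorem σ_scal_x (ζ : k) (hζ : ζ ≠ 0) (i : Fin (m + 3)) :
    D.σ (scal m ζ hζ) (D.x i) = algebraMap k L ζ * D.x i := by
  rw [D.σ_x, cm_scal, Finset.sum_eq_single i]
  · simp
  · intro j _ hj
    simp [Matrix.one_apply_ne hj.symm]
  · simp

theorem conj_smul_one {A : Type*} [CommRing A] {n d : ℕ} (a b : A)
    {F : Fin n → MvPolynomial (Fin n) A} (hF : ∀ i, (F i).IsHomogeneous d) (i : Fin n) :
    conj (a • (1 : Matrix (Fin n) (Fin n) A)) (b • (1 : Matrix (Fin n) (Fin n) A)) F i =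
      C (a * b ^ d) * F i := by
  rw [conj, Finset.sum_eq_single i]
  · rw [lsub_smul_one b (hF i), ← mul_assoc, ← map_mul]
    simp
  · intro j _ hj
    simp [Matrix.one_apply_ne hj.symm]
  · simp

theorem σ_scal_coeff_f0 (ζ : k) (hζ : ζ ≠ 0) (hζe : ζ ^ e = 1) (i : Fin (m + 3))
    (α : Fin (m + 3) →₀ ℕ) :
    D.σ (scal m ζ hζ) (coeff α (D.f0 i)) = coeff α (D.f0 i) := by
  have h1 : D.σ (scal m ζ hζ) (coeff α (D.f0 i)) =
      coeff α (conj (cm L (scal m ζ hζ)) (cm L (scal m ζ hζ)⁻¹) D.f0 i) := by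
    rw [← congrFun (D.σf0 _) i, coeff_map]; rfl
  rw [h1, cm_scal, cm_scal_inv, conj_smul_one _ _ D.f0_homog]
  have h2 : algebraMap k L ζ * algebraMap k L ζ⁻¹ ^ (e + 1) = 1 := by
    rw [← map_pow, ← map_mul, inv_pow, pow_succ, hζe, one_mul, mul_inv_cancel₀ hζ, map_one]
  rw [h2, map_one, one_mul]

theorem σ_scal_K0 (ζ : k) (hζ : ζ ≠ 0) (hζe : ζ ^ e = 1) (a : L) (ha : a ∈ D.K0) :
    D.σ (scal m ζ hζ) a = a := by
  induction ha using IntermediateField.adjoin_induction with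
  | mem x hx =>
    obtain ⟨i, α, rfl⟩ := hx
    exact D.σ_scal_coeff_f0 ζ hζ hζe i α
  | algebraMap x => exact (D.σ _).commutes x
  | add x y _ _ hx hy => rw [map_add, hx, hy]
  | inv x _ hx => rw [map_inv₀, hx]
  | mul x y _ _ hx hy => rw [map_mul, hx, hy]

end GD

namespace FD

variable {k : Type u} [Field k] {m e : ℕ} {L : Type v} [Field L] [Algebra k L]
  {D : GD k m e L} {t : ℕ} (B : FD D t)

/-- the semi-invariant coordinates -/
noncomputable def y (i : Fin (m + 3)) : L := ∑ j, B.b i j * D.x j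

/-- the invariant coordinates -/
noncomputable def z (i : Fin (m + 3)) : L := if i = 0 then B.y 0 ^ e * B.c ^ t else B.y i / B.y 0

theorem b_mul_inv : B.b * B.b⁻¹ = 1 :=
  Matrix.mul_nonsing_inv _ (isUnit_iff_ne_zero.2 B.hdet)

theorem b_inv_mul : B.b⁻¹ * B.b = 1 :=
  Matrix.nonsing_inv_mul _ (isUnit_iff_ne_zero.2 B.hdet)

theorem b_inv_mem (i j) : B.b⁻¹ i j ∈ D.K0 := inv_mem_of_mem B.hb i j

theorem x_eq (i : Fin (m + 3)) : D.x i = ∑ j, B.b⁻¹ i j * B.y j := by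
  have h1 : B.b⁻¹ *ᵥ (B.b *ᵥ D.x) = D.x := by
    rw [Matrix.mulVec_mulVec, B.b_inv_mul, Matrix.one_mulVec]
  exact (congrFun h1 i).symm

variable [CharZero k] 

theorem sum_x_eq_zero {w : Fin (m + 3) → L} (hw : ∀ i, w i ∈ D.K0)
    (h : ∑ j, w j * D.x j = 0) (j : Fin (m + 3)) : w j = 0 := by
  have h1 := D.indep_x.linearIndependent
  rw [Fintype.linearIndependent_iff] at h1
  have h2 := h1 (fun j => ⟨w j, hw j⟩) h j
  exact congrArg (fun a : D.K0 => (a : L)) h2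

theorem y0_ne : B.y 0 ≠ 0 := by
  intro h
  have h1 : ∀ j, B.b 0 j = 0 := fun j => sum_x_eq_zero (B.hb 0) h j
  exact B.hdet (Matrix.det_eq_zero_of_row_eq_zero 0 h1)

theorem z_mem (i : Fin (m + 3)) : B.z i ∈ D.inv D.Om := by
  have h0 := D.det_ne_zero
  rw [z]
  split_ifs with hi
  · have h1 : B.y 0 ^ e * B.c ^ t = (B.y 0 / D.M.det ^ t) ^ e * (B.c * D.M.det ^ e) ^ t := by
      rw [div_pow, mul_pow, ← pow_mul, ← pow_mul, mul_comm e t]
      field_simp
    rw [h1]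
    exact mul_mem (pow_mem (B.hy 0) _) (pow_mem B.hce _)
  · have h1 : B.y i / B.y 0 = (B.y i / D.M.det ^ t) / (B.y 0 / D.M.det ^ t) := by
      rw [div_div_div_cancel_right₀ (pow_ne_zero _ h0)]
    rw [h1]
    exact div_mem (B.hy i) (B.hy 0)

theorem inv_le_adjoin_z [IsAlgClosed k] (he : 1 ≤ e) (φ : L) (hφ : φ ∈ D.inv D.Om) :
    φ ∈ IntermediateField.adjoin D.K0 (Set.range B.z) := by
  have := D.charZero
  refine mem_of_embeddings (IntermediateField.adjoin D.K0 (Set.range B.z)).toSubfield φ ?_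
  intro Ω _ τ₁ τ₂ hτ
  have hK0 : ∀ a ∈ D.K0, τ₁ a = τ₂ a := fun a ha =>
    hτ _ ((IntermediateField.adjoin D.K0 (Set.range B.z)).algebraMap_mem ⟨a, ha⟩)
  have hz : ∀ i, τ₁ (B.z i) = τ₂ (B.z i) := fun i =>
    hτ _ (IntermediateField.subset_adjoin D.K0 _ ⟨i, rfl⟩)
  have hy0 : τ₁ (B.y 0) ≠ 0 := (map_ne_zero τ₁).2 B.y0_ne
  have hy0' : τ₂ (B.y 0) ≠ 0 := (map_ne_zero τ₂).2 B.y0_ne
  set ζ' := τ₂ (B.y 0) / τ₁ (B.y 0) with hζ'
  have h1 : ζ' ^ e = 1 := by
    have h2 := hz 0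
    simp only [z, if_true, map_mul, map_pow] at h2
    rw [← hK0 _ B.hc] at h2
    have h3 := mul_right_cancel₀ (pow_ne_zero t ((map_ne_zero τ₁).2 B.hc0)) h2
    rw [hζ', div_pow, ← h3, div_self (pow_ne_zero _ hy0)]
  obtain ⟨ζ, hζe, hζ⟩ := root_of_unity_mem (τ₁.comp (algebraMap k L)) he h1
  have hζ0 : ζ ≠ 0 := by
    rintro rfl
    rw [zero_pow (by omega)] at hζe
    exact zero_ne_one hζe
  have hy : ∀ i, τ₂ (B.y i) = ζ' * τ₁ (B.y i) := by
    intro i
    by_cases hi : i = 0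
    · subst hi
      rw [hζ', div_mul_cancel₀ _ hy0]
    · have h2 := hz i
      simp only [z, if_neg hi, map_div₀] at h2
      rw [div_eq_div_iff hy0 hy0'] at h2
      rw [hζ', div_mul_eq_mul_div, eq_div_iff hy0]
      linear_combination (-1 : Ω) * h2
  have hx : ∀ i, τ₂ (D.x i) = τ₁ (D.σ (GD.scal m ζ hζ0) (D.x i)) := by
    intro i
    rw [D.σ_scal_x, map_mul]
    have h2 : τ₁ (algebraMap k L ζ) = ζ' := hζ
    rw [h2, B.x_eq, map_sum, map_sum, Finset.mul_sum]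
    refine Finset.sum_congr rfl fun j _ => ?_
    rw [map_mul, map_mul, hy, hK0 _ (B.b_inv_mem i j)]
    ring
  have hall : ∀ a ∈ D.Om, τ₂ a = τ₁ (D.σ (GD.scal m ζ hζ0) a) := by
    intro a ha
    induction ha using IntermediateField.adjoin_induction with
    | mem x hx' =>
      rcases hx' with ⟨i, α, rfl⟩ | ⟨i, rfl⟩
      · rw [D.σ_scal_coeff_f0 ζ hζ0 hζe, hK0 _ (GD.coeff_mem_adjoin_cf _ _ _)]
      · exact hx i
    | algebraMap x =>
      rw [(D.σ _).commutes x]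
      exact (hK0 _ (D.K0.algebraMap_mem x)).symm
    | add x y _ _ hx hy => rw [map_add, map_add, map_add, hx, hy]
    | inv x _ hx => rw [map_inv₀, map_inv₀, map_inv₀, hx]
    | mul x y _ _ hx hy => rw [map_mul, map_mul, map_mul, hx, hy]
  rw [hall φ hφ.1, hφ.2]

theorem inv_Om_eq [IsAlgClosed k] (he : 1 ≤ e) :
    (IntermediateField.adjoin (D.inv D.K0) (Set.range B.z)).restrictScalars k = D.inv D.Om := by
  apply le_antisymm
  · apply adjoin_restrict_le (D.inv_mono D.K0_le_Om)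
    rintro _ ⟨i, rfl⟩
    exact B.z_mem i
  · intro φ hφ
    refine inv_adjoin (fun g => (D.σ g : L →+* L)) (D.σR D.K0 D.σ_mem_K0)
      (D.σR_spec D.K0 D.σ_mem_K0) (Set.range B.z) ?_ φ (B.inv_le_adjoin_z he φ hφ)
      (fun g => hφ.2 g) (IntermediateField.adjoin (D.inv D.K0) (Set.range B.z)).toSubfield ?_ ?_
    · rintro g _ ⟨i, rfl⟩
      exact (B.z_mem i).2 g
    · intro a ha
      refine (IntermediateField.adjoin (D.inv D.K0) (Set.range B.z)).algebraMap_mem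
        ⟨a, a.2, fun g => ?_⟩
      exact congrArg (fun x : D.K0 => (x : L)) (ha g)
    · rintro _ ⟨i, rfl⟩
      exact IntermediateField.subset_adjoin _ _ ⟨i, rfl⟩

theorem indep_z (he : 1 ≤ e) : AlgebraicIndependent D.K0 B.z := by
  refine algebraicIndependent_of_card_in (IntermediateField.adjoin D.K0 (Set.range D.x)) D.x
    (fun j => IntermediateField.subset_adjoin _ _ ⟨j, rfl⟩) D.indep_x _ ?_ ?_ le_rfl
  · have hy : ∀ i, B.y i ∈ IntermediateField.adjoin D.K0 (Set.range D.x) := fun i =>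
      sum_mem fun j _ => mul_mem
        ((IntermediateField.adjoin D.K0 (Set.range D.x)).algebraMap_mem ⟨_, B.hb i j⟩)
        (IntermediateField.subset_adjoin _ _ ⟨j, rfl⟩)
    intro i
    rw [z]
    split_ifs
    · exact mul_mem (pow_mem (hy 0) _) (pow_mem
        ((IntermediateField.adjoin D.K0 (Set.range D.x)).algebraMap_mem ⟨_, B.hc⟩) _)
    · exact div_mem (hy i) (hy 0)
  · apply adjoin_algebraic
    set N := IntermediateField.adjoin D.K0 (Set.range B.z) with hN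
    have hmem : ∀ a ∈ N, IsAlgebraic N a := fun a ha => isAlgebraic_algebraMap (⟨a, ha⟩ : N)
    have hK : ∀ a ∈ D.K0, a ∈ N := fun a ha => N.algebraMap_mem ⟨a, ha⟩
    have hzN : ∀ i, B.z i ∈ N := fun i => IntermediateField.subset_adjoin _ _ ⟨i, rfl⟩
    have hy0 : IsAlgebraic N (B.y 0) := by
      refine IsAlgebraic.of_pow (n := e) (by omega) (hmem _ ?_)
      have h1 : B.y 0 ^ e = B.z 0 * (B.c ^ t)⁻¹ := by
        rw [z, if_pos rfl, mul_assoc, mul_inv_cancel₀ (pow_ne_zero _ B.hc0), mul_one]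
      rw [h1]
      exact mul_mem (hzN 0) (inv_mem (pow_mem (hK _ B.hc) _))
    have hy : ∀ i, IsAlgebraic N (B.y i) := by
      intro i
      by_cases hi : i = 0
      · rw [hi]; exact hy0
      · have h1 : B.y i = B.z i * B.y 0 := by
          rw [z, if_neg hi, div_mul_cancel₀ _ B.y0_ne]
        rw [h1]
        exact (hmem _ (hzN i)).mul hy0
    rintro _ ⟨i, rfl⟩
    rw [B.x_eq]
    refine Finset.sum_induction _ (IsAlgebraic N) (fun a b ha hb => ha.add hb) (hmem _ (zero_mem _))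
      fun j _ => (hmem _ (hK _ (B.b_inv_mem i j))).mul (hy j)

end FD

end Pool.Agent.Lib.MP_82c165_ag
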