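import Mathlib
import Pool.Agent.Lib.MP_82c165_ag.Quot

/-!
The invariant field of the generic tuple of forms is purely transcendental.
-/

namespace Pool.Agent.Lib.MP_82c165_ag

open MvPolynomial Matrix

universe u v

theorem lsub_smul {A : Type*} [CommRing A] {n d : ℕ} (a : A) (B : Matrix (Fin n) (Fin n) A)
    {P : MvPolynomial (Fin n) A} (hP : P.IsHomogeneous d) :
    lsub (a • B) P = C (a ^ d) * lsub B P := by
  have h1 : a • B = B * (a • (1 : Matrix (Fin n) (Fin n) A)) := by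
    rw [Matrix.mul_smul, Matrix.mul_one]
  rw [h1, ← lsub_lsub, lsub_smul_one a (lsub_homog B hP)]

namespace FD

variable {k : Type u} [Field k] {m e : ℕ} {L : Type v} [Field L] [Algebra k L]
  {D : GD k m e L} {t : ℕ} (B : FD D t)

/-- the invariant coefficients of `q` -/
noncomputable def qh (β : Mon (m + 3) e) : L := (B.c ^ t)⁻¹ * coeff β.1 (lsub B.b⁻¹ D.q)

variable [CharZero k]

theorem σ_b (g : GL (Fin (m + 3)) k) :
    B.b.map (D.σ g) * GD.cm L g =
      algebraMap k L ((g : Matrix (Fin (m + 3)) (Fin (m + 3)) k).det ^ t) • B.b := by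
  have h0 := D.det_ne_zero
  have hgdet : algebraMap k L (g : Matrix (Fin (m + 3)) (Fin (m + 3)) k).det ≠ 0 := by
    rw [Ne, map_eq_zero]
    exact ((Matrix.isUnit_iff_isUnit_det _).1 g.isUnit).ne_zero
  set δ := algebraMap k L (g : Matrix (Fin (m + 3)) (Fin (m + 3)) k).det with hδ
  have h1 : ∀ i, D.σ g (B.y i) = δ ^ t * B.y i := by
    intro i
    have h2 := (B.hy i).2 g
    have h3 : (∑ j, B.b i j * D.x j) = B.y i := rfl
    rw [h3, map_div₀, map_pow, D.σ_det, div_eq_div_iff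
      (pow_ne_zero _ (mul_ne_zero hgdet h0)) (pow_ne_zero _ h0), mul_pow] at h2
    have h4 := pow_ne_zero t h0
    apply mul_right_cancel₀ h4
    rw [h2]; ring
  ext i l
  have h2 := h1 i
  rw [y, map_sum] at h2
  simp only [map_mul, D.σ_x, Finset.mul_sum] at h2
  rw [Finset.sum_comm] at h2
  have h3 : ∑ l, ((B.b.map (D.σ g) * GD.cm L g) i l - δ ^ t * B.b i l) * D.x l = 0 := by
    simp only [sub_mul, Finset.sum_sub_distrib, Matrix.mul_apply, Matrix.map_apply, Finset.sum_mul]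
    rw [sub_eq_zero]
    refine Eq.trans ?_ (h2.trans ?_)
    · refine Finset.sum_congr rfl fun l _ => Finset.sum_congr rfl fun j _ => ?_
      ring
    · refine Finset.sum_congr rfl fun j _ => ?_
      ring
  have h4 := sum_x_eq_zero (D := D) (w := fun l =>
    (B.b.map (D.σ g) * GD.cm L g) i l - δ ^ t * B.b i l) (fun l => ?_) h3 l
  · rw [sub_eq_zero] at h4
    rw [Matrix.smul_apply, smul_eq_mul, map_pow]
    exact h4
  · refine sub_mem ?_ (mul_mem (pow_mem (D.K0.algebraMap_mem _) _) (B.hb i l))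
    rw [Matrix.mul_apply]
    exact sum_mem fun j _ => mul_mem (D.σ_mem_K0 g _ (B.hb i j)) (GD.cm_mem _ g j l)

theorem σ_c (g : GL (Fin (m + 3)) k) :
    D.σ g B.c * algebraMap k L (g : Matrix (Fin (m + 3)) (Fin (m + 3)) k).det ^ e = B.c := by
  have h0 := D.det_ne_zero
  have h1 := B.hce.2 g
  rw [map_mul, map_pow, D.σ_det, mul_pow] at h1
  apply mul_right_cancel₀ (pow_ne_zero e h0)
  rw [← h1]; ring

theorem qh_inv (g : GL (Fin (m + 3)) k) (β : Mon (m + 3) e) : D.σ g (B.qh β) = B.qh β := by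
  have hgdet : algebraMap k L (g : Matrix (Fin (m + 3)) (Fin (m + 3)) k).det ≠ 0 := by
    rw [Ne, map_eq_zero]
    exact ((Matrix.isUnit_iff_isUnit_det _).1 g.isUnit).ne_zero
  have hσb := B.σ_b g
  have hσc := B.σ_c g
  set δ := algebraMap k L (g : Matrix (Fin (m + 3)) (Fin (m + 3)) k).det with hδ
  rw [map_pow, ← hδ] at hσb
  have h1 : D.σ g (coeff β.1 (lsub B.b⁻¹ D.q)) =
      coeff β.1 (lsub ((B.b⁻¹).map (D.σ g : L →+* L)) (lsub (GD.cm L g⁻¹) D.q)) := by
    rw [← D.σq, ← map_lsub, coeff_map]; rfl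
  have h2 : GD.cm L g⁻¹ * (B.b⁻¹).map (D.σ g : L →+* L) = (δ ^ t)⁻¹ • B.b⁻¹ := by
    rw [← map_matrix_inv]
    have h3 : (GD.cm L g)⁻¹ = GD.cm L g⁻¹ := Matrix.inv_eq_left_inv (GD.cm_inv_mul g)
    rw [← h3, ← Matrix.mul_inv_rev]
    have h4 : B.b.map (D.σ g : L →+* L) * GD.cm L g = δ ^ t • B.b := hσb
    rw [h4]
    apply Matrix.inv_eq_left_inv
    rw [smul_mul_smul_comm, B.b_inv_mul, inv_mul_cancel₀ (pow_ne_zero _ hgdet), one_smul]
  rw [lsub_lsub, h2, lsub_smul _ _ D.q_homog, coeff_C_mul] at h1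
  rw [qh, map_mul, map_inv₀, map_pow, h1]
  have hc0 := B.hc0
  have h5 : D.σ g B.c ≠ 0 := (map_ne_zero (D.σ g)).2 hc0
  have h6 : B.c ^ t = (D.σ g B.c) ^ t * (δ ^ e) ^ t := by
    rw [← mul_pow, hσc]
  rw [h6]
  rw [mul_inv, ← mul_assoc, inv_pow, ← pow_mul, ← pow_mul, mul_comm t e]

omit [CharZero k] in
theorem lsub_b_inv_mem_CI (E : IntermediateField k L) (hE : D.K0 ≤ E)
    (hq : ∀ β, B.qh β ∈ E) : lsub B.b⁻¹ D.q ∈ CI (m + 3) E := by
  refine mem_CI.2 fun β => ?_
  by_cases hβ : β.degree = e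
  · have h1 := hq ⟨β, hβ⟩
    have h2 : coeff β (lsub B.b⁻¹ D.q) = B.c ^ t * B.qh ⟨β, hβ⟩ := by
      rw [qh, ← mul_assoc, mul_inv_cancel₀ (pow_ne_zero _ B.hc0), one_mul]
    rw [h2]
    exact mul_mem (pow_mem (hE B.hc) _) h1
  · rw [(lsub_homog _ D.q_homog).coeff_eq_zero hβ]
    exact zero_mem _

omit [CharZero k] in
theorem q_mem_CI (E : IntermediateField k L) (hE : D.K0 ≤ E)
    (hq : ∀ β, B.qh β ∈ E) : D.q ∈ CI (m + 3) E := by
  have h1 : D.q = lsub B.b (lsub B.b⁻¹ D.q) := by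
    rw [lsub_lsub, B.b_inv_mul, lsub_one]
  rw [h1]
  exact lsub_mem_CI (fun i j => hE (B.hb i j)) (B.lsub_b_inv_mem_CI E hE hq)

omit [CharZero k] in
theorem K1_le (E : IntermediateField k L) (hE : D.K0 ≤ E)
    (hq : ∀ β, B.qh β ∈ E) : D.K1 ≤ E := by
  rw [GD.K1, IntermediateField.adjoin_le_iff]
  rintro _ ⟨c, rfl⟩
  rw [D.a_eq, D.f_eq]
  refine mem_CI.1 (add_mem ?_ (mul_mem (X_mem_CI _) (B.q_mem_CI E hE hq))) _
  exact mem_CI.2 fun α => hE (GD.coeff_mem_adjoin_cf _ _ _)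

omit [CharZero k] in
theorem qh_mem_of (E : IntermediateField k L) (hE : D.K0 ≤ E) (hq : D.q ∈ CI (m + 3) E)
    (β : Mon (m + 3) e) : B.qh β ∈ E := by
  have h1 : (B.c ^ t)⁻¹ ∈ E := inv_mem (pow_mem (hE B.hc) t)
  have h2 : coeff β.1 (lsub B.b⁻¹ D.q) ∈ E :=
    mem_CI.1 (lsub_mem_CI (fun i j => hE (B.b_inv_mem i j)) hq) _
  rw [qh]
  exact E.mul_mem h1 h2

omit [CharZero k] in
theorem qh_mem_K1 (β) : B.qh β ∈ D.K1 := B.qh_mem_of D.K1 D.K0_le_K1 D.q_mem_K1 β

theorem qh_mem (β) : B.qh β ∈ D.inv D.K1 := ⟨B.qh_mem_K1 β, fun g => B.qh_inv g β⟩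

theorem inv_K1_eq :
    (IntermediateField.adjoin (D.inv D.K0) (Set.range B.qh)).restrictScalars k = D.inv D.K1 := by
  apply le_antisymm
  · apply adjoin_restrict_le (D.inv_mono D.K0_le_K1)
    rintro _ ⟨i, rfl⟩
    exact B.qh_mem i
  · intro φ hφ
    have h1 : φ ∈ IntermediateField.adjoin D.K0 (Set.range B.qh) := by
      have hK : D.K0 ≤ (IntermediateField.adjoin D.K0 (Set.range B.qh)).restrictScalars k :=
        fun a ha => (IntermediateField.adjoin D.K0 (Set.range B.qh)).algebraMap_mem ⟨a, ha⟩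
      have hm : ∀ β, B.qh β ∈ IntermediateField.adjoin D.K0 (Set.range B.qh) :=
        fun β => IntermediateField.subset_adjoin D.K0 _ (Set.mem_range_self β)
      exact B.K1_le ((IntermediateField.adjoin D.K0 (Set.range B.qh)).restrictScalars k) hK hm hφ.1
    refine inv_adjoin (fun g => (D.σ g : L →+* L)) (D.σR D.K0 D.σ_mem_K0)
      (D.σR_spec D.K0 D.σ_mem_K0) (Set.range B.qh) ?_ φ h1
      (fun g => hφ.2 g) (IntermediateField.adjoin (D.inv D.K0) (Set.range B.qh)).toSubfield ?_ ?_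
    · rintro g _ ⟨i, rfl⟩
      exact B.qh_inv g i
    · intro a ha
      refine (IntermediateField.adjoin (D.inv D.K0) (Set.range B.qh)).algebraMap_mem
        ⟨a, a.2, fun g => ?_⟩
      exact congrArg (fun x : D.K0 => (x : L)) (ha g)
    · rintro _ ⟨i, rfl⟩
      exact IntermediateField.subset_adjoin _ _ ⟨i, rfl⟩

theorem indep_qh : AlgebraicIndependent D.K0 B.qh := by
  have hfin : Finite (Mon (m + 3) e) := inferInstance
  have hmem : ∀ j, D.qc j ∈ IntermediateField.adjoin D.K0 (Set.range D.qc) :=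
    fun j => IntermediateField.subset_adjoin _ _ (Set.mem_range_self j)
  have hind := D.indep_q
  have key := algebraicIndependent_of_card_in (IntermediateField.adjoin D.K0 (Set.range D.qc)) D.qc
    hmem hind B.qh
  refine key ?_ ?_ le_rfl
  · intro β
    set N := IntermediateField.adjoin D.K0 (Set.range D.qc) with hN
    have hK : D.K0 ≤ N.restrictScalars k := fun a ha => N.algebraMap_mem ⟨a, ha⟩
    have hqc : ∀ β, D.qc β ∈ N.restrictScalars k :=
      fun β => IntermediateField.subset_adjoin D.K0 _ ⟨β, rfl⟩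
    have hq : D.q ∈ CI (m + 3) (N.restrictScalars k) :=
      mem_CI.2 fun β => D.coeff_q_mem hqc β
    exact B.qh_mem_of (N.restrictScalars k) hK hq β
  · apply adjoin_algebraic
    rintro _ ⟨β, rfl⟩
    set N := IntermediateField.adjoin D.K0 (Set.range B.qh) with hN
    have hK : D.K0 ≤ N.restrictScalars k := fun a ha => N.algebraMap_mem ⟨a, ha⟩
    have hm : ∀ β, B.qh β ∈ N :=
      fun β => IntermediateField.subset_adjoin D.K0 _ (Set.mem_range_self β)
    have h1 : D.q ∈ CI (m + 3) (N.restrictScalars k) := B.q_mem_CI (N.restrictScalars k) hK hm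
    have h2 : D.qc β ∈ N := mem_CI.1 h1 _
    exact isAlgebraic_algebraMap (⟨_, h2⟩ : N)

end FD

theorem card_Mon_ge {m e : ℕ} (he : 1 ≤ e) : m + 3 ≤ Nat.card (Mon (m + 3) e) := by
  have h1 : Function.Injective (fun i : Fin (m + 3) =>
      (⟨Finsupp.single i e, by rw [Finsupp.degree_single]⟩ : Mon (m + 3) e)) := by
    intro i j hij
    have h2 := congrArg Subtype.val hij
    exact (Finsupp.single_left_inj (by omega : e ≠ 0)).1 h2
  have h2 := Nat.card_le_card_of_injective _ h1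
  simpa using h2

namespace GD

variable {k : Type u} [Field k] {m e : ℕ} {L : Type v} [Field L] [Algebra k L]
  (D : GD k m e L)

theorem exists_basis [CharZero k] [IsAlgClosed k] (he : 1 ≤ e) (hco : Nat.Coprime (m + 3) e) :
    ∃ v : Fin (Nat.card (Coeff (m + 3) (e + 1)) - (m + 3) * (m + 3)) → L,
      AlgebraicIndependent k v ∧ IntermediateField.adjoin k (Set.range v) = D.inv D.K1 := by
  classical
  obtain ⟨t, s, hts⟩ : ∃ t s : ℕ, (m + 3) * t = 1 + e * s := by
    rcases Nat.eq_or_lt_of_le he with h1 | h1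
    · refine ⟨1, m + 2, ?_⟩
      rw [← h1]; ring
    · obtain ⟨t, ht⟩ := Nat.exists_mul_mod_eq_one_of_coprime hco h1
      refine ⟨t, ((m + 3) * t) / e, ?_⟩
      have h2 := Nat.div_add_mod ((m + 3) * t) e
      omega
  obtain ⟨B⟩ := D.exists_FD he hts
  have hle : D.inv D.K0 ≤ D.K0 := fun a ha => ha.1
  have h1 : m + 3 ≤ Nat.card (Mon (m + 3) e) := card_Mon_ge he
  have emb : Nonempty (Fin (m + 3) ↪ Mon (m + 3) e) := by
    rw [Nat.card_eq_fintype_card] at h1
    exact Function.Embedding.nonempty_of_card_le (by rwa [Fintype.card_fin])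
  obtain ⟨emb⟩ := emb
  obtain ⟨v, hv, hv'⟩ := assembly (D.inv D.K0) (D.inv D.Om) (D.inv D.K1) B.z
    (algInd_of_le hle (B.indep_z he)) (B.inv_Om_eq he) B.qh (algInd_of_le hle B.indep_qh)
    B.inv_K1_eq D.sc D.indep_s (by rw [D.inv_Om, D.F2_eq]) emb
  have hcard : Nat.card ({j : Mon (m + 3) e // j ∉ Set.range emb} ⊕ IS m e) =
      Nat.card (Coeff (m + 3) (e + 1)) - (m + 3) * (m + 3) := by
    have h2 := card_add_compl (fun j : Mon (m + 3) e => j ∈ Set.range emb)
    have h3 : Nat.card {j : Mon (m + 3) e // j ∈ Set.range emb} = m + 3 := by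
      rw [Nat.card_congr (Equiv.ofInjective emb emb.injective).symm]
      simp
    have h4 := card_IS (m := m) (e := e)
    have h5 := card_I0 (m := m) (e := e)
    rw [Nat.card_sum]
    have h6 : (m + 3) * (m + 3) = (m + 3) * (m + 2) + (m + 3) := by ring
    have h7 : Nat.card {j : Mon (m + 3) e // ¬ j ∈ Set.range emb} =
      Nat.card {j : Mon (m + 3) e // j ∉ Set.range emb} := rfl
    omega
  have eqv : Nonempty (Fin (Nat.card (Coeff (m + 3) (e + 1)) - (m + 3) * (m + 3)) ≃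
      ({j : Mon (m + 3) e // j ∉ Set.range emb} ⊕ IS m e)) := by
    rw [← hcard]
    exact ⟨(Finite.equivFin _).symm⟩
  obtain ⟨eqv⟩ := eqv
  refine ⟨v ∘ eqv, hv.comp _ eqv.injective, ?_⟩
  rw [← hv', Set.range_comp, eqv.surjective.range_eq, Set.image_univ]

end GD

end Pool.Agent.Lib.MP_82c165_ag
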