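import Mathlib
import Pool.Agent.Lib.MP_82c165_ag.Descent
import Pool.Agent.Lib.MP_82c165_ag.Generic

/-!
Semilinear descent for vector valued families.
-/

namespace Pool.Agent.Lib.MP_82c165_ag

open Matrix

/-- A stable subspace of the span of a set `W` of invariant vectors is spanned by invariant
vectors. -/
theorem descent_module {K N : Type*} [Field K] [AddCommGroup N] [Module K N] {Γ : Type*}
    (σK : Γ → K →+* K) (σN : Γ → N →+ N)
    (hsemi : ∀ g (c : K) (v : N), σN g (c • v) = σK g c • σN g v)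
    (W : Set N) (hW : ∀ w ∈ W, ∀ g, σN g w = w) (P : AddSubmonoid N)
    (hWP : ∀ w ∈ W, ∀ c : K, (∀ g, σK g c = c) → c • w ∈ P)
    (S : Submodule K N) (hS1 : S ≤ Submodule.span K W)
    (hS : ∀ g, ∀ v ∈ S, σN g v ∈ S) :
    S ≤ Submodule.span K {x | x ∈ S ∧ x ∈ P} := by
  classical
  let w : W → N := fun x => (x : N)
  let Lc := Finsupp.linearCombination K w
  have hlc : ∀ g (v : W →₀ K), Lc (cact σK g v) = σN g (Lc v) := by
    intro g v
    simp only [Lc]
    rw [Finsupp.linearCombination_apply, Finsupp.linearCombination_apply]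
    rw [Finsupp.sum_of_support_subset (s := v.support)]
    · rw [Finsupp.sum, map_sum]
      refine Finset.sum_congr rfl fun i _ => ?_
      rw [cact_apply, hsemi, hW _ i.2]
    · intro i hi
      rw [Finsupp.mem_support_iff, cact_apply] at hi
      rw [Finsupp.mem_support_iff]
      intro h
      rw [h, map_zero] at hi
      exact hi rfl
    · intro i _
      rw [zero_smul]
  have hD := descent_finsupp σK (S.comap Lc) (by
    intro g v hv
    rw [Submodule.mem_comap] at hv ⊢
    rw [hlc g v]
    exact hS g _ hv)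
  intro v hv
  have hv1 : v ∈ Submodule.span K (Set.range w) := by
    have := hS1 hv
    have hr : (Set.range w) = W := by
      ext x; simp [w]
    rw [hr]; exact this
  rw [← Finsupp.range_linearCombination] at hv1
  obtain ⟨a, rfl⟩ := hv1
  have ha : a ∈ S.comap Lc := hv
  have ha2 := hD ha
  have h3 : Lc a ∈ (Submodule.span K
      {w : W →₀ K | w ∈ S.comap Lc ∧ ∀ g, cact σK g w = w}).map Lc :=
    Submodule.mem_map_of_mem ha2
  rw [Submodule.map_span] at h3
  refine Submodule.span_mono ?_ h3
  rintro _ ⟨u, ⟨hu1, hu2⟩, rfl⟩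
  refine ⟨hu1, ?_⟩
  change Finsupp.linearCombination K w u ∈ P
  rw [Finsupp.linearCombination_apply]
  refine AddSubmonoid.sum_mem _ fun i _ => ?_
  refine hWP _ i.2 _ fun g => ?_
  have := congrArg (fun z => z i) (hu2 g)
  simpa [cact_apply] using this

theorem map_inv_matrix {K₁ K₂ : Type*} [Field K₁] [Field K₂] (φ : K₁ →+* K₂) {J : Type*}
    [Fintype J] [DecidableEq J] (M : Matrix J J K₁) : (M.map φ)⁻¹ = (M⁻¹).map φ := by
  rw [Matrix.inv_def, Matrix.inv_def, Ring.inverse_eq_inv', Ring.inverse_eq_inv']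
  have h1 : (M.map φ).det = φ M.det := (RingHom.map_det φ M).symm
  have h2 : (M.map φ).adjugate = M.adjugate.map φ := (RingHom.map_adjugate φ M).symm
  rw [h1, h2]
  ext i j
  simp

section

variable {K L : Type*} [Field K] [Field L] [Algebra K L] {Γ : Type*}
  (σ : Γ → L →+* L) (σK : Γ → K →+* K)

/-- Existence of an invariant basis of a semilinear representation. -/
theorem speiser_abs (hσ : ∀ g a, σ g (algebraMap K L a) = algebraMap K L (σK g a))
    (F1 : Subfield L) (hF1 : ∀ x ∈ F1, ∀ g, σ g x = x)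
    (hKF : ∀ a : K, (∀ g, σK g a = a) → algebraMap K L a ∈ F1)
    {J : Type*} [Fintype J] [DecidableEq J] (T : Matrix J J L) (hT : T.det ≠ 0)
    (hρ : ∀ g, ∃ ρ : Matrix J J K, T.map (σ g) = ρ.map (algebraMap K L) * T)
    (hmem : ∀ i j, T⁻¹ i j ∈ IntermediateField.adjoin K (F1 : Set L)) :
    ∃ B : Matrix J J K, B.det ≠ 0 ∧ ∀ i j, (T⁻¹ * B.map (algebraMap K L)) i j ∈ F1 := by
  classical
  have hTu : IsUnit T.det := isUnit_iff_ne_zero.2 hT
  have hTT : T⁻¹ * T = 1 := Matrix.nonsing_inv_mul _ hTu
  have hTT' : T * T⁻¹ = 1 := Matrix.mul_nonsing_inv _ hTu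
  choose ρ hρ using hρ
  have hρdet : ∀ g, (ρ g).det ≠ 0 := by
    intro g h
    have h1 := congrArg Matrix.det (hρ g)
    have h2 : ((ρ g).map (algebraMap K L)).det = algebraMap K L (ρ g).det :=
      (RingHom.map_det (algebraMap K L) _).symm
    have h3 : (T.map (σ g)).det = σ g T.det := (RingHom.map_det (σ g) _).symm
    rw [Matrix.det_mul, h2, h, map_zero, zero_mul, h3] at h1
    exact hT ((map_eq_zero _).1 h1)
  have hTσ : ∀ g, (T⁻¹).map (σ g) = T⁻¹ * ((ρ g)⁻¹).map (algebraMap K L) := by
    intro g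
    rw [← map_inv_matrix, hρ g, Matrix.mul_inv_rev, map_inv_matrix]
  have hTσ' : ∀ g, T⁻¹ = (T⁻¹).map (σ g) * (ρ g).map (algebraMap K L) := by
    intro g
    rw [hTσ, Matrix.mul_assoc, ← Matrix.map_mul,
      Matrix.nonsing_inv_mul _ (isUnit_iff_ne_zero.2 (hρdet g))]
    rw [Matrix.map_one _ (map_zero _) (map_one _), Matrix.mul_one]
  have hcond : ∀ p : J × J, T⁻¹ p.1 p.2 ∈ Submodule.span K (F1 : Set L) := by
    refine conductor σ σK hσ F1 hF1 hKF (fun p : J × J => T⁻¹ p.1 p.2) (fun p => hmem _ _) ?_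
    intro g p
    change T⁻¹ p.1 p.2 ∈ _
    rw [congrFun (congrFun (hTσ' g) p.1) p.2, Matrix.mul_apply]
    refine Submodule.sum_mem _ fun l _ => ?_
    rw [mul_comm, Matrix.map_apply (M := ρ g), ← Algebra.smul_def]
    exact Submodule.smul_mem _ _ (Submodule.subset_span ⟨(p.1, l), rfl⟩)
  -- the vector valued family
  let Tl : (J → K) →ₗ[K] (J → L) :=
    { toFun := fun w => T⁻¹ *ᵥ (fun j => algebraMap K L (w j))
      map_add' := by
        intro v w
        have : (fun j => algebraMap K L ((v + w) j)) =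
          (fun j => algebraMap K L (v j)) + (fun j => algebraMap K L (w j)) := by
          funext j; simp
        rw [this, Matrix.mulVec_add]
      map_smul' := by
        intro c w
        funext i
        simp only [Matrix.mulVec, dotProduct, Pi.smul_apply, smul_eq_mul, map_mul,
          RingHom.id_apply, Algebra.smul_def, Finset.mul_sum]
        refine Finset.sum_congr rfl fun j _ => ?_
        ring }
  have hTlinj : Function.Injective Tl := by
    intro v w h
    have h1 := congrArg (fun z => T *ᵥ z) h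
    simp only [Tl, LinearMap.coe_mk, AddHom.coe_mk, Matrix.mulVec_mulVec, hTT',
      Matrix.one_mulVec] at h1
    funext j
    exact (algebraMap K L).injective (congrFun h1 j)
  let σN : Γ → (J → L) →+ (J → L) := fun g =>
    { toFun := fun v j => σ g (v j)
      map_zero' := by funext j; simp
      map_add' := by intro v w; funext j; simp }
  let P : AddSubmonoid (J → L) :=
    { carrier := {v | ∀ j, v j ∈ F1}
      add_mem' := fun {a b} ha hb j => F1.add_mem (ha j) (hb j)
      zero_mem' := fun j => F1.zero_mem }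
  let W : Set (J → L) := {v | ∃ j, ∃ f ∈ F1, v = Pi.single j f}
  have hspanW : ∀ v : J → L, (∀ j, v j ∈ Submodule.span K (F1 : Set L)) →
      v ∈ Submodule.span K W := by
    intro v hv
    have h1 : v = ∑ j, Pi.single j (v j) := (Finset.univ_sum_single v).symm
    rw [h1]
    refine Submodule.sum_mem _ fun j _ => ?_
    have h2 : ∀ f ∈ Submodule.span K (F1 : Set L), (Pi.single j f : J → L) ∈ Submodule.span K W := by
      intro f hf
      induction hf using Submodule.span_induction with
      | mem x hx => exact Submodule.subset_span ⟨j, x, hx, rfl⟩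
      | zero => rw [Pi.single_zero]; exact zero_mem _
      | add x y _ _ hx hy => rw [Pi.single_add]; exact add_mem hx hy
      | smul a x _ hx =>
        have : (Pi.single j (a • x) : J → L) = a • Pi.single j x := by
          rw [← Pi.single_smul]
        rw [this]; exact Submodule.smul_mem _ _ hx
    exact h2 _ (hv j)
  have hdes := descent_module σK σN (fun g c v => by
      funext j
      change σ g (c • v j) = σK g c • σ g (v j)
      rw [Algebra.smul_def, Algebra.smul_def, map_mul, hσ]) W (by
      rintro _ ⟨j, f, hf, rfl⟩ g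
      funext l
      simp only [σN, AddMonoidHom.coe_mk, ZeroHom.coe_mk]
      by_cases hl : l = j
      · subst hl; rw [Pi.single_eq_same]; exact hF1 f hf g
      · rw [Pi.single_eq_of_ne hl, map_zero]) P (by
      rintro _ ⟨j, f, hf, rfl⟩ c hc l
      change c • (Pi.single j f : J → L) l ∈ F1
      rw [Algebra.smul_def]
      refine F1.mul_mem (hKF c hc) ?_
      by_cases hl : l = j
      · subst hl; rw [Pi.single_eq_same]; exact hf
      · rw [Pi.single_eq_of_ne hl]; exact F1.zero_mem) (LinearMap.range Tl) (by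
      rintro _ ⟨w, rfl⟩
      refine hspanW _ fun j => ?_
      change ∑ l, T⁻¹ j l * algebraMap K L (w l) ∈ _
      refine Submodule.sum_mem _ fun l _ => ?_
      rw [mul_comm, ← Algebra.smul_def]
      exact Submodule.smul_mem _ _ (hcond (j, l))) (by
      rintro g _ ⟨w, rfl⟩
      refine ⟨(ρ g)⁻¹ *ᵥ (fun j => σK g (w j)), ?_⟩
      change T⁻¹ *ᵥ (fun j => algebraMap K L (((ρ g)⁻¹ *ᵥ (fun j => σK g (w j))) j)) =
        fun j => σ g ((T⁻¹ *ᵥ (fun j => algebraMap K L (w j))) j)
      have h1 : (fun j => algebraMap K L (((ρ g)⁻¹ *ᵥ (fun j => σK g (w j))) j)) =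
          ((ρ g)⁻¹).map (algebraMap K L) *ᵥ (fun j => σ g (algebraMap K L (w j))) := by
        funext j
        simp only [Matrix.mulVec, dotProduct, map_sum, map_mul, hσ, Matrix.map_apply]
      have h2 : (fun j => σ g ((T⁻¹ *ᵥ (fun j => algebraMap K L (w j))) j)) =
          (T⁻¹).map (σ g) *ᵥ (fun j => σ g (algebraMap K L (w j))) := by
        funext j
        simp only [Matrix.mulVec, dotProduct, map_sum, map_mul, Matrix.map_apply]
      rw [h1, h2, hTσ, Matrix.mulVec_mulVec])
  let 𝔖 : Set (J → K) := {c | ∀ j, Tl c j ∈ F1}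
  have hspan : ⊤ ≤ Submodule.span K 𝔖 := by
    have hkey : LinearMap.range Tl ≤ (Submodule.span K 𝔖).map Tl := by
      refine hdes.trans ?_
      rw [Submodule.span_le]
      rintro v ⟨⟨c, rfl⟩, hv2⟩
      exact Submodule.mem_map_of_mem (Submodule.subset_span hv2)
    intro c _
    have hc : Tl c ∈ LinearMap.range Tl := ⟨c, rfl⟩
    obtain ⟨c', hc', hcc⟩ := hkey hc
    rw [← hTlinj hcc]
    exact hc'
  let Bs := Module.Basis.ofSpan hspan
  have hcard : Nonempty (J ≃ ((linearIndepOn_empty K id).extend (Set.empty_subset 𝔖))) := by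
    exact ⟨(Pi.basisFun K J).indexEquiv Bs⟩
  obtain ⟨eqv⟩ := hcard
  let b : Matrix J J K := fun i => Bs (eqv i)
  have hbu : IsUnit b := by
    rw [← Matrix.linearIndependent_rows_iff_isUnit]
    exact Bs.linearIndependent.comp _ eqv.injective
  refine ⟨bᵀ, ?_, fun i j => ?_⟩
  · rw [Matrix.det_transpose]
    exact ((Matrix.isUnit_iff_isUnit_det _).1 hbu).ne_zero
  · have h1 : b j ∈ 𝔖 := Module.Basis.ofSpan_subset hspan ⟨eqv j, rfl⟩
    exact h1 i

end

end Pool.Agent.Lib.MP_82c165_ag
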