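import Mathlib
import Pool.Agent.Lib.MP_82c165_ag.Speiser
import Pool.Agent.Lib.MP_82c165_ag.Quot

/-!
Weights of elements with respect to the central roots of unity, and invariant bases.
-/

namespace Pool.Agent.Lib.MP_82c165_ag

open MvPolynomial Matrix

universe u v

theorem inv_mem_of_mem' {k L : Type*} [Field k] [Field L] [Algebra k L]
    {E : IntermediateField k L} {J : Type*} [Fintype J] [DecidableEq J]
    {M : Matrix J J L} (hM : ∀ i j, M i j ∈ E) (i j : J) : M⁻¹ i j ∈ E := by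
  let M' : Matrix J J E := fun i j => ⟨M i j, hM i j⟩
  have h1 : M = M'.map (algebraMap E L) := rfl
  have h2 : M⁻¹ = (M'⁻¹).map (algebraMap E L) := by
    rw [h1, map_inv_matrix]
  rw [h2]
  exact (M'⁻¹ i j).2

theorem mul_mem_of_mem' {k L : Type*} [Field k] [Field L] [Algebra k L]
    {E : IntermediateField k L} {I J K : Type*} [Fintype J]
    {M : Matrix I J L} {N : Matrix J K L} (hM : ∀ i j, M i j ∈ E) (hN : ∀ i j, N i j ∈ E)
    (i : I) (j : K) : (M * N) i j ∈ E := by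
  rw [Matrix.mul_apply]
  exact sum_mem fun l _ => mul_mem (hM _ _) (hN _ _)

theorem smul_inv_matrix {F : Type*} [Field F] {J : Type*} [Fintype J] [DecidableEq J]
    (c : F) (hc : c ≠ 0) (X : Matrix J J F) (hX : X.det ≠ 0) : (c • X)⁻¹ = c⁻¹ • X⁻¹ := by
  apply Matrix.inv_eq_right_inv
  rw [smul_mul_smul_comm, mul_inv_cancel₀ hc, Matrix.mul_nonsing_inv _ (isUnit_iff_ne_zero.2 hX),
    one_smul]

theorem map_det_ne {F F' : Type*} [Field F] [Field F'] (φ : F →+* F') {J : Type*} [Fintype J]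
    [DecidableEq J] {X : Matrix J J F} (hX : X.det ≠ 0) : (X.map φ).det ≠ 0 := by
  have : (X.map φ).det = φ X.det := (RingHom.map_det φ X).symm
  rw [this]
  exact (map_ne_zero φ).2 hX

namespace GD

variable {k : Type u} [Field k] {m e : ℕ} {L : Type v} [Field L] [Algebra k L]
  (D : GD k m e L)

/-- the field generated by `K0` and by all invariants -/
noncomputable def E1 : IntermediateField D.K0 L :=
  IntermediateField.adjoin D.K0 ((D.inv ⊤ : IntermediateField k L) : Set L)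

/-- the weight of an element with respect to the central roots of unity -/
def HasWt (w : ℤ) (u : L) : Prop :=
  ∀ (Ω : Type v) (_ : Field Ω) (τ₁ τ₂ : L →+* Ω) (ζ : k), ζ ^ e = 1 → ζ ≠ 0 →
    (∀ a ∈ D.E1, τ₁ a = τ₂ a) → D.M.map τ₂ = τ₁ (algebraMap k L ζ) • D.M.map τ₁ →
    τ₂ u = τ₁ (algebraMap k L ζ) ^ w * τ₁ u

/-- matrices with entries of weight `w` -/
def MatWt (w : ℤ) {I J : Type*} (T : Matrix I J L) : Prop := ∀ i j, D.HasWt w (T i j)

variable {D}

theorem HasWt.of_mem {u : L} (h : u ∈ D.E1) : D.HasWt 0 u := by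
  intro Ω _ τ₁ τ₂ ζ _ _ hτ _
  rw [zpow_zero, one_mul]
  exact (hτ u h).symm

theorem HasWt.of_inv {u : L} (h : u ∈ D.inv ⊤) : D.HasWt 0 u :=
  HasWt.of_mem (IntermediateField.subset_adjoin _ _ h)

theorem HasWt.of_K0 {u : L} (h : u ∈ D.K0) : D.HasWt 0 u :=
  HasWt.of_mem (D.E1.algebraMap_mem ⟨u, h⟩)

theorem HasWt.zero (w : ℤ) : D.HasWt w 0 := by
  intro Ω _ τ₁ τ₂ ζ _ _ _ _
  rw [map_zero, map_zero, mul_zero]

theorem HasWt.add {w : ℤ} {a b : L} (ha : D.HasWt w a) (hb : D.HasWt w b) :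
    D.HasWt w (a + b) := by
  intro Ω _ τ₁ τ₂ ζ h1 h2 h3 h4
  rw [map_add, map_add, ha Ω _ τ₁ τ₂ ζ h1 h2 h3 h4, hb Ω _ τ₁ τ₂ ζ h1 h2 h3 h4, mul_add]

theorem HasWt.mul {w w' : ℤ} {a b : L} (ha : D.HasWt w a) (hb : D.HasWt w' b) :
    D.HasWt (w + w') (a * b) := by
  intro Ω _ τ₁ τ₂ ζ h1 h2 h3 h4
  have hne : τ₁ (algebraMap k L ζ) ≠ 0 := by
    rw [Ne, map_eq_zero, map_eq_zero]; exact h2
  rw [map_mul, map_mul, ha Ω _ τ₁ τ₂ ζ h1 h2 h3 h4, hb Ω _ τ₁ τ₂ ζ h1 h2 h3 h4, zpow_add₀ hne]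
  ring

theorem HasWt.sum {w : ℤ} {ι : Type*} {s : Finset ι} {f : ι → L}
    (h : ∀ i ∈ s, D.HasWt w (f i)) : D.HasWt w (∑ i ∈ s, f i) :=
  Finset.sum_induction _ (D.HasWt w) (fun _ _ ha hb => ha.add hb) (HasWt.zero w) h

theorem HasWt.congr {w w' : ℤ} {u : L} (h : D.HasWt w u) (hw : (e : ℤ) ∣ w' - w) :
    D.HasWt w' u := by
  intro Ω _ τ₁ τ₂ ζ h1 h2 h3 h4
  have hne : τ₁ (algebraMap k L ζ) ≠ 0 := by
    rw [Ne, map_eq_zero, map_eq_zero]; exact h2
  have h5 : τ₁ (algebraMap k L ζ) ^ e = 1 := by rw [← map_pow, ← map_pow, h1, map_one, map_one]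
  obtain ⟨c, hc⟩ := hw
  have h6 : w' = w + e * c := by linarith
  rw [h Ω _ τ₁ τ₂ ζ h1 h2 h3 h4, h6, zpow_add₀ hne, _root_.zpow_mul, zpow_natCast, h5, _root_.one_zpow, mul_one]

theorem MatWt.mul {w w' : ℤ} {I J K : Type*} [Fintype J] {S : Matrix I J L} {T : Matrix J K L}
    (hS : D.MatWt w S) (hT : D.MatWt w' T) : D.MatWt (w + w') (S * T) := by
  intro i j
  rw [Matrix.mul_apply]
  exact HasWt.sum fun l _ => (hS _ _).mul (hT _ _)

theorem MatWt.map_eq {w : ℤ} {I J : Type*} {T : Matrix I J L} (hT : D.MatWt w T)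
    {Ω : Type v} [Field Ω] {τ₁ τ₂ : L →+* Ω} {ζ : k} (h1 : ζ ^ e = 1) (h2 : ζ ≠ 0)
    (h3 : ∀ a ∈ D.E1, τ₁ a = τ₂ a) (h4 : D.M.map τ₂ = τ₁ (algebraMap k L ζ) • D.M.map τ₁) :
    T.map τ₂ = τ₁ (algebraMap k L ζ) ^ w • T.map τ₁ := by
  ext i j
  exact hT i j Ω _ τ₁ τ₂ ζ h1 h2 h3 h4

theorem MatWt.inv {w : ℤ} {J : Type*} [Fintype J] [DecidableEq J] {T : Matrix J J L}
    (hT : D.MatWt w T) (hdet : T.det ≠ 0) : D.MatWt (-w) T⁻¹ := by
  intro i j Ω _ τ₁ τ₂ ζ h1 h2 h3 h4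
  have hne : τ₁ (algebraMap k L ζ) ≠ 0 := by
    rw [Ne, map_eq_zero, map_eq_zero]; exact h2
  have h5 := hT.map_eq h1 h2 h3 h4
  have h6 : (T⁻¹).map τ₂ = (τ₁ (algebraMap k L ζ) ^ w)⁻¹ • (T⁻¹).map τ₁ := by
    rw [← map_inv_matrix, h5, smul_inv_matrix _ (zpow_ne_zero _ hne) _ (map_det_ne τ₁ hdet),
      map_inv_matrix]
  have h7 := congrFun (congrFun h6 i) j
  rw [_root_.zpow_neg]
  exact h7

theorem MatWt.transpose {w : ℤ} {I J : Type*} {T : Matrix I J L} (hT : D.MatWt w T) :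
    D.MatWt w Tᵀ := fun i j => hT j i

theorem matWt_M : D.MatWt 1 D.M := by
  intro i j Ω _ τ₁ τ₂ ζ _ _ _ h4
  rw [zpow_one]
  exact congrFun (congrFun h4 i) j

theorem matWt_one {J : Type*} [DecidableEq J] : D.MatWt 0 (1 : Matrix J J L) := by
  intro i j
  rw [Matrix.one_apply]
  split_ifs
  · exact HasWt.of_K0 (one_mem _)
  · exact HasWt.zero 0

variable (D) [CharZero k] [IsAlgClosed k]

theorem mem_E1_of_wt (he : 1 ≤ e) {w : L} (hw : D.HasWt 0 w) : w ∈ D.E1 := by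
  have := D.charZero
  refine mem_of_embeddings D.E1.toSubfield w ?_
  intro Ω _ τ₁ τ₂ hτ
  obtain ⟨ζ, hζ, hM⟩ := D.rigid_step he τ₁ τ₂
    (fun i α => hτ _ (D.E1.algebraMap_mem (⟨_, coeff_mem_adjoin_cf D.f0 i α⟩ : D.K0)))
    (fun i α => hτ _ (IntermediateField.subset_adjoin D.K0 _
      (D.inv_mono le_top (D.F2_le (coeff_mem_adjoin_cf D.nf i α)))))
  have hζ0 : ζ ≠ 0 := by
    rintro rfl
    rw [zero_pow (by omega)] at hζ
    exact zero_ne_one hζ
  have h1 := hw Ω _ τ₁ τ₂ ζ hζ hζ0 hτ hM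
  rw [zpow_zero, one_mul] at h1
  exact h1.symm

/-- existence of an invariant basis -/
theorem speiser (he : 1 ≤ e) {J : Type*} [Fintype J] [DecidableEq J] (T : Matrix J J L)
    (hT : T.det ≠ 0) (hρ : ∀ g i j, (T.map (D.σ g) * T⁻¹) i j ∈ D.K0) (hwt : D.MatWt 0 T) :
    ∃ B : Matrix J J L, (∀ i j, B i j ∈ D.K0) ∧ B.det ≠ 0 ∧
      ∀ i j, (T⁻¹ * B) i j ∈ D.inv ⊤ := by
  classical
  have hTu : IsUnit T.det := isUnit_iff_ne_zero.2 hT
  have hF1 : ∀ x ∈ (D.inv ⊤).toSubfield, ∀ g, (D.σ g : L →+* L) x = x := fun x hx g => hx.2 g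
  have hKF : ∀ a : D.K0, (∀ g, D.σR D.K0 D.σ_mem_K0 g a = a) →
      algebraMap D.K0 L a ∈ (D.inv ⊤).toSubfield := by
    intro a ha
    refine ⟨trivial, fun g => ?_⟩
    have h1 := congrArg (fun x : D.K0 => (x : L)) (ha g)
    exact h1
  obtain ⟨B, hB, hBF⟩ := speiser_abs (fun g => (D.σ g : L →+* L)) (D.σR D.K0 D.σ_mem_K0)
    (D.σR_spec D.K0 D.σ_mem_K0) (D.inv ⊤).toSubfield hF1 hKF T hT (by
      intro g
      refine ⟨fun i j => ⟨(T.map (D.σ g) * T⁻¹) i j, hρ g i j⟩, ?_⟩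
      have h1 : (Matrix.map (fun i j => (⟨(T.map (D.σ g) * T⁻¹) i j, hρ g i j⟩ : D.K0))
          (algebraMap D.K0 L) : Matrix J J L) = T.map (D.σ g) * T⁻¹ := rfl
      rw [h1, Matrix.mul_assoc, Matrix.nonsing_inv_mul _ hTu, Matrix.mul_one]
      rfl) (by
      intro i j
      refine D.mem_E1_of_wt he ?_
      have h1 := hwt.inv hT i j
      rwa [neg_zero] at h1)
  refine ⟨B.map (algebraMap D.K0 L), fun i j => (B i j).2, map_det_ne _ hB, hBF⟩

end GD

/-- a semilinear representation of weight one, trivialised over `L` -/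
structure W1 {k : Type u} [Field k] {m e : ℕ} {L : Type v} [Field L] [Algebra k L]
    (D : GD k m e L) (J : Type*) [Fintype J] [DecidableEq J] where
  T : Matrix J J L
  hdet : T.det ≠ 0
  hρ : ∀ g i j, (T.map (D.σ g) * T⁻¹) i j ∈ D.K0
  hwt : D.MatWt 1 T

namespace W1

variable {k : Type u} [Field k] {m e : ℕ} {L : Type v} [Field L] [Algebra k L]
  {D : GD k m e L}

/-- the tautological representation -/
noncomputable def std [CharZero k] (D : GD k m e L) : W1 D (Fin (m + 3)) where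
  T := D.M
  hdet := D.det_ne_zero
  hρ := by
    intro g i j
    have h1 : D.M.map (D.σ g) * D.M⁻¹ = GD.cm L g := by
      rw [D.σM, Matrix.mul_assoc, D.M_mul_inv, Matrix.mul_one]
    rw [h1]
    exact GD.cm_mem _ g i j
  hwt := GD.matWt_M

variable {I J : Type*} [Fintype I] [DecidableEq I] [Fintype J] [DecidableEq J]

theorem T_inv_mul (A : W1 D J) : A.T⁻¹ * A.T = 1 :=
  Matrix.nonsing_inv_mul _ (isUnit_iff_ne_zero.2 A.hdet)

theorem T_mul_inv (A : W1 D J) : A.T * A.T⁻¹ = 1 :=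
  Matrix.mul_nonsing_inv _ (isUnit_iff_ne_zero.2 A.hdet)

/-- the cocycle -/
noncomputable def ρ (A : W1 D J) (g : GL (Fin (m + 3)) k) : Matrix J J L :=
  A.T.map (D.σ g) * A.T⁻¹

theorem map_T (A : W1 D J) (g : GL (Fin (m + 3)) k) : A.T.map (D.σ g) = A.ρ g * A.T := by
  rw [ρ, Matrix.mul_assoc, A.T_inv_mul, Matrix.mul_one]

theorem map_det_T (A : W1 D J) (g : GL (Fin (m + 3)) k) : (A.T.map (D.σ g)).det ≠ 0 :=
  map_det_ne (D.σ g : L →+* L) A.hdet

theorem det_ρ (A : W1 D J) (g : GL (Fin (m + 3)) k) : (A.ρ g).det ≠ 0 := by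
  rw [ρ, Matrix.det_mul, Matrix.det_nonsing_inv, Ring.inverse_eq_inv']
  exact mul_ne_zero (A.map_det_T g) (inv_ne_zero A.hdet)

theorem map_T_inv (A : W1 D J) (g : GL (Fin (m + 3)) k) :
    (A.T⁻¹).map (D.σ g) = A.T⁻¹ * (A.ρ g)⁻¹ := by
  have h1 : (A.T⁻¹).map (D.σ g : L →+* L) = (A.T.map (D.σ g : L →+* L))⁻¹ :=
    (map_inv_matrix _ _).symm
  have h2 : A.T.map (D.σ g : L →+* L) = A.ρ g * A.T := A.map_T g
  refine Eq.trans h1 ?_
  rw [h2, Matrix.mul_inv_rev]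

variable [CharZero k] [IsAlgClosed k]

/-- Morphisms of semilinear representations of weight one. -/
theorem exists_hom (he : 1 ≤ e) (A : W1 D I) (B : W1 D J) (P : MvPolynomial (J × I) L)
    (hP : P ≠ 0) : ∃ φ : Matrix J I L, (∀ j i, φ j i ∈ D.K0) ∧
      (∀ j i, (B.T⁻¹ * φ * A.T) j i ∈ D.inv ⊤) ∧ eval (fun p => φ p.1 p.2) P ≠ 0 := by
  classical
  -- the representation `Hom(A, B)`
  set T : Matrix (J × I) (J × I) L := Matrix.kroneckerMap (· * ·) B.T (A.T⁻¹)ᵀ with hT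
  have hAdet : (A.T⁻¹)ᵀ.det ≠ 0 := by
    rw [Matrix.det_transpose, Matrix.det_nonsing_inv, Ring.inverse_eq_inv']
    exact inv_ne_zero A.hdet
  have hTdet : T.det ≠ 0 := by
    rw [hT, Matrix.det_kronecker]
    exact mul_ne_zero (pow_ne_zero _ B.hdet) (pow_ne_zero _ hAdet)
  have hTinv : T⁻¹ = Matrix.kroneckerMap (· * ·) B.T⁻¹ (A.T)ᵀ := by
    apply Matrix.inv_eq_right_inv
    rw [hT, ← Matrix.mul_kronecker_mul, B.T_mul_inv, ← Matrix.transpose_mul, A.T_mul_inv,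
      Matrix.transpose_one, Matrix.one_kronecker_one]
  have hwt : D.MatWt 0 T := by
    rintro ⟨j, i⟩ ⟨j', i'⟩
    have h1 := (B.hwt j j').mul (A.hwt.inv A.hdet i' i)
    rw [add_neg_cancel] at h1
    exact h1
  have hρ : ∀ g i j, (T.map (D.σ g) * T⁻¹) i j ∈ D.K0 := by
    intro g
    have h1 : T.map (D.σ g) = Matrix.kroneckerMap (· * ·) (B.T.map (D.σ g))
        (((A.T⁻¹).map (D.σ g))ᵀ) := by
      ext p q
      simp [hT, Matrix.kroneckerMap_apply, Matrix.map_apply]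
    have h2 : T.map (D.σ g) * T⁻¹ = Matrix.kroneckerMap (· * ·) (B.ρ g)
        ((A.ρ g)⁻¹)ᵀ := by
      rw [h1, hTinv, ← Matrix.mul_kronecker_mul, ← Matrix.transpose_mul, A.map_T_inv,
        ← Matrix.mul_assoc, A.T_mul_inv, Matrix.one_mul]
      rfl
    rintro ⟨j, i⟩ ⟨j', i'⟩
    rw [h2]
    exact mul_mem (B.hρ g j j') (inv_mem_of_mem' (A.hρ g) i' i)
  obtain ⟨C, hC, hCdet, hCF⟩ := D.speiser he T hTdet hρ hwt
  -- a linear change of variables
  let Q : MvPolynomial (J × I) L := aeval (fun p => ∑ c, MvPolynomial.C (C p c) * X c) P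
  have hQ : ∀ c : J × I → L, eval c Q = eval (C *ᵥ c) P := by
    intro c
    have h1 := MvPolynomial.eval₂_comp_left (eval c)
      (algebraMap L (MvPolynomial (J × I) L))
      (fun p => ∑ c, MvPolynomial.C (C p c) * X c) P
    change eval c (eval₂ _ _ P) = eval₂ (RingHom.id L) (C *ᵥ c) P
    rw [h1]
    congr 1
    · ext a
      change eval c (MvPolynomial.C _) = _
      rw [eval_C]; rfl
    · funext p
      simp [Matrix.mulVec, dotProduct]
  have hQ0 : Q ≠ 0 := by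
    intro h
    apply hP
    have hinf : Infinite L := Infinite.of_injective (algebraMap k L) (algebraMap k L).injective
    refine MvPolynomial.funext fun x => ?_
    have h1 := hQ (C⁻¹ *ᵥ x)
    rw [Matrix.mulVec_mulVec, Matrix.mul_nonsing_inv _ (isUnit_iff_ne_zero.2 hCdet),
      Matrix.one_mulVec, h, map_zero] at h1
    rw [map_zero]; exact h1.symm
  obtain ⟨c, hc⟩ : ∃ c : J × I → k, eval (fun p => algebraMap k L (c p)) Q ≠ 0 := by
    by_contra hcon
    push Not at hcon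
    apply hQ0
    have hs : ∀ _ : J × I, (Set.range (algebraMap k L)).Infinite := fun _ =>
      Set.infinite_range_of_injective (algebraMap k L).injective
    refine MvPolynomial.funext_set (fun _ => Set.range (algebraMap k L)) hs fun x hx => ?_
    rw [map_zero]
    have hx' : ∀ p, ∃ c : k, algebraMap k L c = x p := fun p => hx p (Set.mem_univ _)
    choose c hc using hx'
    have h1 : x = fun p => algebraMap k L (c p) := funext fun p => (hc p).symm
    rw [h1]; exact hcon c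
  refine ⟨Matrix.of fun j i => (C *ᵥ (fun p => algebraMap k L (c p))) (j, i), ?_, ?_, ?_⟩
  · intro j i
    exact sum_mem fun p _ => mul_mem (hC _ _) (D.K0.algebraMap_mem _)
  · intro j i
    have h1 : (B.T⁻¹ * (Matrix.of fun j i => (C *ᵥ (fun p => algebraMap k L (c p))) (j, i)) * A.T :
        Matrix J I L) j i = ((T⁻¹ * C) *ᵥ (fun p => algebraMap k L (c p))) (j, i) := by
      rw [← Matrix.mulVec_mulVec, hTinv]
      set w := C *ᵥ (fun p => algebraMap k L (c p)) with hw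
      rw [Matrix.mul_apply]
      simp only [Matrix.mul_apply, Matrix.of_apply]
      rw [Matrix.mulVec, dotProduct, Fintype.sum_prod_type, Finset.sum_comm]
      refine Finset.sum_congr rfl fun i' _ => ?_
      rw [Finset.sum_mul]
      refine Finset.sum_congr rfl fun j' _ => ?_
      simp only [Matrix.kroneckerMap_apply, Matrix.transpose_apply]
      ring
    rw [h1]
    exact sum_mem fun p _ => mul_mem (hCF _ _) ((D.inv ⊤).algebraMap_mem _)
  · rw [hQ] at hc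
    exact hc

end W1

end Pool.Agent.Lib.MP_82c165_ag
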