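import Mathlib
import Pool.Agent.Lib.MP_82c165_ag.Weights

/-!
Constructions of semilinear representations of weight one.
-/

namespace Pool.Agent.Lib.MP_82c165_ag

open MvPolynomial Matrix

universe u v

namespace W1

variable {k : Type u} [Field k] {m e : ℕ} {L : Type v} [Field L] [Algebra k L]
  {D : GD k m e L} {I I' J : Type*} [Fintype I] [DecidableEq I] [Fintype J] [DecidableEq J]
  [Fintype I'] [DecidableEq I']

/-- reindexing -/
noncomputable def reindex (A : W1 D I) (f : I ≃ J) : W1 D J where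
  T := A.T.submatrix f.symm f.symm
  hdet := by rw [Matrix.det_submatrix_equiv_self]; exact A.hdet
  hρ := by
    intro g i j
    have h1 : (A.T.submatrix f.symm f.symm).map (D.σ g) =
        (A.T.map (D.σ g)).submatrix f.symm f.symm := rfl
    rw [h1, Matrix.inv_submatrix_equiv, Matrix.submatrix_mul_equiv]
    exact A.hρ g _ _
  hwt := fun i j => A.hwt _ _

theorem blockDiagonal_inv (A : Matrix I I L) (hA : A.det ≠ 0) (x : ℕ) :
    (Matrix.blockDiagonal (fun _ : Fin x => A))⁻¹ = Matrix.blockDiagonal (fun _ : Fin x => A⁻¹) := by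
  apply Matrix.inv_eq_right_inv
  rw [← Matrix.blockDiagonal_mul]
  have : (fun _ : Fin x => A * A⁻¹) = (1 : Fin x → Matrix I I L) := by
    funext _
    exact Matrix.mul_nonsing_inv _ (isUnit_iff_ne_zero.2 hA)
  rw [this, Matrix.blockDiagonal_one]

omit [DecidableEq I'] in
theorem fromBlocks_mul_rows (A : Matrix I I L) (B : Matrix I I' L) (C : Matrix I' I L)
    (E : Matrix I' I' L) : Matrix.fromBlocks A B C E * (Matrix.fromRows 1 0 : Matrix (I ⊕ I') I L) =
      Matrix.fromRows A C := by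
  ext i j
  rcases i with i | i
  · rw [Matrix.mul_apply, Fintype.sum_sum_type]
    simp [Matrix.one_apply]
  · rw [Matrix.mul_apply, Fintype.sum_sum_type]
    simp [Matrix.one_apply]

/-- copies -/
noncomputable def copies (A : W1 D I) (x : ℕ) : W1 D (I × Fin x) where
  T := Matrix.blockDiagonal (fun _ : Fin x => A.T)
  hdet := by
    rw [Matrix.det_blockDiagonal]
    exact Finset.prod_ne_zero_iff.2 fun _ _ => A.hdet
  hρ := by
    intro g i j
    have h1 : (Matrix.blockDiagonal (fun _ : Fin x => A.T)).map (D.σ g) =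
        Matrix.blockDiagonal (fun _ : Fin x => A.T.map (D.σ g)) := by
      rw [Matrix.blockDiagonal_map _ _ (map_zero _)]
    rw [h1, blockDiagonal_inv _ A.hdet, ← Matrix.blockDiagonal_mul, Matrix.blockDiagonal_apply]
    split_ifs
    · exact A.hρ g _ _
    · exact zero_mem _
  hwt := by
    intro i j
    rw [Matrix.blockDiagonal_apply]
    split_ifs
    · exact A.hwt _ _
    · exact GD.HasWt.zero 1

variable [CharZero k] [IsAlgClosed k]

/-- Two representations of the same dimension are isomorphic. -/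
theorem exists_iso (he : 1 ≤ e) (A : W1 D I) (B : W1 D I) :
    ∃ φ : Matrix I I L, (∀ j i, φ j i ∈ D.K0) ∧ φ.det ≠ 0 ∧
      (∀ j i, (B.T⁻¹ * φ * A.T) j i ∈ D.inv ⊤) := by
  obtain ⟨φ, h1, h2, h3⟩ := exists_hom he A B (mvPolynomialX I I L).det
    (det_mvPolynomialX_ne_zero I L)
  refine ⟨φ, h1, ?_, h2⟩
  have h4 : eval (fun p : I × I => φ p.1 p.2) (mvPolynomialX I I L).det = φ.det := by
    have h5 : eval (fun p : I × I => φ p.1 p.2) (mvPolynomialX I I L).det =
      ((mvPolynomialX I I L).map (eval (fun p : I × I => φ p.1 p.2))).det := RingHom.map_det _ _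
    rw [h5]
    congr 1
    ext i j
    simp
  rwa [h4] at h3

/-- Cancellation: the complement of a subrepresentation. -/
theorem exists_sub (he : 1 ≤ e) (A : W1 D (I ⊕ I')) (B : W1 D I) : Nonempty (W1 D I') := by
  classical
  -- two polynomials in the entries of a matrix `φ`
  let X1 : Matrix I I (MvPolynomial ((I ⊕ I') × I) L) := Matrix.of fun i i' => X (Sum.inl i, i')
  let X0 : Matrix (I ⊕ I') I (MvPolynomial ((I ⊕ I') × I) L) := Matrix.of fun i i' => X (i, i')
  let Cm : L →+* MvPolynomial ((I ⊕ I') × I) L := C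
  let Y0 : Matrix (I ⊕ I') I (MvPolynomial ((I ⊕ I') × I) L) :=
    (A.T⁻¹).map Cm * X0 * (B.T).map Cm
  let X2 : Matrix I I (MvPolynomial ((I ⊕ I') × I) L) := Y0.submatrix Sum.inl id
  have hX1 : ∀ φ : Matrix (I ⊕ I') I L, eval (fun p => φ p.1 p.2) X1.det =
      (φ.submatrix Sum.inl id).det := by
    intro φ
    have h5 : eval (fun p : (I ⊕ I') × I => φ p.1 p.2) X1.det =
      (X1.map (eval (fun p : (I ⊕ I') × I => φ p.1 p.2))).det := RingHom.map_det _ _
    rw [h5]
    congr 1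
    ext i j
    simp [X1]
  have hX2 : ∀ φ : Matrix (I ⊕ I') I L, eval (fun p => φ p.1 p.2) X2.det =
      ((A.T⁻¹ * φ * B.T).submatrix Sum.inl id).det := by
    intro φ
    have h5 : eval (fun p : (I ⊕ I') × I => φ p.1 p.2) X2.det =
      (X2.map (eval (fun p : (I ⊕ I') × I => φ p.1 p.2))).det := RingHom.map_det _ _
    rw [h5]
    congr 1
    have h6 : X2.map (eval (fun p : (I ⊕ I') × I => φ p.1 p.2)) =
        (Y0.map (eval (fun p : (I ⊕ I') × I => φ p.1 p.2))).submatrix Sum.inl id := rfl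
    have h7 : Y0.map (eval (fun p : (I ⊕ I') × I => φ p.1 p.2)) = A.T⁻¹ * φ * B.T := by
      change ((A.T⁻¹).map Cm * X0 * (B.T).map Cm).map (eval (fun p : (I ⊕ I') × I => φ p.1 p.2)) = _
      rw [Matrix.map_mul, Matrix.map_mul]
      have h8 : ((A.T⁻¹).map Cm).map (eval (fun p : (I ⊕ I') × I => φ p.1 p.2)) = A.T⁻¹ := by
        ext i j; simp [Cm]
      have h9 : ((B.T).map Cm).map (eval (fun p : (I ⊕ I') × I => φ p.1 p.2)) = B.T := by
        ext i j; simp [Cm]
      have h10 : X0.map (eval (fun p : (I ⊕ I') × I => φ p.1 p.2)) = φ := by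
        ext i j; simp [X0]
      rw [h8, h9, h10]
    rw [h6, h7]
  let φ1 : Matrix (I ⊕ I') I L := Matrix.fromRows 1 0
  have hφ1 : (φ1.submatrix Sum.inl id) = (1 : Matrix I I L) := by
    ext i j; simp [φ1, Matrix.submatrix_apply, Matrix.fromRows]
  have hP1 : X1.det ≠ 0 := by
    intro h
    have h1 := hX1 φ1
    rw [h, map_zero, hφ1, Matrix.det_one] at h1
    exact zero_ne_one h1
  have hP2 : X2.det ≠ 0 := by
    intro h
    have h1 := hX2 (A.T * φ1 * B.T⁻¹)
    have h2 : A.T⁻¹ * (A.T * φ1 * B.T⁻¹) * B.T = φ1 := by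
      rw [← Matrix.mul_assoc, ← Matrix.mul_assoc, A.T_inv_mul, Matrix.one_mul, Matrix.mul_assoc,
        B.T_inv_mul, Matrix.mul_one]
    rw [h, map_zero, h2, hφ1, Matrix.det_one] at h1
    exact zero_ne_one h1
  obtain ⟨φ, hφK, hφF, hφ0⟩ := exists_hom he B A (X1.det * X2.det) (mul_ne_zero hP1 hP2)
  rw [map_mul, hX1, hX2] at hφ0
  have hd1 := left_ne_zero_of_mul hφ0
  have hd2 := right_ne_zero_of_mul hφ0
  -- block matrices
  set φa : Matrix I I L := φ.submatrix Sum.inl id with hφa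
  set φb : Matrix I' I L := φ.submatrix Sum.inr id with hφb
  set Cc : Matrix (I ⊕ I') I L := A.T⁻¹ * φ * B.T with hCc
  set Ca : Matrix I I L := Cc.submatrix Sum.inl id with hCa
  set Cb : Matrix I' I L := Cc.submatrix Sum.inr id with hCb
  set Φ : Matrix (I ⊕ I') (I ⊕ I') L := Matrix.fromBlocks φa 0 φb 1 with hΦ
  set Ct : Matrix (I ⊕ I') (I ⊕ I') L := Matrix.fromBlocks Ca 0 Cb 1 with hCt
  have hΦdet : Φ.det ≠ 0 := by
    rw [hΦ, Matrix.det_fromBlocks_zero₁₂, Matrix.det_one, mul_one]; exact hd1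
  have hCtdet : Ct.det ≠ 0 := by
    rw [hCt, Matrix.det_fromBlocks_zero₁₂, Matrix.det_one, mul_one]; exact hd2
  have hΦΦ : Φ⁻¹ * Φ = 1 := Matrix.nonsing_inv_mul _ (isUnit_iff_ne_zero.2 hΦdet)
  set Xx : Matrix (I ⊕ I') (I ⊕ I') L := Φ⁻¹ * A.T * Ct with hXx
  have hXdet : Xx.det ≠ 0 := by
    rw [hXx, Matrix.det_mul, Matrix.det_mul, Matrix.det_nonsing_inv, Ring.inverse_eq_inv']
    exact mul_ne_zero (mul_ne_zero (inv_ne_zero hΦdet) A.hdet) hCtdet
  -- the first columns
  have hφcol : φ = Φ * (Matrix.fromRows 1 0 : Matrix (I ⊕ I') I L) := by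
    rw [hΦ, fromBlocks_mul_rows]
    ext i j
    rcases i with i | i <;> rfl
  have hCcol : Cc = Ct * (Matrix.fromRows 1 0 : Matrix (I ⊕ I') I L) := by
    rw [hCt, fromBlocks_mul_rows]
    ext i j
    rcases i with i | i <;> rfl
  have hXcol : Xx * (Matrix.fromRows 1 0 : Matrix (I ⊕ I') I L) = Matrix.fromRows B.T 0 := by
    rw [hXx, Matrix.mul_assoc, ← hCcol, hCc]
    have h1 : Φ⁻¹ * A.T * (A.T⁻¹ * φ * B.T) = (Φ⁻¹ * φ) * B.T := by
      rw [← Matrix.mul_assoc, ← Matrix.mul_assoc, Matrix.mul_assoc Φ⁻¹ A.T A.T⁻¹, A.T_mul_inv,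
        Matrix.mul_one]
    rw [h1]
    have h2 : Φ⁻¹ * φ = (Matrix.fromRows 1 0 : Matrix (I ⊕ I') I L) := by
      conv_lhs => rw [hφcol]
      rw [← Matrix.mul_assoc, hΦΦ, Matrix.one_mul]
    rw [h2, Matrix.fromRows_mul, Matrix.one_mul, Matrix.zero_mul]
  have hX11 : Xx.toBlocks₁₁ = B.T := by
    ext i j
    have h1 := congrFun (congrFun hXcol (Sum.inl i)) j
    change Xx (Sum.inl i) (Sum.inl j) = B.T i j
    simpa [Matrix.mul_apply, Fintype.sum_sum_type, Matrix.fromRows, Matrix.one_apply] using h1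
  have hX21 : Xx.toBlocks₂₁ = 0 := by
    ext i j
    have h1 := congrFun (congrFun hXcol (Sum.inr i)) j
    change Xx (Sum.inr i) (Sum.inl j) = 0
    simpa [Matrix.mul_apply, Fintype.sum_sum_type, Matrix.fromRows, Matrix.one_apply] using h1
  set Y : Matrix I I' L := Xx.toBlocks₁₂ with hY
  set U : Matrix I' I' L := Xx.toBlocks₂₂ with hU
  have hXb : Xx = Matrix.fromBlocks B.T Y 0 U := by
    rw [← hX11, ← hX21, hY, hU, Matrix.fromBlocks_toBlocks]
  have hUdet : U.det ≠ 0 := by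
    rw [hXb, Matrix.det_fromBlocks_zero₂₁] at hXdet
    exact right_ne_zero_of_mul hXdet
  -- the block `U` is a representation of weight one
  have hCtF : ∀ i j, Ct i j ∈ D.inv ⊤ := by
    intro i j
    rcases i with i | i <;> rcases j with j | j
    · exact hφF _ _
    · exact zero_mem _
    · exact hφF _ _
    · change (1 : Matrix I' I' L) i j ∈ _
      rw [Matrix.one_apply]
      split_ifs
      · exact one_mem _
      · exact zero_mem _
  have hΦK : ∀ i j, Φ i j ∈ D.K0 := by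
    intro i j
    rcases i with i | i <;> rcases j with j | j
    · exact hφK _ _
    · exact zero_mem _
    · exact hφK _ _
    · change (1 : Matrix I' I' L) i j ∈ _
      rw [Matrix.one_apply]
      split_ifs
      · exact one_mem _
      · exact zero_mem _
  have hXwt : D.MatWt 1 Xx := by
    have h1 : D.MatWt 0 Φ⁻¹ := fun i j => GD.HasWt.of_K0 (inv_mem_of_mem' hΦK i j)
    have h2 : D.MatWt 0 Ct := fun i j => GD.HasWt.of_inv (hCtF i j)
    have h3 := (h1.mul A.hwt).mul h2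
    exact h3
  have hXρ : ∀ g i j, (Xx.map (D.σ g) * Xx⁻¹) i j ∈ D.K0 := by
    intro g
    have hC : Ct.map (D.σ g) = Ct := by
      ext i j; exact (hCtF i j).2 g
    have h1 : Xx.map (D.σ g) = (Φ⁻¹).map (D.σ g) * A.T.map (D.σ g) * Ct := by
      rw [hXx, Matrix.map_mul, Matrix.map_mul, hC]
    have h2 : Xx.map (D.σ g) * Xx⁻¹ = (Φ⁻¹).map (D.σ g) * (A.T.map (D.σ g) * A.T⁻¹) * Φ := by
      rw [h1, hXx, Matrix.mul_inv_rev, Matrix.mul_inv_rev]
      rw [Matrix.nonsing_inv_nonsing_inv _ (isUnit_iff_ne_zero.2 hΦdet)]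
      have h3 : Ct * (Ct⁻¹ * (A.T⁻¹ * Φ)) = A.T⁻¹ * Φ := by
        rw [← Matrix.mul_assoc, Matrix.mul_nonsing_inv _ (isUnit_iff_ne_zero.2 hCtdet),
          Matrix.one_mul]
      rw [Matrix.mul_assoc _ Ct, h3]
      simp only [Matrix.mul_assoc]
    rw [h2]
    exact mul_mem_of_mem' (mul_mem_of_mem'
      (fun i j => D.σ_mem_K0 g _ (inv_mem_of_mem' hΦK i j)) (A.hρ g)) hΦK
  have hXinv : Xx⁻¹ = Matrix.fromBlocks B.T⁻¹ (-(B.T⁻¹ * Y * U⁻¹)) 0 U⁻¹ := by
    apply Matrix.inv_eq_right_inv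
    rw [hXb, Matrix.fromBlocks_multiply]
    rw [Matrix.zero_mul, Matrix.mul_zero, Matrix.mul_zero, Matrix.zero_mul, add_zero, add_zero,
      zero_add, B.T_mul_inv, Matrix.mul_nonsing_inv _ (isUnit_iff_ne_zero.2 hUdet)]
    rw [Matrix.mul_neg, ← Matrix.mul_assoc, ← Matrix.mul_assoc, B.T_mul_inv, Matrix.one_mul,
      neg_add_cancel, Matrix.fromBlocks_one]
  refine ⟨⟨U, hUdet, ?_, fun i j => hXwt (Sum.inr i) (Sum.inr j)⟩⟩
  intro g i j
  have h1 : (Xx.map (D.σ g) * Xx⁻¹) (Sum.inr i) (Sum.inr j) = (U.map (D.σ g) * U⁻¹) i j := by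
    have h2 : Xx.map (D.σ g) = Matrix.fromBlocks (B.T.map (D.σ g)) (Y.map (D.σ g)) 0
        (U.map (D.σ g)) := by
      rw [hXb, Matrix.fromBlocks_map]
      congr 1
      ext i j; simp
    rw [h2, hXinv, Matrix.fromBlocks_multiply, Matrix.fromBlocks_apply₂₂, Matrix.zero_mul,
      zero_add]
  rw [← h1]
  exact hXρ g _ _

end W1

end Pool.Agent.Lib.MP_82c165_ag
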