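import Mathlib
import Pool.Agent.Lib.MP_82c165_ag.Objects
import Pool.Agent.Lib.MP_82c165_ag.Final

/-!
Symmetric powers.
-/

namespace Pool.Agent.Lib.MP_82c165_ag

open MvPolynomial Matrix

universe u v

section symMat

variable {n : ℕ} {A B : Type*} [CommRing A] [CommRing B]

theorem homog_eq_sum {d : ℕ} {P : MvPolynomial (Fin n) A} (hP : P.IsHomogeneous d) :
    P = ∑ γ : Mon n d, monomial γ.1 (coeff γ.1 P) := by
  classical
  ext β
  rw [coeff_sum]
  by_cases hβ : β.degree = d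
  · rw [Finset.sum_eq_single (⟨β, hβ⟩ : Mon n d)]
    · simp
    · intro γ _ hγ
      rw [coeff_monomial, if_neg]
      intro h
      exact hγ (Subtype.ext h)
    · simp
  · rw [hP.coeff_eq_zero hβ]
    symm
    refine Finset.sum_eq_zero fun γ _ => ?_
    rw [coeff_monomial, if_neg]
    intro h
    apply hβ
    rw [← h]; exact γ.2

/-- the matrix of `P ↦ P(Bx)` on forms of degree `d` -/
noncomputable def symMat (d : ℕ) (B : Matrix (Fin n) (Fin n) A) : Matrix (Mon n d) (Mon n d) A :=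
  Matrix.of fun β β' => coeff β.1 (lsub B (monomial β'.1 1))

theorem coeff_lsub {d : ℕ} {P : MvPolynomial (Fin n) A} (hP : P.IsHomogeneous d)
    (B : Matrix (Fin n) (Fin n) A) (β : Mon n d) :
    coeff β.1 (lsub B P) = ∑ γ, symMat d B β γ * coeff γ.1 P := by
  conv_lhs => rw [homog_eq_sum hP, map_sum, coeff_sum]
  refine Finset.sum_congr rfl fun γ _ => ?_
  have h1 : (monomial γ.1 (coeff γ.1 P) : MvPolynomial (Fin n) A) =
      C (coeff γ.1 P) * monomial γ.1 1 := by
    rw [C_mul_monomial, mul_one]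
  rw [h1, map_mul, lsub_C, coeff_C_mul, mul_comm]
  rfl

theorem symMat_mul (d : ℕ) (M N : Matrix (Fin n) (Fin n) A) :
    symMat d M * symMat d N = symMat d (N * M) := by
  ext β β'
  have h1 : (lsub N (monomial β'.1 (1 : A))).IsHomogeneous d :=
    lsub_homog N (isHomogeneous_monomial _ β'.2)
  have h2 := coeff_lsub h1 M β
  rw [lsub_lsub] at h2
  exact h2.symm

theorem symMat_one (d : ℕ) : symMat d (1 : Matrix (Fin n) (Fin n) A) = 1 := by
  classical
  ext β β'
  rw [symMat, Matrix.of_apply, lsub_one, coeff_monomial, Matrix.one_apply]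
  by_cases h : β = β'
  · subst h; simp
  · rw [if_neg, if_neg h]
    intro h'
    exact h (Subtype.ext h'.symm)

theorem map_symMat (φ : A →+* B) (d : ℕ) (M : Matrix (Fin n) (Fin n) A) :
    (symMat d M).map φ = symMat d (M.map φ) := by
  ext β β'
  have h1 : φ (coeff β.1 (lsub M (monomial β'.1 1))) =
      coeff β.1 (MvPolynomial.map φ (lsub M (monomial β'.1 1))) := (coeff_map _ _ _).symm
  change φ (coeff β.1 (lsub M (monomial β'.1 1))) = coeff β.1 (lsub (M.map φ) (monomial β'.1 1))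
  rw [h1, map_lsub, map_monomial, map_one]

theorem symMat_smul (d : ℕ) (a : A) (M : Matrix (Fin n) (Fin n) A) :
    symMat d (a • M) = a ^ d • symMat d M := by
  ext β β'
  change coeff β.1 (lsub (a • M) (monomial β'.1 1)) = a ^ d * coeff β.1 (lsub M (monomial β'.1 1))
  rw [lsub_smul a M (isHomogeneous_monomial _ β'.2), coeff_C_mul]

end symMat

namespace GD

variable {k : Type u} [Field k] {m e : ℕ} {L : Type v} [Field L] [Algebra k L]
  (D : GD k m e L) [CharZero k]

/-- the trivialisation of the symmetric power -/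
noncomputable def symT (d : ℕ) : Matrix (Mon (m + 3) d) (Mon (m + 3) d) L := symMat d D.M⁻¹

theorem symT_mul (d : ℕ) : D.symT d * symMat d D.M = 1 := by
  rw [symT, symMat_mul, D.M_mul_inv, symMat_one]

theorem symT_det (d : ℕ) : (D.symT d).det ≠ 0 := by
  intro h
  have h1 := congrArg Matrix.det (D.symT_mul d)
  rw [Matrix.det_mul, h, zero_mul, Matrix.det_one] at h1
  exact zero_ne_one h1

theorem symT_inv (d : ℕ) : (D.symT d)⁻¹ = symMat d D.M := Matrix.inv_eq_right_inv (D.symT_mul d)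

omit [CharZero k] in
theorem map_symT (d : ℕ) (g : GL (Fin (m + 3)) k) :
    (D.symT d).map (D.σ g) = symMat d (cm L g⁻¹) * D.symT d := by
  rw [symT, symMat_mul]
  have h1 := map_symMat (D.σ g : L →+* L) d D.M⁻¹
  have h2 : (D.M⁻¹).map (D.σ g : L →+* L) = D.M⁻¹ * cm L g⁻¹ := by
    have h0 : D.M.map (D.σ g : L →+* L) = cm L g * D.M := D.σM g
    have h3 : (cm L g)⁻¹ = cm L g⁻¹ := Matrix.inv_eq_left_inv (cm_inv_mul g)
    rw [← map_matrix_inv, h0, Matrix.mul_inv_rev, h3]
  rw [h2] at h1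
  exact h1

theorem symT_ρ (d : ℕ) (g : GL (Fin (m + 3)) k) (i j) :
    ((D.symT d).map (D.σ g) * (D.symT d)⁻¹) i j ∈ D.K0 := by
  rw [D.map_symT, Matrix.mul_assoc, D.symT_inv, D.symT_mul, Matrix.mul_one]
  refine mem_CI.1 (lsub_mem_CI (cm_mem D.K0 g⁻¹) ?_) _
  refine mem_CI.2 fun α => ?_
  classical
  rw [coeff_monomial]
  split_ifs
  · exact one_mem _
  · exact zero_mem _

theorem symT_wt (d : ℕ) : D.MatWt (-(d : ℤ)) (D.symT d) := by
  intro i j Ω _ τ₁ τ₂ ζ h1 h2 h3 h4
  have hne : τ₁ (algebraMap k L ζ) ≠ 0 := by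
    rw [Ne, map_eq_zero, map_eq_zero]; exact h2
  have h5 : (D.M⁻¹).map τ₂ = (τ₁ (algebraMap k L ζ))⁻¹ • (D.M⁻¹).map τ₁ := by
    rw [← map_matrix_inv, h4, smul_inv_matrix _ hne _ (map_det_ne τ₁ D.det_ne_zero),
      map_matrix_inv]
  have h6 := map_symMat τ₂ d D.M⁻¹
  have h7 := map_symMat τ₁ d D.M⁻¹
  rw [h5, symMat_smul, ← h7] at h6
  have h8 := congrFun (congrFun h6 i) j
  rw [_root_.zpow_neg, zpow_natCast, ← inv_pow]
  exact h8

end GD

/-- the symmetric power as a representation of weight one -/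
noncomputable def W1.sym {k : Type u} [Field k] {m e : ℕ} {L : Type v} [Field L] [Algebra k L]
    [CharZero k] (D : GD k m e L) (d : ℕ) (hd : e ∣ d + 1) : W1 D (Mon (m + 3) d) where
  T := D.symT d
  hdet := D.symT_det d
  hρ := D.symT_ρ d
  hwt := by
    intro i j
    refine (D.symT_wt d i j).congr ?_
    have : (1 : ℤ) - -(d : ℤ) = ((d + 1 : ℕ) : ℤ) := by push_cast; ring
    rw [this]
    exact Int.natCast_dvd_natCast.2 hd

end Pool.Agent.Lib.MP_82c165_ag
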