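import Mathlib
import Pool.Agent.Lib.MP_82c165_ag.Sym

/-!
A representation of weight one of small dimension.
-/

namespace Pool.Agent.Lib.MP_82c165_ag

open MvPolynomial Matrix

universe u v

theorem choose_modEq_one {p : ℕ} (hp : p.Prime) (b : ℕ) : ∀ i s : ℕ, p ^ b ∣ i → s < p ^ b →
    (i + s).choose s ≡ 1 [MOD p] := by
  induction b with
  | zero =>
    intro i s _ hs
    have : s = 0 := by simpa using hs
    rw [this, Nat.choose_zero_right]
  | succ b ih =>
    intro i s hi hs
    have := Fact.mk hp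
    obtain ⟨c, rfl⟩ := hi
    have h1 := Choose.choose_modEq_choose_mod_mul_choose_div_nat (p := p)
      (n := p ^ (b + 1) * c + s) (k := s)
    have h2 : p ^ (b + 1) * c + s = s + p * (p ^ b * c) := by ring
    have h3 : (p ^ (b + 1) * c + s) % p = s % p := by
      rw [h2, Nat.add_mul_mod_self_left]
    have h4 : (p ^ (b + 1) * c + s) / p = p ^ b * c + s / p := by
      rw [h2, Nat.add_mul_div_left _ _ hp.pos, add_comm]
    rw [h3, h4, Nat.choose_self, one_mul] at h1
    refine h1.trans (ih _ _ (dvd_mul_right _ _) ?_)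
    rw [Nat.div_lt_iff_lt_mul hp.pos, ← pow_succ]
    exact hs

theorem exists_coprime_sym {n r e : ℕ} (hn : 1 ≤ n) (he : 1 ≤ e)
    (hco : Nat.Coprime r e) :
    ∃ i, e ∣ i + 1 ∧ Nat.Coprime ((n + i - 1).choose i) r := by
  obtain ⟨i, hi1, hi2⟩ := Nat.chineseRemainder (hco.pow_left n) 0 (e - 1)
  refine ⟨i, ?_, ?_⟩
  · have h1 : i + 1 ≡ e - 1 + 1 [MOD e] := hi2.add_right 1
    rw [Nat.sub_add_cancel he] at h1
    rw [← Nat.modEq_zero_iff_dvd]
    exact h1.trans (by simp [Nat.ModEq])
  · rw [Nat.modEq_zero_iff_dvd] at hi1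
    apply Nat.Coprime.symm
    apply Nat.coprime_of_dvd
    intro p hp hpr hpc
    have h1 : p ^ n ∣ i := (pow_dvd_pow_of_dvd hpr n).trans hi1
    have h2 := choose_modEq_one hp n i (n - 1) h1 (by
      have := Nat.lt_pow_self hp.one_lt (n := n)
      omega)
    have h3 : n + i - 1 = i + (n - 1) := by omega
    have h4 : (n + i - 1).choose i = (i + (n - 1)).choose (n - 1) := by
      rw [h3]
      exact Nat.choose_symm_add
    rw [h4, ← Nat.modEq_zero_iff_dvd] at hpc
    have h5 := h2.symm.trans hpc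
    rw [Nat.modEq_zero_iff_dvd, Nat.dvd_one] at h5
    exact hp.one_lt.ne' h5

namespace W1

variable {k : Type u} [Field k] {m e : ℕ} {L : Type v} [Field L] [Algebra k L]
  {D : GD k m e L} [CharZero k] [IsAlgClosed k]

theorem exists_card (he : 1 ≤ e) {I J : Type} [Fintype I] [DecidableEq I] [Fintype J]
    [DecidableEq J] (A : W1 D I) (B : W1 D J) {x y g : ℕ}
    (h : Fintype.card I * x = Fintype.card J * y + g) : Nonempty (W1 D (Fin g)) := by
  have h1 : Fintype.card (I × Fin x) = Fintype.card ((J × Fin y) ⊕ Fin g) := by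
    simp [h]
  obtain ⟨f⟩ := Fintype.card_eq.1 h1
  exact exists_sub he ((A.copies x).reindex f) (B.copies y)

omit [CharZero k] [IsAlgClosed k] in
theorem exists_dvd {I : Type} [Fintype I] [DecidableEq I] (A : W1 D I) {a : ℕ}
    (h : Fintype.card I ∣ a) : Nonempty (W1 D (Fin a)) := by
  obtain ⟨c, hc⟩ := h
  have h1 : Fintype.card (I × Fin c) = Fintype.card (Fin a) := by
    simp [hc]
  obtain ⟨f⟩ := Fintype.card_eq.1 h1
  exact ⟨(A.copies c).reindex f⟩

theorem exists_W1 (D : GD k m e L) (he : 1 ≤ e) {a r : ℕ} (har : a * r = m + 3)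
    (hco : Nat.Coprime r e) : Nonempty (W1 D (Fin a)) := by
  classical
  have hr : 1 ≤ r := by
    rcases Nat.eq_zero_or_pos r with h | h
    · rw [h, mul_zero] at har; omega
    · exact h
  obtain ⟨i, hi, hic⟩ := exists_coprime_sym (n := m + 3) (by omega) he hco
  have hcard : Fintype.card (Mon (m + 3) i) = (m + 3 + i - 1).choose i := by
    rw [← card_Mon, Nat.card_eq_fintype_card]
  set c := (m + 3 + i - 1).choose i with hc
  have hc0 : 0 < c := Nat.choose_pos (by omega)
  have hga : Nat.gcd (m + 3) c ∣ a := by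
    have h1 : Nat.Coprime (Nat.gcd (m + 3) c) r := hic.coprime_dvd_left (Nat.gcd_dvd_right _ _)
    refine h1.dvd_of_dvd_mul_right ?_
    rw [har]
    exact Nat.gcd_dvd_left _ _
  rcases Nat.lt_or_ge (Nat.gcd (m + 3) c) c with h1 | h1
  · obtain ⟨x, _, hx⟩ := Nat.exists_mul_mod_eq_gcd h1
    obtain ⟨B⟩ := exists_card he (std D) (sym D i hi) (x := x) (y := (m + 3) * x / c)
      (g := Nat.gcd (m + 3) c) (by
        rw [hcard, Fintype.card_fin]
        have := Nat.div_add_mod ((m + 3) * x) c
        rw [hx] at this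
        exact this.symm)
    exact B.exists_dvd (by rwa [Fintype.card_fin])
  · have h2 : c ∣ m + 3 := by
      have h3 := Nat.gcd_dvd_right (m + 3) c
      have h4 : Nat.gcd (m + 3) c = c := le_antisymm (Nat.le_of_dvd hc0 h3) h1
      rw [← h4]
      exact Nat.gcd_dvd_left _ _
    refine (sym D i hi).exists_dvd ?_
    rw [hcard]
    have h4 : Nat.gcd (m + 3) c = c := Nat.gcd_eq_right h2
    rwa [h4] at hga

end W1

end Pool.Agent.Lib.MP_82c165_ag
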