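import Mathlib
import Pool.Agent.Lib.MP_82c165_ag.Uexist

/-!
The generic situation with several vectors and with auxiliary variables.
-/

namespace Pool.Agent.Lib.MP_82c165_ag

open MvPolynomial Matrix

universe u v

/-! ### Indices -/

section index

variable (a r m : ℕ) [hf : Fact (a * r = m + 3)]

/-- pairs (vector, level) as indices -/
def ix : Fin a × Fin r ≃ Fin (m + 3) := finProdFinEquiv.trans (finCongr hf.out)

variable {m}

/-- the vector of an index -/
def vi (c : Fin (m + 3)) : Fin a := ((ix a r m).symm c).1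

/-- the level of an index -/
def lv (c : Fin (m + 3)) : Fin r := ((ix a r m).symm c).2

theorem val_ix (i : Fin a) (j : Fin r) : ((ix a r m) (i, j) : ℕ) = j + r * i := rfl

@[simp] theorem vi_ix (i : Fin a) (j : Fin r) : vi a r (ix a r m (i, j)) = i := by
  simp [vi]

@[simp] theorem lv_ix (i : Fin a) (j : Fin r) : lv a r (ix a r m (i, j)) = j := by
  simp [lv]

@[simp] theorem ix_eta (c : Fin (m + 3)) : ix a r m (vi a r c, lv a r c) = c := by
  simp [vi, lv]

theorem val_eq (c : Fin (m + 3)) : (c : ℕ) = lv a r c + r * vi a r c := by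
  conv_lhs => rw [← ix_eta a r c]
  exact val_ix a r _ _

/-- the permutation of the indices attached to a permutation of the vectors -/
def pm (m : ℕ) [hf : Fact (a * r = m + 3)] (π : Equiv.Perm (Fin a)) : Equiv.Perm (Fin (m + 3)) :=
  ((ix a r m).symm.trans (Equiv.prodCongr π (Equiv.refl _))).trans (ix a r m)

theorem pm_ix (π : Equiv.Perm (Fin a)) (i : Fin a) (j : Fin r) :
    pm a r m π (ix a r m (i, j)) = ix a r m (π i, j) := by
  simp [pm]

theorem pm_apply (π : Equiv.Perm (Fin a)) (c : Fin (m + 3)) :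
    pm a r m π c = ix a r m (π (vi a r c), lv a r c) := by
  conv_lhs => rw [← ix_eta a r c, pm_ix]

@[simp] theorem vi_pm (π : Equiv.Perm (Fin a)) (c : Fin (m + 3)) :
    vi a r (pm a r m π c) = π (vi a r c) := by
  rw [pm_apply, vi_ix]

@[simp] theorem lv_pm (π : Equiv.Perm (Fin a)) (c : Fin (m + 3)) :
    lv a r (pm a r m π c) = lv a r c := by
  rw [pm_apply, lv_ix]

end index

/-! ### Frames made of several vectors -/

section frames

variable (a r : ℕ) {m : ℕ} [hf : Fact (a * r = m + 3)] {A B : Type*} [CommRing A] [CommRing B]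

theorem iter_add {n : ℕ} (F : Fin n → MvPolynomial (Fin n) A) (v : Fin n → A) (s j : ℕ) :
    iter F (iter F v s) j = iter F v (s + j) := by
  induction j with
  | zero => rfl
  | succ j ih =>
    rw [← Nat.add_assoc]
    funext i
    simp only [iter]
    rw [ih]

/-- the matrix whose columns are the iterates of the vectors `X i` -/
noncomputable def Mx (F : Fin (m + 3) → MvPolynomial (Fin (m + 3)) A)
    (X : Fin a → Fin (m + 3) → A) : Matrix (Fin (m + 3)) (Fin (m + 3)) A :=
  fun l c => iter F (X (vi a r c)) (lv a r c) l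

theorem map_Mx (φ : A →+* B) (F : Fin (m + 3) → MvPolynomial (Fin (m + 3)) A)
    (X : Fin a → Fin (m + 3) → A) :
    (Mx a r F X).map φ = Mx a r (fun i => MvPolynomial.map φ (F i)) (fun i l => φ (X i l)) := by
  ext l c
  exact congrFun (map_iter φ F (X (vi a r c)) (lv a r c)) l

theorem Mx_conj (g g' : Matrix (Fin (m + 3)) (Fin (m + 3)) A) (h : g' * g = 1)
    (F : Fin (m + 3) → MvPolynomial (Fin (m + 3)) A) (X : Fin a → Fin (m + 3) → A) :
    Mx a r (conj g g' F) (fun i => g *ᵥ X i) = g * Mx a r F X := by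
  ext l c
  change iter (conj g g' F) (g *ᵥ X (vi a r c)) (lv a r c) l = _
  rw [iter_conj g g' h]
  rfl

theorem eval_smul_homog {n d : ℕ} {P : MvPolynomial (Fin n) A} (hP : P.IsHomogeneous d) (c : A)
    (v : Fin n → A) : eval (c • v) P = c ^ d * eval v P := by
  have h1 := eval_lsub v (c • (1 : Matrix (Fin n) (Fin n) A)) P
  rw [lsub_smul_one c hP, map_mul, eval_C, Matrix.smul_mulVec, Matrix.one_mulVec] at h1
  exact h1.symm

theorem iter_smul {n d : ℕ} {F : Fin n → MvPolynomial (Fin n) A}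
    (hF : ∀ i, (F i).IsHomogeneous d) (c : A) (v : Fin n → A) (j : ℕ) :
    iter F (c • v) j = c ^ (d ^ j) • iter F v j := by
  induction j with
  | zero => simp [iter]
  | succ j ih =>
    funext i
    simp only [iter]
    rw [ih, eval_smul_homog (hF i), ← pow_mul, ← pow_succ]
    rfl

end frames

/-- Generic data: algebraically independent coefficients `A` of a tuple of forms, coordinates of
`a` vectors and `a` auxiliary variables, with an action of `GL_n(k)`, of a torus and of the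
symmetric group. -/
structure GE (k : Type u) [Field k] (m e a : ℕ) (L : Type v) [Field L] [Algebra k L] where
  A : Coeff (m + 3) (e + 1) → L
  V : Fin a → Fin (m + 3) → L
  lam : Fin a → L
  ind : AlgebraicIndependent k
    (Sum.elim (Sum.elim A (fun p : Fin a × Fin (m + 3) => V p.1 p.2)) lam)
  σ : GL (Fin (m + 3)) k → L →ₐ[k] L
  σA : ∀ g i, MvPolynomial.map (σ g : L →+* L) (formOf A i) =
    conj ((g : Matrix (Fin (m + 3)) (Fin (m + 3)) k).map (algebraMap k L))
      ((g⁻¹ : GL (Fin (m + 3)) k).1.map (algebraMap k L)) (formOf A) i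
  σV : ∀ g j, (fun i => σ g (V j i)) =
    (g : Matrix (Fin (m + 3)) (Fin (m + 3)) k).map (algebraMap k L) *ᵥ V j
  σlam : ∀ g j, σ g (lam j) = lam j
  θ : (Fin a → kˣ) → L →ₐ[k] L
  θA : ∀ s c, θ s (A c) = A c
  θV : ∀ s j i, θ s (V j i) = algebraMap k L (s j) * V j i
  θlam : ∀ s j, θ s (lam j) = lam j
  ω : Equiv.Perm (Fin a) → L →ₐ[k] L
  ωA : ∀ π c, ω π (A c) = A c
  ωV : ∀ π j i, ω π (V j i) = V (π j) i
  ωlam : ∀ π j, ω π (lam j) = lam (π j)
  ω_one : ∀ x, ω 1 x = x
  ω_mul : ∀ π π' x, ω (π * π') x = ω π (ω π' x)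
  θω : ∀ s π x, θ s (ω π x) = ω π (θ (s ∘ π) x)

namespace GE

variable {k : Type u} [Field k] {m e a : ℕ} {L : Type v} [Field L] [Algebra k L]
  (G : GE k m e a L) [NeZero a] (r : ℕ) [hf : Fact (a * r = m + 3)]

/-- the underlying situation with one vector -/
def D : GD k m e L where
  a := G.A
  x := G.V 0
  ind := by
    have h := G.ind.comp (Sum.elim (fun c => Sum.inl (Sum.inl c)) (fun i => Sum.inl (Sum.inr (0, i))))
      (by
        rw [Sum.elim_injective]
        refine ⟨fun i j h => by simpa using h, fun i j h => by simpa using h, fun a b => by simp⟩)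
    have h1 : (Sum.elim (Sum.elim G.A (fun p : Fin a × Fin (m + 3) => G.V p.1 p.2)) G.lam) ∘
      (Sum.elim (fun c => Sum.inl (Sum.inl c)) (fun i => Sum.inl (Sum.inr (0, i)))) =
        Sum.elim G.A (G.V 0) := by
      funext i
      cases i <;> rfl
    rwa [h1] at h
  σ := G.σ
  σa := G.σA
  σx := fun g => G.σV g 0

theorem fix_f0 (τ : L →ₐ[k] L) (hτ : ∀ c, τ (G.A c) = G.A c) (i : Fin (m + 3)) :
    MvPolynomial.map (τ : L →+* L) (G.D.f0 i) = G.D.f0 i := by
  rw [GD.f0, map_f0F]
  congr 1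
  funext j
  rw [GD.f, map_formOf]
  congr 1
  funext c
  exact hτ c

theorem fix_K0 (τ : L →ₐ[k] L) (hτ : ∀ c, τ (G.A c) = G.A c) (x : L) (hx : x ∈ G.D.K0) :
    τ x = x := by
  induction hx using IntermediateField.adjoin_induction with
  | mem x hx =>
    obtain ⟨i, α, rfl⟩ := hx
    conv_rhs => rw [← G.fix_f0 τ hτ i, coeff_map]
    rfl
  | algebraMap x => exact τ.commutes x
  | add x y _ _ hx hy => rw [map_add, hx, hy]
  | inv x _ hx => rw [map_inv₀, hx]
  | mul x y _ _ hx hy => rw [map_mul, hx, hy]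

/-- the frame -/
noncomputable def Ma : Matrix (Fin (m + 3)) (Fin (m + 3)) L := Mx a r G.D.f0 G.V

theorem σMa (g : GL (Fin (m + 3)) k) : (G.Ma r).map (G.σ g) = GD.cm L g * G.Ma r := by
  have h1 := map_Mx a r (G.σ g : L →+* L) G.D.f0 G.V
  have h0 : (fun i => MvPolynomial.map (G.σ g : L →+* L) (G.D.f0 i)) =
    conj (GD.cm L g) (GD.cm L g⁻¹) G.D.f0 := G.D.σf0 g
  have h2 : (fun i l => (G.σ g : L →+* L) (G.V i l)) = fun i => GD.cm L g *ᵥ G.V i :=
    funext fun i => G.σV g i
  rw [h0, h2, Mx_conj a r _ _ (GD.cm_inv_mul g)] at h1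
  exact h1

/-- the scaling factors -/
noncomputable def tf (e : ℕ) (s : Fin a → kˣ) (c : Fin (m + 3)) : L :=
  algebraMap k L (s (vi a r c)) ^ ((e + 1) ^ (lv a r c : ℕ))

omit [NeZero a] in
theorem tf_ne (s : Fin a → kˣ) (c : Fin (m + 3)) : tf (L := L) r e s c ≠ 0 := by
  refine pow_ne_zero _ ?_
  rw [Ne, map_eq_zero]
  exact (s (vi a r c)).ne_zero

theorem θMa (s : Fin a → kˣ) : (G.Ma r).map (G.θ s) = G.Ma r * Matrix.diagonal (tf r e s) := by
  have h1 := map_Mx a r (G.θ s : L →+* L) G.D.f0 G.V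
  have h0 : (fun i => MvPolynomial.map (G.θ s : L →+* L) (G.D.f0 i)) = G.D.f0 :=
    funext fun i => G.fix_f0 (G.θ s) (G.θA s) i
  have h2 : (fun i l => (G.θ s : L →+* L) (G.V i l)) = fun i => algebraMap k L (s i) • G.V i :=
    funext fun i => funext fun l => G.θV s i l
  rw [h0, h2] at h1
  refine Eq.trans h1 ?_
  ext l c
  rw [Matrix.mul_diagonal]
  change iter G.D.f0 (algebraMap k L (s (vi a r c)) • G.V (vi a r c)) (lv a r c) l = _
  rw [iter_smul G.D.f0_homog]
  rw [Pi.smul_apply, smul_eq_mul, mul_comm]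
  rfl

theorem ωMa (π : Equiv.Perm (Fin a)) :
    (G.Ma r).map (G.ω π) = (G.Ma r).submatrix id (pm a r m π) := by
  have h1 := map_Mx a r (G.ω π : L →+* L) G.D.f0 G.V
  have h0 : (fun i => MvPolynomial.map (G.ω π : L →+* L) (G.D.f0 i)) = G.D.f0 :=
    funext fun i => G.fix_f0 (G.ω π) (G.ωA π) i
  have h2 : (fun i l => (G.ω π : L →+* L) (G.V i l)) = fun i => G.V (π i) :=
    funext fun i => funext fun l => G.ωV π i l
  rw [h0, h2] at h1
  refine Eq.trans h1 ?_
  ext l c
  rw [Matrix.submatrix_apply, Ma, Mx, Mx, vi_pm, lv_pm]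
  rfl

/-! ### Nonvanishing of the determinant -/

/-- the ring of polynomials in all variables -/
abbrev RE (k : Type u) [Field k] (m e a : ℕ) : Type u :=
  MvPolynomial ((Coeff (m + 3) (e + 1) ⊕ (Fin a × Fin (m + 3))) ⊕ Fin a) k

/-- the polynomial version of `f` -/
noncomputable def fR (k : Type u) [Field k] (m e a : ℕ) : Fin (m + 3) →
    MvPolynomial (Fin (m + 3)) (RE k m e a) :=
  formOf (fun c => X (Sum.inl (Sum.inl c)))

/-- the polynomial version of `f0` -/
noncomputable def f0R (k : Type u) [Field k] (m e a : ℕ) : Fin (m + 3) →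
    MvPolynomial (Fin (m + 3)) (RE k m e a) :=
  f0F k e (fR k m e a)

/-- the evaluation map -/
noncomputable def ae : RE k m e a →ₐ[k] L :=
  aeval (Sum.elim (Sum.elim G.A (fun p : Fin a × Fin (m + 3) => G.V p.1 p.2)) G.lam)

omit [NeZero a] in
theorem ae_inj : Function.Injective G.ae := G.ind

theorem map_ae_f0R :
    (fun i => MvPolynomial.map (G.ae : _ →+* L) (f0R k m e a i)) = G.D.f0 := by
  funext i
  rw [f0R, map_f0F, GD.f0]
  congr 1
  funext j
  rw [fR, map_formOf, GD.f]
  congr 1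
  funext c
  simp [ae, D]

/-- the special point -/
noncomputable def evS (k : Type u) [Field k] (m e a r : ℕ) :
    RE k m e a →ₐ[k] k :=
  aeval (Sum.elim (Sum.elim (fun c => coeff c.2.1 (f1P m k (e + 1) c.1))
    (fun p => iter (f1P m k (e + 1)) (Pi.single 0 1) (r * p.1) p.2)) 0)

omit [NeZero a] hf in
theorem map_evS_f0R [CharZero k] :
    (fun i => MvPolynomial.map (evS k m e a r : _ →+* k) (f0R k m e a i)) =
      f1P m k (e + 1) := by
  have h1 : (fun i => MvPolynomial.map (evS k m e a r : _ →+* k) (fR k m e a i)) =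
      f1P m k (e + 1) := by
    funext i
    rw [fR, map_formOf, ← congrFun (formOf_coeff (d := e + 1) (f1P_homog (m := m) (e + 1))) i]
    congr 1
    funext c
    simp [evS]
  funext i
  rw [f0R, map_f0F, h1, f0F_eq_self (divF_f1P _)]

theorem det_ne_zero [CharZero k] : (G.Ma r).det ≠ 0 := by
  let MR := Mx a r (f0R k m e a) (fun i l => X (Sum.inl (Sum.inr (i, l))))
  have h1 : MR.map (G.ae : _ →+* L) = G.Ma r := by
    rw [map_Mx, G.map_ae_f0R, Ma]
    congr 1
    funext i l
    simp [ae]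
  have h2 : MR.map (evS k m e a r : _ →+* k) = frame (f1P m k (e + 1)) (Pi.single 0 1) := by
    rw [map_Mx, map_evS_f0R]
    ext l c
    change iter (f1P m k (e + 1)) (fun l => (evS k m e a r : _ →+* k)
      (X (Sum.inl (Sum.inr (vi a r c, l))) : RE k m e a)) (lv a r c) l =
        iter (f1P m k (e + 1)) (Pi.single 0 1) c l
    have h3 : (fun l => (evS k m e a r : _ →+* k)
        (X (Sum.inl (Sum.inr (vi a r c, l))) : RE k m e a)) =
        iter (f1P m k (e + 1)) (Pi.single 0 1) (r * vi a r c) := by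
      funext l
      simp [evS]
    rw [h3, iter_add]
    have h4 : r * (vi a r c : ℕ) + (lv a r c : ℕ) = (c : ℕ) := by
      rw [val_eq a r c]; ring
    rw [h4]
  have h3 : MR.det ≠ 0 := by
    intro h
    have h4 : (evS k m e a r : _ →+* k) MR.det = (MR.map (evS k m e a r : _ →+* k)).det :=
      RingHom.map_det _ _
    rw [h, map_zero, h2] at h4
    exact frame_f1P_det (e + 1) (by omega) h4.symm
  rw [← h1]
  have h4 : (G.ae : _ →+* L) MR.det = (MR.map (G.ae : _ →+* L)).det := RingHom.map_det _ _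
  rw [← h4]
  intro h
  exact h3 (G.ae_inj (by rw [map_zero]; exact h))

variable [CharZero k]

theorem Ma_inv_mul : (G.Ma r)⁻¹ * G.Ma r = 1 :=
  Matrix.nonsing_inv_mul _ (isUnit_iff_ne_zero.2 (G.det_ne_zero r))

theorem Ma_mul_inv : G.Ma r * (G.Ma r)⁻¹ = 1 :=
  Matrix.mul_nonsing_inv _ (isUnit_iff_ne_zero.2 (G.det_ne_zero r))

omit [CharZero k] in
/-- the normal form of `f0` -/
noncomputable def nf : Fin (m + 3) → MvPolynomial (Fin (m + 3)) L :=
  conj (G.Ma r)⁻¹ (G.Ma r) G.D.f0

omit [CharZero k] in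
theorem nf_homog (i : Fin (m + 3)) : (G.nf r i).IsHomogeneous (e + 1) :=
  conj_homog _ _ G.D.f0_homog i

theorem divF_nf : divF (G.nf r) = 0 := by
  rw [nf, divF_conj _ _ (G.Ma_mul_inv r), G.D.divF_f0, map_zero]

omit [CharZero k] in
/-- action on the normal form -/
theorem τnf (τ : L →+* L) (H H' N : Matrix (Fin (m + 3)) (Fin (m + 3)) L)
    (hN : N * H' = 1) (hτ : (G.Ma r).map τ = N * G.Ma r * H)
    (hF : (fun i => MvPolynomial.map τ (G.D.f0 i)) = conj N H' G.D.f0) :
    (fun i => MvPolynomial.map τ (G.nf r i)) = conj H⁻¹ H (G.nf r) := by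
  have hN' : H' * N = 1 := mul_eq_one_comm.1 hN
  have hNinv : N⁻¹ = H' := Matrix.inv_eq_right_inv hN
  funext i
  rw [nf, map_conj, hF, ← map_matrix_inv, hτ, conj_conj, conj_conj]
  have h1 : (N * G.Ma r * H)⁻¹ * N = H⁻¹ * (G.Ma r)⁻¹ := by
    rw [Matrix.mul_inv_rev, Matrix.mul_inv_rev, hNinv, Matrix.mul_assoc, Matrix.mul_assoc, hN',
      Matrix.mul_one]
  have h2 : H' * (N * G.Ma r * H) = G.Ma r * H := by
    rw [← Matrix.mul_assoc, ← Matrix.mul_assoc, hN', Matrix.one_mul]
  rw [h1, h2]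

theorem σnf (g : GL (Fin (m + 3)) k) :
    (fun i => MvPolynomial.map (G.σ g : L →+* L) (G.nf r i)) = G.nf r := by
  have h1 := G.τnf r (G.σ g : L →+* L) 1 (GD.cm L g⁻¹) (GD.cm L g)
    (GD.cm_mul_inv g) (by rw [Matrix.mul_one]; exact G.σMa r g) (G.D.σf0 g)
  rw [h1, inv_one, conj_one]

theorem f0_eq : G.D.f0 = conj (G.Ma r) (G.Ma r)⁻¹ (G.nf r) := by
  rw [nf, conj_conj, G.Ma_mul_inv, conj_one]

end GE

end Pool.Agent.Lib.MP_82c165_ag
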