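import Mathlib
import Pool.Agent.Lib.MP_82c165_ag.GenE

/-!
Action of the torus and of the symmetric group on the normal form.
-/

namespace Pool.Agent.Lib.MP_82c165_ag

open MvPolynomial Matrix

universe u v

section

variable {n : ℕ} {A : Type*} [CommRing A]

theorem lsub_diag_monomial (t : Fin n → A) (β : Fin n →₀ ℕ) (c : A) :
    lsub (Matrix.diagonal t) (monomial β c) = monomial β ((∏ i, t i ^ β i) * c) := by
  classical
  rw [monomial_eq, monomial_eq, map_mul, lsub_C, Finsupp.prod_fintype _ _ (fun i => pow_zero _),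
    map_prod]
  have h1 : ∀ i, lsub (Matrix.diagonal t) (X i ^ β i) = C (t i ^ β i) * X i ^ β i := by
    intro i
    rw [map_pow, lsub_X, Finset.sum_eq_single i, Matrix.diagonal_apply_eq, mul_pow, map_pow]
    · intro j _ hj
      rw [Matrix.diagonal_apply_ne _ hj.symm, map_zero, zero_mul]
    · simp
  simp only [h1]
  rw [Finset.prod_mul_distrib, ← map_prod, map_mul]
  ring

theorem coeff_lsub_diag (t : Fin n → A) (P : MvPolynomial (Fin n) A) (α : Fin n →₀ ℕ) :
    coeff α (lsub (Matrix.diagonal t) P) = (∏ c, t c ^ α c) * coeff α P := by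
  classical
  induction P using MvPolynomial.induction_on' with
  | monomial β c =>
    rw [lsub_diag_monomial, coeff_monomial, coeff_monomial]
    split_ifs with h
    · rw [h]
    · rw [mul_zero]
  | add p q hp hq => rw [map_add, coeff_add, hp, hq, coeff_add, mul_add]

theorem lsub_perm (p : Equiv.Perm (Fin n)) (P : MvPolynomial (Fin n) A) :
    lsub ((1 : Matrix (Fin n) (Fin n) A).submatrix id p) P = rename p.symm P := by
  classical
  have h1 : lsub ((1 : Matrix (Fin n) (Fin n) A).submatrix id p) =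
      rename p.symm := by
    apply MvPolynomial.algHom_ext
    intro i
    rw [lsub_X, rename_X, Finset.sum_eq_single (p.symm i)]
    · rw [Matrix.submatrix_apply, id, Equiv.apply_symm_apply, Matrix.one_apply_eq, map_one, one_mul]
    · intro j _ hj
      rw [Matrix.submatrix_apply, id, Matrix.one_apply_ne, map_zero, zero_mul]
      intro h
      apply hj
      rw [h]; simp
    · simp
  rw [h1]

theorem coeff_lsub_perm (p : Equiv.Perm (Fin n)) (P : MvPolynomial (Fin n) A)
    (α : Fin n →₀ ℕ) :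
    coeff α (lsub ((1 : Matrix (Fin n) (Fin n) A).submatrix id p) P) =
      coeff (Finsupp.equivMapDomain p α) P := by
  rw [lsub_perm]
  have h1 := coeff_rename_mapDomain (p.symm : Fin n → Fin n) p.symm.injective P
    (Finsupp.equivMapDomain p α)
  rw [← Finsupp.equivMapDomain_eq_mapDomain, ← Finsupp.equivMapDomain_trans] at h1
  simpa using h1

end

section

variable {n : ℕ} {K : Type*} [Field K]

theorem coeff_conj_diag (t : Fin n → K) (ht : ∀ i, t i ≠ 0)
    (F : Fin n → MvPolynomial (Fin n) K) (l : Fin n) (α : Fin n →₀ ℕ) :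
    coeff α (conj (Matrix.diagonal t)⁻¹ (Matrix.diagonal t) F l) =
      (t l)⁻¹ * (∏ c, t c ^ α c) * coeff α (F l) := by
  classical
  have h1 : (Matrix.diagonal t)⁻¹ = Matrix.diagonal (fun i => (t i)⁻¹) := by
    apply Matrix.inv_eq_right_inv
    rw [Matrix.diagonal_mul_diagonal, ← Matrix.diagonal_one]
    congr 1
    funext i
    exact mul_inv_cancel₀ (ht i)
  rw [h1, conj, coeff_sum, Finset.sum_eq_single l]
  · rw [coeff_C_mul, coeff_lsub_diag, Matrix.diagonal_apply_eq, mul_assoc]
  · intro j _ hj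
    rw [Matrix.diagonal_apply_ne _ hj.symm, map_zero, zero_mul, coeff_zero]
  · simp

theorem coeff_conj_perm (p : Equiv.Perm (Fin n))
    (F : Fin n → MvPolynomial (Fin n) K) (l : Fin n) (α : Fin n →₀ ℕ) :
    coeff α (conj ((1 : Matrix (Fin n) (Fin n) K).submatrix id p)⁻¹
      ((1 : Matrix (Fin n) (Fin n) K).submatrix id p) F l) =
      coeff (Finsupp.equivMapDomain p α) (F (p l)) := by
  classical
  have h1 : ((1 : Matrix (Fin n) (Fin n) K).submatrix id p)⁻¹ =
      (1 : Matrix (Fin n) (Fin n) K).submatrix p id := by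
    apply Matrix.inv_eq_right_inv
    ext i j
    rw [Matrix.mul_apply, Finset.sum_eq_single (p.symm i)]
    · rw [Matrix.submatrix_apply, Matrix.submatrix_apply, id, id, Equiv.apply_symm_apply,
        Matrix.one_apply_eq, one_mul]
    · intro x _ hx
      rw [Matrix.submatrix_apply, id, Matrix.one_apply_ne, zero_mul]
      intro h
      apply hx
      rw [h]; simp
    · simp
  rw [h1, conj, coeff_sum, Finset.sum_eq_single (p l)]
  · rw [coeff_C_mul, coeff_lsub_perm, Matrix.submatrix_apply, id, Matrix.one_apply_eq, one_mul]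
  · intro j _ hj
    rw [Matrix.submatrix_apply, id, Matrix.one_apply_ne hj.symm, map_zero, zero_mul, coeff_zero]
  · simp

end

/-! ### Positions -/

section positions

variable (a r : ℕ) {m e : ℕ} [hf : Fact (a * r = m + 3)]

/-- action of a permutation on monomials -/
noncomputable def pMon {d : ℕ} (π : Equiv.Perm (Fin a)) (α : Mon (m + 3) d) : Mon (m + 3) d :=
  ⟨Finsupp.equivMapDomain (pm a r m π) α.1, by
    rw [Finsupp.equivMapDomain_eq_mapDomain, Finsupp.degree_mapDomain]; exact α.2⟩

/-- action of a permutation on positions -/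
noncomputable def pPos {d : ℕ} (π : Equiv.Perm (Fin a)) (c : Coeff (m + 3) d) :
    Coeff (m + 3) d := (pm a r m π c.1, pMon a r π c.2)

/-- the scaling exponents -/
def wtx (e : ℕ) (l : Fin (m + 3)) (α : Fin (m + 3) →₀ ℕ) (i : Fin a) : ℤ :=
  (∑ c, if vi a r c = i then (α c : ℤ) * ((e : ℤ) + 1) ^ (lv a r c : ℕ) else 0) -
    if vi a r l = i then ((e : ℤ) + 1) ^ (lv a r l : ℕ) else 0

/-- the character attached to a weight -/
def chr {k : Type*} [Field k] {a : ℕ} (s : Fin a → kˣ) (w : Fin a → ℤ) : kˣ :=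
  ∏ i, s i ^ w i

theorem chr_add {k : Type*} [Field k] {a : ℕ} (s : Fin a → kˣ) (w w' : Fin a → ℤ) :
    chr s (w + w') = chr s w * chr s w' := by
  simp only [chr, Pi.add_apply, _root_.zpow_add, Finset.prod_mul_distrib]

theorem chr_sub {k : Type*} [Field k] {a : ℕ} (s : Fin a → kˣ) (w w' : Fin a → ℤ) :
    chr s (w - w') = chr s w / chr s w' := by
  simp only [chr, Pi.sub_apply, _root_.zpow_sub, Finset.prod_mul_distrib, Finset.prod_inv_distrib,
    div_eq_mul_inv]

theorem chr_zsmul {k : Type*} [Field k] {a : ℕ} (s : Fin a → kˣ) (c : ℤ) (w : Fin a → ℤ) :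
    chr s (c • w) = chr s w ^ c := by
  simp only [chr, Pi.smul_apply, smul_eq_mul, ← Finset.prod_zpow]
  refine Finset.prod_congr rfl fun i _ => ?_
  rw [mul_comm, _root_.zpow_mul]

theorem zpow_sum_eq {G ι : Type*} [CommGroup G] (x : G) (s : Finset ι) (f : ι → ℤ) :
    x ^ (∑ i ∈ s, f i) = ∏ i ∈ s, x ^ f i := by
  classical
  induction s using Finset.induction_on with
  | empty => simp
  | insert i s hi ih => rw [Finset.sum_insert hi, Finset.prod_insert hi, _root_.zpow_add, ih]

theorem chr_zero {k : Type*} [Field k] {a : ℕ} (s : Fin a → kˣ) :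
    chr s (0 : Fin a → ℤ) = 1 := by
  simp [chr]

theorem chr_comp {k : Type*} [Field k] {a : ℕ} (s : Fin a → kˣ) (π : Equiv.Perm (Fin a))
    (w : Fin a → ℤ) : chr (s ∘ π) w = chr s (w ∘ π.symm) := by
  rw [chr, chr, ← Equiv.prod_comp π (fun i => s i ^ (w ∘ π.symm) i)]
  simp

theorem wtx_pm (π : Equiv.Perm (Fin a)) (l : Fin (m + 3)) (α : Fin (m + 3) →₀ ℕ) :
    wtx a r e (pm a r m π l) (Finsupp.equivMapDomain (pm a r m π) α) = wtx a r e l α ∘ π.symm := by
  funext i
  simp only [wtx, Function.comp, vi_pm, lv_pm]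
  congr 1
  · rw [← Equiv.sum_comp (pm a r m π)]
    refine Finset.sum_congr rfl fun c _ => ?_
    simp only [vi_pm, lv_pm, Finsupp.equivMapDomain_apply, Equiv.symm_apply_apply]
    by_cases h : π (vi a r c) = i
    · rw [if_pos h, if_pos]
      rw [← h]; simp
    · rw [if_neg h, if_neg]
      intro h2
      apply h
      rw [h2]; simp
  · by_cases h : π (vi a r l) = i
    · rw [if_pos h, if_pos]
      rw [← h]; simp
    · rw [if_neg h, if_neg]
      intro h2
      apply h
      rw [h2]; simp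

end positions

namespace GE

variable {k : Type u} [Field k] {m e a : ℕ} {L : Type v} [Field L] [Algebra k L]
  (G : GE k m e a L) [NeZero a] (r : ℕ) [hf : Fact (a * r = m + 3)]

theorem ω_coeff_nf (π : Equiv.Perm (Fin a)) (l : Fin (m + 3)) (α : Fin (m + 3) →₀ ℕ) :
    G.ω π (coeff α (G.nf r l)) =
      coeff (Finsupp.equivMapDomain (pm a r m π) α) (G.nf r (pm a r m π l)) := by
  have h1 := G.τnf r (G.ω π : L →+* L) ((1 : Matrix _ _ L).submatrix id (pm a r m π)) 1 1
    (mul_one _) (by
      rw [Matrix.one_mul]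
      refine Eq.trans (G.ωMa r π) ?_
      ext i j
      rw [Matrix.mul_apply, Finset.sum_eq_single (pm a r m π j)]
      · rw [Matrix.submatrix_apply, Matrix.submatrix_apply, id, id, Matrix.one_apply_eq, mul_one]
      · intro x _ hx
        rw [Matrix.submatrix_apply, id, Matrix.one_apply_ne hx, mul_zero]
      · simp) (by
      rw [conj_one]
      exact funext fun i => G.fix_f0 (G.ω π) (G.ωA π) i)
  have h2 : G.ω π (coeff α (G.nf r l)) =
      coeff α (MvPolynomial.map (G.ω π : L →+* L) (G.nf r l)) := (coeff_map _ _ _).symm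
  rw [h2, congrFun h1 l, coeff_conj_perm]

omit [NeZero a] in
theorem prod_tf (s : Fin a → kˣ) (α : Fin (m + 3) →₀ ℕ) (l : Fin (m + 3)) :
    (tf (L := L) r e s l)⁻¹ * (∏ c, tf (L := L) r e s c ^ α c) =
      algebraMap k L (chr s (wtx a r e l α)) := by
  have h1 : ∀ c : Fin (m + 3), tf (L := L) r e s c =
      algebraMap k L ((s (vi a r c) ^ (((e : ℤ) + 1) ^ (lv a r c : ℕ)) : kˣ) : k) := by
    intro c
    have : ((e : ℤ) + 1) ^ (lv a r c : ℕ) = (((e + 1) ^ (lv a r c : ℕ) : ℕ) : ℤ) := by push_cast; rfl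
    rw [tf, ← map_pow, this, zpow_natCast, Units.val_pow_eq_pow_val]
  have h2 : ∀ c : Fin (m + 3), tf (L := L) r e s c ^ α c =
      algebraMap k L ((∏ i, s i ^ (if vi a r c = i then
        (α c : ℤ) * ((e : ℤ) + 1) ^ (lv a r c : ℕ) else 0) : kˣ) : k) := by
    intro c
    rw [h1, ← map_pow, ← Units.val_pow_eq_pow_val]
    congr 2
    rw [Finset.prod_eq_single (vi a r c)]
    · rw [if_pos rfl, mul_comm, _root_.zpow_mul, zpow_natCast]
    · intro i _ hi
      rw [if_neg hi.symm, zpow_zero]
    · simp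
  have h3 : (tf (L := L) r e s l)⁻¹ =
      algebraMap k L (((∏ i, s i ^ (if vi a r l = i then
        ((e : ℤ) + 1) ^ (lv a r l : ℕ) else 0) : kˣ)⁻¹ : kˣ) : k) := by
    rw [h1, ← map_inv₀, ← Units.val_inv_eq_inv_val]
    congr 3
    rw [Finset.prod_eq_single (vi a r l)]
    · rw [if_pos rfl]
    · intro i _ hi
      rw [if_neg hi.symm, zpow_zero]
    · simp
  simp only [h2]
  rw [h3, ← map_prod, ← map_mul, ← Units.coe_prod, ← Units.val_mul]
  congr 2
  rw [Finset.prod_comm]
  have h4 : wtx a r e l α = (fun i => ∑ c, if vi a r c = i then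
      (α c : ℤ) * ((e : ℤ) + 1) ^ (lv a r c : ℕ) else 0) -
      (fun i => if vi a r l = i then ((e : ℤ) + 1) ^ (lv a r l : ℕ) else 0) := rfl
  rw [h4, chr_sub, mul_comm, div_eq_mul_inv]
  congr 1
  rw [chr]
  refine Finset.prod_congr rfl fun i _ => ?_
  exact (zpow_sum_eq _ _ _).symm

theorem θ_coeff_nf (s : Fin a → kˣ) (l : Fin (m + 3)) (α : Fin (m + 3) →₀ ℕ) :
    G.θ s (coeff α (G.nf r l)) =
      algebraMap k L (chr s (wtx a r e l α)) * coeff α (G.nf r l) := by
  have h1 := G.τnf r (G.θ s : L →+* L) (Matrix.diagonal (tf r e s)) 1 1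
    (mul_one _) (by
      rw [Matrix.one_mul]
      exact G.θMa r s) (by
      rw [conj_one]
      exact funext fun i => G.fix_f0 (G.θ s) (G.θA s) i)
  have h2 : G.θ s (coeff α (G.nf r l)) =
      coeff α (MvPolynomial.map (G.θ s : L →+* L) (G.nf r l)) := (coeff_map _ _ _).symm
  rw [h2, congrFun h1 l, coeff_conj_diag _ (fun i => tf_ne r s i), prod_tf]

end GE

end Pool.Agent.Lib.MP_82c165_ag
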