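import Mathlib
import Pool.Agent.Lib.MP_82c165_ag.ActE

/-!
The fields attached to the generic situation with several vectors.
-/

namespace Pool.Agent.Lib.MP_82c165_ag

open MvPolynomial Matrix

universe u v

namespace GE

variable {k : Type u} [Field k] {m e a : ℕ} {L : Type v} [Field L] [Algebra k L]
  (G : GE k m e a L) [NeZero a] (r : ℕ) [hf : Fact (a * r = m + 3)]

/-- the field generated by `K0`, the vectors and the auxiliary variables -/
noncomputable def Om : IntermediateField k L :=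
  IntermediateField.adjoin k (GD.cf G.D.f0 ∪
    (Set.range (fun p : Fin a × Fin (m + 3) => G.V p.1 p.2) ∪ Set.range G.lam))

/-- the field of coefficients of the normal form, with the auxiliary variables -/
noncomputable def F2 : IntermediateField k L :=
  IntermediateField.adjoin k (GD.cf (G.nf r) ∪ Set.range G.lam)

theorem K0_le_Om : G.D.K0 ≤ G.Om := IntermediateField.adjoin.mono _ _ _ Set.subset_union_left

theorem V_mem_Om (i l) : G.V i l ∈ G.Om :=
  IntermediateField.subset_adjoin _ _ (Or.inr (Or.inl ⟨(i, l), rfl⟩))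

theorem lam_mem_Om (i) : G.lam i ∈ G.Om :=
  IntermediateField.subset_adjoin _ _ (Or.inr (Or.inr ⟨i, rfl⟩))

theorem lam_mem_F2 (i) : G.lam i ∈ G.F2 r :=
  IntermediateField.subset_adjoin _ _ (Or.inr ⟨i, rfl⟩)

theorem f0_mem_Om (i) : G.D.f0 i ∈ CI (m + 3) G.Om :=
  mem_CI.2 fun α => G.K0_le_Om (GD.coeff_mem_adjoin_cf _ i α)

theorem Ma_mem (i j) : G.Ma r i j ∈ G.Om := iter_mem (G.V_mem_Om _) G.f0_mem_Om _ _

theorem Ma_inv_mem (i j) : (G.Ma r)⁻¹ i j ∈ G.Om := inv_mem_of_mem (G.Ma_mem r) i j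

theorem nf_mem_Om (i) : G.nf r i ∈ CI (m + 3) G.Om :=
  conj_mem_CI (G.Ma_inv_mem r) (G.Ma_mem r) G.f0_mem_Om i

theorem coeff_nf_mem (i α) : coeff α (G.nf r i) ∈ G.F2 r :=
  IntermediateField.subset_adjoin _ _ (Or.inl ⟨i, α, rfl⟩)

theorem F2_le_Om : G.F2 r ≤ G.Om := by
  rw [F2, IntermediateField.adjoin_le_iff]
  rintro _ (⟨i, α, rfl⟩ | ⟨i, rfl⟩)
  · exact mem_CI.1 (G.nf_mem_Om r i) α
  · exact G.lam_mem_Om i

section

variable [CharZero k]

theorem σ_coeff_nf (g) (i) (α) : G.σ g (coeff α (G.nf r i)) = coeff α (G.nf r i) := by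
  conv_rhs => rw [← congrFun (G.σnf r g) i, coeff_map]
  rfl

theorem F2_le : G.F2 r ≤ G.D.inv G.Om := by
  rw [F2, IntermediateField.adjoin_le_iff]
  rintro _ (⟨i, α, rfl⟩ | ⟨i, rfl⟩)
  · exact ⟨mem_CI.1 (G.nf_mem_Om r i) α, fun g => G.σ_coeff_nf r g i α⟩
  · exact ⟨G.lam_mem_Om i, fun g => G.σlam g i⟩

omit [CharZero k] in
theorem V_eq_Ma (i : Fin a) (hr : 0 < r) (l : Fin (m + 3)) :
    G.V i l = G.Ma r l (ix a r m (i, ⟨0, hr⟩)) := by
  rw [Ma, Mx, vi_ix, lv_ix]
  rfl

omit [NeZero a] [CharZero k] in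
theorem r_pos (a r : ℕ) [hf : Fact (a * r = m + 3)] : 0 < r := by
  rcases Nat.eq_zero_or_pos r with h | h
  · have := hf.out
    rw [h, mul_zero] at this; omega
  · exact h

/-- everything is generated by the normal form and by the frame -/
theorem Om_le (N : IntermediateField k L) (hN : G.F2 r ≤ N) (hM : ∀ i j, G.Ma r i j ∈ N) :
    G.Om ≤ N := by
  have hnf : ∀ i, G.nf r i ∈ CI (m + 3) N := fun i =>
    mem_CI.2 fun α => hN (G.coeff_nf_mem r i α)
  rw [Om, IntermediateField.adjoin_le_iff]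
  rintro _ (⟨i, α, rfl⟩ | ⟨p, rfl⟩ | ⟨i, rfl⟩)
  · rw [G.f0_eq r]
    exact mem_CI.1 (conj_mem_CI hM (inv_mem_of_mem hM) hnf i) α
  · change G.V p.1 p.2 ∈ N
    rw [G.V_eq_Ma r p.1 (r_pos (m := m) a r)]
    exact hM _ _
  · exact hN (G.lam_mem_F2 r i)

theorem inv_Om : G.D.inv G.Om = G.F2 r := by
  refine le_antisymm ?_ (G.F2_le r)
  rintro φ ⟨hφ, hinv⟩
  have : Infinite k := inferInstance
  refine slice_lemma (G.F2 r) (G.Ma r) (G.det_ne_zero r) G.σ (fun g a ha => (G.F2_le r ha).2 g)
    (G.σMa r) φ ?_ hinv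
  set N := IntermediateField.adjoin (G.F2 r)
    (Set.range fun p : Fin (m + 3) × Fin (m + 3) => G.Ma r p.1 p.2) with hN
  have hMN : ∀ i j, G.Ma r i j ∈ N.restrictScalars k := fun i j =>
    IntermediateField.subset_adjoin (G.F2 r) _ ⟨(i, j), rfl⟩
  have hFN : G.F2 r ≤ N.restrictScalars k := fun x hx => N.algebraMap_mem ⟨x, hx⟩
  exact G.Om_le r (N.restrictScalars k) hFN hMN hφ

/-! ### Constant coefficients of the normal form -/

omit [CharZero k] in
theorem Ma_mulVec_single (c : Fin (m + 3)) :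
    G.Ma r *ᵥ Pi.single c 1 = iter G.D.f0 (G.V (vi a r c)) (lv a r c) := by
  rw [Matrix.mulVec_single_one]
  rfl

/-- the next index -/
def nx (a r : ℕ) [hf : Fact (a * r = m + 3)] (c : Fin (m + 3)) (h : (lv a r c : ℕ) + 1 < r) :
    Fin (m + 3) := ix a r m (vi a r c, ⟨lv a r c + 1, h⟩)

theorem eval_nf (c j : Fin (m + 3)) (h : (lv a r c : ℕ) + 1 < r) :
    eval (Pi.single c 1) (G.nf r j) = (Pi.single (nx a r c h) 1 : Fin (m + 3) → L) j := by
  have h1 : (fun j => eval (Pi.single c 1) (G.nf r j)) =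
      (Pi.single (nx a r c h) 1 : Fin (m + 3) → L) := by
    rw [nf, eval_conj, G.Ma_mulVec_single]
    have h2 : (fun l => eval (iter G.D.f0 (G.V (vi a r c)) (lv a r c)) (G.D.f0 l)) =
        G.Ma r *ᵥ Pi.single (nx a r c h) 1 := by
      rw [G.Ma_mulVec_single, nx, vi_ix, lv_ix]
      rfl
    rw [h2, Matrix.mulVec_mulVec, G.Ma_inv_mul, Matrix.one_mulVec]
  exact congrFun h1 j

omit [NeZero a] [CharZero k] hf in
theorem coeff_single_of_homog {d : ℕ} {P : MvPolynomial (Fin (m + 3)) L} (hP : P.IsHomogeneous d)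
    (c : Fin (m + 3)) : coeff (Finsupp.single c d) P = eval (Pi.single c 1) P := by
  classical
  rw [MvPolynomial.eval_eq']
  symm
  rw [Finset.sum_eq_single (Finsupp.single c d)]
  · rw [Finset.prod_eq_one, mul_one]
    intro l _
    by_cases hl : l = c
    · subst hl; simp
    · rw [Finsupp.single_eq_of_ne hl, pow_zero]
  · intro α hα hne
    have hdeg : α.degree = d := by
      by_contra h
      exact (mem_support_iff.1 hα) (hP.coeff_eq_zero h)
    obtain ⟨l, hl, hαl⟩ : ∃ l, l ≠ c ∧ α l ≠ 0 := by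
      by_contra hcon
      push Not at hcon
      apply hne
      have h1 : α = Finsupp.single c (α c) := by
        ext l
        by_cases hl : l = c
        · subst hl; simp
        · rw [Finsupp.single_eq_of_ne hl, hcon l hl]
      rw [h1, Finsupp.degree_single] at hdeg
      rw [h1, hdeg]
    rw [Finset.prod_eq_zero (Finset.mem_univ l), mul_zero]
    rw [Pi.single_eq_of_ne hl, zero_pow hαl]
  · intro h
    rw [notMem_support_iff.1 h, zero_mul]

theorem coeff_nf_const (c j : Fin (m + 3)) (h : (lv a r c : ℕ) + 1 < r) :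
    coeff (Finsupp.single c (e + 1)) (G.nf r j) =
      (Pi.single (nx a r c h) 1 : Fin (m + 3) → L) j := by
  rw [coeff_single_of_homog (G.nf_homog r j), G.eval_nf r c j h]

/-- the divergence relation -/
theorem div_rel (β : Fin (m + 3) →₀ ℕ) :
    ∑ l, coeff (β + Finsupp.single l 1) (G.nf r l) * ((β l : L) + 1) = 0 := by
  have h4 := congrArg (coeff β) (G.divF_nf r)
  rw [divF, coeff_sum, coeff_zero] at h4
  simp only [coeff_pderiv] at h4
  exact h4

end

end GE

/-! ### A slice lemma for tori -/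

theorem torus_slice {k L : Type*} [Field k] [Infinite k] [Field L] [Algebra k L]
    (E : IntermediateField k L) {ι : Type*} [Finite ι] (t : ι → L) (ht : ∀ j, t j ≠ 0) (φ : L)
    (hφ : φ ∈ IntermediateField.adjoin E (Set.range t))
    (hinv : ∀ c : ι → k, (∀ j, c j ≠ 0) → ∃ τ : L →ₐ[k] L, (∀ x ∈ E, τ x = x) ∧
      (∀ j, τ (t j) = algebraMap k L (c j) * t j) ∧ τ φ = φ) : φ ∈ E := by
  classical
  cases nonempty_fintype ι
  obtain ⟨P, Q, hPQ⟩ := (IntermediateField.mem_adjoin_range_iff _ _ _).1 hφ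
  by_cases hQ : aeval t Q = 0
  · rw [hPQ, hQ, div_zero]; exact zero_mem _
  let T : MvPolynomial ι E → MvPolynomial ι L := fun R => aeval (fun j => X j * C (t j)) R
  have hT : ∀ (R : MvPolynomial ι E) (h : ι → L),
      eval h (T R) = aeval (fun j => h j * t j) R := by
    intro R h
    have h1 := MvPolynomial.eval₂_comp_left (eval h)
      (algebraMap E (MvPolynomial ι L)) (fun j => X j * C (t j)) R
    change eval h (eval₂ _ _ R) = _
    rw [h1, MvPolynomial.aeval_def]
    congr 1
    · ext a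
      change eval h (C _) = _
      rw [eval_C]; rfl
    · funext p
      simp
  have hact : ∀ (τ : L →ₐ[k] L) (_ : ∀ x ∈ E, τ x = x) (R : MvPolynomial ι E),
      τ (aeval t R) = aeval (fun j => τ (t j)) R := by
    intro τ hτ R
    rw [MvPolynomial.aeval_def, MvPolynomial.aeval_def]
    have h1 := MvPolynomial.eval₂_comp_left (τ : L →+* L) (algebraMap E L) t R
    have h2 : (τ : L →+* L).comp (algebraMap E L) = algebraMap E L := by
      ext a
      exact hτ a a.2
    rw [h2] at h1
    exact h1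
  let Φ : MvPolynomial ι L :=
    (T P * C (aeval t Q) - C (aeval t P) * T Q) * ∏ j, X j
  have hΦ : Φ = 0 := by
    have hs : ∀ _ : ι, (Set.range (algebraMap k L)).Infinite := fun _ =>
      Set.infinite_range_of_injective (algebraMap k L).injective
    refine MvPolynomial.funext_set (fun _ => Set.range (algebraMap k L)) hs fun h hh => ?_
    rw [map_zero]
    have hh' : ∀ p, ∃ c : k, algebraMap k L c = h p := fun p => hh p (Set.mem_univ _)
    choose h0 hh0 using hh'
    by_cases hd : ∃ j, h0 j = 0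
    · obtain ⟨j, hj⟩ := hd
      change eval h (_ * _) = 0
      rw [map_mul, map_prod, Finset.prod_eq_zero (Finset.mem_univ j), mul_zero]
      rw [eval_X, ← hh0, hj, map_zero]
    · push Not at hd
      obtain ⟨τ, hτE, hτt, hτφ⟩ := hinv h0 hd
      have hP := hact τ hτE P
      have hQ' := hact τ hτE Q
      have hfun : (fun j => τ (t j)) = fun j => h j * t j := by
        funext j
        rw [hτt, hh0]
      rw [hfun, ← hT] at hP hQ'
      rw [hPQ, map_div₀] at hτφ
      have hQ0 : τ (aeval t Q) ≠ 0 := (map_ne_zero τ).2 hQ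
      rw [div_eq_div_iff hQ0 hQ, hP, hQ'] at hτφ
      change eval h (_ * _) = 0
      rw [map_mul, map_sub, map_mul, map_mul, eval_C, eval_C, hτφ, sub_self, zero_mul]
  have hfac : T P * C (aeval t Q) - C (aeval t P) * T Q = 0 := by
    refine (mul_eq_zero.1 hΦ).resolve_right ?_
    exact Finset.prod_ne_zero_iff.2 fun j _ => X_ne_zero j
  have hQne : Q ≠ 0 := fun h => hQ (by rw [h, map_zero])
  have hinf : Infinite E := Infinite.of_injective (algebraMap k E) (algebraMap k E).injective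
  obtain ⟨g0, hg0⟩ : ∃ g0 : ι → E, eval g0 Q ≠ 0 := by
    by_contra hcon
    push Not at hcon
    exact hQne (MvPolynomial.funext fun x => by rw [hcon x, map_zero])
  let h : ι → L := fun j => (g0 j : L) / t j
  have hh : (fun j => h j * t j) = fun j => (g0 j : L) := by
    funext j
    exact div_mul_cancel₀ _ (ht j)
  have hev : ∀ R : MvPolynomial ι E, eval h (T R) = algebraMap E L (eval g0 R) := by
    intro R
    rw [hT, hh]
    have h1 := MvPolynomial.eval₂_comp_left (algebraMap E L) (RingHom.id E) g0 R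
    rw [RingHom.comp_id] at h1
    rw [MvPolynomial.aeval_def]
    exact h1.symm
  have h1 := congrArg (eval h) hfac
  rw [map_sub, map_mul, map_mul, eval_C, eval_C, hev, hev, map_zero, sub_eq_zero] at h1
  have hne : algebraMap E L (eval g0 Q) ≠ 0 := fun h2 =>
    hg0 ((algebraMap E L).injective (by rw [h2, map_zero]))
  have h2 : φ = algebraMap E L (eval g0 P) / algebraMap E L (eval g0 Q) := by
    rw [hPQ, div_eq_div_iff hQ hne, ← h1]
  rw [h2]
  exact div_mem (eval g0 P).2 (eval g0 Q).2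

/-! ### Finite groups -/

/-- If a finite group acts on `L` and `θ ∈ K` has distinct conjugates, then `L` is the compositum
of `K` and of the invariants. -/
theorem mem_compositum {L : Type*} [Field L] {Γ : Type*} [One Γ] [Finite Γ]
    (σ : Γ → L →+* L) (h1 : ∀ x, σ 1 x = x)
    (K : Subfield L) (t : L) (htK : ∀ g, σ g t ∈ K) (ht : ∀ g, g ≠ 1 → σ g t ≠ t)
    (E : Subfield L) (hKE : K ≤ E) (w : L)
    (hE : ∀ j : ℕ, (∑ᶠ g, σ g (t ^ j * w)) ∈ E) : w ∈ E := by
  classical
  cases nonempty_fintype Γ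
  set P : Polynomial L := ∏ g ∈ Finset.univ.erase (1 : Γ),
    (Polynomial.X - Polynomial.C (σ g t)) with hP
  have hPc : ∀ j, P.coeff j ∈ K := by
    have h2 : P ∈ (Polynomial.mapRingHom K.subtype).range := by
      rw [hP]
      refine prod_mem fun g _ => sub_mem ⟨Polynomial.X, by simp⟩ ⟨Polynomial.C ⟨σ g t, htK g⟩, by simp⟩
    obtain ⟨Q, hQ⟩ := h2
    intro j
    rw [← hQ, Polynomial.coe_mapRingHom, Polynomial.coeff_map]
    exact (Q.coeff j).2
  have hPt : P.eval t ≠ 0 := by
    rw [hP, Polynomial.eval_prod, Finset.prod_ne_zero_iff]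
    intro g hg
    rw [Polynomial.eval_sub, Polynomial.eval_X, Polynomial.eval_C, sub_ne_zero]
    exact (ht g (Finset.ne_of_mem_erase hg)).symm
  have hPg : ∀ g, g ≠ 1 → P.eval (σ g t) = 0 := by
    intro g hg
    rw [hP, Polynomial.eval_prod, Finset.prod_eq_zero (Finset.mem_erase.2 ⟨hg, Finset.mem_univ g⟩)]
    rw [Polynomial.eval_sub, Polynomial.eval_X, Polynomial.eval_C, sub_self]
  have key : P.eval t * w = ∑ j ∈ Finset.range (P.natDegree + 1),
      P.coeff j * ∑ᶠ g, σ g (t ^ j * w) := by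
    have h3 : ∑ g, P.eval (σ g t) * σ g w = P.eval t * w := by
      rw [Finset.sum_eq_single (1 : Γ)]
      · rw [h1, h1]
      · intro g _ hg
        rw [hPg g hg, zero_mul]
      · simp
    rw [← h3]
    simp only [Polynomial.eval_eq_sum_range, finsum_eq_sum_of_fintype, Finset.sum_mul,
      Finset.mul_sum]
    rw [Finset.sum_comm]
    refine Finset.sum_congr rfl fun j _ => Finset.sum_congr rfl fun g _ => ?_
    rw [map_mul, map_pow]; ring
  have hkey : P.eval t * w ∈ E := by
    rw [key]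
    exact sum_mem fun j _ => mul_mem (hKE (hPc j)) (hE j)
  have htE : P.eval t ∈ E := by
    rw [Polynomial.eval_eq_sum_range]
    refine sum_mem fun j _ => mul_mem (hKE (hPc j)) (pow_mem (hKE ?_) _)
    have := htK 1
    rwa [h1] at this
  have h4 : w = (P.eval t)⁻¹ * (P.eval t * w) := by
    rw [← mul_assoc, inv_mul_cancel₀ hPt, one_mul]
  rw [h4]
  exact mul_mem (inv_mem htE) hkey

end Pool.Agent.Lib.MP_82c165_ag
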