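import Mathlib
import Pool.Agent.Lib.MP_82c165_ag.FieldsE

/-!
Algebraic independence in the generic situation with several vectors.
-/

namespace Pool.Agent.Lib.MP_82c165_ag

open MvPolynomial Matrix

universe u v

namespace GD

variable {k : Type u} [Field k] {m e : ℕ} {L : Type v} [Field L] [Algebra k L]
  (D : GD k m e L) [CharZero k] [IsAlgClosed k]

/-- the invariants of the field of coefficients of `f` -/
theorem exists_qhat (he : 1 ≤ e) : ∃ qh : Mon (m + 3) e → L, AlgebraicIndependent D.K0 qh ∧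
    (IntermediateField.adjoin (D.inv D.K0) (Set.range qh)).restrictScalars k = D.inv D.K1 := by
  classical
  obtain ⟨B, hB, hBdet, hBF⟩ := D.speiser he (D.symT e) (D.symT_det e) (D.symT_ρ e)
    (fun i j => (D.symT_wt e i j).congr ⟨1, by ring⟩)
  have hBinv : ∀ i j, B⁻¹ i j ∈ D.K0 := inv_mem_of_mem' hB
  have hBB : B * B⁻¹ = 1 := Matrix.mul_nonsing_inv _ (isUnit_iff_ne_zero.2 hBdet)
  have hBB' : B⁻¹ * B = 1 := Matrix.nonsing_inv_mul _ (isUnit_iff_ne_zero.2 hBdet)
  set T := D.symT e with hT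
  have hTdet : T.det ≠ 0 := D.symT_det e
  have hTT : T * T⁻¹ = 1 := Matrix.mul_nonsing_inv _ (isUnit_iff_ne_zero.2 hTdet)
  have hTT' : T⁻¹ * T = 1 := Matrix.nonsing_inv_mul _ (isUnit_iff_ne_zero.2 hTdet)
  let qh : Mon (m + 3) e → L := B⁻¹ *ᵥ D.qc
  have hq_eq : D.qc = B *ᵥ qh := by
    change _ = B *ᵥ (B⁻¹ *ᵥ D.qc)
    rw [Matrix.mulVec_mulVec, hBB, Matrix.one_mulVec]
  -- invariance
  have hTinv : ∀ p, (T⁻¹ *ᵥ D.qc) p ∈ D.inv ⊤ := by
    intro p
    refine ⟨trivial, fun g => ?_⟩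
    have h1 : (fun β => D.σ g (D.qc β)) = symMat e (cm L g⁻¹) *ᵥ D.qc := by
      funext β
      have h2 : D.σ g (D.qc β) = coeff β.1 (MvPolynomial.map (D.σ g : L →+* L) D.q) :=
        (coeff_map _ _ _).symm
      rw [h2, D.σq, coeff_lsub D.q_homog]
      rfl
    have h3 : (T⁻¹).map (D.σ g : L →+* L) = T⁻¹ * (symMat e (cm L g⁻¹))⁻¹ := by
      have h4 : T.map (D.σ g : L →+* L) = symMat e (cm L g⁻¹) * T := D.map_symT e g
      rw [← map_inv_matrix, h4, Matrix.mul_inv_rev]
    have h5 : (symMat e (cm L g⁻¹) : Matrix (Mon (m + 3) e) (Mon (m + 3) e) L)⁻¹ *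
        symMat e (cm L g⁻¹) = 1 := by
      apply Matrix.nonsing_inv_mul
      have h6 : symMat e (cm L g) * symMat e (cm L g⁻¹) = 1 := by
        rw [symMat_mul, cm_inv_mul, symMat_one]
      exact Matrix.isUnit_det_of_left_inverse h6
    have h7 : D.σ g ((T⁻¹ *ᵥ D.qc) p) =
        ((T⁻¹).map (D.σ g : L →+* L) *ᵥ (fun β => D.σ g (D.qc β))) p := by
      rw [Matrix.mulVec, Matrix.mulVec, dotProduct, dotProduct, map_sum]
      refine Finset.sum_congr rfl fun j _ => ?_
      rw [map_mul]; rfl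
    rw [h7, h1, h3, Matrix.mulVec_mulVec, Matrix.mul_assoc, h5, Matrix.mul_one]
  have hinvI : ∀ i j, (T⁻¹ * B)⁻¹ i j ∈ D.inv ⊤ := inv_mem_of_mem' hBF
  have hqinv : ∀ p, qh p ∈ D.inv ⊤ := by
    intro p
    have h1 : qh = (T⁻¹ * B)⁻¹ *ᵥ (T⁻¹ *ᵥ D.qc) := by
      rw [Matrix.mul_inv_rev, Matrix.nonsing_inv_nonsing_inv _ (isUnit_iff_ne_zero.2 hTdet),
        Matrix.mulVec_mulVec, Matrix.mul_assoc, hTT, Matrix.mul_one]
    rw [h1, Matrix.mulVec, dotProduct]
    exact sum_mem fun j _ => mul_mem (hinvI _ _) (hTinv _)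
  have hqc_K1 : ∀ β, D.qc β ∈ D.K1 := fun β => mem_CI.1 D.q_mem_K1 _
  have hq_of : ∀ (E : IntermediateField k L), D.K0 ≤ E → (∀ β, D.qc β ∈ E) → ∀ p, qh p ∈ E := by
    intro E hE h p
    exact sum_mem fun j _ => mul_mem (hE (hBinv _ _)) (h j)
  have hqc_of : ∀ (E : IntermediateField k L), D.K0 ≤ E → (∀ p, qh p ∈ E) → ∀ β, D.qc β ∈ E := by
    intro E hE h p
    rw [hq_eq]
    exact sum_mem fun j _ => mul_mem (hE (hB _ _)) (h j)
  have hqK1 : ∀ p, qh p ∈ D.K1 := hq_of D.K1 D.K0_le_K1 hqc_K1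
  have hK1_le : ∀ (E : IntermediateField k L), D.K0 ≤ E → (∀ p, qh p ∈ E) → D.K1 ≤ E := by
    intro E hE h
    rw [GD.K1, IntermediateField.adjoin_le_iff]
    rintro _ ⟨c, rfl⟩
    rw [D.a_eq, D.f_eq]
    refine mem_CI.1 (add_mem ?_ (mul_mem (X_mem_CI _) ?_)) _
    · exact mem_CI.2 fun α => hE (GD.coeff_mem_adjoin_cf _ _ _)
    · exact mem_CI.2 fun β => D.coeff_q_mem (hqc_of E hE h) β
  refine ⟨qh, ?_, ?_⟩
  · refine algebraicIndependent_of_card_in (IntermediateField.adjoin D.K0 (Set.range D.qc)) D.qc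
      (fun j => IntermediateField.subset_adjoin _ _ ⟨j, rfl⟩) D.indep_q _ ?_ ?_ le_rfl
    · set N := IntermediateField.adjoin D.K0 (Set.range D.qc) with hN
      have hK : D.K0 ≤ N.restrictScalars k := fun a ha => N.algebraMap_mem ⟨a, ha⟩
      have hm : ∀ β, D.qc β ∈ N := fun β =>
        IntermediateField.subset_adjoin D.K0 _ (Set.mem_range_self β)
      exact hq_of (N.restrictScalars k) hK hm
    · apply adjoin_algebraic
      rintro _ ⟨β, rfl⟩
      set N := IntermediateField.adjoin D.K0 (Set.range qh) with hN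
      have hK : D.K0 ≤ N.restrictScalars k := fun a ha => N.algebraMap_mem ⟨a, ha⟩
      have hm : ∀ β, qh β ∈ N := fun β =>
        IntermediateField.subset_adjoin D.K0 _ (Set.mem_range_self β)
      have h2 : D.qc β ∈ N := hqc_of (N.restrictScalars k) hK hm β
      exact isAlgebraic_algebraMap (⟨_, h2⟩ : N)
  · apply le_antisymm
    · apply adjoin_restrict_le (D.inv_mono D.K0_le_K1)
      rintro _ ⟨i, rfl⟩
      exact ⟨hqK1 i, (hqinv i).2⟩
    · intro φ hφ
      have h1 : φ ∈ IntermediateField.adjoin D.K0 (Set.range qh) := by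
        have hK : D.K0 ≤ (IntermediateField.adjoin D.K0 (Set.range qh)).restrictScalars k :=
          fun a ha => (IntermediateField.adjoin D.K0 (Set.range qh)).algebraMap_mem ⟨a, ha⟩
        have hm : ∀ β, qh β ∈ IntermediateField.adjoin D.K0 (Set.range qh) :=
          fun β => IntermediateField.subset_adjoin D.K0 _ (Set.mem_range_self β)
        exact hK1_le ((IntermediateField.adjoin D.K0 (Set.range qh)).restrictScalars k)
          hK hm hφ.1
      refine inv_adjoin (fun g => (D.σ g : L →+* L)) (D.σR D.K0 D.σ_mem_K0)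
        (D.σR_spec D.K0 D.σ_mem_K0) (Set.range qh) ?_ φ h1
        (fun g => hφ.2 g) (IntermediateField.adjoin (D.inv D.K0) (Set.range qh)).toSubfield ?_ ?_
      · rintro g _ ⟨i, rfl⟩
        exact (hqinv i).2 g
      · intro a ha
        refine (IntermediateField.adjoin (D.inv D.K0) (Set.range qh)).algebraMap_mem
          ⟨a, a.2, fun g => ?_⟩
        exact congrArg (fun x : D.K0 => (x : L)) (ha g)
      · rintro _ ⟨i, rfl⟩
        exact IntermediateField.subset_adjoin _ _ ⟨i, rfl⟩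

end GD

namespace GE

variable {k : Type u} [Field k] {m e a : ℕ} {L : Type v} [Field L] [Algebra k L]
  (G : GE k m e a L) [NeZero a]

/-- the coordinates of the vectors -/
def vf (p : Fin a × Fin (m + 3)) : L := G.V p.1 p.2

variable [CharZero k]

theorem indep1 : AlgebraicIndependent k
    (Sum.elim (Sum.elim G.D.qc (Sum.elim G.vf G.lam)) G.D.a0) := by
  have := G.D.charZero
  set y := Sum.elim (Sum.elim G.A (fun p : Fin a × Fin (m + 3) => G.V p.1 p.2)) G.lam with hy
  set E := IntermediateField.adjoin k (Set.range y) with hE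
  have hK1E : G.D.K1 ≤ E := IntermediateField.adjoin.mono _ _ _ (by
    rintro _ ⟨c, rfl⟩; exact ⟨Sum.inl (Sum.inl c), rfl⟩)
  refine algebraicIndependent_of_card_in E y
    (fun j => IntermediateField.subset_adjoin _ _ ⟨j, rfl⟩) G.ind _ ?_ ?_ ?_
  · rintro ((β | p | i) | c)
    · exact hK1E (mem_CI.1 G.D.q_mem_K1 _)
    · exact IntermediateField.subset_adjoin _ _ ⟨Sum.inl (Sum.inr p), rfl⟩
    · exact IntermediateField.subset_adjoin _ _ ⟨Sum.inr i, rfl⟩
    · exact hK1E (G.D.K0_le_K1 (GD.coeff_mem_adjoin_cf _ _ _))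
  · intro x hx
    set N := IntermediateField.adjoin k
      (Set.range (Sum.elim (Sum.elim G.D.qc (Sum.elim G.vf G.lam)) G.D.a0)) with hN
    have hle : E ≤ N := by
      rw [hE, IntermediateField.adjoin_le_iff]
      rintro _ ⟨(c | p) | i, rfl⟩
      · change G.D.a c ∈ N
        rw [G.D.a_eq, G.D.f_eq]
        refine mem_CI.1 (add_mem ?_ (mul_mem (X_mem_CI _) ?_)) _
        · refine mem_CI.2 fun α => ?_
          exact divfree_coeff G.D.f0 G.D.f0_homog G.D.divF_f0 N
            (fun c => IntermediateField.subset_adjoin _ _ ⟨Sum.inr c, rfl⟩) _ α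
        · refine mem_CI.2 fun β => G.D.coeff_q_mem (fun β => ?_) β
          exact IntermediateField.subset_adjoin _ _ ⟨Sum.inl (Sum.inl β), rfl⟩
      · exact IntermediateField.subset_adjoin _ _ ⟨Sum.inl (Sum.inr (Sum.inl p)), rfl⟩
      · exact IntermediateField.subset_adjoin _ _ ⟨Sum.inl (Sum.inr (Sum.inr i)), rfl⟩
    have h1 : x ∈ N := hle hx
    exact isAlgebraic_algebraMap (⟨x, h1⟩ : N)
  · simp only [Nat.card_sum]
    rw [← card_I0]
    omega

theorem indep_vl : AlgebraicIndependent G.D.K0 (Sum.elim G.vf G.lam) := by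
  have h := algebraicIndependent_adjoin_field G.indep1
  rw [← GD.K0_eq] at h
  exact h.comp Sum.inr Sum.inr_injective

theorem indep_vla : AlgebraicIndependent k (Sum.elim (Sum.elim G.vf G.lam) G.D.a0) := by
  have h := G.indep1.comp (Sum.elim (fun i => Sum.inl (Sum.inr i)) Sum.inr)
    (by
      rw [Sum.elim_injective]
      refine ⟨fun i j h => by simpa using h, Sum.inr_injective, fun a b => by simp⟩)
  have h1 : (Sum.elim (Sum.elim G.D.qc (Sum.elim G.vf G.lam)) G.D.a0) ∘
      (Sum.elim (fun i => Sum.inl (Sum.inr i)) Sum.inr) =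
      Sum.elim (Sum.elim G.vf G.lam) G.D.a0 := by
    funext i
    cases i <;> rfl
  rwa [h1] at h

end GE

end Pool.Agent.Lib.MP_82c165_ag
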