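import Mathlib
import Pool.Agent.Lib.MP_82c165_ag.IndepE

/-!
Splitting of the standard representation and the attached invariants.
-/

namespace Pool.Agent.Lib.MP_82c165_ag

open MvPolynomial Matrix

universe u v

/-- Uniqueness of diagonalisations. -/
theorem eig {F : Type*} [Field F] {a : ℕ} (Y₁ Y₂ : Matrix (Fin a) (Fin a) F)
    (h1 : Y₁.det ≠ 0) (h2 : Y₂.det ≠ 0) (l₁ l₂ : Fin a → F) (hl₁ : Function.Injective l₁)
    (hl₂ : Function.Injective l₂)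
    (h : Y₁ * Matrix.diagonal l₁ * Y₁⁻¹ = Y₂ * Matrix.diagonal l₂ * Y₂⁻¹) :
    ∃ (π : Equiv.Perm (Fin a)) (s : Fin a → F), (∀ i, s i ≠ 0) ∧ (∀ i, l₂ i = l₁ (π i)) ∧
      ∀ l i, Y₂ l i = Y₁ l (π i) * s i := by
  classical
  have e1 : Y₁ * Y₁⁻¹ = 1 := Matrix.mul_nonsing_inv _ (isUnit_iff_ne_zero.2 h1)
  have e1' : Y₁⁻¹ * Y₁ = 1 := Matrix.nonsing_inv_mul _ (isUnit_iff_ne_zero.2 h1)
  have e2' : Y₂⁻¹ * Y₂ = 1 := Matrix.nonsing_inv_mul _ (isUnit_iff_ne_zero.2 h2)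
  set H := Y₁⁻¹ * Y₂ with hH
  have hHdet : H.det ≠ 0 := by
    rw [hH, Matrix.det_mul, Matrix.det_nonsing_inv, Ring.inverse_eq_inv']
    exact mul_ne_zero (inv_ne_zero h1) h2
  have hcomm : Matrix.diagonal l₁ * H = H * Matrix.diagonal l₂ := by
    have h3 : Y₁⁻¹ * (Y₁ * Matrix.diagonal l₁ * Y₁⁻¹) * Y₂ =
      Y₁⁻¹ * (Y₂ * Matrix.diagonal l₂ * Y₂⁻¹) * Y₂ := by rw [h]
    calc Matrix.diagonal l₁ * H = Y₁⁻¹ * (Y₁ * Matrix.diagonal l₁ * Y₁⁻¹) * Y₂ := by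
          rw [hH, ← Matrix.mul_assoc, ← Matrix.mul_assoc, ← Matrix.mul_assoc, e1', Matrix.one_mul]
      _ = Y₁⁻¹ * (Y₂ * Matrix.diagonal l₂ * Y₂⁻¹) * Y₂ := h3
      _ = H * Matrix.diagonal l₂ := by
          rw [hH, Matrix.mul_assoc, Matrix.mul_assoc, Matrix.mul_assoc, e2', Matrix.mul_one,
            Matrix.mul_assoc]
  have hentry : ∀ l i, l₁ l * H l i = H l i * l₂ i := by
    intro l i
    have := congrFun (congrFun hcomm l) i
    rwa [Matrix.diagonal_mul, Matrix.mul_diagonal] at this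
  have hcol : ∀ i, ∃ l, H l i ≠ 0 := by
    intro i
    by_contra hcon
    push Not at hcon
    exact hHdet (Matrix.det_eq_zero_of_column_eq_zero i hcon)
  choose p hp using hcol
  have hl : ∀ i, l₂ i = l₁ (p i) := by
    intro i
    have := hentry (p i) i
    rw [mul_comm] at this
    exact (mul_left_cancel₀ (hp i) this).symm
  have hzero : ∀ l i, l ≠ p i → H l i = 0 := by
    intro l i hli
    by_contra hne
    have h3 := hentry l i
    rw [mul_comm] at h3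
    have h4 := mul_left_cancel₀ hne h3
    rw [hl i] at h4
    exact hli (hl₁ h4)
  have hpinj : Function.Injective p := by
    intro i j hij
    apply hl₂
    rw [hl, hl, hij]
  let π : Equiv.Perm (Fin a) := Equiv.ofBijective p (Finite.injective_iff_bijective.1 hpinj)
  refine ⟨π, fun i => H (p i) i, hp, hl, ?_⟩
  intro l i
  have h3 : Y₂ = Y₁ * H := by
    rw [hH, ← Matrix.mul_assoc, e1, Matrix.one_mul]
  rw [h3, Matrix.mul_apply, Finset.sum_eq_single (p i)]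
  · rfl
  · intro x _ hx
    rw [hzero x i hx, mul_zero]
  · simp

namespace W1

variable {k : Type u} [Field k] {m e : ℕ} {L : Type v} [Field L] [Algebra k L]
  {D : GD k m e L} {I : Type*} [Fintype I] [DecidableEq I] [CharZero k] [IsAlgClosed k]

/-- a frame of endomorphisms -/
theorem exists_end (he : 1 ≤ e) (A : W1 D I) :
    ∃ BE : Matrix (I × I) (I × I) L, (∀ i j, BE i j ∈ D.K0) ∧ BE.det ≠ 0 ∧
      ∀ C : Matrix I I L, (∀ i j, C i j ∈ D.inv ⊤) → ∀ p,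
        (BE⁻¹ *ᵥ fun q => (A.T * C * A.T⁻¹) q.1 q.2) p ∈ D.inv ⊤ := by
  classical
  set T : Matrix (I × I) (I × I) L := Matrix.kroneckerMap (· * ·) A.T (A.T⁻¹)ᵀ with hT
  have hAdet : (A.T⁻¹)ᵀ.det ≠ 0 := by
    rw [Matrix.det_transpose, Matrix.det_nonsing_inv, Ring.inverse_eq_inv']
    exact inv_ne_zero A.hdet
  have hTdet : T.det ≠ 0 := by
    rw [hT, Matrix.det_kronecker]
    exact mul_ne_zero (pow_ne_zero _ A.hdet) (pow_ne_zero _ hAdet)
  have hTinv : T⁻¹ = Matrix.kroneckerMap (· * ·) A.T⁻¹ (A.T)ᵀ := by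
    apply Matrix.inv_eq_right_inv
    rw [hT, ← Matrix.mul_kronecker_mul, A.T_mul_inv, ← Matrix.transpose_mul, A.T_mul_inv,
      Matrix.transpose_one, Matrix.one_kronecker_one]
  have hwt : D.MatWt 0 T := by
    rintro ⟨j, i⟩ ⟨j', i'⟩
    have h1 := (A.hwt j j').mul (A.hwt.inv A.hdet i' i)
    rw [add_neg_cancel] at h1
    exact h1
  have hρ : ∀ g i j, (T.map (D.σ g) * T⁻¹) i j ∈ D.K0 := by
    intro g
    have h1 : T.map (D.σ g) = Matrix.kroneckerMap (· * ·) (A.T.map (D.σ g))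
        (((A.T⁻¹).map (D.σ g))ᵀ) := by
      ext p q
      simp [hT, Matrix.kroneckerMap_apply, Matrix.map_apply]
    have h2 : T.map (D.σ g) * T⁻¹ = Matrix.kroneckerMap (· * ·) (A.ρ g)
        ((A.ρ g)⁻¹)ᵀ := by
      rw [h1, hTinv, ← Matrix.mul_kronecker_mul, ← Matrix.transpose_mul, A.map_T_inv,
        ← Matrix.mul_assoc, A.T_mul_inv, Matrix.one_mul]
      rfl
    rintro ⟨j, i⟩ ⟨j', i'⟩
    rw [h2]
    exact mul_mem (A.hρ g j j') (inv_mem_of_mem' (A.hρ g) i' i)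
  obtain ⟨B, hB, hBdet, hBF⟩ := D.speiser he T hTdet hρ hwt
  refine ⟨B, hB, hBdet, ?_⟩
  intro C hC p
  have hinvI : ∀ i j, (T⁻¹ * B)⁻¹ i j ∈ D.inv ⊤ := inv_mem_of_mem' hBF
  have h1 : (fun q : I × I => (A.T * C * A.T⁻¹) q.1 q.2) = T *ᵥ (fun q => C q.1 q.2) := by
    funext ⟨j, i⟩
    rw [Matrix.mulVec, dotProduct, Fintype.sum_prod_type, Finset.sum_comm]
    simp only [Matrix.mul_apply, Finset.sum_mul]
    refine Finset.sum_congr rfl fun i' _ => Finset.sum_congr rfl fun j' _ => ?_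
    rw [hT]
    simp only [Matrix.kroneckerMap_apply, Matrix.transpose_apply]
    ring
  have h2 : B⁻¹ *ᵥ (T *ᵥ (fun q : I × I => C q.1 q.2)) = (T⁻¹ * B)⁻¹ *ᵥ (fun q => C q.1 q.2) := by
    rw [Matrix.mul_inv_rev, Matrix.nonsing_inv_nonsing_inv _ (isUnit_iff_ne_zero.2 hTdet),
      Matrix.mulVec_mulVec]
  rw [h1, h2]
  exact sum_mem fun q _ => mul_mem (hinvI _ _) (hC _ _)

end W1

namespace GE

variable {k : Type u} [Field k] {m e a : ℕ} {L : Type v} [Field L] [Algebra k L]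
  (G : GE k m e a L) [NeZero a] (r : ℕ) [hf : Fact (a * r = m + 3)]

/-- the coordinates of the vectors after a linear change -/
def yv (φ : Matrix (Fin (m + 3)) (Fin (m + 3)) L) (i : Fin a) : Fin (m + 3) → L := φ *ᵥ G.V i

/-- the blocks -/
def Y (φ : Matrix (Fin (m + 3)) (Fin (m + 3)) L) (j : Fin r) : Matrix (Fin a) (Fin a) L :=
  Matrix.of fun l i => G.yv φ i (ix a r m (l, j))

end GE

/-- data for splitting -/
structure ZD {k : Type u} [Field k] {m e a : ℕ} {L : Type v} [Field L] [Algebra k L]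
    (G : GE k m e a L) [NeZero a] (r : ℕ) [hf : Fact (a * r = m + 3)] where
  φ : Matrix (Fin (m + 3)) (Fin (m + 3)) L
  hφ : ∀ i j, φ i j ∈ G.D.K0
  hφdet : φ.det ≠ 0
  T : Matrix (Fin a) (Fin a) L
  hTdet : T.det ≠ 0
  hY : ∀ j l i, (T⁻¹ * G.Y r φ j) l i ∈ G.D.inv ⊤
  BE : Matrix (Fin a × Fin a) (Fin a × Fin a) L
  hBE : ∀ i j, BE i j ∈ G.D.K0
  hBEdet : BE.det ≠ 0
  hBF : ∀ C : Matrix (Fin a) (Fin a) L, (∀ i j, C i j ∈ G.D.inv ⊤) → ∀ p,
        (BE⁻¹ *ᵥ fun q => (T * C * T⁻¹) q.1 q.2) p ∈ G.D.inv ⊤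

namespace GE

variable {k : Type u} [Field k] {m e a : ℕ} {L : Type v} [Field L] [Algebra k L]
  (G : GE k m e a L) [NeZero a] (r : ℕ) [hf : Fact (a * r = m + 3)]

theorem exists_ZD [CharZero k] [IsAlgClosed k] (he : 1 ≤ e) (hco : Nat.Coprime r e) :
    Nonempty (ZD G r) := by
  classical
  obtain ⟨U⟩ := W1.exists_W1 G.D he hf.out hco
  obtain ⟨BE, hBE, hBEdet, hBF⟩ := U.exists_end he
  set U' : W1 G.D (Fin (m + 3)) := (U.copies r).reindex (ix a r m) with hU'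
  obtain ⟨φ, hφ, hφdet, hφF⟩ := W1.exists_iso he (W1.std G.D) U'
  refine ⟨⟨φ, hφ, hφdet, U.T, U.hdet, ?_, BE, hBE, hBEdet, hBF⟩⟩
  intro j l i
  -- the invariant coordinates of `V i`
  have hMM : G.D.M * G.D.M⁻¹ = 1 := G.D.M_mul_inv
  have hc : ∀ c, (G.D.M⁻¹ *ᵥ G.V i) c ∈ G.D.inv ⊤ := by
    intro c
    refine ⟨trivial, fun g => ?_⟩
    have h3 : (G.D.M⁻¹).map (G.D.σ g : L →+* L) = G.D.M⁻¹ * GD.cm L g⁻¹ := by
      have h0 : G.D.M.map (G.D.σ g : L →+* L) = GD.cm L g * G.D.M := G.D.σM g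
      have h3 : (GD.cm L g)⁻¹ = GD.cm L g⁻¹ := Matrix.inv_eq_left_inv (GD.cm_inv_mul g)
      rw [← map_matrix_inv, h0, Matrix.mul_inv_rev, h3]
    have h4 : (fun l => G.D.σ g (G.V i l)) = GD.cm L g *ᵥ G.V i := G.σV g i
    have h7 : G.D.σ g ((G.D.M⁻¹ *ᵥ G.V i) c) =
        ((G.D.M⁻¹).map (G.D.σ g : L →+* L) *ᵥ (fun l => G.D.σ g (G.V i l))) c := by
      rw [Matrix.mulVec, Matrix.mulVec, dotProduct, dotProduct, map_sum]
      refine Finset.sum_congr rfl fun j _ => ?_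
      rw [map_mul]; rfl
    rw [h7, h3, h4, Matrix.mulVec_mulVec, Matrix.mul_assoc, GD.cm_inv_mul, Matrix.mul_one]
  have h1 : U'.T⁻¹ *ᵥ G.yv φ i = (U'.T⁻¹ * φ * G.D.M) *ᵥ (G.D.M⁻¹ *ᵥ G.V i) := by
    rw [yv, Matrix.mulVec_mulVec, Matrix.mulVec_mulVec, Matrix.mul_assoc, hMM, Matrix.mul_one]
  have h2 : ∀ c, (U'.T⁻¹ *ᵥ G.yv φ i) c ∈ G.D.inv ⊤ := by
    intro c
    rw [h1, Matrix.mulVec, dotProduct]
    exact sum_mem fun c' _ => mul_mem (hφF c c') (hc c')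
  have h3 : (U.T⁻¹ * G.Y r φ j) l i = (U'.T⁻¹ *ᵥ G.yv φ i) (ix a r m (l, j)) := by
    have h4 : U'.T⁻¹ = (Matrix.blockDiagonal (fun _ : Fin r => U.T⁻¹)).submatrix
        (ix a r m).symm (ix a r m).symm := by
      have h5 : U'.T = (Matrix.blockDiagonal (fun _ : Fin r => U.T)).submatrix
        (ix a r m).symm (ix a r m).symm := rfl
      rw [h5, Matrix.inv_submatrix_equiv, W1.blockDiagonal_inv _ U.hdet]
    rw [h4, Matrix.mul_apply, Matrix.mulVec, dotProduct, ← Equiv.sum_comp (ix a r m),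
      Fintype.sum_prod_type]
    refine Finset.sum_congr rfl fun l' _ => ?_
    rw [Finset.sum_eq_single j]
    · rw [Matrix.submatrix_apply, Equiv.symm_apply_apply, Equiv.symm_apply_apply,
        Matrix.blockDiagonal_apply_eq]
      rfl
    · intro j' _ hj'
      rw [Matrix.submatrix_apply, Equiv.symm_apply_apply, Equiv.symm_apply_apply,
        Matrix.blockDiagonal_apply_ne _ _ _ hj'.symm, zero_mul]
    · simp
  rw [h3]
  exact h2 _

end GE

end Pool.Agent.Lib.MP_82c165_ag
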