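import Mathlib
import Pool.Agent.Lib.MP_82c165_ag.ZPart

/-!
Invariants attached to a splitting.
-/

namespace Pool.Agent.Lib.MP_82c165_ag

open MvPolynomial Matrix

universe u v

/-- the lowest level -/
def lz (a r m : ℕ) [hf : Fact (a * r = m + 3)] : Fin r := ⟨0, GE.r_pos (m := m) a r⟩

namespace ZD

variable {k : Type u} [Field k] {m e a : ℕ} {L : Type v} [Field L] [Algebra k L]
  {G : GE k m e a L} [NeZero a] {r : ℕ} [hf : Fact (a * r = m + 3)] (B : ZD G r)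

/-- the coordinates -/
noncomputable def yf (p : Fin a × Fin (m + 3)) : L := G.yv B.φ p.1 p.2

/-- the blocks -/
noncomputable def Y (j : Fin r) : Matrix (Fin a) (Fin a) L := G.Y r B.φ j

theorem Y_apply (j : Fin r) (l i : Fin a) : B.Y j l i = B.yf (i, ix a r m (l, j)) := rfl

theorem φ_inv_mul : B.φ⁻¹ * B.φ = 1 :=
  Matrix.nonsing_inv_mul _ (isUnit_iff_ne_zero.2 B.hφdet)

theorem φ_inv_mem (i j) : B.φ⁻¹ i j ∈ G.D.K0 := inv_mem_of_mem' B.hφ i j

theorem V_eq (i : Fin a) (l : Fin (m + 3)) :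
    G.V i l = ∑ c, B.φ⁻¹ l c * B.yf (i, c) := by
  have h1 : B.φ⁻¹ *ᵥ (B.φ *ᵥ G.V i) = G.V i := by
    rw [Matrix.mulVec_mulVec, B.φ_inv_mul, Matrix.one_mulVec]
  exact (congrFun h1 l).symm

theorem yf_mem (N : IntermediateField k L) (hK : G.D.K0 ≤ N) (hV : ∀ i l, G.V i l ∈ N)
    (p : Fin a × Fin (m + 3)) : B.yf p ∈ N := by
  change (B.φ *ᵥ G.V p.1) p.2 ∈ N
  rw [Matrix.mulVec, dotProduct]
  exact sum_mem fun c _ => mul_mem (hK (B.hφ _ _)) (hV _ _)

theorem V_mem (N : IntermediateField k L) (hK : G.D.K0 ≤ N) (hy : ∀ p, B.yf p ∈ N) (i l) :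
    G.V i l ∈ N := by
  rw [B.V_eq]
  exact sum_mem fun c _ => mul_mem (hK (B.φ_inv_mem _ _)) (hy _)

theorem fix_yf (τ : L →ₐ[k] L) (hτ : ∀ c, τ (G.A c) = G.A c) (i : Fin a) (c : Fin (m + 3)) :
    τ (B.yf (i, c)) = ∑ l, B.φ c l * τ (G.V i l) := by
  change τ ((B.φ *ᵥ G.V i) c) = _
  rw [Matrix.mulVec, dotProduct, map_sum]
  refine Finset.sum_congr rfl fun l _ => ?_
  rw [map_mul, G.fix_K0 τ hτ _ (B.hφ c l)]

theorem θyf (s : Fin a → kˣ) (i : Fin a) (c : Fin (m + 3)) :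
    G.θ s (B.yf (i, c)) = algebraMap k L (s i) * B.yf (i, c) := by
  rw [B.fix_yf (G.θ s) (G.θA s)]
  change _ = _ * ((B.φ *ᵥ G.V i) c)
  rw [Matrix.mulVec, dotProduct, Finset.mul_sum]
  refine Finset.sum_congr rfl fun l _ => ?_
  rw [G.θV]; ring

theorem ωyf (π : Equiv.Perm (Fin a)) (i : Fin a) (c : Fin (m + 3)) :
    G.ω π (B.yf (i, c)) = B.yf (π i, c) := by
  rw [B.fix_yf (G.ω π) (G.ωA π)]
  change _ = ((B.φ *ᵥ G.V (π i)) c)
  rw [Matrix.mulVec, dotProduct]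
  refine Finset.sum_congr rfl fun l _ => ?_
  rw [G.ωV]

/-- the invariant matrices -/
noncomputable def Z (j : Fin r) : Matrix (Fin a) (Fin a) L :=
  if j = lz a r m then B.Y (lz a r m) * Matrix.diagonal G.lam * (B.Y (lz a r m))⁻¹
  else B.Y j * (B.Y (lz a r m))⁻¹

/-- the invariant coordinates -/
noncomputable def zc (p : Fin r × (Fin a × Fin a)) : L :=
  (B.BE⁻¹ *ᵥ fun q => B.Z p.1 q.1 q.2) p.2

theorem BE_mul_inv : B.BE * B.BE⁻¹ = 1 :=
  Matrix.mul_nonsing_inv _ (isUnit_iff_ne_zero.2 B.hBEdet)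

theorem BE_inv_mem (i j) : B.BE⁻¹ i j ∈ G.D.K0 := inv_mem_of_mem' B.hBE i j

theorem Z_eq (j : Fin r) (q : Fin a × Fin a) : B.Z j q.1 q.2 = ∑ p, B.BE q p * B.zc (j, p) := by
  have h1 : B.BE *ᵥ (B.BE⁻¹ *ᵥ fun q => B.Z j q.1 q.2) = fun q => B.Z j q.1 q.2 := by
    rw [Matrix.mulVec_mulVec, B.BE_mul_inv, Matrix.one_mulVec]
  exact (congrFun h1 q).symm

theorem Z_mem (N : IntermediateField k L) (hK : G.D.K0 ≤ N) (hz : ∀ p, B.zc p ∈ N) (j l i) :
    B.Z j l i ∈ N := by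
  rw [B.Z_eq j (l, i)]
  exact sum_mem fun c _ => mul_mem (hK (B.hBE _ _)) (hz _)

theorem zc_mem (N : IntermediateField k L) (hK : G.D.K0 ≤ N) (hZ : ∀ j l i, B.Z j l i ∈ N)
    (p) : B.zc p ∈ N :=
  sum_mem fun _ _ => mul_mem (hK (B.BE_inv_mem _ _)) (hZ _ _ _)

variable [CharZero k]

theorem indep_yl : AlgebraicIndependent G.D.K0 (Sum.elim B.yf G.lam) := by
  refine algebraicIndependent_of_card_in
    (IntermediateField.adjoin G.D.K0 (Set.range (Sum.elim G.vf G.lam))) _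
      (fun j => IntermediateField.subset_adjoin _ _ (Set.mem_range_self j)) G.indep_vl _ ?_ ?_
        le_rfl
  · set N := IntermediateField.adjoin G.D.K0 (Set.range (Sum.elim G.vf G.lam)) with hN
    have hK : G.D.K0 ≤ N.restrictScalars k := fun a ha => N.algebraMap_mem ⟨a, ha⟩
    have hV : ∀ i l, G.V i l ∈ N := fun i l =>
      IntermediateField.subset_adjoin G.D.K0 _ ⟨Sum.inl (i, l), rfl⟩
    rintro (p | i)
    · exact B.yf_mem (N.restrictScalars k) hK hV p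
    · exact IntermediateField.subset_adjoin G.D.K0 _ ⟨Sum.inr i, rfl⟩
  · apply adjoin_algebraic
    set N := IntermediateField.adjoin G.D.K0 (Set.range (Sum.elim B.yf G.lam)) with hN
    have hK : G.D.K0 ≤ N.restrictScalars k := fun a ha => N.algebraMap_mem ⟨a, ha⟩
    have hy : ∀ p, B.yf p ∈ N := fun p =>
      IntermediateField.subset_adjoin G.D.K0 _ ⟨Sum.inl p, rfl⟩
    rintro _ ⟨p | i, rfl⟩
    · have h2 : G.V p.1 p.2 ∈ N := B.V_mem (N.restrictScalars k) hK hy p.1 p.2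
      exact isAlgebraic_algebraMap (⟨_, h2⟩ : N)
    · have h2 : G.lam i ∈ N := IntermediateField.subset_adjoin G.D.K0 _ ⟨Sum.inr i, rfl⟩
      exact isAlgebraic_algebraMap (⟨_, h2⟩ : N)

theorem lam_inj : Function.Injective G.lam :=
  (G.indep_vl.comp Sum.inr Sum.inr_injective).injective

theorem indep_y : AlgebraicIndependent G.D.K0 B.yf :=
  B.indep_yl.comp Sum.inl Sum.inl_injective

theorem yf_ne (p) : B.yf p ≠ 0 := B.indep_y.ne_zero p

theorem Y_det (j : Fin r) : (B.Y j).det ≠ 0 := by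
  have h1 : AlgebraicIndependent G.D.K0 (fun q : Fin a × Fin a => B.Y j q.1 q.2) := by
    have h2 : (fun q : Fin a × Fin a => B.Y j q.1 q.2) =
        B.yf ∘ (fun q : Fin a × Fin a => (q.2, ix a r m (q.1, j))) := rfl
    rw [h2]
    apply B.indep_y.comp
    rintro ⟨l, i⟩ ⟨l', i'⟩ h
    simp only [Prod.mk.injEq, EmbeddingLike.apply_eq_iff_eq] at h
    simp [h.1, h.2.1]
  have h2 : (B.Y j) = (mvPolynomialX (Fin a) (Fin a) G.D.K0).map
      (aeval (fun q : Fin a × Fin a => B.Y j q.1 q.2) : _ →ₐ[G.D.K0] L) := by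
    ext l i
    simp
  rw [h2]
  have h3 : ((mvPolynomialX (Fin a) (Fin a) G.D.K0).map
      (aeval (fun q : Fin a × Fin a => B.Y j q.1 q.2) : _ →ₐ[G.D.K0] L)).det =
      (aeval (fun q : Fin a × Fin a => B.Y j q.1 q.2) : _ →ₐ[G.D.K0] L)
        (mvPolynomialX (Fin a) (Fin a) G.D.K0).det := (AlgHom.map_det _ _).symm
  rw [h3]
  intro h
  have h4 := h1 (h.trans (map_zero _).symm)
  exact det_mvPolynomialX_ne_zero (Fin a) G.D.K0 h4

theorem Y_mul_inv (j : Fin r) : B.Y j * (B.Y j)⁻¹ = 1 :=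
  Matrix.mul_nonsing_inv _ (isUnit_iff_ne_zero.2 (B.Y_det j))

theorem Y_inv_mul (j : Fin r) : (B.Y j)⁻¹ * B.Y j = 1 :=
  Matrix.nonsing_inv_mul _ (isUnit_iff_ne_zero.2 (B.Y_det j))

theorem Y_eq (j : Fin r) (hj : j ≠ lz a r m) : B.Y j = B.Z j * B.Y (lz a r m) := by
  rw [Z, if_neg hj, Matrix.mul_assoc, B.Y_inv_mul, Matrix.mul_one]

omit [CharZero k] in
/-- invariance of `Z` -/
theorem Z_inv (τ : L →+* L) (H : Matrix (Fin a) (Fin a) L) (hH : H.det ≠ 0)
    (hY : ∀ j, (B.Y j).map τ = B.Y j * H)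
    (hl : H * Matrix.diagonal (fun i => τ (G.lam i)) = Matrix.diagonal G.lam * H) (j : Fin r) :
    (B.Z j).map τ = B.Z j := by
  have hHH : H * H⁻¹ = 1 := Matrix.mul_nonsing_inv _ (isUnit_iff_ne_zero.2 hH)
  have h1 : ((B.Y (lz a r m))⁻¹).map τ = H⁻¹ * (B.Y (lz a r m))⁻¹ := by
    rw [← map_inv_matrix, hY, Matrix.mul_inv_rev]
  rw [Z]
  split_ifs with hj
  · rw [Matrix.map_mul, Matrix.map_mul, h1, hY]
    have h2 : (Matrix.diagonal G.lam).map τ = Matrix.diagonal (fun i => τ (G.lam i)) := by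
      rw [Matrix.diagonal_map (map_zero _)]
    rw [h2, Matrix.mul_assoc (B.Y (lz a r m)) H, hl]
    simp only [← Matrix.mul_assoc]
    rw [Matrix.mul_assoc _ H H⁻¹, hHH, Matrix.mul_one]
  · rw [Matrix.map_mul, h1, hY]
    simp only [← Matrix.mul_assoc]
    rw [Matrix.mul_assoc _ H H⁻¹, hHH, Matrix.mul_one]

omit [CharZero k] in
theorem zc_fix (τ : L →ₐ[k] L) (hτ : ∀ c, τ (G.A c) = G.A c)
    (hZ : ∀ j, (B.Z j).map (τ : L →+* L) = B.Z j) (p) : τ (B.zc p) = B.zc p := by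
  rw [zc, Matrix.mulVec, dotProduct, map_sum]
  refine Finset.sum_congr rfl fun q _ => ?_
  rw [map_mul, G.fix_K0 τ hτ _ (B.BE_inv_mem _ _)]
  congr 1
  exact congrFun (congrFun (hZ p.1) q.1) q.2

theorem θzc (s : Fin a → kˣ) (p) : G.θ s (B.zc p) = B.zc p := by
  classical
  refine B.zc_fix (G.θ s) (G.θA s) (B.Z_inv (G.θ s : L →+* L)
    (Matrix.diagonal fun i => algebraMap k L (s i)) ?_ ?_ ?_) p
  · rw [Matrix.det_diagonal, Finset.prod_ne_zero_iff]
    intro i _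
    rw [Ne, map_eq_zero]
    exact (s i).ne_zero
  · intro j
    ext l i
    rw [Matrix.mul_diagonal, Matrix.map_apply, Y_apply]
    exact (B.θyf s _ _).trans (mul_comm _ _)
  · have h1 : (fun i => (G.θ s : L →+* L) (G.lam i)) = G.lam := funext fun i => G.θlam s i
    rw [h1, Matrix.diagonal_mul_diagonal, Matrix.diagonal_mul_diagonal]
    congr 1
    funext i
    ring

theorem ωzc (π : Equiv.Perm (Fin a)) (p) : G.ω π (B.zc p) = B.zc p := by
  classical
  refine B.zc_fix (G.ω π) (G.ωA π) (B.Z_inv (G.ω π : L →+* L)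
    ((1 : Matrix (Fin a) (Fin a) L).submatrix id π) ?_ ?_ ?_) p
  · rw [Matrix.det_permute', Matrix.det_one, mul_one]
    rcases Int.units_eq_one_or (Equiv.Perm.sign π) with h | h <;> simp [h]
  · intro j
    ext l i
    rw [Matrix.mul_apply, Finset.sum_eq_single (π i)]
    · rw [Matrix.submatrix_apply, id, Matrix.one_apply_eq, mul_one, Matrix.map_apply, Y_apply,
        Y_apply]
      exact B.ωyf π _ _
    · intro x _ hx
      rw [Matrix.submatrix_apply, id, Matrix.one_apply_ne hx, mul_zero]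
    · simp
  · ext i j
    rw [Matrix.mul_diagonal, Matrix.diagonal_mul, Matrix.submatrix_apply, id, Matrix.one_apply]
    split_ifs with h
    · rw [h, one_mul, mul_one]
      exact G.ωlam π j
    · rw [zero_mul, mul_zero]

omit [CharZero k] in
theorem zc_inv (p) : B.zc p ∈ G.D.inv ⊤ := by
  classical
  have hTT : B.T * B.T⁻¹ = 1 := Matrix.mul_nonsing_inv _ (isUnit_iff_ne_zero.2 B.hTdet)
  have hlam : ∀ i j, Matrix.diagonal G.lam i j ∈ G.D.inv ⊤ := by
    intro i j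
    rw [Matrix.diagonal_apply]
    split_ifs
    · exact ⟨trivial, fun g => G.σlam g i⟩
    · exact zero_mem _
  set C0 := B.T⁻¹ * B.Y (lz a r m) with hC0
  have hY0 : B.Y (lz a r m) = B.T * C0 := by
    rw [hC0, ← Matrix.mul_assoc, hTT, Matrix.one_mul]
  have hY0inv : (B.Y (lz a r m))⁻¹ = C0⁻¹ * B.T⁻¹ := by
    rw [hY0, Matrix.mul_inv_rev]
  have hC0m : ∀ i j, C0 i j ∈ G.D.inv ⊤ := B.hY (lz a r m)
  have hC0i : ∀ i j, C0⁻¹ i j ∈ G.D.inv ⊤ := inv_mem_of_mem' hC0m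
  by_cases hj : p.1 = lz a r m
  · have h1 : (fun q : Fin a × Fin a => B.Z p.1 q.1 q.2) =
        fun q => (B.T * (C0 * Matrix.diagonal G.lam * C0⁻¹) * B.T⁻¹) q.1 q.2 := by
      rw [Z, if_pos hj, hY0inv]
      conv_lhs => rw [hY0]
      simp only [Matrix.mul_assoc]
    rw [zc, h1]
    exact B.hBF _ (mul_mem_of_mem' (mul_mem_of_mem' hC0m hlam) hC0i) _
  · have h1 : (fun q : Fin a × Fin a => B.Z p.1 q.1 q.2) =
        fun q => (B.T * ((B.T⁻¹ * B.Y p.1) * C0⁻¹) * B.T⁻¹) q.1 q.2 := by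
      rw [Z, if_neg hj, hY0inv]
      have h2 : B.Y p.1 = B.T * (B.T⁻¹ * B.Y p.1) := by
        rw [← Matrix.mul_assoc, hTT, Matrix.one_mul]
      conv_lhs => rw [h2]
      simp only [Matrix.mul_assoc]
    rw [zc, h1]
    exact B.hBF _ (mul_mem_of_mem' (B.hY p.1) hC0i) _

omit [CharZero k] in
theorem Z_mem_Om (j l i) : B.Z j l i ∈ G.Om := by
  have hY : ∀ j l i, B.Y j l i ∈ G.Om := fun j l i =>
    B.yf_mem G.Om G.K0_le_Om G.V_mem_Om (i, ix a r m (l, j))
  have hYi : ∀ l i, (B.Y (lz a r m))⁻¹ l i ∈ G.Om := inv_mem_of_mem' (hY _)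
  rw [Z]
  split_ifs
  · refine mul_mem_of_mem' (mul_mem_of_mem' (hY _) fun i j => ?_) hYi l i
    rw [Matrix.diagonal_apply]
    split_ifs
    · exact G.lam_mem_Om i
    · exact zero_mem _
  · exact mul_mem_of_mem' (hY _) hYi l i

theorem zc_mem_Om (p) : B.zc p ∈ G.Om := B.zc_mem G.Om G.K0_le_Om B.Z_mem_Om p

/-- two embeddings agreeing on `K0(Z)` -/
theorem pair {Ω : Type*} [Field Ω] (τ₁ τ₂ : L →+* Ω)
    (hZ : ∀ j l i, τ₁ (B.Z j l i) = τ₂ (B.Z j l i)) :
    ∃ (π : Equiv.Perm (Fin a)) (s : Fin a → Ω), (∀ i, s i ≠ 0) ∧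
      (∀ i, τ₂ (G.lam i) = τ₁ (G.lam (π i))) ∧
      ∀ i c, τ₂ (B.yf (i, c)) = τ₁ (B.yf (π i, c)) * s i := by
  have hmap : ∀ τ : L →+* Ω, ((B.Y (lz a r m)).map τ) * Matrix.diagonal (fun i => τ (G.lam i)) *
      ((B.Y (lz a r m)).map τ)⁻¹ = (B.Z (lz a r m)).map τ := by
    intro τ
    rw [Z, if_pos rfl, Matrix.map_mul, Matrix.map_mul, map_inv_matrix,
      Matrix.diagonal_map (map_zero _)]
  have h : ((B.Y (lz a r m)).map τ₁) * Matrix.diagonal (fun i => τ₁ (G.lam i)) *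
      ((B.Y (lz a r m)).map τ₁)⁻¹ = ((B.Y (lz a r m)).map τ₂) *
      Matrix.diagonal (fun i => τ₂ (G.lam i)) * ((B.Y (lz a r m)).map τ₂)⁻¹ := by
    rw [hmap, hmap]
    ext l i
    exact hZ _ l i
  obtain ⟨π, s, hs, hlam, hY⟩ := eig _ _ (map_det_ne τ₁ (B.Y_det _)) (map_det_ne τ₂ (B.Y_det _)) _ _
    (τ₁.injective.comp lam_inj) (τ₂.injective.comp lam_inj) h
  refine ⟨π, s, hs, hlam, ?_⟩
  intro i c
  have h0 : ∀ l, τ₂ (B.Y (lz a r m) l i) = τ₁ (B.Y (lz a r m) l (π i)) * s i := fun l => hY l i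
  have h1 : ∀ j l, τ₂ (B.Y j l i) = τ₁ (B.Y j l (π i)) * s i := by
    intro j l
    by_cases hj : j = lz a r m
    · rw [hj]; exact h0 l
    · rw [B.Y_eq j hj, Matrix.mul_apply, Matrix.mul_apply, map_sum, map_sum, Finset.sum_mul]
      refine Finset.sum_congr rfl fun l' _ => ?_
      rw [map_mul, map_mul, h0, hZ]; ring
  have h2 := h1 (lv a r c) (vi a r c)
  rw [Y_apply, Y_apply, ix_eta] at h2
  exact h2

/-- the semi-invariants -/
noncomputable def ty (i : Fin a) : L := B.yf (i, ix a r m (0, lz a r m))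

theorem inv_mem (φ : L) (hφ : φ ∈ G.Om) (hθ : ∀ s, G.θ s φ = φ) (hω : ∀ π, G.ω π φ = φ) :
    φ ∈ IntermediateField.adjoin G.D.K0 (Set.range B.zc) := by
  classical
  have := G.D.charZero
  -- elimination of the torus
  set S1 : Set L := GD.cf G.D.f0 ∪
    (Set.range (fun p => B.yf p / B.ty p.1) ∪ Set.range G.lam) with hS1
  set E := IntermediateField.adjoin k S1 with hE
  have hK0E : G.D.K0 ≤ E := IntermediateField.adjoin.mono _ _ _ Set.subset_union_left
  have hφE : φ ∈ E := by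
    refine torus_slice E B.ty (fun i => B.yf_ne _) φ ?_ ?_
    · set N := IntermediateField.adjoin E (Set.range B.ty) with hN
      have hEN : E ≤ N.restrictScalars k := fun x hx => N.algebraMap_mem ⟨x, hx⟩
      have hy : ∀ p, B.yf p ∈ N.restrictScalars k := by
        intro p
        have h1 : B.yf p / B.ty p.1 ∈ N.restrictScalars k :=
          hEN (IntermediateField.subset_adjoin _ _ (Or.inr (Or.inl ⟨p, rfl⟩)))
        have h2 : B.ty p.1 ∈ N.restrictScalars k :=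
          IntermediateField.subset_adjoin E _ (Set.mem_range_self p.1)
        have h3 := mul_mem h1 h2
        have h4 : B.ty p.1 ≠ 0 := B.yf_ne _
        rwa [div_mul_cancel₀ _ h4] at h3
      have hle : G.Om ≤ N.restrictScalars k := by
        rw [GE.Om, IntermediateField.adjoin_le_iff]
        rintro _ (⟨i, α, rfl⟩ | ⟨p, rfl⟩ | ⟨i, rfl⟩)
        · exact hEN (hK0E (GD.coeff_mem_adjoin_cf _ _ _))
        · exact B.V_mem (N.restrictScalars k) (hK0E.trans hEN) hy p.1 p.2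
        · exact hEN (IntermediateField.subset_adjoin _ _ (Or.inr (Or.inr ⟨i, rfl⟩)))
      exact hle hφ
    · intro c hc
      refine ⟨G.θ (fun i => Units.mk0 (c i) (hc i)), ?_, fun j => B.θyf _ _ _, hθ _⟩
      intro x hx
      induction hx using IntermediateField.adjoin_induction with
      | mem x hx =>
        rcases hx with hx | ⟨p, rfl⟩ | ⟨i, rfl⟩
        · exact G.fix_K0 _ (G.θA _) _ (IntermediateField.subset_adjoin _ _ hx)
        · obtain ⟨i, c'⟩ := p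
          have h4 : algebraMap k L (Units.mk0 (c i) (hc i)) ≠ 0 :=
            (map_ne_zero _).2 (Units.mk0 (c i) (hc i)).ne_zero
          rw [map_div₀, ty, B.θyf, B.θyf, mul_div_mul_left _ _ h4]
          rfl
        · exact G.θlam _ _
      | algebraMap x => exact AlgHom.commutes _ x
      | add x y _ _ hx hy => rw [map_add, hx, hy]
      | inv x _ hx => rw [map_inv₀, hx]
      | mul x y _ _ hx hy => rw [map_mul, hx, hy]
  -- embeddings
  refine mem_of_embeddings (IntermediateField.adjoin G.D.K0 (Set.range B.zc)).toSubfield φ ?_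
  intro Ω _ τ₁ τ₂ hτ
  have hK0 : ∀ x ∈ G.D.K0, τ₁ x = τ₂ x := fun x hx =>
    hτ _ ((IntermediateField.adjoin G.D.K0 (Set.range B.zc)).algebraMap_mem ⟨x, hx⟩)
  have hzc : ∀ p, τ₁ (B.zc p) = τ₂ (B.zc p) := fun p =>
    hτ _ (IntermediateField.subset_adjoin G.D.K0 _ ⟨p, rfl⟩)
  have hZ : ∀ j l i, τ₁ (B.Z j l i) = τ₂ (B.Z j l i) := by
    intro j l i
    rw [B.Z_eq j (l, i), map_sum, map_sum]
    refine Finset.sum_congr rfl fun p _ => ?_
    rw [map_mul, map_mul, hK0 _ (B.hBE _ _), hzc]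
  obtain ⟨π, s, hs, hlam, hy⟩ := B.pair τ₁ τ₂ hZ
  have hall : ∀ x ∈ E, τ₂ x = τ₁ (G.ω π x) := by
    intro x hx
    induction hx using IntermediateField.adjoin_induction with
    | mem x hx =>
      rcases hx with hx | ⟨p, rfl⟩ | ⟨i, rfl⟩
      · have h1 : x ∈ G.D.K0 := IntermediateField.subset_adjoin _ _ hx
        rw [G.fix_K0 _ (G.ωA _) _ h1, hK0 _ h1]
      · obtain ⟨i, c'⟩ := p
        rw [map_div₀, map_div₀, map_div₀, ty, B.ωyf, B.ωyf, hy, hy, mul_div_mul_right _ _ (hs i)]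
      · rw [G.ωlam]; exact hlam i
    | algebraMap x =>
      rw [AlgHom.commutes]
      exact (hK0 _ (G.D.K0.algebraMap_mem x)).symm
    | add x y _ _ hx hy => rw [map_add, map_add, map_add, hx, hy]
    | inv x _ hx => rw [map_inv₀, map_inv₀, map_inv₀, hx]
    | mul x y _ _ hx hy => rw [map_mul, map_mul, map_mul, hx, hy]
  rw [hall φ hφE, hω]

theorem indep_zt : AlgebraicIndependent G.D.K0 (Sum.elim B.zc B.ty) := by
  classical
  have := G.D.charZero
  set S := Set.range (Sum.elim B.zc B.ty) ∪ Set.range G.lam with hS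
  set N := IntermediateField.adjoin G.D.K0 (Set.range (Sum.elim B.zc B.ty)) with hN
  set N' := IntermediateField.adjoin G.D.K0 S with hN'
  have hKN : G.D.K0 ≤ N.restrictScalars k := fun a ha => N.algebraMap_mem ⟨a, ha⟩
  have hKN' : G.D.K0 ≤ N'.restrictScalars k := fun a ha => N'.algebraMap_mem ⟨a, ha⟩
  have hzN : ∀ p, B.zc p ∈ N := fun p => IntermediateField.subset_adjoin G.D.K0 _ ⟨Sum.inl p, rfl⟩
  have hzN' : ∀ p, B.zc p ∈ N' := fun p =>
    IntermediateField.subset_adjoin G.D.K0 _ (Or.inl ⟨Sum.inl p, rfl⟩)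
  have htN' : ∀ p, B.ty p ∈ N' := fun p =>
    IntermediateField.subset_adjoin G.D.K0 _ (Or.inl ⟨Sum.inr p, rfl⟩)
  have hlN' : ∀ i, G.lam i ∈ N' := fun p =>
    IntermediateField.subset_adjoin G.D.K0 _ (Or.inr ⟨p, rfl⟩)
  have hyN' : ∀ p, B.yf p ∈ N' := by
    intro p
    refine mem_of_embeddings N'.toSubfield _ ?_
    intro Ω _ τ₁ τ₂ hτ
    have hK0 : ∀ x ∈ G.D.K0, τ₁ x = τ₂ x := fun x hx => hτ _ (hKN' hx)
    have hZ : ∀ j l i, τ₁ (B.Z j l i) = τ₂ (B.Z j l i) := by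
      intro j l i
      rw [B.Z_eq j (l, i), map_sum, map_sum]
      refine Finset.sum_congr rfl fun p _ => ?_
      rw [map_mul, map_mul, hK0 _ (B.hBE _ _), hτ _ (hzN' _)]
    obtain ⟨π, s, hs, hlam, hy⟩ := B.pair τ₁ τ₂ hZ
    have hπ : ∀ i, π i = i := by
      intro i
      apply lam_inj (G := G)
      apply τ₁.injective
      rw [← hlam, hτ _ (hlN' i)]
    have hs1 : ∀ i, s i = 1 := by
      intro i
      have h1 := hy i (ix a r m (0, lz a r m))
      rw [hπ] at h1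
      have h2 : τ₁ (B.ty i) = τ₂ (B.ty i) := hτ _ (htN' i)
      rw [ty] at h2
      rw [← h2] at h1
      have h3 : τ₁ (B.yf (i, ix a r m (0, lz a r m))) ≠ 0 := (map_ne_zero τ₁).2 (B.yf_ne _)
      exact mul_left_cancel₀ h3 (h1.symm.trans (mul_one _).symm)
    have h1 := hy p.1 p.2
    rw [hπ, hs1, mul_one] at h1
    exact h1.symm
  refine algebraicIndependent_of_card_in
    (IntermediateField.adjoin G.D.K0 (Set.range (Sum.elim G.vf G.lam))) _
      (fun j => IntermediateField.subset_adjoin _ _ (Set.mem_range_self j)) G.indep_vl _ ?_ ?_ ?_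
  · set E := IntermediateField.adjoin G.D.K0 (Set.range (Sum.elim G.vf G.lam)) with hE
    have hK : G.D.K0 ≤ E.restrictScalars k := fun a ha => E.algebraMap_mem ⟨a, ha⟩
    have hV : ∀ i l, G.V i l ∈ E := fun i l =>
      IntermediateField.subset_adjoin G.D.K0 _ ⟨Sum.inl (i, l), rfl⟩
    have hOm : G.Om ≤ E.restrictScalars k := by
      rw [GE.Om, IntermediateField.adjoin_le_iff]
      rintro _ (⟨i, α, rfl⟩ | ⟨p, rfl⟩ | ⟨i, rfl⟩)
      · exact hK (GD.coeff_mem_adjoin_cf _ _ _)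
      · exact hV _ _
      · exact IntermediateField.subset_adjoin G.D.K0 _ ⟨Sum.inr i, rfl⟩
    rintro (p | i)
    · exact hOm (B.zc_mem_Om p)
    · exact B.yf_mem (E.restrictScalars k) hK hV _
  · -- algebraicity
    have halg : ∀ s ∈ S, IsAlgebraic N s := by
      rintro s (hs | ⟨i, rfl⟩)
      · exact isAlgebraic_algebraMap
          (⟨s, IntermediateField.subset_adjoin G.D.K0 _ hs⟩ : N)
      · let Z' : Matrix (Fin a) (Fin a) N := Matrix.of fun l i =>
          ⟨B.Z (lz a r m) l i, B.Z_mem (N.restrictScalars k) hKN hzN _ l i⟩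
        have h1 : Z'.map (algebraMap N L) = B.Z (lz a r m) := rfl
        have h2 : Z'.charpoly.map (algebraMap N L) = ∏ i, (Polynomial.X - Polynomial.C (G.lam i)) := by
          rw [← Matrix.charpoly_map, h1, Z, if_pos rfl, Matrix.charpoly_mul_comm,
            ← Matrix.mul_assoc, B.Y_inv_mul, Matrix.one_mul, Matrix.charpoly_diagonal]
        refine ⟨Z'.charpoly, (Matrix.charpoly_monic Z').ne_zero, ?_⟩
        rw [← Polynomial.eval_map_algebraMap, h2, Polynomial.eval_prod,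
          Finset.prod_eq_zero (Finset.mem_univ i)]
        simp
    intro x hx
    refine adjoin_algebraic S N halg x ?_
    have hle : IntermediateField.adjoin G.D.K0 (Set.range (Sum.elim G.vf G.lam)) ≤ N' := by
      rw [IntermediateField.adjoin_le_iff]
      rintro _ ⟨p | i, rfl⟩
      · exact B.V_mem (N'.restrictScalars k) hKN' hyN' p.1 p.2
      · exact hlN' i
    exact hle hx
  · simp only [Nat.card_eq_fintype_card, Fintype.card_sum, Fintype.card_prod, Fintype.card_fin]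
    have h := hf.out
    have h2 : r * (a * a) = a * (m + 3) := by rw [← h]; ring
    rw [h2]

theorem indep_zc : AlgebraicIndependent G.D.K0 B.zc :=
  B.indep_zt.comp Sum.inl Sum.inl_injective

end ZD

/-- the elements invariant under all actions -/
def GE.FF {k : Type u} [Field k] {m e a : ℕ} {L : Type v} [Field L] [Algebra k L]
    (G : GE k m e a L) [NeZero a] (r : ℕ) [hf : Fact (a * r = m + 3)] :
    IntermediateField k L where
  carrier := {φ | φ ∈ G.F2 r ∧ (∀ s, G.θ s φ = φ) ∧ ∀ π, G.ω π φ = φ}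
  mul_mem' := fun {a b} ha hb => ⟨mul_mem ha.1 hb.1, fun g => by rw [map_mul, ha.2.1, hb.2.1],
    fun g => by rw [map_mul, ha.2.2, hb.2.2]⟩
  add_mem' := fun {a b} ha hb => ⟨add_mem ha.1 hb.1, fun g => by rw [map_add, ha.2.1, hb.2.1],
    fun g => by rw [map_add, ha.2.2, hb.2.2]⟩
  algebraMap_mem' := fun r => ⟨IntermediateField.algebraMap_mem _ r,
    fun g => AlgHom.commutes _ r, fun g => AlgHom.commutes _ r⟩
  inv_mem' := fun a ha => ⟨inv_mem ha.1, fun g => by rw [map_inv₀, ha.2.1],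
    fun g => by rw [map_inv₀, ha.2.2]⟩

namespace ZD

variable {k : Type u} [Field k] {m e a : ℕ} {L : Type v} [Field L] [Algebra k L]
  {G : GE k m e a L} [NeZero a] {r : ℕ} [hf : Fact (a * r = m + 3)] (B : ZD G r)

theorem FF_eq [CharZero k] :
    (IntermediateField.adjoin (G.D.inv G.D.K0) (Set.range B.zc)).restrictScalars k = G.FF r := by
  apply le_antisymm
  · apply adjoin_restrict_le
    · rintro x ⟨hx, hxi⟩
      refine ⟨?_, fun s => G.fix_K0 _ (G.θA s) _ hx, fun π => G.fix_K0 _ (G.ωA π) _ hx⟩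
      rw [← G.inv_Om r]
      exact ⟨G.K0_le_Om hx, hxi⟩
    · rintro _ ⟨p, rfl⟩
      refine ⟨?_, fun s => B.θzc s p, fun π => B.ωzc π p⟩
      rw [← G.inv_Om r]
      exact ⟨B.zc_mem_Om p, (B.zc_inv p).2⟩
  · rintro φ ⟨hφ, hθ, hω⟩
    rw [← G.inv_Om r] at hφ
    have h1 := B.inv_mem φ hφ.1 hθ hω
    refine inv_adjoin (fun g => (G.D.σ g : L →+* L)) (G.D.σR G.D.K0 G.D.σ_mem_K0)
      (G.D.σR_spec G.D.K0 G.D.σ_mem_K0) (Set.range B.zc) ?_ φ h1
      (fun g => hφ.2 g) (IntermediateField.adjoin (G.D.inv G.D.K0) (Set.range B.zc)).toSubfield ?_ ?_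
    · rintro g _ ⟨i, rfl⟩
      exact (B.zc_inv i).2 g
    · intro a ha
      refine (IntermediateField.adjoin (G.D.inv G.D.K0) (Set.range B.zc)).algebraMap_mem
        ⟨a, a.2, fun g => ?_⟩
      exact congrArg (fun x : G.D.K0 => (x : L)) (ha g)
    · rintro _ ⟨i, rfl⟩
      exact IntermediateField.subset_adjoin _ _ ⟨i, rfl⟩

end ZD

end Pool.Agent.Lib.MP_82c165_ag
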