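import Mathlib
import Pool.Agent.Lib.MP_82c165_ag.ZTheory

/-!
Positions of the coefficients of the normal form.
-/

namespace Pool.Agent.Lib.MP_82c165_ag

open MvPolynomial Matrix

section

variable (a r q : ℕ) {m : ℕ} [hf : Fact (a * r = m + 3)]

/-- the top level -/
def lt (a r m : ℕ) [hf : Fact (a * r = m + 3)] : Fin r :=
  ⟨r - 1, by have := GE.r_pos (m := m) a r; omega⟩

/-- the index of level zero -/
def i0 (i : Fin a) : Fin (m + 3) := ix a r m (i, lz a r m)

/-- the index of top level -/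
def iL (i : Fin a) : Fin (m + 3) := ix a r m (i, lt a r m)

theorem i0_inj : Function.Injective (i0 a r (m := m)) := by
  intro i j h
  have := (ix a r m).injective h
  exact (Prod.mk.inj this).1

theorem iL_inj : Function.Injective (iL a r (m := m)) := by
  intro i j h
  have := (ix a r m).injective h
  exact (Prod.mk.inj this).1

@[simp] theorem vi_i0 (i : Fin a) : vi a r (i0 a r (m := m) i) = i := by simp [i0]

@[simp] theorem lv_i0 (i : Fin a) : lv a r (i0 a r (m := m) i) = lz a r m := by simp [i0]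

@[simp] theorem vi_iL (i : Fin a) : vi a r (iL a r (m := m) i) = i := by simp [iL]

@[simp] theorem lv_iL (i : Fin a) : lv a r (iL a r (m := m) i) = lt a r m := by simp [iL]

@[simp] theorem pm_i0 (π : Equiv.Perm (Fin a)) (i : Fin a) :
    pm a r m π (i0 a r i) = i0 a r (π i) := by rw [i0, pm_ix]; rfl

@[simp] theorem pm_iL (π : Equiv.Perm (Fin a)) (i : Fin a) :
    pm a r m π (iL a r i) = iL a r (π i) := by rw [iL, pm_ix]; rfl

theorem eq_i0 (c : Fin (m + 3)) (h : lv a r c = lz a r m) : c = i0 a r (vi a r c) := by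
  rw [i0, ← h, ix_eta]

theorem val_lt : ((lt a r m : Fin r) : ℕ) + 1 = r := by
  have := GE.r_pos (m := m) a r
  simp only [lt]; omega

theorem eq_iL (c : Fin (m + 3)) (h : ¬ (lv a r c : ℕ) + 1 < r) : c = iL a r (vi a r c) := by
  have h1 : lv a r c = lt a r m := by
    apply Fin.ext
    have h2 := val_lt a r (m := m)
    have h3 := (lv a r c).2
    omega
  rw [iL, ← h1, ix_eta]

/-- the central monomial -/
noncomputable def db (m : ℕ) [hf : Fact (a * r = m + 3)] : Fin (m + 3) →₀ ℕ :=
  Finsupp.equivFunOnFinite.symm (fun c => if lv a r c = lz a r m then q else 0)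

theorem db_apply (c : Fin (m + 3)) : db a r q m c = if lv a r c = lz a r m then q else 0 := rfl

theorem db_i0 (i : Fin a) : db a r q m (i0 a r i) = q := by simp [db_apply]

theorem db_degree : (db a r q m).degree = a * q := by
  rw [Finsupp.degree_eq_sum, ← Equiv.sum_comp (ix a r m), Fintype.sum_prod_type]
  simp only [db_apply, lv_ix]
  simp

theorem pm_symm_lv (π : Equiv.Perm (Fin a)) (c : Fin (m + 3)) :
    lv a r ((pm a r m π).symm c) = lv a r c := by
  conv_rhs => rw [← Equiv.apply_symm_apply (pm a r m π) c, lv_pm]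

theorem equivMap_db (π : Equiv.Perm (Fin a)) :
    Finsupp.equivMapDomain (pm a r m π) (db a r q m) = db a r q m := by
  ext c
  rw [Finsupp.equivMapDomain_apply, db_apply, db_apply, pm_symm_lv]

theorem equivMap_add (π : Equiv.Perm (Fin (m + 3))) (α β : Fin (m + 3) →₀ ℕ) :
    Finsupp.equivMapDomain π (α + β) =
      Finsupp.equivMapDomain π α + Finsupp.equivMapDomain π β := by
  ext c
  simp [Finsupp.equivMapDomain_apply]

theorem equivMap_sub (π : Equiv.Perm (Fin (m + 3))) (α β : Fin (m + 3) →₀ ℕ) :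
    Finsupp.equivMapDomain π (α - β) =
      Finsupp.equivMapDomain π α - Finsupp.equivMapDomain π β := by
  ext c
  simp [Finsupp.equivMapDomain_apply]

/-- the neighbours of the central monomial -/
noncomputable def bb (m : ℕ) [hf : Fact (a * r = m + 3)] (i j : Fin a) : Fin (m + 3) →₀ ℕ :=
  db a r q m + Finsupp.single (i0 a r i) 1 - Finsupp.single (i0 a r j) 1

theorem bb_i0 (i j l : Fin a) : bb a r q m i j (i0 a r l) =
    q + (if l = i then 1 else 0) - (if l = j then 1 else 0) := by
  classical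
  simp only [bb, Finsupp.tsub_apply, Finsupp.add_apply, db_i0, Finsupp.single_apply,
    (i0_inj a r).eq_iff, eq_comm]

theorem bb_add (hq : 1 ≤ q) (i j : Fin a) : bb a r q m i j + Finsupp.single (i0 a r j) 1 =
    db a r q m + Finsupp.single (i0 a r i) 1 := by
  rw [bb, tsub_add_cancel_of_le]
  rw [Finsupp.single_le_iff, Finsupp.add_apply, db_i0]
  omega

theorem bb_degree (hq : 1 ≤ q) (i j : Fin a) : (bb a r q m i j).degree = a * q := by
  have h := congrArg Finsupp.degree (bb_add a r q hq i j (m := m))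
  rw [map_add, map_add, Finsupp.degree_single, Finsupp.degree_single, db_degree] at h
  omega

theorem bb_inj (hq : 1 ≤ q) {i j i' j' : Fin a} (hij : i ≠ j) (_ : i' ≠ j')
    (h : bb a r q m i j = bb a r q m i' j') : i = i' ∧ j = j' := by
  have h1 := DFunLike.congr_fun h (i0 a r i)
  have h2 := DFunLike.congr_fun h (i0 a r j)
  rw [bb_i0, bb_i0] at h1 h2
  simp only [if_true, if_neg hij, if_neg hij.symm] at h1 h2
  constructor
  · by_contra hne
    rw [if_neg hne] at h1
    split_ifs at h1 <;> omega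
  · by_contra hne
    rw [if_neg hne] at h2
    split_ifs at h2 <;> omega

theorem bb_ne_db (hq : 1 ≤ q) {i j : Fin a} (hij : i ≠ j) : bb a r q m i j ≠ db a r q m := by
  intro h
  have h1 := DFunLike.congr_fun h (i0 a r i)
  rw [bb_i0, db_i0] at h1
  simp only [if_true, if_neg hij] at h1
  omega

theorem equivMap_bb (π : Equiv.Perm (Fin a)) (i j : Fin a) :
    Finsupp.equivMapDomain (pm a r m π) (bb a r q m i j) = bb a r q m (π i) (π j) := by
  rw [bb, equivMap_sub, equivMap_add, equivMap_db, Finsupp.equivMapDomain_single,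
    Finsupp.equivMapDomain_single, pm_i0, pm_i0]
  rfl

/-! ### The special positions -/

/-- constant coefficients -/
abbrev XC (a r m : ℕ) [hf : Fact (a * r = m + 3)] : Type :=
  Fin (m + 3) × {c : Fin (m + 3) // (lv a r c : ℕ) + 1 < r}

/-- pairs of distinct vectors -/
abbrev XG (a : ℕ) : Type := {p : Fin a × Fin a // p.1 ≠ p.2}

/-- remaining monomials -/
abbrev XS (a r q m : ℕ) [hf : Fact (a * r = m + 3)] : Type :=
  {β : Mon (m + 3) (a * q) // β.1 ≠ db a r q m ∧ ∀ i j, i ≠ j → β.1 ≠ bb a r q m i j}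

/-- constant positions -/
noncomputable def pC (p : XC a r m) : Coeff (m + 3) (a * q + 1) :=
  (p.1, ⟨Finsupp.single p.2.1 (a * q + 1), by rw [Finsupp.degree_single]⟩)

/-- the positions of the matrix `A` -/
noncomputable def pA (m : ℕ) [hf : Fact (a * r = m + 3)] (p : Fin a × Fin a) :
    Coeff (m + 3) (a * q + 1) :=
  (i0 a r p.2, ⟨db a r q m + Finsupp.single (i0 a r p.1) 1, by
    rw [map_add, Finsupp.degree_single, db_degree]⟩)

variable {q} (hq : 1 ≤ q)

/-- the eliminated positions -/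
noncomputable def pG (m : ℕ) [hf : Fact (a * r = m + 3)] (p : XG a) :
    Coeff (m + 3) (a * q + 1) :=
  (iL a r p.1.1, ⟨bb a r q m p.1.1 p.1.2 + Finsupp.single (iL a r p.1.1) 1, by
    rw [map_add, Finsupp.degree_single, bb_degree a r q hq]⟩)

variable [NeZero a]

variable (q) in
/-- the positions eliminated through the divergence -/
noncomputable def pS (p : XS a r q m) : Coeff (m + 3) (a * q + 1) :=
  (iL a r 0, ⟨p.1.1 + Finsupp.single (iL a r 0) 1, by
    rw [map_add, Finsupp.degree_single, p.1.2]⟩)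

/-- all special positions -/
noncomputable def pF (p : XC a r m ⊕ ((Fin a × Fin a) ⊕ (XG a ⊕ XS a r q m))) :
    Coeff (m + 3) (a * q + 1) :=
  Sum.elim (pC a r q) (Sum.elim (pA a r q m) (Sum.elim (pG a r hq m) (pS a r q))) p

omit [NeZero a] in
theorem pC_inj : Function.Injective (pC a r q (m := m)) := by
  rintro ⟨l, c, hc⟩ ⟨l', c', hc'⟩ h
  have h1 : l = l' := congrArg Prod.fst h
  have h2 : Finsupp.single c (a * q + 1) = Finsupp.single c' (a * q + 1) :=
    congrArg (fun p => p.2.1) h
  have h3 := (Finsupp.single_left_inj (by omega : a * q + 1 ≠ 0)).1 h2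
  subst h1 h3
  rfl

omit [NeZero a] in
theorem pA_inj : Function.Injective (pA a r q m) := by
  rintro ⟨i, j⟩ ⟨i', j'⟩ h
  have h1 : j = j' := i0_inj a r (congrArg Prod.fst h)
  have h2 : db a r q m + Finsupp.single (i0 a r i) 1 = db a r q m + Finsupp.single (i0 a r i') 1 :=
    congrArg (fun p => p.2.1) h
  have h3 := (Finsupp.single_left_inj (one_ne_zero)).1 (add_left_cancel h2)
  rw [h1, i0_inj a r h3]

omit [NeZero a] in
theorem pG_inj : Function.Injective (pG a r hq m) := by
  rintro ⟨⟨i, j⟩, hij⟩ ⟨⟨i', j'⟩, hij'⟩ h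
  have h1 : i = i' := iL_inj a r (congrArg Prod.fst h)
  have h2 : bb a r q m i j + Finsupp.single (iL a r i) 1 =
      bb a r q m i' j' + Finsupp.single (iL a r i') 1 :=
    congrArg (fun p => p.2.1) h
  rw [h1] at h2
  obtain ⟨_, h3⟩ := bb_inj a r q hq (by rw [← h1]; exact hij) hij' (add_right_cancel h2)
  subst h1 h3
  rfl

theorem pS_inj : Function.Injective (pS a r q (m := m)) := by
  rintro ⟨β, hβ⟩ ⟨β', hβ'⟩ h
  have h2 : β.1 + Finsupp.single (iL a r 0) 1 = β'.1 + Finsupp.single (iL a r 0) 1 :=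
    congrArg (fun p => p.2.1) h
  have h3 := Subtype.ext (add_right_cancel h2)
  subst h3
  rfl

/-- a monomial with two variables is not a power -/
theorem two_le_a (ha : 2 ≤ a) (c : Fin (m + 3)) (α : Fin (m + 3) →₀ ℕ) (n : ℕ)
    (h : ∀ i : Fin a, α (i0 a r i) ≠ 0) : α ≠ Finsupp.single c n := by
  intro hα
  have h0 := h ⟨0, by omega⟩
  have h1 := h ⟨1, by omega⟩
  rw [hα, Finsupp.single_apply] at h0 h1
  have e0 : c = i0 a r ⟨0, by omega⟩ := by
    by_contra hne; rw [if_neg hne] at h0; exact h0 rfl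
  have e1 : c = i0 a r ⟨1, by omega⟩ := by
    by_contra hne; rw [if_neg hne] at h1; exact h1 rfl
  have := i0_inj a r (e0.symm.trans e1)
  simp at this

omit [NeZero a] in
theorem pC_ne_pA (ha : 2 ≤ a) (hq : 1 ≤ q) (x) (y) : pC a r q (m := m) x ≠ pA a r q m y := by
  intro h
  have h2 : Finsupp.single x.2.1 (a * q + 1) = db a r q m + Finsupp.single (i0 a r y.1) 1 :=
    congrArg (fun p => p.2.1) h
  have : NeZero a := ⟨by omega⟩
  refine two_le_a a r ha x.2.1 _ _ (fun i => ?_) h2.symm
  rw [Finsupp.add_apply, db_i0]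
  omega

omit [NeZero a] in
/-- `β + e_l` for `β` a neighbour of the center is not constant -/
theorem pC_ne_pG (x) (y) : pC a r q (m := m) x ≠ pG a r hq m y := by
  intro h
  obtain ⟨⟨i, j⟩, hij⟩ := y
  have h2 : Finsupp.single x.2.1 (a * q + 1) =
      bb a r q m i j + Finsupp.single (iL a r i) 1 :=
    congrArg (fun p => p.2.1) h
  have hx := x.2.2
  have hne : x.2.1 ≠ iL a r i := by
    intro h3
    rw [h3, lv_iL, val_lt] at hx
    omega
  have h3 := DFunLike.congr_fun h2 (iL a r i)
  rw [Finsupp.add_apply, Finsupp.single_apply, if_neg hne, Finsupp.single_apply, if_pos rfl] at h3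
  omega

theorem pC_ne_pS (x) (y) : pC a r q (m := m) x ≠ pS a r q y := by
  intro h
  have h2 : Finsupp.single x.2.1 (a * q + 1) = y.1.1 + Finsupp.single (iL a r 0) 1 :=
    congrArg (fun p => p.2.1) h
  have hx := x.2.2
  have hne : x.2.1 ≠ iL a r 0 := by
    intro h3
    rw [h3, lv_iL, val_lt] at hx
    omega
  have h3 := DFunLike.congr_fun h2 (iL a r 0)
  rw [Finsupp.add_apply, Finsupp.single_apply, if_neg hne, Finsupp.single_apply, if_pos rfl] at h3
  omega

omit [NeZero a] in
theorem bb_of_add (hq : 1 ≤ q) {β : Fin (m + 3) →₀ ℕ} {i j : Fin a}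
    (h : β + Finsupp.single (i0 a r j) 1 = db a r q m + Finsupp.single (i0 a r i) 1) :
    (i = j ∧ β = db a r q m) ∨ (i ≠ j ∧ β = bb a r q m i j) := by
  by_cases hij : i = j
  · left
    subst hij
    exact ⟨rfl, add_right_cancel h⟩
  · right
    refine ⟨hij, ?_⟩
    rw [← bb_add a r q hq i j] at h
    exact add_right_cancel h

omit [NeZero a] in
theorem pA_ne_pG (y) (x) : pA a r q m x ≠ pG a r hq m y := by
  intro h
  obtain ⟨⟨i, j⟩, hij⟩ := y
  have h1 : i0 a r x.2 = iL a r i := congrArg Prod.fst h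
  have h2 : db a r q m + Finsupp.single (i0 a r x.1) 1 =
      bb a r q m i j + Finsupp.single (iL a r i) 1 :=
    congrArg (fun p => p.2.1) h
  have h4 : x.2 = i := by
    have := congrArg (vi a r) h1
    simpa using this
  rw [← h1, h4] at h2
  rcases bb_of_add a r hq h2.symm with ⟨_, h5⟩ | ⟨h6, h5⟩
  · exact bb_ne_db a r q hq hij h5
  · obtain ⟨_, h7⟩ := bb_inj a r q hq hij h6 h5
    exact hij h7.symm

theorem pA_ne_pS (hq : 1 ≤ q) (x) (y) : pA a r q m x ≠ pS a r q y := by
  intro h
  have h1 : i0 a r x.2 = iL a r 0 := congrArg Prod.fst h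
  have h2 : db a r q m + Finsupp.single (i0 a r x.1) 1 = y.1.1 + Finsupp.single (iL a r 0) 1 :=
    congrArg (fun p => p.2.1) h
  rw [← h1] at h2
  rcases bb_of_add a r hq h2.symm with ⟨_, h5⟩ | ⟨h6, h5⟩
  · exact y.2.1 h5
  · exact y.2.2 _ _ h6 h5

theorem pG_ne_pS (x) (y) : pG a r hq m x ≠ pS a r q y := by
  intro h
  obtain ⟨⟨i, j⟩, hij⟩ := x
  have h1 : iL a r i = iL a r 0 := congrArg Prod.fst h
  have h2 : bb a r q m i j + Finsupp.single (iL a r i) 1 =
      y.1.1 + Finsupp.single (iL a r 0) 1 :=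
    congrArg (fun p => p.2.1) h
  rw [h1] at h2
  exact y.2.2 _ _ hij (add_right_cancel h2).symm

theorem pF_inj (ha : 2 ≤ a) : Function.Injective (pF a r hq (m := m)) := by
  unfold pF
  rw [Sum.elim_injective]
  refine ⟨pC_inj a r, ?_, ?_⟩
  · rw [Sum.elim_injective]
    refine ⟨pA_inj a r, ?_, ?_⟩
    · rw [Sum.elim_injective]
      exact ⟨pG_inj a r hq, pS_inj a r, pG_ne_pS a r hq⟩
    · rintro x (y | y)
      · exact pA_ne_pG a r hq y x
      · exact pA_ne_pS a r hq x y
  · rintro x (y | y | y)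
    · exact pC_ne_pA a r ha hq x y
    · exact pC_ne_pG a r hq x y
    · exact pC_ne_pS a r x y

/-- the free positions -/
abbrev JB (m : ℕ) [hf : Fact (a * r = m + 3)] : Type :=
  {p : Coeff (m + 3) (a * q + 1) // p ∉ Set.range (pF a r hq (m := m))}

omit [NeZero a] in
theorem card_XC : Nat.card (XC a r m) + (m + 3) * a = (m + 3) * (m + 3) := by
  have h1 : Nat.card {c : Fin (m + 3) // ¬ (lv a r c : ℕ) + 1 < r} = a := by
    have h2 : Nat.card (Fin a) = a := by simp
    conv_rhs => rw [← h2]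
    symm
    refine Nat.card_congr (Equiv.ofBijective (fun i : Fin a =>
      (⟨iL a r i, by rw [lv_iL, val_lt]; omega⟩ :
        {c : Fin (m + 3) // ¬ (lv a r c : ℕ) + 1 < r})) ⟨?_, ?_⟩)
    · intro i j h
      exact iL_inj a r (congrArg Subtype.val h)
    · rintro ⟨c, hc⟩
      exact ⟨vi a r c, Subtype.ext (eq_iL a r c hc).symm⟩
  have h2 := card_add_compl (fun c : Fin (m + 3) => (lv a r c : ℕ) + 1 < r)
  rw [h1] at h2
  rw [Nat.card_prod]
  have h3 : Nat.card (Fin (m + 3)) = m + 3 := by simp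
  rw [h3] at h2 ⊢
  rw [← Nat.mul_add, h2]

omit [NeZero a] in
include hq in
theorem card_XS : Nat.card (XS a r q m) + Nat.card (XG a) + 1 = Nat.card (Mon (m + 3) (a * q)) := by
  classical
  let H : Option (XG a) → Mon (m + 3) (a * q) := fun o => o.elim ⟨db a r q m, db_degree a r q⟩
    (fun p => ⟨bb a r q m p.1.1 p.1.2, bb_degree a r q hq _ _⟩)
  have hH : Function.Injective H := by
    rintro (_ | ⟨⟨i, j⟩, hij⟩) (_ | ⟨⟨i', j'⟩, hij'⟩) h
    · rfl
    · exact absurd (congrArg Subtype.val h).symm (bb_ne_db a r q hq hij')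
    · exact absurd (congrArg Subtype.val h) (bb_ne_db a r q hq hij)
    · obtain ⟨h1, h2⟩ := bb_inj a r q hq hij hij' (congrArg Subtype.val h)
      subst h1 h2
      rfl
  have h1 := card_add_compl (fun β : Mon (m + 3) (a * q) => β ∈ Set.range H)
  have h2 : Nat.card {β : Mon (m + 3) (a * q) // β ∈ Set.range H} = Nat.card (XG a) + 1 := by
    have h3 : Nat.card (Set.range H) = Nat.card (Option (XG a)) := Nat.card_range_of_injective hH
    rw [Finite.card_option] at h3
    exact h3
  have h3 : Nat.card {β : Mon (m + 3) (a * q) // ¬ β ∈ Set.range H} = Nat.card (XS a r q m) := by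
    refine Nat.card_congr (Equiv.subtypeEquivRight fun β => ?_)
    constructor
    · intro h
      refine ⟨fun h4 => h ⟨none, Subtype.ext h4.symm⟩, fun i j hij h4 =>
        h ⟨some ⟨(i, j), hij⟩, Subtype.ext h4.symm⟩⟩
    · rintro ⟨h4, h5⟩ ⟨o, ho⟩
      rcases o with _ | ⟨⟨i, j⟩, hij⟩
      · exact h4 (congrArg Subtype.val ho).symm
      · exact h5 i j hij (congrArg Subtype.val ho).symm
  rw [h2, h3] at h1
  omega

theorem card_JB (ha : 2 ≤ a) : Nat.card (JB a r hq m) + (m + 3) * (m + 3) + a * a +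
    Nat.card (Mon (m + 3) (a * q)) =
      Nat.card (Coeff (m + 3) (a * q + 1)) + (m + 3) * a + 1 := by
  have h1 := card_add_compl (fun p : Coeff (m + 3) (a * q + 1) => p ∈ Set.range (pF a r hq (m := m)))
  have h2 : Nat.card {p : Coeff (m + 3) (a * q + 1) // p ∈ Set.range (pF a r hq (m := m))} =
      Nat.card (XC a r m) + (a * a + (Nat.card (XG a) + Nat.card (XS a r q m))) := by
    have h3 := Nat.card_range_of_injective (pF_inj a r hq ha (m := m))
    have hAA : Nat.card (Fin a × Fin a) = a * a := by rw [Nat.card_prod]; simp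
    rw [Nat.card_sum, Nat.card_sum, Nat.card_sum, hAA] at h3
    exact h3
  rw [h2] at h1
  have h4 := card_XC a r (m := m)
  have h5 := card_XS a r hq (m := m)
  have h6 : Nat.card {p : Coeff (m + 3) (a * q + 1) // ¬ p ∈ Set.range (pF a r hq (m := m))} =
    Nat.card (JB a r hq m) := rfl
  omega

end

end Pool.Agent.Lib.MP_82c165_ag
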