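import Mathlib
import Pool.Agent.Lib.MP_82c165_ag.Pos

/-!
Relations between the coefficients of the normal form.
-/

namespace Pool.Agent.Lib.MP_82c165_ag

open MvPolynomial Matrix

universe u v

section weights

variable (a r q : ℕ) {m : ℕ} [hf : Fact (a * r = m + 3)]

/-- the weight of a position -/
def wt (p : Coeff (m + 3) (a * q + 1)) : Fin a → ℤ := wtx a r (a * q) p.1 p.2.1

theorem wtx_add_single (e : ℕ) (β : Fin (m + 3) →₀ ℕ) (l : Fin (m + 3)) (i : Fin a) :
    wtx a r e l (β + Finsupp.single l 1) i =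
      ∑ c, if vi a r c = i then (β c : ℤ) * ((e : ℤ) + 1) ^ (lv a r c : ℕ) else 0 := by
  classical
  rw [wtx, sub_eq_iff_eq_add]
  have h1 : ∀ c : Fin (m + 3), (if vi a r c = i then
      (((β + Finsupp.single l 1 : Fin (m + 3) →₀ ℕ) c : ℕ) : ℤ) *
        ((e : ℤ) + 1) ^ (lv a r c : ℕ) else 0) =
      (if vi a r c = i then (β c : ℤ) * ((e : ℤ) + 1) ^ (lv a r c : ℕ) else 0) +
      (if c = l then (if vi a r l = i then ((e : ℤ) + 1) ^ (lv a r l : ℕ) else 0) else 0) := by
    intro c
    rw [Finsupp.add_apply, Finsupp.single_apply]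
    by_cases hc : c = l
    · subst hc
      simp only [if_true]
      split_ifs
      · push_cast; ring
      · rfl
    · have hc' : ¬ l = c := fun h => hc h.symm
      rw [if_neg hc', add_zero, if_neg hc, add_zero]
  simp only [h1, Finset.sum_add_distrib]
  congr 1
  rw [Finset.sum_ite_eq' Finset.univ l]
  simp

theorem wt_pPos (π : Equiv.Perm (Fin a)) (p : Coeff (m + 3) (a * q + 1)) :
    wt a r q (pPos a r π p) = wt a r q p ∘ π.symm := wtx_pm a r π p.1 p.2.1

theorem dvd_sum_wtx (e : ℕ) (l : Fin (m + 3)) (α : Fin (m + 3) →₀ ℕ) (hα : α.degree = e + 1) :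
    (e : ℤ) ∣ ∑ i, wtx a r e l α i := by
  have h1 : ∀ j : ℕ, (((e : ℤ) + 1) ^ j : ℤ) ≡ 1 [ZMOD e] := by
    intro j
    have h2 : ((e : ℤ) + 1) ≡ 1 [ZMOD e] := by
      rw [Int.modEq_iff_dvd]
      exact ⟨-1, by ring⟩
    simpa using h2.pow j
  simp only [wtx, Finset.sum_sub_distrib]
  rw [Finset.sum_comm]
  have h3 : ∀ c : Fin (m + 3), ∑ i, (if vi a r c = i then
      (α c : ℤ) * ((e : ℤ) + 1) ^ (lv a r c : ℕ) else 0) =
      (α c : ℤ) * ((e : ℤ) + 1) ^ (lv a r c : ℕ) := by
    intro c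
    rw [Finset.sum_ite_eq Finset.univ]
    simp
  have h4 : ∑ i, (if vi a r l = i then ((e : ℤ) + 1) ^ (lv a r l : ℕ) else 0) =
      ((e : ℤ) + 1) ^ (lv a r l : ℕ) := by
    rw [Finset.sum_ite_eq Finset.univ]
    simp
  simp only [h3]
  rw [h4]
  have h5 : ∑ c, (α c : ℤ) * ((e : ℤ) + 1) ^ (lv a r c : ℕ) ≡ ∑ c, (α c : ℤ) [ZMOD e] := by
    refine Int.ModEq.sum fun c _ => ?_
    simpa using (Int.ModEq.refl (α c : ℤ)).mul (h1 (lv a r c))
  have h6 : ∑ c, (α c : ℤ) = e + 1 := by
    rw [Finsupp.degree_eq_sum] at hα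
    exact_mod_cast hα
  rw [h6] at h5
  have h7 := h5.sub (h1 (lv a r l))
  have h8 : (e : ℤ) + 1 - 1 = e := by ring
  rw [h8] at h7
  exact (Int.modEq_zero_iff_dvd.1 (h7.trans (by simp [Int.ModEq])))

theorem wt_dvd (p : Coeff (m + 3) (a * q + 1)) : ((a * q : ℕ) : ℤ) ∣ ∑ i, wt a r q p i :=
  dvd_sum_wtx a r (a * q) p.1 p.2.1 p.2.2

/-- the weight of the matrix `A` -/
theorem wt_pA (i j l : Fin a) : wt a r q (pA a r q m (i, j)) l =
    q + (if l = i then 1 else 0) - (if l = j then 1 else 0) := by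
  classical
  have hlz : ((lz a r m : Fin r) : ℕ) = 0 := rfl
  rw [wt, pA, wtx]
  simp only [lv_i0, vi_i0, hlz, pow_zero]
  congr 1
  · have h1 : ∀ c : Fin (m + 3), (if vi a r c = l then
        (((db a r q m + Finsupp.single (i0 a r i) 1 : Fin (m + 3) →₀ ℕ) c : ℕ) : ℤ) *
          (((a * q : ℕ) : ℤ) + 1) ^ (lv a r c : ℕ) else 0) =
        (if c = i0 a r l then (q : ℤ) + (if l = i then 1 else 0) else 0) := by
      intro c
      by_cases h1 : c = i0 a r l
      · subst h1
        rw [if_pos (vi_i0 a r l), if_pos rfl, lv_i0, hlz, pow_zero, mul_one, Finsupp.add_apply,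
          db_i0, Finsupp.single_apply]
        simp only [(i0_inj a r).eq_iff]
        push_cast
        congr 2
        exact propext eq_comm
      · rw [if_neg h1]
        split_ifs with h2
        · have h3 : lv a r c ≠ lz a r m := by
            intro h4
            apply h1
            rw [eq_i0 a r c h4, h2]
          have h4 : i0 a r i ≠ c := by
            intro h5
            apply h3
            rw [← h5, lv_i0]
          rw [Finsupp.add_apply, db_apply, if_neg h3, Finsupp.single_apply, if_neg h4]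
          simp
        · rfl
    simp only [h1]
    rw [Finset.sum_ite_eq' Finset.univ]
    simp
  · congr 1
    exact propext eq_comm

end weights

section posmaps

variable (a r q : ℕ) {m : ℕ} [hf : Fact (a * r = m + 3)]

theorem pPos_pA (π : Equiv.Perm (Fin a)) (p : Fin a × Fin a) :
    pPos a r π (pA a r q m p) = pA a r q m (π p.1, π p.2) := by
  refine Prod.ext (pm_i0 a r π _) (Subtype.ext ?_)
  change Finsupp.equivMapDomain (pm a r m π) (db a r q m + Finsupp.single (i0 a r p.1) 1) = _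
  rw [equivMap_add, equivMap_db, Finsupp.equivMapDomain_single, pm_i0]
  rfl

theorem pPos_pC (π : Equiv.Perm (Fin a)) (p : XC a r m) :
    pPos a r π (pC a r q p) = pC a r q (pm a r m π p.1, ⟨pm a r m π p.2.1, by
      rw [lv_pm]; exact p.2.2⟩) := by
  refine Prod.ext rfl (Subtype.ext ?_)
  change Finsupp.equivMapDomain (pm a r m π) (Finsupp.single p.2.1 (a * q + 1)) = _
  rw [Finsupp.equivMapDomain_single]
  rfl

theorem pPos_pG (hq : 1 ≤ q) (π : Equiv.Perm (Fin a)) (p : XG a) :
    pPos a r π (pG a r hq m p) = pG a r hq m ⟨(π p.1.1, π p.1.2), fun h =>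
      p.2 (π.injective h)⟩ := by
  refine Prod.ext (pm_iL a r π _) (Subtype.ext ?_)
  change Finsupp.equivMapDomain (pm a r m π)
    (bb a r q m p.1.1 p.1.2 + Finsupp.single (iL a r p.1.1) 1) = _
  rw [equivMap_add, equivMap_bb, Finsupp.equivMapDomain_single, pm_iL]
  rfl

theorem pPos_pPos {d : ℕ} (π π' : Equiv.Perm (Fin a)) (h : ∀ i, π' (π i) = i)
    (p : Coeff (m + 3) d) : pPos a r π' (pPos a r π p) = p := by
  have h1 : ∀ c, pm a r m π' (pm a r m π c) = c := by
    intro c
    rw [pm_apply, vi_pm, lv_pm, h, ix_eta]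
  refine Prod.ext (h1 _) (Subtype.ext ?_)
  change Finsupp.equivMapDomain (pm a r m π') (Finsupp.equivMapDomain (pm a r m π) p.2.1) = p.2.1
  rw [← Finsupp.equivMapDomain_trans]
  have h2 : (pm a r m π).trans (pm a r m π') = Equiv.refl _ := by
    ext c
    simp [h1]
  rw [h2, Finsupp.equivMapDomain_refl]

theorem mem_range_of_pPos {d : ℕ} {X : Type*} (f : X → Coeff (m + 3) d)
    (hf : ∀ π : Equiv.Perm (Fin a), ∀ x, pPos a r π (f x) ∈ Set.range f)
    (π : Equiv.Perm (Fin a)) (p : Coeff (m + 3) d) (h : pPos a r π p ∈ Set.range f) :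
    p ∈ Set.range f := by
  obtain ⟨x, hx⟩ := h
  have h1 := hf π.symm x
  rw [hx, pPos_pPos a r π π.symm (fun i => by simp)] at h1
  exact h1

end posmaps

namespace GE

variable {k : Type u} [Field k] {m q a : ℕ} {L : Type v} [Field L] [Algebra k L]
  (G : GE k m (a * q) a L) [NeZero a] (r : ℕ) [hf : Fact (a * r = m + 3)]

/-- the coefficients of the normal form -/
noncomputable def nc (p : Coeff (m + 3) (a * q + 1)) : L := coeff p.2.1 (G.nf r p.1)

/-- the matrix of central coefficients -/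
noncomputable def Am (i j : Fin a) : L := G.nc r (pA a r q m (i, j))

theorem ω_nc (π : Equiv.Perm (Fin a)) (p : Coeff (m + 3) (a * q + 1)) :
    G.ω π (G.nc r p) = G.nc r (pPos a r π p) := G.ω_coeff_nf r π p.1 p.2.1

theorem θ_nc (s : Fin a → kˣ) (p : Coeff (m + 3) (a * q + 1)) :
    G.θ s (G.nc r p) = algebraMap k L (chr s (wt a r q p)) * G.nc r p :=
  G.θ_coeff_nf r s p.1 p.2.1

theorem ω_Am (π : Equiv.Perm (Fin a)) (i j : Fin a) :
    G.ω π (G.Am r i j) = G.Am r (π i) (π j) := by
  rw [Am, ω_nc, pPos_pA]; rfl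

theorem nc_mem (p) : G.nc r p ∈ G.F2 r := G.coeff_nf_mem r _ _

variable [CharZero k]

theorem nc_pC (x : XC a r m) : G.nc r (pC a r q x) =
    (Pi.single (nx a r x.2.1 x.2.2) 1 : Fin (m + 3) → L) x.1 :=
  G.coeff_nf_const r x.2.1 x.1 x.2.2

theorem nc_pC_mem (N : IntermediateField k L) (x : XC a r m) : G.nc r (pC a r q x) ∈ N := by
  rw [nc_pC, Pi.single_apply]
  split_ifs
  · exact one_mem _
  · exact zero_mem _

/-- the position `(l, β + e_l)` -/
noncomputable def pR {n d : ℕ} (β : Mon n d) (l : Fin n) : Coeff n (d + 1) :=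
  (l, ⟨β.1 + Finsupp.single l 1, by rw [map_add, Finsupp.degree_single, β.2]⟩)

theorem nc_pR_pC (β : Mon (m + 3) (a * q)) (l : Fin (m + 3))
    (h : pR β l ∈ Set.range (pC a r q (m := m))) : G.nc r (pR β l) = 0 := by
  obtain ⟨x, hx⟩ := h
  rw [← hx, nc_pC]
  have h1 : x.1 = l := congrArg Prod.fst hx
  have h2 : Finsupp.single x.2.1 (a * q + 1) = β.1 + Finsupp.single l 1 :=
    congrArg (fun p => p.2.1) hx
  have h3 : x.2.1 = l := by
    by_contra hne
    have h4 := DFunLike.congr_fun h2 l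
    rw [Finsupp.single_apply, if_neg hne, Finsupp.add_apply, Finsupp.single_apply, if_pos rfl] at h4
    omega
  rw [Pi.single_apply, if_neg]
  intro h4
  rw [h1] at h4
  have h5 := congrArg (fun c => ((lv a r c : Fin r) : ℕ)) h4
  simp only [nx, lv_ix, h3] at h5
  omega

theorem rel (β : Mon (m + 3) (a * q)) :
    ∑ l, G.nc r (pR β l) * ((β.1 l : L) + 1) = 0 := G.div_rel r β.1

/-- solving the relation -/
theorem rel_solve (β : Mon (m + 3) (a * q)) (l₀ : Fin (m + 3)) :
    G.nc r (pR β l₀) = ∑ l ∈ Finset.univ.erase l₀,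
      (algebraMap k L (-(((β.1 l : k) + 1) / ((β.1 l₀ : k) + 1)))) * G.nc r (pR β l) := by
  have := G.D.charZero
  have h := G.rel r β
  rw [← Finset.add_sum_erase _ _ (Finset.mem_univ l₀)] at h
  have h5 : ((β.1 l₀ : L) + 1) ≠ 0 := Nat.cast_add_one_ne_zero _
  have h6 : G.nc r (pR β l₀) = - (∑ x ∈ Finset.univ.erase l₀,
      G.nc r (pR β x) * ((β.1 x : L) + 1)) / ((β.1 l₀ : L) + 1) := by
    rw [eq_div_iff h5]
    linear_combination h
  rw [h6, ← Finset.sum_neg_distrib, Finset.sum_div]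
  refine Finset.sum_congr rfl fun l _ => ?_
  rw [map_neg, map_div₀, map_add, map_add, map_natCast, map_natCast, map_one]
  field_simp

variable {r} (hq : 1 ≤ q)

/-- the coefficients away from the special positions are combinations of the free ones -/
theorem nc_span (p : Coeff (m + 3) (a * q + 1)) (hC : p ∉ Set.range (pC a r q (m := m)))
    (hA : p ∉ Set.range (pA a r q m)) (hG : p ∉ Set.range (pG a r hq m)) :
    G.nc r p ∈ Submodule.span k {x | ∃ p' : JB a r hq m, x = G.nc r p'.1 ∧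
      wt a r q p'.1 = wt a r q p} := by
  by_cases hJ : p ∈ Set.range (pF a r hq (m := m))
  · obtain ⟨(x | x | x | β), hx⟩ := hJ
    · exact absurd ⟨x, hx⟩ hC
    · exact absurd ⟨x, hx⟩ hA
    · exact absurd ⟨x, hx⟩ hG
    · have hx' : p = pR β.1 (iL a r 0) := hx.symm
      have hw : ∀ l, wt a r q (pR β.1 l) = wt a r q p := by
        intro l
        rw [hx']
        funext i
        exact (wtx_add_single a r (a * q) β.1.1 l i).trans
          (wtx_add_single a r (a * q) β.1.1 (iL a r 0) i).symm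
      rw [hx', G.rel_solve r β.1 (iL a r 0)]
      rw [← hx']
      refine Submodule.sum_mem _ fun l hl => ?_
      have hl' : l ≠ iL a r 0 := Finset.ne_of_mem_erase hl
      rw [← Algebra.smul_def]
      refine Submodule.smul_mem _ _ ?_
      by_cases hlC : pR β.1 l ∈ Set.range (pC a r q (m := m))
      · rw [G.nc_pR_pC r β.1 l hlC]
        exact Submodule.zero_mem _
      · refine Submodule.subset_span ⟨⟨pR β.1 l, ?_⟩, rfl, hw l⟩
        rintro ⟨(x | x | x | β'), hx⟩
        · exact hlC ⟨x, hx⟩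
        · -- position of `A`
          have h1 : i0 a r x.2 = l := congrArg Prod.fst hx
          have h2 : db a r q m + Finsupp.single (i0 a r x.1) 1 =
              β.1.1 + Finsupp.single l 1 := congrArg (fun p => p.2.1) hx
          rw [← h1] at h2
          rcases bb_of_add a r hq h2.symm with ⟨_, h5⟩ | ⟨h6, h5⟩
          · exact β.2.1 h5
          · exact β.2.2 _ _ h6 h5
        · have h1 : iL a r x.1.1 = l := congrArg Prod.fst hx
          have h2 : bb a r q m x.1.1 x.1.2 + Finsupp.single (iL a r x.1.1) 1 =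
              β.1.1 + Finsupp.single l 1 := congrArg (fun p => p.2.1) hx
          rw [← h1] at h2
          exact β.2.2 _ _ x.2 (add_right_cancel h2).symm
        · exact hl' (congrArg Prod.fst hx).symm
  · exact Submodule.subset_span ⟨⟨p, hJ⟩, rfl, rfl⟩

theorem nc_mem_of_JB (N : IntermediateField k L) (hN : ∀ p : JB a r hq m, G.nc r p.1 ∈ N)
    (p : Coeff (m + 3) (a * q + 1))
    (hA : p ∉ Set.range (pA a r q m)) (hG : p ∉ Set.range (pG a r hq m)) : G.nc r p ∈ N := by
  by_cases hC : p ∈ Set.range (pC a r q (m := m))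
  · obtain ⟨x, rfl⟩ := hC
    exact G.nc_pC_mem r N x
  · have h1 := G.nc_span hq p hC hA hG
    have h2 : Submodule.span k {x | ∃ p' : JB a r hq m, x = G.nc r p'.1 ∧
      wt a r q p'.1 = wt a r q p} ≤ Subalgebra.toSubmodule N.toSubalgebra := by
      rw [Submodule.span_le]
      rintro x ⟨p', rfl, _⟩
      exact hN p'
    exact h2 h1

/-- the trace of `A` -/
theorem z0_mem (N : IntermediateField k L) (hN : ∀ p : JB a r hq m, G.nc r p.1 ∈ N) :
    ∑ i, G.Am r i i ∈ N := by
  classical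
  have := G.D.charZero
  have h := G.rel r ⟨db a r q m, db_degree a r q⟩
  rw [← Finset.sum_filter_add_sum_filter_not Finset.univ
    (fun l : Fin (m + 3) => lv a r l = lz a r m)] at h
  have h1 : ∑ l ∈ Finset.univ.filter (fun l : Fin (m + 3) => lv a r l = lz a r m),
      G.nc r (pR (⟨db a r q m, db_degree a r q⟩ : Mon (m + 3) (a * q)) l) *
        ((db a r q m l : L) + 1) = (∑ i, G.Am r i i) * ((q : L) + 1) := by
    rw [Finset.sum_mul]
    symm
    refine Finset.sum_bij' (fun i _ => i0 a r i) (fun l _ => vi a r l) ?_ ?_ ?_ ?_ ?_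
    · intro i _
      simp
    · intro l _
      simp
    · intro i _
      simp
    · intro l hl
      exact (eq_i0 a r l (Finset.mem_filter.1 hl).2).symm
    · intro i _
      rw [db_i0]
      rfl
  have h2 : ∑ l ∈ Finset.univ.filter (fun l : Fin (m + 3) => ¬ lv a r l = lz a r m),
      G.nc r (pR (⟨db a r q m, db_degree a r q⟩ : Mon (m + 3) (a * q)) l) *
        ((db a r q m l : L) + 1) ∈ N := by
    refine sum_mem fun l hl => mul_mem ?_ (add_mem (natCast_mem N _) (one_mem N))
    have hl' := (Finset.mem_filter.1 hl).2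
    refine G.nc_mem_of_JB hq N hN _ ?_ ?_
    · rintro ⟨x, hx⟩
      have h3 : i0 a r x.2 = l := congrArg Prod.fst hx
      apply hl'
      rw [← h3, lv_i0]
    · rintro ⟨x, hx⟩
      have h1 : iL a r x.1.1 = l := congrArg Prod.fst hx
      have h2 : bb a r q m x.1.1 x.1.2 + Finsupp.single (iL a r x.1.1) 1 =
          db a r q m + Finsupp.single l 1 := congrArg (fun p => p.2.1) hx
      rw [← h1] at h2
      exact bb_ne_db a r q hq x.2 (add_right_cancel h2)
  have h3 : (∑ i, G.Am r i i) = -(∑ l ∈ Finset.univ.filter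
      (fun l : Fin (m + 3) => ¬ lv a r l = lz a r m),
      G.nc r (pR (⟨db a r q m, db_degree a r q⟩ : Mon (m + 3) (a * q)) l) *
        ((db a r q m l : L) + 1)) / ((q : L) + 1) := by
    have h5 : ((q : L) + 1) ≠ 0 := Nat.cast_add_one_ne_zero _
    rw [eq_div_iff h5, ← h1]
    linear_combination h
  rw [h3]
  exact div_mem (neg_mem h2) (add_mem (natCast_mem N _) (one_mem N))

theorem F2_le_of (N : IntermediateField k L) (hN : ∀ p : JB a r hq m, G.nc r p.1 ∈ N)
    (hlam : ∀ i, G.lam i ∈ N) (hAm : ∀ i j, G.Am r i j ∈ N) : G.F2 r ≤ N := by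
  have hnG : ∀ p : Coeff (m + 3) (a * q + 1), p ∉ Set.range (pG a r hq m) → G.nc r p ∈ N := by
    intro p hp
    by_cases hA : p ∈ Set.range (pA a r q m)
    · obtain ⟨⟨i, j⟩, rfl⟩ := hA
      exact hAm i j
    · exact G.nc_mem_of_JB hq N hN p hA hp
  have hall : ∀ p : Coeff (m + 3) (a * q + 1), G.nc r p ∈ N := by
    intro p
    by_cases hp : p ∈ Set.range (pG a r hq m)
    · obtain ⟨x, rfl⟩ := hp
      have h1 : pG a r hq m x =
          pR ⟨bb a r q m x.1.1 x.1.2, bb_degree a r q hq _ _⟩ (iL a r x.1.1) := rfl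
      rw [h1, G.rel_solve r]
      refine sum_mem fun l hl => mul_mem (N.algebraMap_mem _) ?_
      have hl' : l ≠ iL a r x.1.1 := Finset.ne_of_mem_erase hl
      apply hnG
      rintro ⟨y, hy⟩
      have h1 : iL a r y.1.1 = l := congrArg Prod.fst hy
      have h2 : bb a r q m y.1.1 y.1.2 + Finsupp.single (iL a r y.1.1) 1 =
          bb a r q m x.1.1 x.1.2 + Finsupp.single l 1 := congrArg (fun p => p.2.1) hy
      rw [← h1] at h2 hl'
      obtain ⟨h3, _⟩ := bb_inj a r q hq y.2 x.2 (add_right_cancel h2)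
      exact hl' (by rw [h3])
    · exact hnG p hp
  rw [F2, IntermediateField.adjoin_le_iff]
  rintro _ (⟨i, α, rfl⟩ | ⟨i, rfl⟩)
  · by_cases hα : α.degree = a * q + 1
    · exact hall (i, ⟨α, hα⟩)
    · have h1 : coeff α (G.nf r i) = 0 := (G.nf_homog r i).coeff_eq_zero hα
      rw [h1]
      exact zero_mem _
  · exact hlam i

end GE

end Pool.Agent.Lib.MP_82c165_ag
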