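import Mathlib
import Pool.Agent.Lib.MP_82c165_ag.NFRel

/-!
Algebraic independence of the coefficients of the normal form.
-/

namespace Pool.Agent.Lib.MP_82c165_ag

open MvPolynomial Matrix

universe u v

theorem card_XG (a : ℕ) : Nat.card (XG a) + a = a * a := by
  have h := card_add_compl (fun p : Fin a × Fin a => p.1 ≠ p.2)
  have h1 : Nat.card {p : Fin a × Fin a // ¬ p.1 ≠ p.2} = a := by
    have h2 : Nat.card (Fin a) = a := by simp
    conv_rhs => rw [← h2]
    symm
    refine Nat.card_congr (Equiv.ofBijective (fun i : Fin a =>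
      (⟨(i, i), by simp⟩ : {p : Fin a × Fin a // ¬ p.1 ≠ p.2})) ⟨?_, ?_⟩)
    · intro i j h
      exact (Prod.mk.inj (congrArg Subtype.val h)).1
    · rintro ⟨⟨i, j⟩, h⟩
      simp only [ne_eq, not_not] at h
      subst h
      exact ⟨i, rfl⟩
  have h3 : Nat.card (Fin a × Fin a) = a * a := by rw [Nat.card_prod]; simp
  rw [h1, h3] at h
  exact h

namespace GE

variable {k : Type u} [Field k] {m q a : ℕ} {L : Type v} [Field L] [Algebra k L]
  (G : GE k m (a * q) a L) [NeZero a] (r : ℕ) [hf : Fact (a * r = m + 3)]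

/-- the weighted power sums of the diagonal of `A` -/
noncomputable def zs (p : ℕ) : L := ∑ i, G.lam i ^ p * G.Am r i i

theorem ω_zs (π : Equiv.Perm (Fin a)) (p : ℕ) : G.ω π (G.zs r p) = G.zs r p := by
  rw [zs, map_sum, ← Equiv.sum_comp π (fun i => G.lam i ^ p * G.Am r i i)]
  refine Finset.sum_congr rfl fun i _ => ?_
  rw [map_mul, map_pow, G.ωlam, G.ω_Am]

theorem diag_mem [CharZero k] (N : IntermediateField k L) (hlam : ∀ i, G.lam i ∈ N)
    (hz : ∀ p < a, G.zs r p ∈ N) (i : Fin a) : G.Am r i i ∈ N := by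
  classical
  let V : Matrix (Fin a) (Fin a) L := (Matrix.vandermonde G.lam)ᵀ
  have hV : ∀ i j, V i j ∈ N := fun i j => pow_mem (hlam j) _
  have hdet : V.det ≠ 0 := by
    rw [Matrix.det_transpose, Matrix.det_vandermonde_ne_zero_iff]
    exact ZD.lam_inj
  have h1 : V *ᵥ (fun i => G.Am r i i) = fun p : Fin a => G.zs r p := by
    funext p
    rfl
  have h2 : (fun i => G.Am r i i) = V⁻¹ *ᵥ (fun p : Fin a => G.zs r p) := by
    rw [← h1, Matrix.mulVec_mulVec, Matrix.nonsing_inv_mul _ (isUnit_iff_ne_zero.2 hdet),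
      Matrix.one_mulVec]
  have h3 : G.Am r i i = (V⁻¹ *ᵥ (fun p : Fin a => G.zs r p)) i := congrFun h2 i
  rw [h3, Matrix.mulVec, dotProduct]
  exact sum_mem fun (p : Fin a) _ => mul_mem (inv_mem_of_mem' hV _ _) (hz p p.2)

variable (hq : 1 ≤ q)

/-- the free coefficients -/
noncomputable def jb (p : JB a r hq m) : L := G.nc r p.1

/-- the entries of the frame -/
noncomputable def mf (p : Fin (m + 3) × Fin (m + 3)) : L :=
  G.Ma r p.1 p.2

variable [CharZero k]

theorem indep0 (ha : 2 ≤ a) : AlgebraicIndependent k (Sum.elim (Sum.elim (Sum.elim (Sum.elim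
    (G.jb r hq) (fun p : XG a => G.Am r p.1.1 p.1.2)) (fun p : Fin (a - 1) => G.zs r (p + 1)))
      G.lam) (G.mf r)) := by
  have := G.D.charZero
  set y := Sum.elim (Sum.elim G.vf G.lam) G.D.a0 with hy
  have hyOm : ∀ j, y j ∈ G.Om := by
    rintro ((p | i) | c)
    · exact G.V_mem_Om _ _
    · exact G.lam_mem_Om _
    · exact G.K0_le_Om (GD.coeff_mem_adjoin_cf _ _ _)
  refine algebraicIndependent_of_card_in G.Om y hyOm G.indep_vla _ ?_ ?_ ?_
  · rintro ((((p | p) | p) | p) | p)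
    · exact G.F2_le_Om r (G.nc_mem r _)
    · exact G.F2_le_Om r (G.nc_mem r _)
    · change G.zs r (p + 1) ∈ G.Om
      rw [zs]
      exact sum_mem fun i _ => mul_mem (pow_mem (G.lam_mem_Om i) _) (G.F2_le_Om r (G.nc_mem r _))
    · exact G.lam_mem_Om _
    · exact G.Ma_mem r _ _
  · intro x hx
    set N := IntermediateField.adjoin k (Set.range (Sum.elim (Sum.elim (Sum.elim (Sum.elim
      (G.jb r hq) (fun p : XG a => G.Am r p.1.1 p.1.2)) (fun p : Fin (a - 1) => G.zs r (p + 1)))
      G.lam) (G.mf r))) with hN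
    have h1 : ∀ p : JB a r hq m, G.nc r p.1 ∈ N := fun p =>
      IntermediateField.subset_adjoin _ _ ⟨Sum.inl (Sum.inl (Sum.inl (Sum.inl p))), rfl⟩
    have h2 : ∀ i, G.lam i ∈ N := fun p =>
      IntermediateField.subset_adjoin _ _ ⟨Sum.inl (Sum.inr p), rfl⟩
    have h3 : ∀ i j, i ≠ j → G.Am r i j ∈ N := fun i j hij =>
      IntermediateField.subset_adjoin _ _ ⟨Sum.inl (Sum.inl (Sum.inl (Sum.inr ⟨(i, j), hij⟩))), rfl⟩
    have h4 : ∀ p < a, G.zs r p ∈ N := by
      intro p hp
      rcases Nat.eq_zero_or_pos p with h0 | h0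
      · subst h0
        have h5 := G.z0_mem hq N h1
        rw [zs]
        simpa using h5
      · have h5 : G.zs r p = (fun p : Fin (a - 1) => G.zs r (p + 1)) ⟨p - 1, by omega⟩ := by
          simp only
          congr 1
          omega
        rw [h5]
        exact IntermediateField.subset_adjoin _ _ ⟨Sum.inl (Sum.inl (Sum.inr ⟨p - 1, by omega⟩)), rfl⟩
    have h5 : ∀ i j, G.Am r i j ∈ N := by
      intro i j
      by_cases hij : i = j
      · subst hij
        exact G.diag_mem r N h2 h4 i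
      · exact h3 i j hij
    have h6 := G.F2_le_of hq N h1 h2 h5
    have h7 : G.Om ≤ N := G.Om_le r N h6 fun i j =>
      IntermediateField.subset_adjoin _ _ ⟨Sum.inr (i, j), rfl⟩
    exact isAlgebraic_algebraMap (⟨x, h7 hx⟩ : N)
  · have h1 := card_JB a r hq ha (m := m)
    have h2 := card_XG a
    have h3 := card_I0 (m := m) (e := a * q)
    rw [Nat.card_sum, Nat.card_sum, Nat.card_sum, Nat.card_sum, Nat.card_sum, Nat.card_sum,
      Nat.card_prod, Nat.card_prod]
    simp only [Nat.card_fin]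
    have h4 : (m + 3) * a = a * (m + 3) := by ring
    omega

include hq in
theorem Am_ne (ha : 2 ≤ a) {i j : Fin a} (hij : i ≠ j) : G.Am r i j ≠ 0 :=
  (G.indep0 r hq ha).ne_zero (Sum.inl (Sum.inl (Sum.inl (Sum.inr ⟨(i, j), hij⟩))))

include hq in
theorem zs_ne (ha : 2 ≤ a) {p : ℕ} (hp : 1 ≤ p) (hpa : p < a) : G.zs r p ≠ 0 := by
  have h := (G.indep0 r hq ha).ne_zero (Sum.inl (Sum.inl (Sum.inr ⟨p - 1, by omega⟩)))
  have h1 : p - 1 + 1 = p := by omega
  simpa [h1] using h

end GE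

end Pool.Agent.Lib.MP_82c165_ag
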