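import Mathlib
import Pool.Agent.Lib.MP_82c165_ag.Indep0E

/-!
Elimination of the torus and of the symmetric group.
-/

namespace Pool.Agent.Lib.MP_82c165_ag

open MvPolynomial Matrix

universe u v

/-- The data needed for the elimination: permuted torus-invariant elements `u`, semi-invariants `t`
and monomials `X` in `t` for all weights. -/
structure TU {k : Type u} [Field k] {m q a : ℕ} {L : Type v} [Field L] [Algebra k L]
    (G : GE k m (a * q) a L) [NeZero a] (r : ℕ) [hf : Fact (a * r = m + 3)] (κ : Type) where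
  u : κ → L
  t : Fin a → L
  u_mem : ∀ i, u i ∈ G.F2 r
  t_mem : ∀ i, t i ∈ G.F2 r
  t_ne : ∀ i, t i ≠ 0
  θu : ∀ s i, G.θ s (u i) = u i
  ωu : ∀ π i, ∃ j, G.ω π (u i) = u j
  ωt : ∀ π i (N : IntermediateField k L), (∀ i, G.lam i ∈ N) → (∀ i, u i ∈ N) → (∀ i, t i ∈ N) →
    G.ω π (t i) ∈ N
  surj : ∀ c : Fin a → k, (∀ j, c j ≠ 0) → ∃ s, ∀ j, G.θ s (t j) = algebraMap k L (c j) * t j
  X : (Fin a → ℤ) → L
  X_ne : ∀ w, X w ≠ 0
  X_mem : ∀ w (N : IntermediateField k L), (∀ i, t i ∈ N) → X w ∈ N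
  θX : ∀ s w, ((a * q : ℕ) : ℤ) ∣ ∑ i, w i → G.θ s (X w) = algebraMap k L (chr s w) * X w
  A_mem : ∀ N : IntermediateField k L, (∀ i, G.lam i ∈ N) → (∀ i, u i ∈ N) → (∀ i, t i ∈ N) →
    G.zs r 0 ∈ N → ∀ i j, G.Am r i j ∈ N

namespace TU

variable {k : Type u} [Field k] {m q a : ℕ} {L : Type v} [Field L] [Algebra k L]
  {G : GE k m (a * q) a L} [NeZero a] {r : ℕ} [hf : Fact (a * r = m + 3)] {κ : Type}
  (T : TU G r κ) (hq : 1 ≤ q)

/-- the field of the auxiliary variables -/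
noncomputable def KL (G : GE k m (a * q) a L) : IntermediateField k L :=
  IntermediateField.adjoin k (Set.range G.lam)

/-- the field of the auxiliary variables and of `u` -/
noncomputable def KU : IntermediateField k L :=
  IntermediateField.adjoin k (Set.range G.lam ∪ Set.range T.u)

theorem lam_mem_KU (i) : G.lam i ∈ T.KU :=
  IntermediateField.subset_adjoin _ _ (Or.inl ⟨i, rfl⟩)

theorem u_mem_KU (i) : T.u i ∈ T.KU :=
  IntermediateField.subset_adjoin _ _ (Or.inr ⟨i, rfl⟩)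

theorem KU_le_F2 : T.KU ≤ G.F2 r := by
  rw [KU, IntermediateField.adjoin_le_iff]
  rintro _ (⟨i, rfl⟩ | ⟨i, rfl⟩)
  · exact G.lam_mem_F2 r i
  · exact T.u_mem i

theorem θKU (s) (x : L) (hx : x ∈ T.KU) : G.θ s x = x := by
  induction hx using IntermediateField.adjoin_induction with
  | mem x hx =>
    rcases hx with ⟨i, rfl⟩ | ⟨i, rfl⟩
    · exact G.θlam s i
    · exact T.θu s i
  | algebraMap x => exact AlgHom.commutes _ x
  | add x y _ _ hx hy => rw [map_add, hx, hy]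
  | inv x _ hx => rw [map_inv₀, hx]
  | mul x y _ _ hx hy => rw [map_mul, hx, hy]

theorem stable {S : Set L} (τ : L →ₐ[k] L)
    (h : ∀ s ∈ S, τ s ∈ IntermediateField.adjoin k S)
    (x : L) (hx : x ∈ IntermediateField.adjoin k S) : τ x ∈ IntermediateField.adjoin k S := by
  have h1 : (IntermediateField.adjoin k S).map τ ≤ IntermediateField.adjoin k S := by
    rw [IntermediateField.adjoin_map, IntermediateField.adjoin_le_iff]
    rintro _ ⟨s, hs, rfl⟩
    exact h s hs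
  exact h1 ⟨x, hx, rfl⟩

theorem ωKU (π) (x : L) (hx : x ∈ T.KU) : G.ω π x ∈ T.KU := by
  refine stable (G.ω π) ?_ x hx
  rintro _ (⟨i, rfl⟩ | ⟨i, rfl⟩)
  · rw [G.ωlam]; exact T.lam_mem_KU _
  · obtain ⟨j, hj⟩ := T.ωu π i
    rw [hj]; exact T.u_mem_KU j

omit [NeZero a] in
theorem ωKL (π) (x : L) (hx : x ∈ KL G) : G.ω π x ∈ KL G := by
  refine stable (G.ω π) ?_ x hx
  rintro _ ⟨i, rfl⟩
  rw [G.ωlam]; exact IntermediateField.subset_adjoin _ _ ⟨_, rfl⟩

theorem KL_le_KU : KL G ≤ T.KU := IntermediateField.adjoin.mono _ _ _ Set.subset_union_left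

/-- torus slice over `KU` -/
theorem slice_KU (E : IntermediateField k L) (hE : ∀ s, ∀ x ∈ E, G.θ s x = x)
    [Infinite k] (φ : L) (hφ : φ ∈ IntermediateField.adjoin E (Set.range T.t))
    (hθ : ∀ s, G.θ s φ = φ) : φ ∈ E := by
  refine torus_slice E T.t T.t_ne φ hφ ?_
  intro c hc
  obtain ⟨s, hs⟩ := T.surj c hc
  exact ⟨G.θ s, hE s, hs, hθ s⟩

/-- the torus invariant coefficients -/
noncomputable def ch (p : Coeff (m + 3) (a * q + 1)) : L := G.nc r p / T.X (wt a r q p)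

theorem θch (s) (p : Coeff (m + 3) (a * q + 1)) : G.θ s (T.ch p) = T.ch p := by
  have h0 : algebraMap k L (chr s (wt a r q p)) ≠ 0 := by
    rw [Ne, map_eq_zero]; exact Units.ne_zero _
  rw [ch, map_div₀, G.θ_nc, T.θX s _ (wt_dvd a r q p), mul_div_mul_left _ _ h0]

theorem nc_eq (p : Coeff (m + 3) (a * q + 1)) : G.nc r p = T.ch p * T.X (wt a r q p) := by
  rw [ch, div_mul_cancel₀ _ (T.X_ne _)]

theorem t_mem_of (N : IntermediateField k L) (h : G.F2 r ≤ N) (i) : T.t i ∈ N := h (T.t_mem i)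

theorem ch_mem_F2 (p : Coeff (m + 3) (a * q + 1)) : T.ch p ∈ G.F2 r :=
  div_mem (G.nc_mem r p) (T.X_mem _ _ T.t_mem)

/-- the ratio of monomials -/
noncomputable def rt (π : Equiv.Perm (Fin a)) (p : Coeff (m + 3) (a * q + 1)) : L :=
  T.X (wt a r q (pPos a r π p)) / G.ω π (T.X (wt a r q p))

theorem ω_ch (π) (p : Coeff (m + 3) (a * q + 1)) :
    G.ω π (T.ch p) = T.rt π p * T.ch (pPos a r π p) := by
  have h1 : G.ω π (T.X (wt a r q p)) ≠ 0 := (map_ne_zero _).2 (T.X_ne _)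
  have h2 := T.X_ne (wt a r q (pPos a r π p))
  rw [ch, map_div₀, G.ω_nc, rt, ch]
  field_simp

theorem adj_t_mem (E : IntermediateField k L) (i) :
    T.t i ∈ (IntermediateField.adjoin E (Set.range T.t)).restrictScalars k :=
  IntermediateField.subset_adjoin E _ (Set.mem_range_self i)

theorem adj_le (E : IntermediateField k L) :
    E ≤ (IntermediateField.adjoin E (Set.range T.t)).restrictScalars k :=
  fun x hx => (IntermediateField.adjoin E (Set.range T.t)).algebraMap_mem ⟨x, hx⟩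

/-- `ω` maps `k(t)` into `KU(t)` -/
theorem ω_kt (π) (x : L) (hx : x ∈ IntermediateField.adjoin k (Set.range T.t)) :
    G.ω π x ∈ (IntermediateField.adjoin T.KU (Set.range T.t)).restrictScalars k := by
  have h1 : (IntermediateField.adjoin k (Set.range T.t)).map (G.ω π) ≤
      (IntermediateField.adjoin T.KU (Set.range T.t)).restrictScalars k := by
    rw [IntermediateField.adjoin_map, IntermediateField.adjoin_le_iff]
    rintro _ ⟨_, ⟨i, rfl⟩, rfl⟩
    exact T.ωt π i _ (fun i => T.adj_le _ (T.lam_mem_KU i)) (fun i => T.adj_le _ (T.u_mem_KU i))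
      (T.adj_t_mem _)
  exact h1 ⟨x, hx, rfl⟩

theorem rt_mem [Infinite k] (π) (p : Coeff (m + 3) (a * q + 1)) : T.rt π p ∈ T.KU := by
  refine T.slice_KU T.KU T.θKU _ ?_ ?_
  · have h1 : T.X (wt a r q (pPos a r π p)) ∈
        (IntermediateField.adjoin T.KU (Set.range T.t)).restrictScalars k :=
      T.X_mem _ _ (T.adj_t_mem _)
    have h2 : G.ω π (T.X (wt a r q p)) ∈
        (IntermediateField.adjoin T.KU (Set.range T.t)).restrictScalars k :=
      T.ω_kt π _ (T.X_mem _ _ fun i => IntermediateField.subset_adjoin k _ (Set.mem_range_self i))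
    exact div_mem h1 h2
  · intro s
    have h0 : algebraMap k L (chr s (wt a r q (pPos a r π p))) ≠ 0 := by
      rw [Ne, map_eq_zero]; exact Units.ne_zero _
    rw [rt, map_div₀, T.θX s _ (wt_dvd a r q _), G.θω, T.θX _ _ (wt_dvd a r q _), map_mul,
      AlgHom.commutes, chr_comp, ← wt_pPos, mul_div_mul_left _ _ h0]

/-- the field of the torus invariants -/
noncomputable def EU : IntermediateField k L :=
  IntermediateField.adjoin k ((Set.range G.lam ∪ Set.range T.u) ∪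
    Set.range (fun p : JB a r hq m => T.ch p.1))

theorem KU_le_EU : T.KU ≤ T.EU hq := IntermediateField.adjoin.mono _ _ _ Set.subset_union_left

theorem ch_mem_EU (p : JB a r hq m) : T.ch p.1 ∈ T.EU hq :=
  IntermediateField.subset_adjoin _ _ (Or.inr ⟨p, rfl⟩)

theorem EU_le_F2 : T.EU hq ≤ G.F2 r := by
  rw [EU, IntermediateField.adjoin_le_iff]
  rintro _ ((⟨i, rfl⟩ | ⟨i, rfl⟩) | ⟨i, rfl⟩)
  · exact G.lam_mem_F2 r i
  · exact T.u_mem i
  · exact T.ch_mem_F2 _

theorem θEU (s) (x : L) (hx : x ∈ T.EU hq) : G.θ s x = x := by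
  induction hx using IntermediateField.adjoin_induction with
  | mem x hx =>
    rcases hx with (⟨i, rfl⟩ | ⟨i, rfl⟩) | ⟨i, rfl⟩
    · exact G.θlam s i
    · exact T.θu s i
    · exact T.θch s _
  | algebraMap x => exact AlgHom.commutes _ x
  | add x y _ _ hx hy => rw [map_add, hx, hy]
  | inv x _ hx => rw [map_inv₀, hx]
  | mul x y _ _ hx hy => rw [map_mul, hx, hy]

variable [CharZero k]

/-- the span of the torus invariant coefficients -/
theorem ch_span (p : Coeff (m + 3) (a * q + 1)) (hC : p ∉ Set.range (pC a r q (m := m)))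
    (hA : p ∉ Set.range (pA a r q m)) (hG : p ∉ Set.range (pG a r hq m)) :
    T.ch p ∈ Submodule.span k (Set.range (fun p : JB a r hq m => T.ch p.1)) := by
  have h1 := G.nc_span hq p hC hA hG
  set x := T.X (wt a r q p) with hx
  have h2 : T.ch p = LinearMap.mulRight k x⁻¹ (G.nc r p) := by
    rw [LinearMap.mulRight_apply, ch, div_eq_mul_inv]
  rw [h2]
  have h3 := Submodule.mem_map_of_mem (f := LinearMap.mulRight k x⁻¹) h1
  rw [Submodule.map_span] at h3
  refine Submodule.span_mono ?_ h3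
  rintro _ ⟨_, ⟨p', rfl, hp'⟩, rfl⟩
  refine ⟨p', ?_⟩
  rw [LinearMap.mulRight_apply]
  simp only [ch]
  rw [hp', ← hx, div_eq_mul_inv]

theorem ω_ch_span (π) (p : JB a r hq m) :
    G.ω π (T.ch p.1) ∈ Submodule.span T.KU (Set.range (fun p : JB a r hq m => T.ch p.1)) := by
  have : Infinite k := inferInstance
  rw [T.ω_ch]
  have h1 : T.ch (pPos a r π p.1) ∈
      Submodule.span k (Set.range (fun p : JB a r hq m => T.ch p.1)) := by
    refine T.ch_span hq _ ?_ ?_ ?_
    · intro h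
      obtain ⟨x, hx⟩ := mem_range_of_pPos a r (pC a r q (m := m))
        (fun π x => ⟨_, (pPos_pC a r q π x).symm⟩) π p.1 h
      exact p.2 ⟨Sum.inl x, hx⟩
    · intro h
      obtain ⟨x, hx⟩ := mem_range_of_pPos a r (pA a r q m)
        (fun π x => ⟨_, (pPos_pA a r q π x).symm⟩) π p.1 h
      exact p.2 ⟨Sum.inr (Sum.inl x), hx⟩
    · intro h
      obtain ⟨x, hx⟩ := mem_range_of_pPos a r (pG a r hq m)
        (fun π x => ⟨_, (pPos_pG a r q hq π x).symm⟩) π p.1 h
      exact p.2 ⟨Sum.inr (Sum.inr (Sum.inl x)), hx⟩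
  have h2 : T.ch (pPos a r π p.1) ∈
      Submodule.span T.KU (Set.range (fun p : JB a r hq m => T.ch p.1)) :=
    Submodule.span_subset_span k T.KU _ h1
  have h3 : T.rt π p.1 * T.ch (pPos a r π p.1) =
      (⟨T.rt π p.1, T.rt_mem π p.1⟩ : T.KU) • T.ch (pPos a r π p.1) := rfl
  rw [h3]
  exact Submodule.smul_mem _ _ h2

theorem ωEU (π) (x : L) (hx : x ∈ T.EU hq) : G.ω π x ∈ T.EU hq := by
  refine stable (G.ω π) ?_ x hx
  rintro _ ((⟨i, rfl⟩ | ⟨i, rfl⟩) | ⟨p, rfl⟩)
  · exact T.KU_le_EU hq (T.ωKU π _ (T.lam_mem_KU _))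
  · exact T.KU_le_EU hq (T.ωKU π _ (T.u_mem_KU _))
  · have h1 := T.ω_ch_span hq π p
    have h2 : Submodule.span T.KU (Set.range (fun p : JB a r hq m => T.ch p.1)) ≤
        (Subalgebra.toSubmodule
          (IntermediateField.extendScalars (T.KU_le_EU hq)).toSubalgebra) := by
      rw [Submodule.span_le]
      rintro _ ⟨p', rfl⟩
      exact T.ch_mem_EU hq p'
    exact h2 h1

theorem F2_le_EUt :
    G.F2 r ≤ (IntermediateField.adjoin (T.EU hq) (Set.range T.t)).restrictScalars k := by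
  set N := (IntermediateField.adjoin (T.EU hq) (Set.range T.t)).restrictScalars k with hN
  have hEN : T.EU hq ≤ N := T.adj_le _
  have htN : ∀ i, T.t i ∈ N := T.adj_t_mem _
  have h1 : ∀ p : JB a r hq m, G.nc r p.1 ∈ N := by
    intro p
    rw [T.nc_eq]
    exact mul_mem (hEN (T.ch_mem_EU hq p)) (T.X_mem _ _ htN)
  have h2 : ∀ i, G.lam i ∈ N := fun i => hEN (T.KU_le_EU hq (T.lam_mem_KU i))
  have h3 : ∀ i, T.u i ∈ N := fun i => hEN (T.KU_le_EU hq (T.u_mem_KU i))
  refine G.F2_le_of hq N h1 h2 (T.A_mem N h2 h3 htN ?_)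
  have h5 := G.z0_mem hq N h1
  rw [GE.zs]
  simpa using h5

/-- torus invariants -/
theorem mem_EU (φ : L) (hφ : φ ∈ G.F2 r) (hθ : ∀ s, G.θ s φ = φ) : φ ∈ T.EU hq := by
  have : Infinite k := inferInstance
  exact T.slice_KU (T.EU hq) (T.θEU hq) φ (T.F2_le_EUt hq hφ) hθ

end TU

end Pool.Agent.Lib.MP_82c165_ag
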