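import Mathlib
import Pool.Agent.Lib.MP_82c165_ag.TUDef

/-!
The field of invariants is purely transcendental.
-/

namespace Pool.Agent.Lib.MP_82c165_ag

open MvPolynomial Matrix

universe u v

namespace GE

variable {k : Type u} [Field k] {m e a : ℕ} {L : Type v} [Field L] [Algebra k L]
  (G : GE k m e a L)

/-- the elements of `E` invariant under the permutations -/
def winv (E : IntermediateField k L) : IntermediateField k L where
  carrier := {φ | φ ∈ E ∧ ∀ π, G.ω π φ = φ}
  mul_mem' := fun {a b} ha hb => ⟨mul_mem ha.1 hb.1, fun g => by rw [map_mul, ha.2, hb.2]⟩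
  add_mem' := fun {a b} ha hb => ⟨add_mem ha.1 hb.1, fun g => by rw [map_add, ha.2, hb.2]⟩
  algebraMap_mem' := fun r => ⟨E.algebraMap_mem r, fun g => AlgHom.commutes _ r⟩
  inv_mem' := fun a ha => ⟨inv_mem ha.1, fun g => by rw [map_inv₀, ha.2]⟩

/-- restriction of the action to a stable subfield -/
noncomputable def ωR (E : IntermediateField k L) (hE : ∀ g, ∀ a ∈ E, G.ω g a ∈ E)
    (g : Equiv.Perm (Fin a)) : E →+* E :=
  ((G.ω g : L →+* L).comp (algebraMap E L)).codRestrict E (fun a => hE g a a.2)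

theorem ωR_spec (E : IntermediateField k L) (hE : ∀ g, ∀ a ∈ E, G.ω g a ∈ E)
    (g : Equiv.Perm (Fin a)) (x : E) :
    (G.ω g : L →+* L) (algebraMap E L x) = algebraMap E L (G.ωR E hE g x) := rfl

/-- a primitive element -/
noncomputable def prim : L := ∑ i : Fin a, algebraMap k L (((i : ℕ)) : k) * G.lam i

theorem ω_prim (π : Equiv.Perm (Fin a)) :
    G.ω π G.prim = ∑ i, algebraMap k L ((π.symm i : ℕ) : k) * G.lam i := by
  rw [prim, map_sum, ← Equiv.sum_comp π
    (fun i => algebraMap k L ((π.symm i : ℕ) : k) * G.lam i)]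
  refine Finset.sum_congr rfl fun i _ => ?_
  rw [map_mul, AlgHom.commutes, G.ωlam, Equiv.symm_apply_apply]

variable [NeZero a] [CharZero k]

omit [NeZero a] [CharZero k] in
theorem indep_lam : AlgebraicIndependent k G.lam :=
  (G.ind.comp Sum.inr Sum.inr_injective)

omit [NeZero a] in
theorem ω_prim_ne (π : Equiv.Perm (Fin a)) (hπ : π ≠ 1) : G.ω π G.prim ≠ G.prim := by
  intro h
  apply hπ
  rw [ω_prim, prim, ← sub_eq_zero, ← Finset.sum_sub_distrib] at h
  have h1 := G.indep_lam.linearIndependent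
  rw [Fintype.linearIndependent_iff] at h1
  have h2 := h1 (fun i => ((π.symm i : ℕ) : k) - ((i : ℕ) : k)) (by
    rw [← h]
    refine Finset.sum_congr rfl fun i _ => ?_
    rw [Algebra.smul_def, map_sub, sub_mul])
  ext i
  have h3 := h2 (π i)
  rw [Equiv.symm_apply_apply, sub_eq_zero, Nat.cast_inj] at h3
  rw [Equiv.Perm.one_apply, h3]

end GE

namespace TU

variable {k : Type u} [Field k] {m q a : ℕ} {L : Type v} [Field L] [Algebra k L]
  {G : GE k m (a * q) a L} [NeZero a] {r : ℕ} [hf : Fact (a * r = m + 3)] {κ : Type}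
  (T : TU G r κ) (hq : 1 ≤ q)

omit [NeZero a] in
theorem prim_mem_KL : G.prim ∈ KL G :=
  sum_mem fun i _ => mul_mem ((KL G).algebraMap_mem _)
    (IntermediateField.subset_adjoin _ _ ⟨i, rfl⟩)

variable [CharZero k]

omit [NeZero a] in
theorem comp_mem (E : IntermediateField k L) (hE : ∀ π, ∀ x ∈ E, G.ω π x ∈ E)
    (hKL : KL G ≤ E) (K : IntermediateField k L) (hK : KL G ≤ K) (w : L) (hw : w ∈ E) :
    w ∈ IntermediateField.adjoin K (G.winv E : Set L) := by
  classical
  refine mem_compositum (fun π => (G.ω π : L →+* L)) G.ω_one (KL G).toSubfield G.prim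
    (fun π => ωKL π _ prim_mem_KL) (fun π hπ => G.ω_prim_ne π hπ)
    (IntermediateField.adjoin K (G.winv E : Set L)).toSubfield ?_ w ?_
  · intro x hx
    exact (IntermediateField.adjoin K (G.winv E : Set L)).algebraMap_mem ⟨x, hK hx⟩
  · intro j
    refine IntermediateField.subset_adjoin K _ ?_
    rw [finsum_eq_sum_of_fintype]
    refine ⟨sum_mem fun π _ => hE π _ (mul_mem (pow_mem (hKL prim_mem_KL) _) hw), fun π => ?_⟩
    rw [map_sum, ← Equiv.sum_comp (Equiv.mulLeft π)
      (fun g => (G.ω g : L →+* L) (G.prim ^ j * w))]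
    refine Finset.sum_congr rfl fun π' _ => ?_
    exact (G.ω_mul π π' _).symm

/-! ### Independence -/

theorem indepT [Finite κ] (ha : 2 ≤ a) (hκ : Nat.card κ + 1 + a = a * a) :
    AlgebraicIndependent k (Sum.elim (Sum.elim (Sum.elim (Sum.elim
      (fun p : JB a r hq m => T.ch p.1) T.u) G.lam) T.t) (G.mf r)) := by
  have := G.D.charZero
  set y := Sum.elim (Sum.elim G.vf G.lam) G.D.a0 with hy
  have hyOm : ∀ j, y j ∈ G.Om := by
    rintro ((p | i) | c)
    · exact G.V_mem_Om _ _
    · exact G.lam_mem_Om _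
    · exact G.K0_le_Om (GD.coeff_mem_adjoin_cf _ _ _)
  refine algebraicIndependent_of_card_in G.Om y hyOm G.indep_vla _ ?_ ?_ ?_
  · rintro ((((p | p) | p) | p) | p)
    · exact G.F2_le_Om r (T.ch_mem_F2 _)
    · exact G.F2_le_Om r (T.u_mem _)
    · exact G.lam_mem_Om _
    · exact G.F2_le_Om r (T.t_mem _)
    · exact G.Ma_mem r _ _
  · intro x hx
    set N := IntermediateField.adjoin k (Set.range (Sum.elim (Sum.elim (Sum.elim (Sum.elim
      (fun p : JB a r hq m => T.ch p.1) T.u) G.lam) T.t) (G.mf r))) with hN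
    have hEU : T.EU hq ≤ N := by
      rw [EU, IntermediateField.adjoin_le_iff]
      rintro _ ((⟨i, rfl⟩ | ⟨i, rfl⟩) | ⟨i, rfl⟩)
      · exact IntermediateField.subset_adjoin _ _ ⟨Sum.inl (Sum.inl (Sum.inr i)), rfl⟩
      · exact IntermediateField.subset_adjoin _ _ ⟨Sum.inl (Sum.inl (Sum.inl (Sum.inr i))), rfl⟩
      · exact IntermediateField.subset_adjoin _ _ ⟨Sum.inl (Sum.inl (Sum.inl (Sum.inl i))), rfl⟩
    have hF2 : G.F2 r ≤ N := by
      refine (T.F2_le_EUt hq).trans ?_
      apply adjoin_restrict_le hEU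
      rintro _ ⟨i, rfl⟩
      exact IntermediateField.subset_adjoin _ _ ⟨Sum.inl (Sum.inr i), rfl⟩
    have h7 : G.Om ≤ N := G.Om_le r N hF2 fun i j =>
      IntermediateField.subset_adjoin _ _ ⟨Sum.inr (i, j), rfl⟩
    exact isAlgebraic_algebraMap (⟨x, h7 hx⟩ : N)
  · have h1 := card_JB a r hq ha (m := m)
    have h3 := card_I0 (m := m) (e := a * q)
    rw [Nat.card_sum, Nat.card_sum, Nat.card_sum, Nat.card_sum, Nat.card_sum, Nat.card_sum,
      Nat.card_prod, Nat.card_prod]
    simp only [Nat.card_fin]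
    have h4 : (m + 3) * a = a * (m + 3) := by ring
    omega

theorem indep_ch [Finite κ] (ha : 2 ≤ a) (hκ : Nat.card κ + 1 + a = a * a) :
    AlgebraicIndependent T.KU (fun p : JB a r hq m => T.ch p.1) := by
  have h := (T.indepT hq ha hκ).comp
    (Sum.elim (fun p => Sum.inl (Sum.inl (Sum.inl (Sum.inl p))))
      (Sum.elim (fun i => Sum.inl (Sum.inl (Sum.inr i)))
        (fun i => Sum.inl (Sum.inl (Sum.inl (Sum.inr i)))))) (by
    rw [Sum.elim_injective]
    refine ⟨fun i j h => by simpa using h, ?_, ?_⟩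
    · rw [Sum.elim_injective]
      exact ⟨fun i j h => by simpa using h, fun i j h => by simpa using h, fun i j => by simp⟩
    · rintro i (j | j) <;> simp)
  have h1 : (Sum.elim (Sum.elim (Sum.elim (Sum.elim
      (fun p : JB a r hq m => T.ch p.1) T.u) G.lam) T.t) (G.mf r)) ∘
    (Sum.elim (fun p => Sum.inl (Sum.inl (Sum.inl (Sum.inl p))))
      (Sum.elim (fun i => Sum.inl (Sum.inl (Sum.inr i)))
        (fun i => Sum.inl (Sum.inl (Sum.inl (Sum.inr i)))))) =
      Sum.elim (fun p : JB a r hq m => T.ch p.1) (Sum.elim G.lam T.u) := by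
    funext i
    rcases i with i | i | i <;> rfl
  rw [h1] at h
  have h2 := algebraicIndependent_adjoin_field h
  rw [Set.Sum.elim_range] at h2
  exact h2

theorem indep_u [Finite κ] (hq : 1 ≤ q) (ha : 2 ≤ a) (hκ : Nat.card κ + 1 + a = a * a) :
    AlgebraicIndependent (KL G) T.u := by
  have h := (T.indepT hq ha hκ).comp
    (Sum.elim (fun i => Sum.inl (Sum.inl (Sum.inl (Sum.inr i))))
      (fun i => Sum.inl (Sum.inl (Sum.inr i)))) (by
    rw [Sum.elim_injective]
    exact ⟨fun i j h => by simpa using h, fun i j h => by simpa using h, fun i j => by simp⟩)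
  have h1 : (Sum.elim (Sum.elim (Sum.elim (Sum.elim
      (fun p : JB a r hq m => T.ch p.1) T.u) G.lam) T.t) (G.mf r)) ∘
    (Sum.elim (fun i => Sum.inl (Sum.inl (Sum.inl (Sum.inr i))))
      (fun i => Sum.inl (Sum.inl (Sum.inr i)))) = Sum.elim T.u G.lam := by
    funext i
    rcases i with i | i <;> rfl
  rw [h1] at h
  exact algebraicIndependent_adjoin_field h

end TU

/-! ### Symmetric functions -/

namespace GE

variable {k : Type u} [Field k] {m e a : ℕ} {L : Type v} [Field L] [Algebra k L]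
  (G : GE k m e a L)

/-- the polynomial with roots the auxiliary variables -/
noncomputable def lamP : Polynomial L := ∏ i, (Polynomial.X - Polynomial.C (G.lam i))

/-- its coefficients -/
noncomputable def es (j : Fin a) : L := G.lamP.coeff j

theorem lamP_monic : G.lamP.Monic := Polynomial.monic_prod_of_monic _ _ fun _ _ =>
  Polynomial.monic_X_sub_C _

theorem lamP_natDegree : G.lamP.natDegree = a := by
  rw [lamP, Polynomial.natDegree_prod_of_monic _ _ fun _ _ => Polynomial.monic_X_sub_C _]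
  simp

theorem lamP_coeff_mem (N : IntermediateField k L) (h : ∀ j, G.es j ∈ N) (j : ℕ) :
    G.lamP.coeff j ∈ N := by
  rcases Nat.lt_trichotomy j a with hj | hj | hj
  · exact h ⟨j, hj⟩
  · have h1 := G.lamP_monic
    rw [Polynomial.Monic, Polynomial.leadingCoeff, lamP_natDegree] at h1
    rw [hj, h1]
    exact one_mem _
  · rw [Polynomial.coeff_eq_zero_of_natDegree_lt (by rwa [lamP_natDegree])]
    exact zero_mem _

theorem es_mem (N : IntermediateField k L) (h : ∀ j, G.lam j ∈ N) (j) : G.es j ∈ N := by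
  have h2 : G.lamP ∈ (Polynomial.mapRingHom (algebraMap N L)).range := by
    rw [lamP]
    refine prod_mem fun g _ => sub_mem ⟨Polynomial.X, by simp⟩
      ⟨Polynomial.C ⟨G.lam g, h g⟩, by simp⟩
  obtain ⟨Q, hQ⟩ := h2
  rw [es, ← hQ, Polynomial.coe_mapRingHom, Polynomial.coeff_map]
  exact (Q.coeff j).2

theorem map_lamP {R : Type*} [CommRing R] (τ : L →+* R) : G.lamP.map τ =
    ∏ i, (Polynomial.X - Polynomial.C (τ (G.lam i))) := by
  rw [lamP, Polynomial.map_prod]
  simp

theorem ω_es (π) (j) : G.ω π (G.es j) = G.es j := by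
  have h1 : G.lamP.map (G.ω π : L →+* L) = G.lamP := by
    rw [map_lamP, lamP, ← Equiv.prod_comp π (fun i => Polynomial.X - Polynomial.C (G.lam i))]
    refine Finset.prod_congr rfl fun i _ => ?_
    congr 2
    exact G.ωlam π i
  have h2 : G.ω π (G.es j) = (G.lamP.map (G.ω π : L →+* L)).coeff j := by
    rw [Polynomial.coeff_map]; rfl
  rw [h2, h1]; rfl

variable [NeZero a] [CharZero k]

omit [NeZero a] [CharZero k] in
theorem lam_inj : Function.Injective G.lam := G.indep_lam.injective

theorem sym_mem (x : L) (hx : x ∈ IntermediateField.adjoin k (Set.range G.lam))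
    (hω : ∀ π, G.ω π x = x) : x ∈ IntermediateField.adjoin k (Set.range G.es) := by
  have := G.D.charZero
  refine mem_of_embeddings (IntermediateField.adjoin k (Set.range G.es)).toSubfield x ?_
  intro Ω _ τ₁ τ₂ hτ
  have hP : G.lamP.map τ₁ = G.lamP.map τ₂ := by
    ext j
    rw [Polynomial.coeff_map, Polynomial.coeff_map]
    exact hτ _ (G.lamP_coeff_mem (IntermediateField.adjoin k (Set.range G.es))
      (fun j => IntermediateField.subset_adjoin _ _ ⟨j, rfl⟩) j)
  have hroot : ∀ i, ∃ j, τ₂ (G.lam i) = τ₁ (G.lam j) := by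
    intro i
    have h1 : (G.lamP.map τ₂).eval (τ₂ (G.lam i)) = 0 := by
      rw [map_lamP, Polynomial.eval_prod, Finset.prod_eq_zero (Finset.mem_univ i)]
      simp
    rw [← hP, map_lamP, Polynomial.eval_prod, Finset.prod_eq_zero_iff] at h1
    obtain ⟨j, _, hj⟩ := h1
    refine ⟨j, ?_⟩
    rw [Polynomial.eval_sub, Polynomial.eval_X, Polynomial.eval_C, sub_eq_zero] at hj
    exact hj
  choose p hp using hroot
  have hpinj : Function.Injective p := by
    intro i j hij
    apply G.lam_inj
    apply τ₂.injective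
    rw [hp, hp, hij]
  let π : Equiv.Perm (Fin a) := Equiv.ofBijective p (Finite.injective_iff_bijective.1 hpinj)
  have hall : ∀ y ∈ IntermediateField.adjoin k (Set.range G.lam), τ₂ y = τ₁ (G.ω π y) := by
    intro y hy
    induction hy using IntermediateField.adjoin_induction with
    | mem x hx =>
      obtain ⟨i, rfl⟩ := hx
      rw [G.ωlam]; exact hp i
    | algebraMap x =>
      rw [AlgHom.commutes]
      exact (hτ _ ((IntermediateField.adjoin k (Set.range G.es)).algebraMap_mem x)).symm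
    | add x y _ _ hx hy => rw [map_add, map_add, map_add, hx, hy]
    | inv x _ hx => rw [map_inv₀, map_inv₀, map_inv₀, hx]
    | mul x y _ _ hx hy => rw [map_mul, map_mul, map_mul, hx, hy]
  rw [hall x hx, hω]

end GE

/-! ### The main statement -/

namespace TU

variable {k : Type u} [Field k] {m q a : ℕ} {L : Type v} [Field L] [Algebra k L]
  {G : GE k m (a * q) a L} [NeZero a] {r : ℕ} [hf : Fact (a * r = m + 3)] {κ : Type}
  (T : TU G r κ) (hq : 1 ≤ q)

/-- the frame property for a stable span -/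
theorem frame_of [CharZero k] (K E : IntermediateField k L) (hKE : K ≤ E) (hKL : KL G ≤ K)
    (hK : ∀ π, ∀ x ∈ K, G.ω π x ∈ K) (hE : ∀ π, ∀ x ∈ E, G.ω π x ∈ E) {ι : Type*} [Fintype ι]
    [DecidableEq ι] (w : ι → L) (hw : ∀ i, w i ∈ E) (hlin : LinearIndependent K w)
    (hstab : ∀ π i, G.ω π (w i) ∈ Submodule.span K (Set.range w)) :
    ∃ b : Matrix ι ι L, (∀ i j, b i j ∈ K) ∧ b.det ≠ 0 ∧
      ∀ i, ∑ j, b i j * w j ∈ G.winv E := by
  classical
  have hF1 : ∀ x ∈ (G.winv E).toSubfield, ∀ g, (G.ω g : L →+* L) x = x := fun x hx g => hx.2 g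
  have hKF : ∀ x : K, (∀ g, G.ωR K hK g x = x) → algebraMap K L x ∈ (G.winv E).toSubfield := by
    intro x hx
    refine ⟨hKE x.2, fun g => ?_⟩
    exact congrArg (fun x : K => (x : L)) (hx g)
  obtain ⟨b, hb, hbF⟩ := exists_frame (fun π => (G.ω π : L →+* L)) (G.ωR K hK) (G.ωR_spec K hK)
    (G.winv E).toSubfield hF1 hKF w hlin
    (fun i => comp_mem E hE (hKL.trans hKE) K hKL (w i) (hw i)) (by
      intro π i
      have h1 := hstab π⁻¹ i
      -- apply `ω π`
      have h2 : ∀ x ∈ Submodule.span K (Set.range w),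
          (G.ω π : L →+* L) x ∈ Submodule.span K (Set.range fun j => (G.ω π : L →+* L) (w j)) := by
        intro x hx
        induction hx using Submodule.span_induction with
        | mem x hx => obtain ⟨i, rfl⟩ := hx; exact Submodule.subset_span ⟨i, rfl⟩
        | zero => rw [map_zero]; exact Submodule.zero_mem _
        | add x y _ _ hx hy => rw [map_add]; exact Submodule.add_mem _ hx hy
        | smul c x _ hx =>
          rw [Algebra.smul_def, map_mul, G.ωR_spec K hK, ← Algebra.smul_def]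
          exact Submodule.smul_mem _ _ hx
      have h3 := h2 _ h1
      have h4 : (G.ω π : L →+* L) (G.ω π⁻¹ (w i)) = w i := by
        have h5 : (G.ω π : L →+* L) (G.ω π⁻¹ (w i)) = G.ω (π * π⁻¹) (w i) :=
          (G.ω_mul π π⁻¹ (w i)).symm
        rw [h5, mul_inv_cancel, G.ω_one]
      rwa [h4] at h3) hstab
  refine ⟨b.map (algebraMap K L), fun i j => (b i j).2, map_det_ne _ ?_, ?_⟩
  · exact ((Matrix.isUnit_iff_isUnit_det _).1 hb).ne_zero
  · intro i
    have h1 := hbF i
    simp only [Algebra.smul_def] at h1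
    exact h1

include T in
theorem exists_basis [CharZero k] [Fintype κ] [DecidableEq κ] (ha : 2 ≤ a)
    (hκ : Nat.card κ + 1 + a = a * a) :
    ∃ v : (JB a r hq m ⊕ κ) ⊕ Fin a → L, AlgebraicIndependent k v ∧
      IntermediateField.adjoin k (Set.range v) = G.FF r := by
  classical
  have := G.D.charZero
  have hfin : Fintype (JB a r hq m) := Fintype.ofFinite _
  -- first frame
  obtain ⟨b1, hb1, hb1det, hb1F⟩ := frame_of (G := G) T.KU (T.EU hq) (T.KU_le_EU hq) T.KL_le_KU
    T.ωKU (T.ωEU hq) (fun p : JB a r hq m => T.ch p.1) (T.ch_mem_EU hq)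
    (T.indep_ch hq ha hκ).linearIndependent (T.ω_ch_span hq)
  -- second frame
  obtain ⟨b2, hb2, hb2det, hb2F⟩ := frame_of (G := G) (KL G) T.KU T.KL_le_KU le_rfl
    ωKL T.ωKU T.u T.u_mem_KU (T.indep_u hq ha hκ).linearIndependent (by
      intro π i
      obtain ⟨j, hj⟩ := T.ωu π i
      rw [hj]
      exact Submodule.subset_span ⟨j, rfl⟩)
  set w1 : JB a r hq m → L := fun i => ∑ j, b1 i j * T.ch j.1 with hw1
  set w2 : κ → L := fun i => ∑ j, b2 i j * T.u j with hw2
  have hch : ∀ i : JB a r hq m, T.ch i.1 = ∑ j, b1⁻¹ i j * w1 j := by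
    intro i
    have h1 : (fun j : JB a r hq m => T.ch j.1) = b1⁻¹ *ᵥ (b1 *ᵥ (fun j => T.ch j.1)) := by
      rw [Matrix.mulVec_mulVec, Matrix.nonsing_inv_mul _ (isUnit_iff_ne_zero.2 hb1det),
        Matrix.one_mulVec]
    exact congrFun h1 i
  have hu : ∀ i, T.u i = ∑ j, b2⁻¹ i j * w2 j := by
    intro i
    have h1 : T.u = b2⁻¹ *ᵥ (b2 *ᵥ T.u) := by
      rw [Matrix.mulVec_mulVec, Matrix.nonsing_inv_mul _ (isUnit_iff_ne_zero.2 hb2det),
        Matrix.one_mulVec]
    exact congrFun h1 i
  have hb1i : ∀ i j, b1⁻¹ i j ∈ T.KU := inv_mem_of_mem' hb1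
  have hb2i : ∀ i j, b2⁻¹ i j ∈ KL G := inv_mem_of_mem' hb2
  set v : (JB a r hq m ⊕ κ) ⊕ Fin a → L := Sum.elim (Sum.elim w1 w2) G.es with hv
  -- generation
  have hKUof : ∀ N : IntermediateField k L, KL G ≤ N → (∀ i, w2 i ∈ N) → T.KU ≤ N := by
    intro N hN hw
    rw [KU, IntermediateField.adjoin_le_iff]
    rintro _ (⟨i, rfl⟩ | ⟨i, rfl⟩)
    · exact hN (IntermediateField.subset_adjoin _ _ ⟨i, rfl⟩)
    · rw [hu]
      exact sum_mem fun j _ => mul_mem (hN (hb2i _ _)) (hw j)
  have hEUof : ∀ N : IntermediateField k L, T.KU ≤ N → (∀ i, w1 i ∈ N) → T.EU hq ≤ N := by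
    intro N hN hw
    rw [EU, IntermediateField.adjoin_le_iff]
    rintro _ ((⟨i, rfl⟩ | ⟨i, rfl⟩) | ⟨i, rfl⟩)
    · exact hN (T.lam_mem_KU i)
    · exact hN (T.u_mem_KU i)
    · simp only
      rw [hch]
      exact sum_mem fun j _ => mul_mem (hN (hb1i _ _)) (hw j)
  have hgen : IntermediateField.adjoin k (Set.range v) = G.FF r := by
    apply le_antisymm
    · rw [IntermediateField.adjoin_le_iff]
      rintro _ ⟨(i | i) | i, rfl⟩
      · have h1 := hb1F i
        exact ⟨T.EU_le_F2 hq h1.1, fun s => T.θEU hq s _ h1.1, h1.2⟩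
      · have h1 := hb2F i
        exact ⟨T.KU_le_F2 h1.1, fun s => T.θKU s _ h1.1, h1.2⟩
      · have h1 : G.es i ∈ T.KU := G.es_mem _ T.lam_mem_KU i
        exact ⟨T.KU_le_F2 h1, fun s => T.θKU s _ h1, fun π => G.ω_es π i⟩
    · rintro φ ⟨hφ, hθ, hω⟩
      have hφE := T.mem_EU hq φ hφ hθ
      set N := IntermediateField.adjoin k (Set.range v) with hN
      -- invariants of `KL`
      have hKLinv : ∀ x ∈ KL G, (∀ π, G.ω π x = x) → x ∈ N := by
        intro x hx hxω
        have h1 := G.sym_mem x hx hxω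
        have h2 : IntermediateField.adjoin k (Set.range G.es) ≤ N :=
          IntermediateField.adjoin.mono _ _ _ (by rintro _ ⟨i, rfl⟩; exact ⟨Sum.inr i, rfl⟩)
        exact h2 h1
      -- invariants of `KU`
      have hKUinv : ∀ x ∈ T.KU, (∀ π, G.ω π x = x) → x ∈ N := by
        intro x hx hxω
        refine inv_adjoin (fun π => (G.ω π : L →+* L)) (G.ωR (KL G) ωKL) (G.ωR_spec (KL G) ωKL)
          (Set.range w2) ?_ x ?_ hxω N.toSubfield ?_ ?_
        · rintro g _ ⟨i, rfl⟩
          exact (hb2F i).2 g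
        · exact hKUof ((IntermediateField.adjoin (KL G) (Set.range w2)).restrictScalars k)
            (fun y hy => (IntermediateField.adjoin (KL G) (Set.range w2)).algebraMap_mem ⟨y, hy⟩)
            (fun i => IntermediateField.subset_adjoin (KL G) _ (Set.mem_range_self i)) hx
        · intro y hy
          exact hKLinv _ y.2 fun π => congrArg (fun x : KL G => (x : L)) (hy π)
        · rintro _ ⟨i, rfl⟩
          exact IntermediateField.subset_adjoin _ _ ⟨Sum.inl (Sum.inr i), rfl⟩
      refine inv_adjoin (fun π => (G.ω π : L →+* L)) (G.ωR T.KU T.ωKU) (G.ωR_spec T.KU T.ωKU)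
        (Set.range w1) ?_ φ ?_ hω N.toSubfield ?_ ?_
      · rintro g _ ⟨i, rfl⟩
        exact (hb1F i).2 g
      · exact hEUof ((IntermediateField.adjoin T.KU (Set.range w1)).restrictScalars k)
          (fun y hy => (IntermediateField.adjoin T.KU (Set.range w1)).algebraMap_mem ⟨y, hy⟩)
          (fun i => IntermediateField.subset_adjoin T.KU _ (Set.mem_range_self i)) hφE
      · intro y hy
        exact hKUinv _ y.2 fun π => congrArg (fun x : T.KU => (x : L)) (hy π)
      · rintro _ ⟨i, rfl⟩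
        exact IntermediateField.subset_adjoin _ _ ⟨Sum.inl (Sum.inl i), rfl⟩
  -- independence
  have hind : AlgebraicIndependent k (Sum.elim (Sum.elim v T.t) (G.mf r)) := by
    set y := Sum.elim (Sum.elim G.vf G.lam) G.D.a0 with hy
    have hyOm : ∀ j, y j ∈ G.Om := by
      rintro ((p | i) | c)
      · exact G.V_mem_Om _ _
      · exact G.lam_mem_Om _
      · exact G.K0_le_Om (GD.coeff_mem_adjoin_cf _ _ _)
    refine algebraicIndependent_of_card_in G.Om y hyOm G.indep_vla _ ?_ ?_ ?_
    · rintro ((i | i) | p)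
      · have h1 : v i ∈ G.FF r := by
          rw [← hgen]; exact IntermediateField.subset_adjoin _ _ ⟨i, rfl⟩
        exact G.F2_le_Om r h1.1
      · exact G.F2_le_Om r (T.t_mem _)
      · exact G.Ma_mem r _ _
    · intro x hx
      set N := IntermediateField.adjoin k (Set.range (Sum.elim (Sum.elim v T.t) (G.mf r))) with hN
      set S := Set.range (Sum.elim (Sum.elim v T.t) (G.mf r)) ∪ Set.range G.lam with hS
      set N' := IntermediateField.adjoin k S with hN'
      have hvN' : ∀ i, v i ∈ N' := fun i =>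
        IntermediateField.subset_adjoin _ _ (Or.inl ⟨Sum.inl (Sum.inl i), rfl⟩)
      have hKL : KL G ≤ N' := by
        rw [KL, IntermediateField.adjoin_le_iff]
        rintro _ ⟨i, rfl⟩
        exact IntermediateField.subset_adjoin _ _ (Or.inr ⟨i, rfl⟩)
      have hKU : T.KU ≤ N' := hKUof N' hKL fun i => hvN' (Sum.inl (Sum.inr i))
      have hEU : T.EU hq ≤ N' := hEUof N' hKU fun i => hvN' (Sum.inl (Sum.inl i))
      have hF2 : G.F2 r ≤ N' := by
        refine (T.F2_le_EUt hq).trans ?_
        apply adjoin_restrict_le hEU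
        rintro _ ⟨i, rfl⟩
        exact IntermediateField.subset_adjoin _ _ (Or.inl ⟨Sum.inl (Sum.inr i), rfl⟩)
      have hOm : G.Om ≤ N' := G.Om_le r N' hF2 fun i j =>
        IntermediateField.subset_adjoin _ _ (Or.inl ⟨Sum.inr (i, j), rfl⟩)
      refine adjoin_algebraic S N ?_ x (hOm hx)
      rintro s (hs | ⟨i, rfl⟩)
      · exact isAlgebraic_algebraMap (⟨s, IntermediateField.subset_adjoin _ _ hs⟩ : N)
      · have hc : ∀ j, G.lamP.coeff j ∈ N := G.lamP_coeff_mem N fun j =>
          IntermediateField.subset_adjoin _ _ ⟨Sum.inl (Sum.inl (Sum.inr j)), rfl⟩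
        have hl : G.lamP ∈ Polynomial.lifts (algebraMap N L) := by
          rw [Polynomial.lifts_iff_coeff_lifts]
          intro j
          exact ⟨⟨_, hc j⟩, rfl⟩
        obtain ⟨P, hP⟩ := (Polynomial.mem_lifts _).1 hl
        refine ⟨P, ?_, ?_⟩
        · rintro rfl
          rw [Polynomial.map_zero] at hP
          exact G.lamP_monic.ne_zero hP.symm
        · rw [← Polynomial.eval_map_algebraMap, hP, GE.lamP, Polynomial.eval_prod,
            Finset.prod_eq_zero (Finset.mem_univ i)]
          simp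
    · have h1 := card_JB a r hq ha (m := m)
      have h3 := card_I0 (m := m) (e := a * q)
      rw [Nat.card_sum, Nat.card_sum, Nat.card_sum, Nat.card_sum, Nat.card_sum, Nat.card_sum,
        Nat.card_prod, Nat.card_prod]
      simp only [Nat.card_fin]
      have h4 : (m + 3) * a = a * (m + 3) := by ring
      omega
  refine ⟨v, ?_, hgen⟩
  have h1 := hind.comp (fun i => Sum.inl (Sum.inl i)) (fun i j h => by simpa using h)
  exact h1

end TU

end Pool.Agent.Lib.MP_82c165_ag
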