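import Mathlib
import Pool.Agent.Lib.MP_82c165_ag.TUMain

/-!
Torus data for two and three vectors.
-/

namespace Pool.Agent.Lib.MP_82c165_ag

open MvPolynomial Matrix

universe u v

theorem chr_single {k : Type*} [Field k] {a : ℕ} (s : Fin a → kˣ) (i : Fin a) :
    chr s (Pi.single i 1) = s i := by
  classical
  rw [chr, Finset.prod_eq_single i]
  · simp
  · intro j _ hj
    rw [Pi.single_eq_of_ne hj, zpow_zero]
  · simp

/-- the constant weight -/
def cw (a q : ℕ) : Fin a → ℤ := fun _ => q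

theorem chr_cw {k : Type*} [Field k] {a : ℕ} (s : Fin a → kˣ) (q : ℕ) :
    chr s (cw a q) = (∏ i, s i) ^ q := by
  simp [chr, cw, Finset.prod_pow]

theorem wt_pA' (a r q : ℕ) {m : ℕ} [hf : Fact (a * r = m + 3)] (i j : Fin a) :
    wt a r q (pA a r q m (i, j)) = cw a q + (Pi.single i 1 - Pi.single j 1) := by
  classical
  funext l
  rw [wt_pA]
  simp only [cw, Pi.add_apply, Pi.sub_apply, Pi.single_apply]
  ring

namespace GE

variable {k : Type u} [Field k] {m q a : ℕ} {L : Type v} [Field L] [Algebra k L]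
  (G : GE k m (a * q) a L) [NeZero a] (r : ℕ) [hf : Fact (a * r = m + 3)]

/-- semi-invariants for the torus -/
def SI (w : Fin a → ℤ) (x : L) : Prop := ∀ s, G.θ s x = algebraMap k L (chr s w) * x

variable {G} in
omit [NeZero a] in
theorem SI.mul {w w' : Fin a → ℤ} {x y : L} (hx : G.SI w x) (hy : G.SI w' y) :
    G.SI (w + w') (x * y) := by
  intro s
  rw [map_mul, hx, hy, chr_add, Units.val_mul, map_mul]
  ring

variable {G} in
omit [NeZero a] in
theorem SI.div {w w' : Fin a → ℤ} {x y : L} (hx : G.SI w x) (hy : G.SI w' y) :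
    G.SI (w - w') (x / y) := by
  intro s
  rw [map_div₀, hx, hy, chr_sub, Units.val_div_eq_div_val, map_div₀]
  rw [mul_div_mul_comm]

variable {G} in
omit [NeZero a] in
theorem SI.zpow {w : Fin a → ℤ} {x : L} (hx : G.SI w x) (c : ℤ) : G.SI (c • w) (x ^ c) := by
  intro s
  rw [map_zpow₀, hx, chr_zsmul, mul_zpow, Units.val_zpow_eq_zpow_val, map_zpow₀]

variable {G} in
omit [NeZero a] in
theorem SI.zero {x : L} (hx : G.SI 0 x) (s) : G.θ s x = x := by
  rw [hx, chr_zero, Units.val_one, map_one, one_mul]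

theorem SI_Am (i j : Fin a) : G.SI (cw a q + (Pi.single i 1 - Pi.single j 1)) (G.Am r i j) := by
  intro s
  rw [Am, G.θ_nc, wt_pA']

theorem SI_zs (p : ℕ) : G.SI (cw a q) (G.zs r p) := by
  intro s
  rw [zs, map_sum, Finset.mul_sum]
  refine Finset.sum_congr rfl fun i _ => ?_
  rw [map_mul, map_pow, G.θlam, G.SI_Am r i i, sub_self, add_zero]
  ring

/-- the normalised off-diagonal entries -/
noncomputable def aa (i j : Fin a) : L := G.Am r i j / G.zs r 1

theorem SI_aa (i j : Fin a) : G.SI (Pi.single i 1 - Pi.single j 1) (G.aa r i j) := by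
  have h := (G.SI_Am r i j).div (G.SI_zs r 1)
  rwa [add_sub_cancel_left] at h

theorem ω_aa (π : Equiv.Perm (Fin a)) (i j : Fin a) :
    G.ω π (G.aa r i j) = G.aa r (π i) (π j) := by
  rw [aa, map_div₀, G.ω_Am, G.ω_zs, aa]

theorem aa_mem (i j : Fin a) : G.aa r i j ∈ G.F2 r :=
  div_mem (G.nc_mem r _) (sum_mem fun _ _ => mul_mem (pow_mem (G.lam_mem_F2 r _) _)
    (G.nc_mem r _))

theorem zs_mem (p : ℕ) : G.zs r p ∈ G.F2 r :=
  sum_mem fun _ _ => mul_mem (pow_mem (G.lam_mem_F2 r _) _) (G.nc_mem r _)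

end GE

section two

variable {k : Type u} [Field k] [IsAlgClosed k] [CharZero k] {m q : ℕ} {L : Type v} [Field L]
  [Algebra k L] (G : GE k m (2 * q) 2 L) (r : ℕ) [hf : Fact (2 * r = m + 3)]

theorem exists_TU2 (hq : 1 ≤ q) : Nonempty (TU G r (Fin 1)) := by
  have hz1 : G.zs r 1 ≠ 0 := G.zs_ne r hq le_rfl le_rfl (by norm_num)
  have h01 : G.aa r 0 1 ≠ 0 := div_ne_zero (G.Am_ne r hq le_rfl (by decide)) hz1
  have h10 : G.aa r 1 0 ≠ 0 := div_ne_zero (G.Am_ne r hq le_rfl (by decide)) hz1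
  set u : Fin 1 → L := fun _ => G.aa r 0 1 * G.aa r 1 0 with hu
  set t : Fin 2 → L := ![G.aa r 0 1, G.zs r 1] with ht
  have hall : ∀ N : IntermediateField k L, (∀ i, u i ∈ N) → (∀ i, t i ∈ N) →
      ∀ i j, i ≠ j → G.aa r i j ∈ N := by
    intro N hu' ht' i j hij
    have e01 : G.aa r 0 1 ∈ N := ht' 0
    have e10 : G.aa r 1 0 ∈ N := by
      have h1 : G.aa r 1 0 = u 0 / G.aa r 0 1 := by
        rw [hu]; field_simp
      rw [h1]
      exact div_mem (hu' 0) e01
    fin_cases i <;> fin_cases j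
    · exact absurd rfl hij
    · exact e01
    · exact e10
    · exact absurd rfl hij
  let X : (Fin 2 → ℤ) → L := fun w =>
    G.zs r 1 ^ ((∑ i, w i) / ((2 * q : ℕ) : ℤ)) *
      G.aa r 0 1 ^ (w 0 - q * ((∑ i, w i) / ((2 * q : ℕ) : ℤ)))
  refine ⟨⟨u, t, ?_, ?_, ?_, ?_, ?_, ?_, ?_, X, ?_, ?_, ?_, ?_⟩⟩
  · intro i
    exact mul_mem (G.aa_mem r _ _) (G.aa_mem r _ _)
  · intro i
    fin_cases i
    · exact G.aa_mem r 0 1
    · exact G.zs_mem r 1
  · intro i
    fin_cases i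
    · exact h01
    · exact hz1
  · intro s i
    refine GE.SI.zero ?_ s
    have h := (G.SI_aa r 0 1).mul (G.SI_aa r 1 0)
    rw [sub_add_sub_cancel, sub_self] at h
    exact h
  · intro π i
    refine ⟨0, ?_⟩
    rw [hu]
    simp only
    rw [map_mul, G.ω_aa, G.ω_aa]
    have h : ∀ x y : Fin 2, x ≠ y → G.aa r x y * G.aa r y x = G.aa r 0 1 * G.aa r 1 0 := by
      intro x y hxy
      fin_cases x <;> fin_cases y
      · exact absurd rfl hxy
      · rfl
      · exact mul_comm _ _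
      · exact absurd rfl hxy
    exact h _ _ (fun h => by simpa using π.injective h)
  · intro π i N _ hu' ht'
    fin_cases i
    · change G.ω π (G.aa r 0 1) ∈ N
      rw [G.ω_aa]
      exact hall N hu' ht' _ _ (fun h => by simpa using π.injective h)
    · change G.ω π (G.zs r 1) ∈ N
      rw [G.ω_zs]
      exact ht' 1
  · intro c hc
    obtain ⟨z, hz⟩ := IsAlgClosed.exists_pow_nat_eq (c 1 / c 0 ^ q) (n := 2 * q) (by omega)
    have hz0 : z ≠ 0 := by
      rintro rfl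
      rw [zero_pow (by omega)] at hz
      exact div_ne_zero (hc 1) (pow_ne_zero _ (hc 0)) hz.symm
    refine ⟨![Units.mk0 (c 0) (hc 0) * Units.mk0 z hz0, Units.mk0 z hz0], ?_⟩
    intro j
    fin_cases j
    · refine ((G.SI_aa r 0 1) _).trans ?_
      rw [chr_sub, chr_single, chr_single]
      simp [ht]
    · refine ((G.SI_zs r 1) _).trans ?_
      rw [chr_cw]
      have h1 : (c 0 * z * z) ^ q = c 1 := by
        have h2 : (c 0 * z * z) ^ q = c 0 ^ q * z ^ (2 * q) := by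
          rw [mul_assoc, mul_pow, ← pow_two, ← pow_mul]
        rw [h2, hz, mul_div_cancel₀ _ (pow_ne_zero _ (hc 0))]
      simp only [Fin.prod_univ_two, Matrix.cons_val_zero, Matrix.cons_val_one, ht]
      congr 2
  · intro w
    exact mul_ne_zero (zpow_ne_zero _ hz1) (zpow_ne_zero _ h01)
  · intro w N h
    exact mul_mem (zpow_mem (h 1) _) (zpow_mem (h 0) _)
  · intro s w hw
    have h := ((G.SI_zs r 1).zpow ((∑ i, w i) / ((2 * q : ℕ) : ℤ))).mul
      ((G.SI_aa r 0 1).zpow (w 0 - q * ((∑ i, w i) / ((2 * q : ℕ) : ℤ))))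
    have h1 : ((∑ i, w i) / ((2 * q : ℕ) : ℤ)) • cw 2 q +
        (w 0 - q * ((∑ i, w i) / ((2 * q : ℕ) : ℤ))) • (Pi.single 0 1 - Pi.single 1 1) = w := by
      have h2 := Int.ediv_mul_cancel hw
      set v := (∑ i, w i) / ((2 * q : ℕ) : ℤ) with hv
      rw [Fin.sum_univ_two] at h2
      push_cast at h2
      funext i
      fin_cases i
      · simp [cw, mul_comm]
      · simp [cw]; linarith
    rw [h1] at h
    exact h s
  · intro N hlam hu' ht' h0 i j
    by_cases hij : i = j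
    · subst hij
      refine G.diag_mem r N hlam ?_ i
      intro p hp
      interval_cases p
      · exact h0
      · exact ht' 1
    · have h1 : G.Am r i j = G.aa r i j * G.zs r 1 := by
        rw [GE.aa, div_mul_cancel₀ _ hz1]
      rw [h1]
      exact mul_mem (hall N hu' ht' i j hij) (ht' 1)

end two

theorem fin3_cases : ∀ x y z : Fin 3, x ≠ y → y ≠ z → z ≠ x →
    ((x = 0 ∧ y = 1 ∧ z = 2) ∨ (x = 1 ∧ y = 2 ∧ z = 0) ∨ (x = 2 ∧ y = 0 ∧ z = 1)) ∨
        ((x = 0 ∧ y = 2 ∧ z = 1) ∨ (x = 2 ∧ y = 1 ∧ z = 0) ∨ (x = 1 ∧ y = 0 ∧ z = 2)) := by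
  intro x y z h1 h2 h3
  fin_cases x <;> fin_cases y <;> fin_cases z <;> simp at h1 h2 h3 ⊢

section three

variable {k : Type u} [Field k] [IsAlgClosed k] [CharZero k] {m q : ℕ} {L : Type v} [Field L]
  [Algebra k L] (G : GE k m (3 * q) 3 L) (r : ℕ) [hf : Fact (3 * r = m + 3)]

theorem exists_TU3 (hq : 1 ≤ q) : Nonempty (TU G r (Fin 5)) := by
  have hz1 : G.zs r 1 ≠ 0 := G.zs_ne r hq (by norm_num) le_rfl (by norm_num)
  have hz2 : G.zs r 2 ≠ 0 := G.zs_ne r hq (by norm_num) (by norm_num) (by norm_num)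
  have haa : ∀ i j, i ≠ j → G.aa r i j ≠ 0 := fun i j hij =>
    div_ne_zero (G.Am_ne r hq (by norm_num) hij) hz1
  set om : L := G.zs r 2 / G.zs r 1 with hom
  have hom0 : om ≠ 0 := div_ne_zero hz2 hz1
  have h01 := haa 0 1 (by decide)
  have h10 := haa 1 0 (by decide)
  have h12 := haa 1 2 (by decide)
  have h21 := haa 2 1 (by decide)
  have h02 := haa 0 2 (by decide)
  have h20 := haa 2 0 (by decide)
  set u : Fin 5 → L := ![om * (G.aa r 0 1 * G.aa r 1 0), om * (G.aa r 1 2 * G.aa r 2 1),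
    om * (G.aa r 0 2 * G.aa r 2 0), om * (G.aa r 0 1 * G.aa r 1 2 * G.aa r 2 0),
    om * (G.aa r 0 2 * G.aa r 2 1 * G.aa r 1 0)] with hu
  set t : Fin 3 → L := ![G.aa r 0 1, G.aa r 1 2, G.zs r 1] with ht
  have homN : ∀ N : IntermediateField k L, (∀ i, u i ∈ N) → om ∈ N := by
    intro N hu'
    have h1 : om = u 0 * u 1 * u 2 / (u 3 * u 4) := by
      simp only [hu, Matrix.cons_val]
      field_simp
    rw [h1]
    exact div_mem (mul_mem (mul_mem (hu' _) (hu' _)) (hu' _)) (mul_mem (hu' _) (hu' _))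
  have hall : ∀ N : IntermediateField k L, (∀ i, u i ∈ N) → (∀ i, t i ∈ N) →
      ∀ i j, i ≠ j → G.aa r i j ∈ N := by
    intro N hu' ht' i j hij
    have eom := homN N hu'
    have e01 : G.aa r 0 1 ∈ N := ht' 0
    have e12 : G.aa r 1 2 ∈ N := ht' 1
    have e10 : G.aa r 1 0 ∈ N := by
      have h1 : G.aa r 1 0 = u 0 / (om * G.aa r 0 1) := by
        simp only [hu, Matrix.cons_val]
        field_simp
      rw [h1]
      exact div_mem (hu' 0) (mul_mem eom e01)
    have e21 : G.aa r 2 1 ∈ N := by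
      have h1 : G.aa r 2 1 = u 1 / (om * G.aa r 1 2) := by
        simp only [hu, Matrix.cons_val]
        field_simp
      rw [h1]
      exact div_mem (hu' 1) (mul_mem eom e12)
    have e20 : G.aa r 2 0 ∈ N := by
      have h1 : G.aa r 2 0 = u 3 / (om * (G.aa r 0 1 * G.aa r 1 2)) := by
        simp only [hu, Matrix.cons_val]
        field_simp
      rw [h1]
      exact div_mem (hu' 3) (mul_mem eom (mul_mem e01 e12))
    have e02 : G.aa r 0 2 ∈ N := by
      have h1 : G.aa r 0 2 = u 2 / (om * G.aa r 2 0) := by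
        simp only [hu, Matrix.cons_val]
        field_simp
      rw [h1]
      exact div_mem (hu' 2) (mul_mem eom e20)
    fin_cases i <;> fin_cases j
    · exact absurd rfl hij
    · exact e01
    · exact e02
    · exact e10
    · exact absurd rfl hij
    · exact e12
    · exact e20
    · exact e21
    · exact absurd rfl hij
  have hP : ∀ x y : Fin 3, x ≠ y → ∃ j, om * (G.aa r x y * G.aa r y x) = u j := by
    intro x y hxy
    fin_cases x <;> fin_cases y
    · exact absurd rfl hxy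
    · exact ⟨0, rfl⟩
    · exact ⟨2, rfl⟩
    · exact ⟨0, congrArg (om * ·) (mul_comm _ _)⟩
    · exact absurd rfl hxy
    · exact ⟨1, rfl⟩
    · exact ⟨2, congrArg (om * ·) (mul_comm _ _)⟩
    · exact ⟨1, congrArg (om * ·) (mul_comm _ _)⟩
    · exact absurd rfl hxy
  have hR : ∀ x y z : Fin 3, x ≠ y → y ≠ z → z ≠ x →
      ∃ j, om * (G.aa r x y * G.aa r y z * G.aa r z x) = u j := by
    intro x y z hxy hyz hzx
    have h3 : om * (G.aa r 0 1 * G.aa r 1 2 * G.aa r 2 0) = u 3 := rfl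
    have h4 : om * (G.aa r 0 2 * G.aa r 2 1 * G.aa r 1 0) = u 4 := rfl
    rcases fin3_cases x y z hxy hyz hzx with
      (⟨rfl, rfl, rfl⟩ | ⟨rfl, rfl, rfl⟩ | ⟨rfl, rfl, rfl⟩) |
      (⟨rfl, rfl, rfl⟩ | ⟨rfl, rfl, rfl⟩ | ⟨rfl, rfl, rfl⟩)
    · exact ⟨3, h3⟩
    · exact ⟨3, by rw [← h3]; ring⟩
    · exact ⟨3, by rw [← h3]; ring⟩
    · exact ⟨4, h4⟩
    · exact ⟨4, by rw [← h4]; ring⟩
    · exact ⟨4, by rw [← h4]; ring⟩
  have homSI : G.SI 0 om := by
    have h := (G.SI_zs r 2).div (G.SI_zs r 1)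
    rwa [sub_self] at h
  have hωom : ∀ π, G.ω π om = om := by
    intro π
    rw [hom, map_div₀, G.ω_zs, G.ω_zs]
  have hPSI : ∀ x y, G.SI 0 (om * (G.aa r x y * G.aa r y x)) := by
    intro x y
    have h := homSI.mul ((G.SI_aa r x y).mul (G.SI_aa r y x))
    rwa [sub_add_sub_cancel, sub_self, add_zero] at h
  have hRSI : ∀ x y z, G.SI 0 (om * (G.aa r x y * G.aa r y z * G.aa r z x)) := by
    intro x y z
    have h := homSI.mul (((G.SI_aa r x y).mul (G.SI_aa r y z)).mul (G.SI_aa r z x))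
    rwa [sub_add_sub_cancel, sub_add_sub_cancel, sub_self, add_zero] at h
  let X : (Fin 3 → ℤ) → L := fun w =>
    G.zs r 1 ^ ((∑ i, w i) / ((3 * q : ℕ) : ℤ)) *
      G.aa r 0 1 ^ (w 0 - q * ((∑ i, w i) / ((3 * q : ℕ) : ℤ))) *
      G.aa r 1 2 ^ (-(w 2 - q * ((∑ i, w i) / ((3 * q : ℕ) : ℤ))))
  have homF : om ∈ G.F2 r := div_mem (G.zs_mem r _) (G.zs_mem r _)
  refine ⟨⟨u, t, ?_, ?_, ?_, ?_, ?_, ?_, ?_, X, ?_, ?_, ?_, ?_⟩⟩
  · intro i
    fin_cases i
    · exact mul_mem homF (mul_mem (G.aa_mem r _ _) (G.aa_mem r _ _))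
    · exact mul_mem homF (mul_mem (G.aa_mem r _ _) (G.aa_mem r _ _))
    · exact mul_mem homF (mul_mem (G.aa_mem r _ _) (G.aa_mem r _ _))
    · exact mul_mem homF (mul_mem (mul_mem (G.aa_mem r _ _) (G.aa_mem r _ _)) (G.aa_mem r _ _))
    · exact mul_mem homF (mul_mem (mul_mem (G.aa_mem r _ _) (G.aa_mem r _ _)) (G.aa_mem r _ _))
  · intro i
    fin_cases i
    · exact G.aa_mem r 0 1
    · exact G.aa_mem r 1 2
    · exact G.zs_mem r 1
  · intro i
    fin_cases i
    · exact h01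
    · exact h12
    · exact hz1
  · intro s i
    fin_cases i
    · exact (hPSI 0 1).zero s
    · exact (hPSI 1 2).zero s
    · exact (hPSI 0 2).zero s
    · exact (hRSI 0 1 2).zero s
    · exact (hRSI 0 2 1).zero s
  · intro π i
    have hne : ∀ x y : Fin 3, x ≠ y → π x ≠ π y := fun x y h h' => h (π.injective h')
    fin_cases i
    · change ∃ j, G.ω π (om * (G.aa r 0 1 * G.aa r 1 0)) = u j
      rw [map_mul, map_mul, hωom, G.ω_aa, G.ω_aa]
      exact hP _ _ (hne _ _ (by decide))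
    · change ∃ j, G.ω π (om * (G.aa r 1 2 * G.aa r 2 1)) = u j
      rw [map_mul, map_mul, hωom, G.ω_aa, G.ω_aa]
      exact hP _ _ (hne _ _ (by decide))
    · change ∃ j, G.ω π (om * (G.aa r 0 2 * G.aa r 2 0)) = u j
      rw [map_mul, map_mul, hωom, G.ω_aa, G.ω_aa]
      exact hP _ _ (hne _ _ (by decide))
    · change ∃ j, G.ω π (om * (G.aa r 0 1 * G.aa r 1 2 * G.aa r 2 0)) = u j
      rw [map_mul, map_mul, map_mul, hωom, G.ω_aa, G.ω_aa, G.ω_aa]
      exact hR _ _ _ (hne _ _ (by decide)) (hne _ _ (by decide)) (hne _ _ (by decide))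
    · change ∃ j, G.ω π (om * (G.aa r 0 2 * G.aa r 2 1 * G.aa r 1 0)) = u j
      rw [map_mul, map_mul, map_mul, hωom, G.ω_aa, G.ω_aa, G.ω_aa]
      exact hR _ _ _ (hne _ _ (by decide)) (hne _ _ (by decide)) (hne _ _ (by decide))
  · intro π i N _ hu' ht'
    have hne : ∀ x y : Fin 3, x ≠ y → π x ≠ π y := fun x y h h' => h (π.injective h')
    fin_cases i
    · change G.ω π (G.aa r 0 1) ∈ N
      rw [G.ω_aa]
      exact hall N hu' ht' _ _ (hne _ _ (by decide))
    · change G.ω π (G.aa r 1 2) ∈ N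
      rw [G.ω_aa]
      exact hall N hu' ht' _ _ (hne _ _ (by decide))
    · change G.ω π (G.zs r 1) ∈ N
      rw [G.ω_zs]
      exact ht' 2
  · intro c hc
    obtain ⟨z, hz⟩ := IsAlgClosed.exists_pow_nat_eq (c 2 / (c 0 ^ q * c 1 ^ (2 * q)))
      (n := 3 * q) (by omega)
    have hd0 : c 0 ^ q * c 1 ^ (2 * q) ≠ 0 := mul_ne_zero (pow_ne_zero _ (hc 0)) (pow_ne_zero _ (hc 1))
    have hz0 : z ≠ 0 := by
      rintro rfl
      rw [zero_pow (by omega)] at hz
      exact div_ne_zero (hc 2) hd0 hz.symm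
    set C0 := Units.mk0 (c 0) (hc 0) with hC0
    set C1 := Units.mk0 (c 1) (hc 1) with hC1
    set Zz := Units.mk0 z hz0 with hZz
    refine ⟨![C0 * (C1 * Zz), C1 * Zz, Zz], ?_⟩
    intro j
    fin_cases j
    · refine ((G.SI_aa r 0 1) _).trans ?_
      rw [chr_sub, chr_single, chr_single]
      simp [ht, hC0]
    · refine ((G.SI_aa r 1 2) _).trans ?_
      rw [chr_sub, chr_single, chr_single]
      simp [ht, hC1]
    · refine ((G.SI_zs r 1) _).trans ?_
      rw [chr_cw]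
      have h1 : (c 0 * (c 1 * z) * (c 1 * z) * z) ^ q = c 2 := by
        have h2 : (c 0 * (c 1 * z) * (c 1 * z) * z) ^ q = c 0 ^ q * c 1 ^ (2 * q) * z ^ (3 * q) := by
          have h3 : c 0 * (c 1 * z) * (c 1 * z) * z = c 0 * c 1 ^ 2 * z ^ 3 := by ring
          rw [h3, mul_pow, mul_pow, ← pow_mul, ← pow_mul]
        rw [h2, hz, mul_div_cancel₀ _ hd0]
      simp only [Fin.prod_univ_three, Matrix.cons_val_zero, Matrix.cons_val_one, Matrix.cons_val, ht]
      congr 2
  · intro w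
    exact mul_ne_zero (mul_ne_zero (zpow_ne_zero _ hz1) (zpow_ne_zero _ h01)) (zpow_ne_zero _ h12)
  · intro w N h
    exact mul_mem (mul_mem (zpow_mem (h 2) _) (zpow_mem (h 0) _)) (zpow_mem (h 1) _)
  · intro s w hw
    have h := (((G.SI_zs r 1).zpow ((∑ i, w i) / ((3 * q : ℕ) : ℤ))).mul
      ((G.SI_aa r 0 1).zpow (w 0 - q * ((∑ i, w i) / ((3 * q : ℕ) : ℤ))))).mul
      ((G.SI_aa r 1 2).zpow (-(w 2 - q * ((∑ i, w i) / ((3 * q : ℕ) : ℤ)))))
    have h1 : ((∑ i, w i) / ((3 * q : ℕ) : ℤ)) • cw 3 q +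
        (w 0 - q * ((∑ i, w i) / ((3 * q : ℕ) : ℤ))) • (Pi.single 0 1 - Pi.single 1 1) +
        (-(w 2 - q * ((∑ i, w i) / ((3 * q : ℕ) : ℤ)))) •
          (Pi.single 1 1 - Pi.single 2 1) = w := by
      have h2 := Int.ediv_mul_cancel hw
      set v := (∑ i, w i) / ((3 * q : ℕ) : ℤ) with hv
      rw [Fin.sum_univ_three] at h2
      push_cast at h2
      funext i
      fin_cases i
      · simp [cw, mul_comm]
      · simp [cw]; linarith
      · simp [cw, mul_comm]
    rw [h1] at h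
    exact h s
  · intro N hlam hu' ht' h0 i j
    by_cases hij : i = j
    · subst hij
      refine G.diag_mem r N hlam ?_ i
      intro p hp
      interval_cases p
      · exact h0
      · exact ht' 2
      · have h1 : G.zs r 2 = om * G.zs r 1 := by rw [hom, div_mul_cancel₀ _ hz1]
        rw [h1]
        exact mul_mem (homN N hu') (ht' 2)
    · have h1 : G.Am r i j = G.aa r i j * G.zs r 1 := by
        rw [GE.aa, div_mul_cancel₀ _ hz1]
      rw [h1]
      exact mul_mem (hall N hu' ht' i j hij) (ht' 2)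

end three

end Pool.Agent.Lib.MP_82c165_ag
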