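import Mathlib
import Pool.Agent.Lib.MP_82c165_ag.TUCases

/-!
The invariant field of the generic tuple of forms is purely transcendental when the matrix part
splits off.
-/

namespace Pool.Agent.Lib.MP_82c165_ag

open MvPolynomial Matrix

universe u v

namespace TU

variable {k : Type u} [Field k] {m q a : ℕ} {L : Type v} [Field L] [Algebra k L]
  {G : GE k m (a * q) a L} [NeZero a] {r : ℕ} [hf : Fact (a * r = m + 3)] {κ : Type}
  (T : TU G r κ)

include T in
theorem exists_basis_K1 [CharZero k] [IsAlgClosed k] [Fintype κ] [DecidableEq κ] (hq : 1 ≤ q)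
    (ha : 2 ≤ a) (hκ : Nat.card κ + 1 + a = a * a) (hco : Nat.Coprime r (a * q))
    (hM : (m + 3) * a ≤ Nat.card (Mon (m + 3) (a * q))) :
    ∃ v : Fin (Nat.card (Coeff (m + 3) (a * q + 1)) - (m + 3) * (m + 3)) → L,
      AlgebraicIndependent k v ∧ IntermediateField.adjoin k (Set.range v) = G.D.inv G.D.K1 := by
  classical
  have he : 1 ≤ a * q := Nat.mul_pos (by omega) (by omega)
  obtain ⟨B⟩ := G.exists_ZD r he hco
  obtain ⟨qh, hqh, hqh'⟩ := G.D.exists_qhat he
  obtain ⟨w, hw, hw'⟩ := T.exists_basis hq ha hκ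
  have hle : G.D.inv G.D.K0 ≤ G.D.K0 := fun a ha => ha.1
  have hcardι : Nat.card (Fin r × (Fin a × Fin a)) = (m + 3) * a := by
    rw [Nat.card_prod, Nat.card_prod, Nat.card_fin, Nat.card_fin, ← hf.out]
    ring
  have emb : Nonempty ((Fin r × (Fin a × Fin a)) ↪ Mon (m + 3) (a * q)) := by
    rw [← hcardι, Nat.card_eq_fintype_card, Nat.card_eq_fintype_card] at hM
    exact Function.Embedding.nonempty_of_card_le hM
  obtain ⟨emb⟩ := emb
  obtain ⟨v, hv, hv'⟩ := assembly (G.D.inv G.D.K0) (G.FF r) (G.D.inv G.D.K1) B.zc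
    (algInd_of_le hle B.indep_zc) B.FF_eq qh (algInd_of_le hle hqh) hqh' w hw hw' emb
  have hcard : Nat.card ({j : Mon (m + 3) (a * q) // j ∉ Set.range emb} ⊕
        ((JB a r hq m ⊕ κ) ⊕ Fin a)) =
      Nat.card (Coeff (m + 3) (a * q + 1)) - (m + 3) * (m + 3) := by
    have h2 := card_add_compl (fun j : Mon (m + 3) (a * q) => j ∈ Set.range emb)
    have h3 : Nat.card {j : Mon (m + 3) (a * q) // j ∈ Set.range emb} = (m + 3) * a := by
      rw [Nat.card_congr (Equiv.ofInjective emb emb.injective).symm]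
      exact hcardι
    have h4 := card_JB (m := m) a r hq ha
    rw [Nat.card_sum, Nat.card_sum, Nat.card_sum, Nat.card_fin]
    have h7 : Nat.card {j : Mon (m + 3) (a * q) // ¬ j ∈ Set.range emb} =
      Nat.card {j : Mon (m + 3) (a * q) // j ∉ Set.range emb} := rfl
    omega
  have eqv : Nonempty (Fin (Nat.card (Coeff (m + 3) (a * q + 1)) - (m + 3) * (m + 3)) ≃
      ({j : Mon (m + 3) (a * q) // j ∉ Set.range emb} ⊕ ((JB a r hq m ⊕ κ) ⊕ Fin a))) := by
    rw [← hcard]
    exact ⟨(Finite.equivFin _).symm⟩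
  obtain ⟨eqv⟩ := eqv
  refine ⟨v ∘ eqv, hv.comp _ eqv.injective, ?_⟩
  rw [← hv', Set.range_comp, eqv.surjective.range_eq, Set.image_univ]

end TU

/-! ### Counts -/

theorem card_Mon_mono {n e e' : ℕ} (hn : 1 ≤ n) (h : e ≤ e') :
    Nat.card (Mon n e) ≤ Nat.card (Mon n e') := by
  rw [card_Mon, card_Mon]
  have h1 : (n + e - 1).choose e = (n - 1 + e).choose (n - 1) := by
    have h2 : n + e - 1 = n - 1 + e := by omega
    rw [h2, Nat.choose_symm_add]
  have h3 : (n + e' - 1).choose e' = (n - 1 + e').choose (n - 1) := by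
    have h2 : n + e' - 1 = n - 1 + e' := by omega
    rw [h2, Nat.choose_symm_add]
  rw [h1, h3]
  exact Nat.choose_le_choose _ (by omega)

theorem card_Mon_two (m : ℕ) : (m + 3) * 2 ≤ Nat.card (Mon (m + 3) 2) := by
  rw [card_Mon]
  have h0 : m + 3 + 2 - 1 = m + 4 := by omega
  rw [h0]
  induction m with
  | zero => decide
  | succ m ih =>
    have h1 : m + 1 + 4 = (m + 4) + 1 := by omega
    have h2 : (m + 4 + 1).choose 2 = (m + 4).choose 1 + (m + 4).choose 2 :=
      Nat.choose_succ_succ _ _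
    rw [h1, h2, Nat.choose_one_right]
    omega

theorem card_Mon_three (m : ℕ) : (m + 3) * 3 ≤ Nat.card (Mon (m + 3) 3) := by
  rw [card_Mon]
  have h0 : m + 3 + 3 - 1 = m + 5 := by omega
  rw [h0]
  induction m with
  | zero => decide
  | succ m ih =>
    have h1 : m + 1 + 5 = (m + 5) + 1 := by omega
    have h2 : (m + 5 + 1).choose 3 = (m + 5).choose 2 + (m + 5).choose 3 :=
      Nat.choose_succ_succ _ _
    have h3 : (m + 5).choose 2 = (m + 4).choose 1 + (m + 4).choose 2 :=
      Nat.choose_succ_succ _ _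
    rw [h1, h2, h3, Nat.choose_one_right]
    omega

end Pool.Agent.Lib.MP_82c165_ag
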