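import Mathlib
import Pool.Agent.Lib.MP_82c165_ag.Final

/-!
The generic situation in the field of rational functions, and the function field of the
moduli space.
-/

namespace Pool.Agent.Lib.MP_82c165_ag

open MvPolynomial Matrix

universe u

section construct

variable (k : Type u) [Field k] (m e : ℕ)

/-- polynomial functions in the coefficients of a tuple of forms and the coordinates of a vector -/
abbrev RR : Type u := MvPolynomial (Coeff (m + 3) (e + 1) ⊕ Fin (m + 3)) k

/-- the generic coefficients and coordinates -/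
noncomputable def genV (j : Coeff (m + 3) (e + 1) ⊕ Fin (m + 3)) : FractionRing (RR k m e) :=
  algebraMap (RR k m e) (FractionRing (RR k m e)) (X j)

variable {k m e}

theorem aeval_genV (P : RR k m e) : aeval (genV k m e) P =
    algebraMap (RR k m e) (FractionRing (RR k m e)) P := by
  have h1 : aeval (genV k m e) =
      IsScalarTower.toAlgHom k (RR k m e) (FractionRing (RR k m e)) := by
    apply MvPolynomial.algHom_ext
    intro j
    simp [genV]
  rw [h1]
  rfl

theorem genV_indep : AlgebraicIndependent k (genV k m e) := by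
  intro P Q h
  change aeval (genV k m e) P = aeval (genV k m e) Q at h
  rw [aeval_genV, aeval_genV] at h
  exact IsFractionRing.injective (RR k m e) (FractionRing (RR k m e)) h

theorem mem_adjoin_genV (a : FractionRing (RR k m e)) :
    a ∈ IntermediateField.adjoin k (Set.range (genV k m e)) := by
  rw [IntermediateField.mem_adjoin_range_iff]
  obtain ⟨P, Q, -, h⟩ := IsFractionRing.div_surjective (A := RR k m e) a
  refine ⟨P, Q, ?_⟩
  rw [aeval_genV, aeval_genV, h]

variable (k m e) in
/-- generic coefficients -/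
noncomputable def aL (c : Coeff (m + 3) (e + 1)) : FractionRing (RR k m e) := genV k m e (Sum.inl c)

variable (k m e) in
/-- generic coordinates -/
noncomputable def xL (i : Fin (m + 3)) : FractionRing (RR k m e) := genV k m e (Sum.inr i)

theorem elim_aL_xL : Sum.elim (aL k m e) (xL k m e) = genV k m e := by
  funext j
  cases j <;> rfl

/-- the images of the generic coefficients under the action of `g` -/
noncomputable def genI (g : GL (Fin (m + 3)) k) (j : Coeff (m + 3) (e + 1) ⊕ Fin (m + 3)) :
    FractionRing (RR k m e) :=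
  Sum.elim (fun c => coeff c.2.1 (conj (GD.cm (FractionRing (RR k m e)) g)
    (GD.cm (FractionRing (RR k m e)) g⁻¹) (formOf (aL k m e)) c.1))
    (GD.cm (FractionRing (RR k m e)) g *ᵥ xL k m e) j

theorem genI_indep (g : GL (Fin (m + 3)) k) : AlgebraicIndependent k (genI (e := e) g) := by
  set N := IntermediateField.adjoin k (Set.range (genI (e := e) g)) with hN
  have hgN : ∀ (g : GL (Fin (m + 3)) k) i j, GD.cm (FractionRing (RR k m e)) g i j ∈ N :=
    fun g i j => N.algebraMap_mem _
  have h1 : ∀ i, conj (GD.cm (FractionRing (RR k m e)) g)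
      (GD.cm (FractionRing (RR k m e)) g⁻¹) (formOf (aL k m e)) i ∈ CI (m + 3) N := by
    intro i
    refine mem_CI.2 fun α => ?_
    by_cases hα : α.degree = e + 1
    · exact IntermediateField.subset_adjoin _ _ ⟨Sum.inl (i, ⟨α, hα⟩), rfl⟩
    · rw [(conj_homog _ _ (fun j => formOf_homog _ j) i).coeff_eq_zero hα]
      exact zero_mem _
  have h2 : ∀ i, formOf (aL k m e) i ∈ CI (m + 3) N := by
    intro i
    have h3 : formOf (aL k m e) = conj (GD.cm (FractionRing (RR k m e)) g⁻¹)
        (GD.cm (FractionRing (RR k m e)) g) (conj (GD.cm (FractionRing (RR k m e)) g)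
      (GD.cm (FractionRing (RR k m e)) g⁻¹) (formOf (aL k m e))) := by
      rw [conj_conj, GD.cm_inv_mul, conj_one]
    rw [h3]
    exact conj_mem_CI (hgN _) (hgN _) h1 i
  have h4 : ∀ j, genV k m e j ∈ N := by
    rintro (c | i)
    · have h5 := mem_CI.1 (h2 c.1) c.2.1
      rw [coeff_formOf] at h5
      exact h5
    · have h5 : GD.cm (FractionRing (RR k m e)) g⁻¹ *ᵥ
          (GD.cm (FractionRing (RR k m e)) g *ᵥ xL k m e) = xL k m e := by
        rw [Matrix.mulVec_mulVec, GD.cm_inv_mul, Matrix.one_mulVec]
      have h6 := congrFun h5 i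
      have h7 : genV k m e (Sum.inr i) = xL k m e i := rfl
      rw [h7, ← h6]
      change (∑ l, GD.cm (FractionRing (RR k m e)) g⁻¹ i l * genI g (Sum.inr l)) ∈ N
      exact sum_mem fun l _ => mul_mem (hgN _ _ _)
        (IntermediateField.subset_adjoin _ _ ⟨Sum.inr l, rfl⟩)
  have h8 : ∀ a, a ∈ N := by
    intro a
    have h9 : IntermediateField.adjoin k (Set.range (genV k m e)) ≤ N := by
      rw [IntermediateField.adjoin_le_iff]
      rintro _ ⟨j, rfl⟩
      exact h4 j
    exact h9 (mem_adjoin_genV a)
  refine algebraicIndependent_of_card (genV k m e) genV_indep _ ⟨fun a => ?_⟩ le_rfl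
  exact isAlgebraic_algebraMap (⟨a, h8 a⟩ : N)

variable (k m e) in
/-- the generic datum -/
noncomputable def gd : GD k m e (FractionRing (RR k m e)) where
  a := aL k m e
  x := xL k m e
  ind := by rw [elim_aL_xL]; exact genV_indep
  σ g := IsFractionRing.liftAlgHom (g := aeval (genI (e := e) g)) (genI_indep g)
  σa g i := by
    rw [map_formOf, ← congrFun (formOf_coeff (d := e + 1)
      (F := conj ((g : Matrix (Fin (m + 3)) (Fin (m + 3)) k).map
        (algebraMap k (FractionRing (RR k m e))))
      ((g⁻¹ : GL (Fin (m + 3)) k).1.map (algebraMap k (FractionRing (RR k m e))))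
      (formOf (aL k m e))) (conj_homog _ _ (fun j => formOf_homog _ j))) i]
    congr 1
    funext c
    have h1 : (IsFractionRing.liftAlgHom (g := aeval (genI (e := e) g)) (genI_indep g) :
        FractionRing (RR k m e) →ₐ[k] FractionRing (RR k m e)) (aL k m e c) =
        genI g (Sum.inl c) := by
      rw [aL, genV, IsFractionRing.liftAlgHom_apply, IsFractionRing.lift_algebraMap]
      exact aeval_X _ _
    exact h1
  σx g := by
    funext i
    have h1 : (IsFractionRing.liftAlgHom (g := aeval (genI (e := e) g)) (genI_indep g) :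
        FractionRing (RR k m e) →ₐ[k] FractionRing (RR k m e)) (xL k m e i) =
        genI g (Sum.inr i) := by
      rw [xL, genV, IsFractionRing.liftAlgHom_apply, IsFractionRing.lift_algebraMap]
      exact aeval_X _ _
    exact h1

end construct

section transfer

variable {k : Type u} [Field k] {m e : ℕ}

/-- the polynomial functions of the coefficients only -/
noncomputable def incP : MvPolynomial (Coeff (m + 3) (e + 1)) k →ₐ[k] FractionRing (RR k m e) :=
  aeval (aL k m e)

theorem incP_inj : Function.Injective (incP (k := k) (m := m) (e := e)) := by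
  have h : AlgebraicIndependent k (aL k m e) :=
    (genV_indep (k := k) (m := m) (e := e)).comp Sum.inl Sum.inl_injective
  exact h

/-- the embedding of the field of rational functions of the coefficients -/
noncomputable def inc : MvRatFun k (Coeff (m + 3) (e + 1)) →ₐ[k]
    FractionRing (RR k m e) :=
  IsFractionRing.liftAlgHom (g := incP) incP_inj

theorem inc_algebraMap (P : MvPolynomial (Coeff (m + 3) (e + 1)) k) :
    inc (algebraMap _ (MvRatFun k (Coeff (m + 3) (e + 1))) P) = incP P := by
  rw [inc, IsFractionRing.liftAlgHom_apply, IsFractionRing.lift_algebraMap]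
  rfl

theorem fracHom_ext {ι : Type} {L : Type*} [Field L] [Algebra k L]
    (φ ψ : MvRatFun k ι →ₐ[k] L)
    (h : ∀ a : MvPolynomial ι k, φ (algebraMap (MvPolynomial ι k) (MvRatFun k ι) a) =
      ψ (algebraMap (MvPolynomial ι k) (MvRatFun k ι) a)) :
    φ = ψ := by
  refine AlgHom.ext fun x => ?_
  obtain ⟨P, Q, -, rfl⟩ := IsFractionRing.div_surjective (A := MvPolynomial ι k) x
  rw [map_div₀, map_div₀, h, h]

theorem inc_conj (g : GL (Fin (m + 3)) k)
    (φ : MvRatFun k (Coeff (m + 3) (e + 1))) :
    inc (conjField g φ) = (gd k m e).σ g (inc φ) := by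
  have h1 : (inc.comp (conjField (d := e + 1) g).toAlgHom :
      MvRatFun k (Coeff (m + 3) (e + 1)) →ₐ[k] FractionRing (RR k m e)) =
      ((gd k m e).σ g).comp inc := by
    apply fracHom_ext
    intro P
    have h2 : conjField (d := e + 1) g (algebraMap _ _ P) = algebraMap _ _ (conjEquiv g P) := by
      rw [conjField, fracEquiv]
      exact IsFractionRing.algEquivOfAlgEquiv_algebraMap _ _
    change inc (conjField (d := e + 1) g (algebraMap _ _ P)) = (gd k m e).σ g (inc (algebraMap _ _ P))
    rw [h2, inc_algebraMap, inc_algebraMap]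
    have h3 : (incP (k := k) (m := m) (e := e)).comp (conjPull g) = ((gd k m e).σ g).comp incP := by
      apply MvPolynomial.algHom_ext
      intro c
      change incP (conjPull g (X c)) = (gd k m e).σ g (incP (X c))
      have h4 : incP (X c) = aL k m e c := aeval_X _ _
      have h5 : conjPull (d := e + 1) g (X c) = coeff c.2.1
          (conj ((g : Matrix (Fin (m + 3)) (Fin (m + 3)) k).map C)
            ((g⁻¹ : GL (Fin (m + 3)) k).1.map C) (univForm k (m + 3) (e + 1)) c.1) := aeval_X _ _
      have h6 := congrArg (coeff c.2.1) ((gd k m e).σa g c.1)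
      rw [coeff_map, coeff_formOf] at h6
      rw [h4]
      refine Eq.trans ?_ h6.symm
      rw [h5]
      have h7 := map_conj (incP (k := k) (m := m) (e := e) : _ →+* FractionRing (RR k m e))
        ((g : Matrix (Fin (m + 3)) (Fin (m + 3)) k).map C)
            ((g⁻¹ : GL (Fin (m + 3)) k).1.map C) (univForm k (m + 3) (e + 1)) c.1
      have h8 := congrArg (coeff c.2.1) h7
      rw [coeff_map] at h8
      refine Eq.trans h8 ?_
      have h9 : ∀ N : Matrix (Fin (m + 3)) (Fin (m + 3)) k,
          (N.map (C (σ := Coeff (m + 3) (e + 1)))).map (incP (k := k) (m := m) (e := e) :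
            MvPolynomial (Coeff (m + 3) (e + 1)) k →+* FractionRing (RR k m e)) =
          N.map (algebraMap k (FractionRing (RR k m e))) := by
        intro N
        ext i j
        exact (incP (k := k) (m := m) (e := e)).commutes _
      rw [h9, h9]
      have h10 : (fun j => MvPolynomial.map
          (incP (k := k) (m := m) (e := e) : _ →+* FractionRing (RR k m e))
          (univForm k (m + 3) (e + 1) j)) = formOf (aL k m e) := by
        funext j
        rw [univForm, map_formOf]
        congr 1
        funext c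
        exact aeval_X _ _
      rw [h10]
      rfl
    exact DFunLike.congr_fun h3 P
  exact DFunLike.congr_fun h1 φ

theorem conj_scal (μ : k) (hμ : μ ≠ 0) (t : kˣ) (ht : (t : k) * μ ^ e = 1) :
    conjField (d := e + 1) (GD.scal m μ hμ) = scaleField t := by
  have h0 : (conjPull (d := e + 1) (GD.scal m μ hμ)) = aeval fun c => C (t : k) * X c := by
    apply MvPolynomial.algHom_ext
    intro c
    have h1 : conjPull (d := e + 1) (GD.scal m μ hμ) (X c) = coeff c.2.1
          (conj ((GD.scal m μ hμ : Matrix (Fin (m + 3)) (Fin (m + 3)) k).map C)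
            (((GD.scal m μ hμ)⁻¹ : GL (Fin (m + 3)) k).1.map C) (univForm k (m + 3) (e + 1)) c.1) :=
      aeval_X _ _
    have h2 : (GD.scal m μ hμ : Matrix (Fin (m + 3)) (Fin (m + 3)) k).map C =
        (C μ : MvPolynomial (Coeff (m + 3) (e + 1)) k) •
          (1 : Matrix (Fin (m + 3)) (Fin (m + 3)) (MvPolynomial (Coeff (m + 3) (e + 1)) k)) := by
      ext i j
      simp only [GD.scal, Matrix.map_apply, Matrix.smul_apply, Matrix.one_apply, smul_eq_mul]
      split_ifs <;> simp
    have h3 : ((GD.scal m μ hμ)⁻¹ : GL (Fin (m + 3)) k).1.map C =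
        (C μ⁻¹ : MvPolynomial (Coeff (m + 3) (e + 1)) k) •
          (1 : Matrix (Fin (m + 3)) (Fin (m + 3)) (MvPolynomial (Coeff (m + 3) (e + 1)) k)) := by
      have h4 : (GD.scal m μ hμ)⁻¹ = GD.scal m μ⁻¹ (inv_ne_zero hμ) := by
        apply Units.ext
        simp [GD.scal]
      rw [h4]
      ext i j
      simp only [GD.scal, Matrix.map_apply, Matrix.smul_apply, Matrix.one_apply, smul_eq_mul]
      split_ifs <;> simp
    have hu : ∀ j, (univForm k (m + 3) (e + 1) j).IsHomogeneous (e + 1) :=
      fun j => formOf_homog _ j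
    rw [h1, h2, h3, GD.conj_smul_one _ _ hu, coeff_C_mul, univForm, coeff_formOf, aeval_X]
    congr 1
    rw [← map_pow, ← map_mul]
    congr 1
    have h5 : (t : k) = (μ ^ e)⁻¹ := eq_inv_of_mul_eq_one_left ht
    rw [h5, inv_pow, pow_succ, mul_inv]
    field_simp
  apply AlgEquiv.ext
  intro φ
  have h1 : (conjField (d := e + 1) (GD.scal m μ hμ)).toAlgHom = (scaleField t).toAlgHom := by
    apply fracHom_ext
    intro P
    have h2 : conjField (d := e + 1) (GD.scal m μ hμ) (algebraMap _ _ P) =
        algebraMap _ _ (conjEquiv (d := e + 1) (GD.scal m μ hμ) P) := by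
      rw [conjField, fracEquiv]
      exact IsFractionRing.algEquivOfAlgEquiv_algebraMap _ _
    have h3 : scaleField (n := m + 3) (d := e + 1) t (algebraMap _ _ P) =
        algebraMap _ _ (scaleEquiv (n := m + 3) (d := e + 1) t P) := by
      rw [scaleField, fracEquiv]
      exact IsFractionRing.algEquivOfAlgEquiv_algebraMap _ _
    change conjField (d := e + 1) (GD.scal m μ hμ) (algebraMap _ _ P) =
      scaleField (n := m + 3) (d := e + 1) t (algebraMap _ _ P)
    rw [h2, h3]
    congr 1
    exact DFunLike.congr_fun h0 P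
  exact DFunLike.congr_fun h1 φ

theorem map_moduli [IsAlgClosed k] (he : 1 ≤ e) :
    (moduliFunctionField k (m + 2) (e + 1)).map inc = (gd k m e).inv (gd k m e).K1 := by
  apply le_antisymm
  · rintro _ ⟨φ, hφ, rfl⟩
    replace hφ := (mem_moduliFunctionField φ).1 hφ
    refine ⟨?_, fun g => ?_⟩
    · obtain ⟨P, Q, -, rfl⟩ := IsFractionRing.div_surjective
        (A := MvPolynomial (Coeff (m + 3) (e + 1)) k) φ
      have h1 : ∀ P : MvPolynomial (Coeff (m + 3) (e + 1)) k, incP P ∈ (gd k m e).K1 := by
        intro P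
        rw [incP, MvPolynomial.aeval_eq_eval₂Hom]
        change MvPolynomial.aeval (aL k m e) P ∈ _
        have h2 : MvPolynomial.aeval (aL k m e) P ∈ Algebra.adjoin k (Set.range (aL k m e)) := by
          rw [Algebra.adjoin_range_eq_range_aeval]
          exact ⟨P, rfl⟩
        exact IntermediateField.algebra_adjoin_le_adjoin _ _ h2
      change inc (_ / _) ∈ _
      rw [map_div₀, inc_algebraMap, inc_algebraMap]
      exact div_mem (h1 P) (h1 Q)
    · change (gd k m e).σ g (inc φ) = inc φ
      rw [← inc_conj, hφ.2 g]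
  · rintro ψ ⟨hψ, hinv⟩
    have h1 : (gd k m e).K1 ≤ (inc (k := k) (m := m) (e := e)).fieldRange := by
      rw [GD.K1, IntermediateField.adjoin_le_iff]
      rintro _ ⟨c, rfl⟩
      refine ⟨algebraMap (MvPolynomial (Coeff (m + 3) (e + 1)) k) _ (X c), ?_⟩
      change inc _ = _
      rw [inc_algebraMap]
      exact aeval_X _ _
    obtain ⟨φ, rfl⟩ := h1 hψ
    refine ⟨φ, (mem_moduliFunctionField φ).2 ⟨?_, ?_⟩, rfl⟩
    · intro t
      obtain ⟨μ, hμ⟩ := IsAlgClosed.exists_pow_nat_eq ((t : k)⁻¹) (n := e) (by omega)
      have hμ0 : μ ≠ 0 := by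
        rintro rfl
        rw [zero_pow (by omega)] at hμ
        exact inv_ne_zero t.ne_zero hμ.symm
      rw [← conj_scal μ hμ0 t (by rw [hμ, mul_inv_cancel₀ t.ne_zero])]
      apply (inc (k := k) (m := m) (e := e)).injective
      exact (inc_conj _ _).trans (hinv _)
    · intro g
      apply (inc (k := k) (m := m) (e := e)).injective
      exact (inc_conj _ _).trans (hinv _)

theorem rational_aux [IsAlgClosed k] [CharZero k] (he : 1 ≤ e) (hco : Nat.Coprime (m + 3) e) :
    Nonempty (moduliFunctionField k (m + 2) (e + 1) ≃ₐ[k] MvRatFun k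
      (Fin (Nat.card (Coeff (m + 3) (e + 1)) - (m + 3) * (m + 3)))) := by
  obtain ⟨v, hv, hv'⟩ := (gd k m e).exists_basis he hco
  rw [← map_moduli he] at hv'
  have e1 := IntermediateField.equivMap (moduliFunctionField k (m + 2) (e + 1)) (inc (m := m))
  have e2 := IntermediateField.equivOfEq hv'
  have e3 : MvRatFun k (Fin (Nat.card (Coeff (m + 3) (e + 1)) - (m + 3) * (m + 3))) ≃ₐ[k]
    IntermediateField.adjoin k (Set.range v) := hv.aevalEquivField
  exact ⟨e1.trans (e2.symm.trans e3.symm)⟩

theorem card_formula (N d : ℕ) :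
    Nat.card (Coeff (N + 1) d) - (N + 1) * (N + 1) =
      (N + 1) * (N + d).choose d - 1 - N * (N + 2) := by
  rw [card_Coeff]
  have h1 : N + 1 + d - 1 = N + d := by omega
  have h2 : (N + 1) * (N + 1) = 1 + N * (N + 2) := by ring
  rw [h1, h2, Nat.sub_sub]

theorem rational_of_coprime {k : Type u} [Field k] [IsAlgClosed k] [CharZero k] {N d : ℕ}
    (hN : 2 ≤ N) (hd : 2 ≤ d) (hco : Nat.Coprime (N + 1) (d - 1)) :
    Nonempty (moduliFunctionField k N d ≃ₐ[k]
      MvRatFun k (Fin ((N + 1) * (N + d).choose d - 1 - N * (N + 2)))) := by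
  obtain ⟨m, rfl⟩ : ∃ m, N = m + 2 := ⟨N - 2, by omega⟩
  obtain ⟨e, rfl⟩ : ∃ e, d = e + 1 := ⟨d - 1, by omega⟩
  have h1 := rational_aux (k := k) (m := m) (e := e) (by omega) hco
  rw [← card_formula]
  exact h1

end transfer

end Pool.Agent.Lib.MP_82c165_ag
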