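import Mathlib
import Pool.Agent.Lib.MP_82c165_ag.FinalE
import Pool.Agent.Lib.MP_82c165_ag.Transfer

/-!
The generic situation with several vectors in the field of rational functions.
-/

namespace Pool.Agent.Lib.MP_82c165_ag

open MvPolynomial Matrix

universe u v

/-! ### The function field of the moduli space in the generic situation -/

namespace GD

variable {k : Type u} [Field k] {m e : ℕ} {L : Type v} [Field L] [Algebra k L]
  (D : GD k m e L)

/-- the polynomial functions of the coefficients -/
noncomputable def incP' : MvPolynomial (Coeff (m + 3) (e + 1)) k →ₐ[k] L := aeval D.a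

theorem incP'_inj : Function.Injective D.incP' := by
  have h : AlgebraicIndependent k D.a := by
    have h1 := D.ind.comp Sum.inl Sum.inl_injective
    exact h1
  exact h

/-- the embedding of the field of rational functions of the coefficients -/
noncomputable def inc' : MvRatFun k (Coeff (m + 3) (e + 1)) →ₐ[k] L :=
  IsFractionRing.liftAlgHom (g := D.incP') D.incP'_inj

theorem inc'_algebraMap (P : MvPolynomial (Coeff (m + 3) (e + 1)) k) :
    D.inc' (algebraMap _ (MvRatFun k (Coeff (m + 3) (e + 1))) P) = D.incP' P := by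
  rw [inc', IsFractionRing.liftAlgHom_apply, IsFractionRing.lift_algebraMap]
  rfl

theorem inc'_conj (g : GL (Fin (m + 3)) k)
    (φ : MvRatFun k (Coeff (m + 3) (e + 1))) :
    D.inc' (conjField g φ) = D.σ g (D.inc' φ) := by
  have h1 : (D.inc'.comp (conjField (d := e + 1) g).toAlgHom :
      MvRatFun k (Coeff (m + 3) (e + 1)) →ₐ[k] L) = (D.σ g).comp D.inc' := by
    apply fracHom_ext
    intro P
    have h2 : conjField (d := e + 1) g (algebraMap _ _ P) = algebraMap _ _ (conjEquiv g P) := by
      rw [conjField, fracEquiv]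
      exact IsFractionRing.algEquivOfAlgEquiv_algebraMap _ _
    change D.inc' (conjField (d := e + 1) g (algebraMap _ _ P)) =
      D.σ g (D.inc' (algebraMap _ _ P))
    rw [h2, inc'_algebraMap, inc'_algebraMap]
    have h3 : D.incP'.comp (conjPull g) = (D.σ g).comp D.incP' := by
      apply MvPolynomial.algHom_ext
      intro c
      change D.incP' (conjPull g (X c)) = D.σ g (D.incP' (X c))
      have h4 : D.incP' (X c) = D.a c := aeval_X _ _
      have h5 : conjPull (d := e + 1) g (X c) = coeff c.2.1
          (conj ((g : Matrix (Fin (m + 3)) (Fin (m + 3)) k).map C)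
            ((g⁻¹ : GL (Fin (m + 3)) k).1.map C) (univForm k (m + 3) (e + 1)) c.1) := aeval_X _ _
      have h6 := congrArg (coeff c.2.1) (D.σa g c.1)
      rw [coeff_map, coeff_formOf] at h6
      rw [h4]
      refine Eq.trans ?_ h6.symm
      rw [h5]
      have h7 := map_conj (D.incP' : _ →+* L)
        ((g : Matrix (Fin (m + 3)) (Fin (m + 3)) k).map C)
            ((g⁻¹ : GL (Fin (m + 3)) k).1.map C) (univForm k (m + 3) (e + 1)) c.1
      have h8 := congrArg (coeff c.2.1) h7
      rw [coeff_map] at h8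
      refine Eq.trans h8 ?_
      have h9 : ∀ N : Matrix (Fin (m + 3)) (Fin (m + 3)) k,
          (N.map (C (σ := Coeff (m + 3) (e + 1)))).map (D.incP' :
            MvPolynomial (Coeff (m + 3) (e + 1)) k →+* L) =
          N.map (algebraMap k L) := by
        intro N
        ext i j
        exact D.incP'.commutes _
      rw [h9, h9]
      have h10 : (fun j => MvPolynomial.map (D.incP' : _ →+* L)
          (univForm k (m + 3) (e + 1) j)) = formOf D.a := by
        funext j
        rw [univForm, map_formOf]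
        congr 1
        funext c
        exact aeval_X _ _
      rw [h10]
    exact DFunLike.congr_fun h3 P
  exact DFunLike.congr_fun h1 φ

theorem map_moduli' [IsAlgClosed k] (he : 1 ≤ e) :
    (moduliFunctionField k (m + 2) (e + 1)).map D.inc' = D.inv D.K1 := by
  apply le_antisymm
  · rintro _ ⟨φ, hφ, rfl⟩
    replace hφ := (mem_moduliFunctionField φ).1 hφ
    refine ⟨?_, fun g => ?_⟩
    · obtain ⟨P, Q, -, rfl⟩ := IsFractionRing.div_surjective
        (A := MvPolynomial (Coeff (m + 3) (e + 1)) k) φ
      have h1 : ∀ P : MvPolynomial (Coeff (m + 3) (e + 1)) k, D.incP' P ∈ D.K1 := by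
        intro P
        have h2 : MvPolynomial.aeval D.a P ∈ Algebra.adjoin k (Set.range D.a) := by
          rw [Algebra.adjoin_range_eq_range_aeval]
          exact ⟨P, rfl⟩
        exact IntermediateField.algebra_adjoin_le_adjoin _ _ h2
      change D.inc' (_ / _) ∈ _
      rw [map_div₀, inc'_algebraMap, inc'_algebraMap]
      exact div_mem (h1 P) (h1 Q)
    · change D.σ g (D.inc' φ) = D.inc' φ
      rw [← inc'_conj, hφ.2 g]
  · rintro ψ ⟨hψ, hinv⟩
    have h1 : D.K1 ≤ D.inc'.fieldRange := by
      rw [GD.K1, IntermediateField.adjoin_le_iff]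
      rintro _ ⟨c, rfl⟩
      refine ⟨algebraMap (MvPolynomial (Coeff (m + 3) (e + 1)) k) _ (X c), ?_⟩
      change D.inc' _ = _
      rw [inc'_algebraMap]
      exact aeval_X _ _
    obtain ⟨φ, rfl⟩ := h1 hψ
    refine ⟨φ, (mem_moduliFunctionField φ).2 ⟨?_, ?_⟩, rfl⟩
    · intro t
      obtain ⟨μ, hμ⟩ := IsAlgClosed.exists_pow_nat_eq ((t : k)⁻¹) (n := e) (by omega)
      have hμ0 : μ ≠ 0 := by
        rintro rfl
        rw [zero_pow (by omega)] at hμ
        exact inv_ne_zero t.ne_zero hμ.symm
      rw [← conj_scal μ hμ0 t (by rw [hμ, mul_inv_cancel₀ t.ne_zero])]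
      apply D.inc'.injective
      exact (D.inc'_conj _ _).trans (hinv _)
    · intro g
      apply D.inc'.injective
      exact (D.inc'_conj _ _).trans (hinv _)

end GD

/-! ### Homomorphisms between fields of rational functions -/

section gv

variable (k : Type u) [Field k] (ι : Type)

/-- the variables as rational functions -/
noncomputable def gv (j : ι) : FractionRing (MvPolynomial ι k) :=
  algebraMap (MvPolynomial ι k) (FractionRing (MvPolynomial ι k)) (X j)

variable {k ι}

theorem aeval_gv (P : MvPolynomial ι k) : aeval (gv k ι) P =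
    algebraMap (MvPolynomial ι k) (FractionRing (MvPolynomial ι k)) P := by
  have h1 : aeval (gv k ι) =
      IsScalarTower.toAlgHom k (MvPolynomial ι k) (FractionRing (MvPolynomial ι k)) := by
    apply MvPolynomial.algHom_ext
    intro j
    simp [gv]
  rw [h1]
  rfl

theorem gv_indep : AlgebraicIndependent k (gv k ι) := by
  intro P Q h
  change aeval (gv k ι) P = aeval (gv k ι) Q at h
  rw [aeval_gv, aeval_gv] at h
  exact IsFractionRing.injective (MvPolynomial ι k) (FractionRing (MvPolynomial ι k)) h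

theorem mem_adjoin_gv (a : FractionRing (MvPolynomial ι k)) :
    a ∈ IntermediateField.adjoin k (Set.range (gv k ι)) := by
  rw [IntermediateField.mem_adjoin_range_iff]
  obtain ⟨P, Q, -, h⟩ := IsFractionRing.div_surjective (A := MvPolynomial ι k) a
  refine ⟨P, Q, ?_⟩
  rw [aeval_gv, aeval_gv, h]

theorem indep_of_gen [Finite ι] (img : ι → FractionRing (MvPolynomial ι k))
    (h : ∀ j, gv k ι j ∈ IntermediateField.adjoin k (Set.range img)) :
    AlgebraicIndependent k img := by
  have h8 : ∀ a, a ∈ IntermediateField.adjoin k (Set.range img) := by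
    intro a
    have h9 : IntermediateField.adjoin k (Set.range (gv k ι)) ≤
        IntermediateField.adjoin k (Set.range img) := by
      rw [IntermediateField.adjoin_le_iff]
      rintro _ ⟨j, rfl⟩
      exact h j
    exact h9 (mem_adjoin_gv a)
  refine algebraicIndependent_of_card (gv k ι) gv_indep _ ⟨fun a => ?_⟩ le_rfl
  exact isAlgebraic_algebraMap (⟨a, h8 a⟩ : IntermediateField.adjoin k (Set.range img))

/-- the homomorphism with given images of the variables -/
noncomputable def hm (img : ι → FractionRing (MvPolynomial ι k))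
    (h : AlgebraicIndependent k img) :
    FractionRing (MvPolynomial ι k) →ₐ[k] FractionRing (MvPolynomial ι k) :=
  IsFractionRing.liftAlgHom (g := aeval img) h

theorem hm_gv (img : ι → FractionRing (MvPolynomial ι k))
    (h : AlgebraicIndependent k img) (j : ι) : hm img h (gv k ι j) = img j := by
  rw [hm, gv, IsFractionRing.liftAlgHom_apply, IsFractionRing.lift_algebraMap]
  exact aeval_X _ _

theorem hom_ext_gv (φ ψ : FractionRing (MvPolynomial ι k) →ₐ[k] FractionRing (MvPolynomial ι k))
    (h : ∀ j, φ (gv k ι j) = ψ (gv k ι j)) : φ = ψ := by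
  refine AlgHom.ext fun x => ?_
  have h1 := mem_adjoin_gv x
  induction h1 using IntermediateField.adjoin_induction with
  | mem x hx =>
    obtain ⟨j, rfl⟩ := hx
    exact h j
  | algebraMap x => rw [φ.commutes, ψ.commutes]
  | add x y _ _ hx hy => rw [map_add, map_add, hx, hy]
  | inv x _ hx => rw [map_inv₀, map_inv₀, hx]
  | mul x y _ _ hx hy => rw [map_mul, map_mul, hx, hy]

end gv

/-! ### The generic datum -/

section construct

variable (k : Type u) [Field k] (m e a : ℕ)

/-- the index set of the variables -/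
abbrev IE : Type := (Coeff (m + 3) (e + 1) ⊕ (Fin a × Fin (m + 3))) ⊕ Fin a

/-- the field of rational functions -/
abbrev KE : Type u := FractionRing (MvPolynomial (IE m e a) k)

/-- generic coefficients -/
noncomputable def aE (c : Coeff (m + 3) (e + 1)) : KE k m e a := gv k (IE m e a) (Sum.inl (Sum.inl c))

/-- generic vectors -/
noncomputable def vE (j : Fin a) (i : Fin (m + 3)) : KE k m e a :=
  gv k (IE m e a) (Sum.inl (Sum.inr (j, i)))

/-- auxiliary variables -/
noncomputable def lE (j : Fin a) : KE k m e a := gv k (IE m e a) (Sum.inr j)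

theorem elim_gv : Sum.elim (Sum.elim (aE k m e a)
    (fun p : Fin a × Fin (m + 3) => vE k m e a p.1 p.2)) (lE k m e a) = gv k (IE m e a) := by
  funext j
  rcases j with ((j | j) | j) <;> rfl

variable {k m e a}

/-- the images of the generic coefficients under the action of `g` -/
noncomputable def imgσ (g : GL (Fin (m + 3)) k) : IE m e a → KE k m e a :=
  Sum.elim (Sum.elim (fun c => coeff c.2.1 (conj (GD.cm (KE k m e a) g)
    (GD.cm (KE k m e a) g⁻¹) (formOf (aE k m e a)) c.1))
    (fun p => (GD.cm (KE k m e a) g *ᵥ vE k m e a p.1) p.2)) (lE k m e a)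

theorem imgσ_indep (g : GL (Fin (m + 3)) k) :
    AlgebraicIndependent k (imgσ (e := e) (a := a) g) := by
  apply indep_of_gen
  set N := IntermediateField.adjoin k (Set.range (imgσ (e := e) (a := a) g)) with hN
  have hgN : ∀ (g : GL (Fin (m + 3)) k) i j, GD.cm (KE k m e a) g i j ∈ N :=
    fun g i j => N.algebraMap_mem _
  have hm : ∀ j, imgσ (e := e) (a := a) g j ∈ N :=
    fun j => IntermediateField.subset_adjoin k _ (Set.mem_range_self j)
  have h1 : ∀ i, conj (GD.cm (KE k m e a) g)
      (GD.cm (KE k m e a) g⁻¹) (formOf (aE k m e a)) i ∈ CI (m + 3) N := by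
    intro i
    refine mem_CI.2 fun α => ?_
    by_cases hα : α.degree = e + 1
    · exact hm (Sum.inl (Sum.inl (i, ⟨α, hα⟩)))
    · rw [(conj_homog _ _ (fun j => formOf_homog _ j) i).coeff_eq_zero hα]
      exact zero_mem _
  have h2 : ∀ i, formOf (aE k m e a) i ∈ CI (m + 3) N := by
    intro i
    have h3 : formOf (aE k m e a) = conj (GD.cm (KE k m e a) g⁻¹)
        (GD.cm (KE k m e a) g) (conj (GD.cm (KE k m e a) g)
      (GD.cm (KE k m e a) g⁻¹) (formOf (aE k m e a))) := by
      rw [conj_conj, GD.cm_inv_mul, conj_one]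
    rw [h3]
    exact conj_mem_CI (hgN _) (hgN _) h1 i
  rintro ((c | ⟨j, i⟩) | j)
  · have h5 := mem_CI.1 (h2 c.1) c.2.1
    rw [coeff_formOf] at h5
    exact h5
  · have h5 : GD.cm (KE k m e a) g⁻¹ *ᵥ
        (GD.cm (KE k m e a) g *ᵥ vE k m e a j) = vE k m e a j := by
      rw [Matrix.mulVec_mulVec, GD.cm_inv_mul, Matrix.one_mulVec]
    have h6 := congrFun h5 i
    have h7 : gv k (IE m e a) (Sum.inl (Sum.inr (j, i))) = vE k m e a j i := rfl
    rw [h7, ← h6, Matrix.mulVec, dotProduct]
    exact sum_mem fun l _ => mul_mem (hgN _ _ _) (hm (Sum.inl (Sum.inr (j, l))))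
  · exact hm (Sum.inr j)

/-- the images under the torus -/
noncomputable def imgθ (s : Fin a → kˣ) : IE m e a → KE k m e a :=
  Sum.elim (Sum.elim (aE k m e a)
    (fun p => algebraMap k (KE k m e a) (s p.1) * vE k m e a p.1 p.2)) (lE k m e a)

theorem imgθ_indep (s : Fin a → kˣ) : AlgebraicIndependent k (imgθ (m := m) (e := e) s) := by
  apply indep_of_gen
  set N := IntermediateField.adjoin k (Set.range (imgθ (m := m) (e := e) s)) with hN
  have hm : ∀ j, imgθ (m := m) (e := e) s j ∈ N :=
    fun j => IntermediateField.subset_adjoin k _ (Set.mem_range_self j)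
  rintro ((c | ⟨j, i⟩) | j)
  · exact hm (Sum.inl (Sum.inl c))
  · have h1 := hm (Sum.inl (Sum.inr (j, i)))
    have h2 : imgθ (m := m) (e := e) s (Sum.inl (Sum.inr (j, i))) =
      algebraMap k (KE k m e a) (s j) * gv k (IE m e a) (Sum.inl (Sum.inr (j, i))) := rfl
    have h3 : algebraMap k (KE k m e a) (s j) ≠ 0 := by
      rw [Ne, map_eq_zero]
      exact (s j).ne_zero
    have h4 : gv k (IE m e a) (Sum.inl (Sum.inr (j, i))) =
        (algebraMap k (KE k m e a) (s j))⁻¹ * imgθ (m := m) (e := e) s (Sum.inl (Sum.inr (j, i))) := by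
      rw [h2, inv_mul_cancel_left₀ h3]
    rw [h4]
    exact mul_mem (inv_mem (N.algebraMap_mem _)) h1
  · exact hm (Sum.inr j)

/-- the images under a permutation of the vectors -/
noncomputable def imgω (k : Type u) [Field k] (m e : ℕ) {a : ℕ} (π : Equiv.Perm (Fin a)) :
    IE m e a → KE k m e a :=
  Sum.elim (Sum.elim (aE k m e a) (fun p => vE k m e a (π p.1) p.2)) (fun j => lE k m e a (π j))

theorem imgω_indep (π : Equiv.Perm (Fin a)) : AlgebraicIndependent k (imgω k m e π) := by
  apply indep_of_gen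
  set N := IntermediateField.adjoin k (Set.range (imgω k m e π)) with hN
  have hm : ∀ j, imgω k m e π j ∈ N :=
    fun j => IntermediateField.subset_adjoin k _ (Set.mem_range_self j)
  rintro ((c | ⟨j, i⟩) | j)
  · exact hm (Sum.inl (Sum.inl c))
  · have h1 := hm (Sum.inl (Sum.inr (π.symm j, i)))
    have h2 : imgω k m e π (Sum.inl (Sum.inr (π.symm j, i))) =
      gv k (IE m e a) (Sum.inl (Sum.inr (π (π.symm j), i))) := rfl
    rw [h2, Equiv.apply_symm_apply] at h1
    exact h1
  · have h1 := hm (Sum.inr (π.symm j))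
    have h2 : imgω k m e π (Sum.inr (π.symm j)) =
      gv k (IE m e a) (Sum.inr (π (π.symm j))) := rfl
    rw [h2, Equiv.apply_symm_apply] at h1
    exact h1

variable (k m e a) in
/-- the generic datum -/
noncomputable def ge : GE k m e a (KE k m e a) where
  A := aE k m e a
  V := vE k m e a
  lam := lE k m e a
  ind := by rw [elim_gv]; exact gv_indep
  σ g := hm (imgσ g) (imgσ_indep g)
  σA g i := by
    rw [map_formOf, ← congrFun (formOf_coeff (d := e + 1)
      (F := conj ((g : Matrix (Fin (m + 3)) (Fin (m + 3)) k).map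
        (algebraMap k (KE k m e a)))
      ((g⁻¹ : GL (Fin (m + 3)) k).1.map (algebraMap k (KE k m e a)))
      (formOf (aE k m e a))) (conj_homog _ _ (fun j => formOf_homog _ j))) i]
    congr 1
    funext c
    exact hm_gv (imgσ g) (imgσ_indep g) (Sum.inl (Sum.inl c))
  σV g j := by
    funext i
    exact hm_gv (imgσ g) (imgσ_indep g) (Sum.inl (Sum.inr (j, i)))
  σlam g j := hm_gv (imgσ g) (imgσ_indep g) (Sum.inr j)
  θ s := hm (imgθ s) (imgθ_indep s)
  θA s c := hm_gv (imgθ s) (imgθ_indep s) (Sum.inl (Sum.inl c))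
  θV s j i := hm_gv (imgθ s) (imgθ_indep s) (Sum.inl (Sum.inr (j, i)))
  θlam s j := hm_gv (imgθ s) (imgθ_indep s) (Sum.inr j)
  ω π := hm (imgω k m e π) (imgω_indep π)
  ωA π c := hm_gv (imgω k m e π) (imgω_indep π) (Sum.inl (Sum.inl c))
  ωV π j i := hm_gv (imgω k m e π) (imgω_indep π) (Sum.inl (Sum.inr (j, i)))
  ωlam π j := hm_gv (imgω k m e π) (imgω_indep π) (Sum.inr j)
  ω_one x := by
    have h1 : hm (imgω k m e (1 : Equiv.Perm (Fin a))) (imgω_indep 1) = AlgHom.id k _ := by
      apply hom_ext_gv
      rintro ((c | ⟨j, i⟩) | j) <;> exact hm_gv _ _ _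
    rw [h1]; rfl
  ω_mul π π' x := by
    have h1 : hm (imgω k m e (π * π')) (imgω_indep (π * π')) =
        (hm (imgω k m e π) (imgω_indep π)).comp (hm (imgω k m e π') (imgω_indep π')) := by
      apply hom_ext_gv
      intro j
      rw [AlgHom.comp_apply, hm_gv, hm_gv]
      rcases j with ((c | ⟨j, i⟩) | j)
      · exact (hm_gv (imgω k m e π) (imgω_indep π) (Sum.inl (Sum.inl c))).symm
      · exact (hm_gv (imgω k m e π) (imgω_indep π) (Sum.inl (Sum.inr (π' j, i)))).symm
      · exact (hm_gv (imgω k m e π) (imgω_indep π) (Sum.inr (π' j))).symm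
    rw [h1]; rfl
  θω s π x := by
    have h1 : (hm (imgθ s) (imgθ_indep s)).comp (hm (imgω k m e π) (imgω_indep π)) =
        (hm (imgω k m e π) (imgω_indep π)).comp (hm (imgθ (s ∘ π)) (imgθ_indep (s ∘ π))) := by
      apply hom_ext_gv
      intro j
      rw [AlgHom.comp_apply, AlgHom.comp_apply, hm_gv, hm_gv]
      rcases j with ((c | ⟨j, i⟩) | j)
      · exact (hm_gv (imgθ s) (imgθ_indep s) (Sum.inl (Sum.inl c))).trans
          (hm_gv (imgω k m e π) (imgω_indep π) (Sum.inl (Sum.inl c))).symm
      · refine (hm_gv (imgθ s) (imgθ_indep s) (Sum.inl (Sum.inr (π j, i)))).trans ?_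
        have h2 : imgθ (m := m) (e := e) (s ∘ π) (Sum.inl (Sum.inr (j, i))) =
          algebraMap k (KE k m e a) (s (π j)) * gv k (IE m e a) (Sum.inl (Sum.inr (j, i))) := rfl
        rw [h2, map_mul, AlgHom.commutes]
        exact congrArg (fun y => algebraMap k (KE k m e a) (s (π j)) * y)
          (hm_gv (imgω k m e π) (imgω_indep π) (Sum.inl (Sum.inr (j, i)))).symm
      · exact (hm_gv (imgθ s) (imgθ_indep s) (Sum.inr (π j))).trans
          (hm_gv (imgω k m e π) (imgω_indep π) (Sum.inr j)).symm
    exact DFunLike.congr_fun h1 x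

end construct

/-! ### The final statements -/

section final

variable {k : Type u} [Field k] {m : ℕ}

theorem rational_of_basis [IsAlgClosed k] {e : ℕ} (he : 1 ≤ e) {L : Type v} [Field L]
    [Algebra k L] (D : GD k m e L) {N : ℕ} (h : ∃ v : Fin N → L,
      AlgebraicIndependent k v ∧ IntermediateField.adjoin k (Set.range v) = D.inv D.K1) :
    Nonempty (moduliFunctionField k (m + 2) (e + 1) ≃ₐ[k] MvRatFun k (Fin N)) := by
  obtain ⟨v, hv, hv'⟩ := h
  rw [← D.map_moduli' he] at hv'
  have e1 := IntermediateField.equivMap (moduliFunctionField k (m + 2) (e + 1)) D.inc'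
  have e2 := IntermediateField.equivOfEq hv'
  have e3 : MvRatFun k (Fin N) ≃ₐ[k] IntermediateField.adjoin k (Set.range v) :=
    hv.aevalEquivField
  exact ⟨e1.trans (e2.symm.trans e3.symm)⟩

theorem rational_two [IsAlgClosed k] [CharZero k] {q r : ℕ} (hr : 2 * r = m + 3) (hq : 1 ≤ q)
    (hco : Nat.Coprime r (2 * q)) :
    Nonempty (moduliFunctionField k (m + 2) (2 * q + 1) ≃ₐ[k] MvRatFun k
      (Fin (Nat.card (Coeff (m + 3) (2 * q + 1)) - (m + 3) * (m + 3)))) := by
  have hf : Fact (2 * r = m + 3) := ⟨hr⟩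
  obtain ⟨T⟩ := exists_TU2 (ge k m (2 * q) 2) r hq
  refine rational_of_basis (by omega) (ge k m (2 * q) 2).D
    (T.exists_basis_K1 hq le_rfl (by simp) hco ?_)
  exact (card_Mon_two m).trans (card_Mon_mono (by omega) (by omega))

theorem rational_three [IsAlgClosed k] [CharZero k] {q r : ℕ} (hr : 3 * r = m + 3) (hq : 1 ≤ q)
    (hco : Nat.Coprime r (3 * q)) :
    Nonempty (moduliFunctionField k (m + 2) (3 * q + 1) ≃ₐ[k] MvRatFun k
      (Fin (Nat.card (Coeff (m + 3) (3 * q + 1)) - (m + 3) * (m + 3)))) := by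
  have hf : Fact (3 * r = m + 3) := ⟨hr⟩
  obtain ⟨T⟩ := exists_TU3 (ge k m (3 * q) 3) r hq
  refine rational_of_basis (by omega) (ge k m (3 * q) 3).D
    (T.exists_basis_K1 hq (by omega) (by simp) hco ?_)
  exact (card_Mon_three m).trans (card_Mon_mono (by omega) (by omega))

theorem rational_small {k : Type u} [Field k] [IsAlgClosed k] [CharZero k] {N d a : ℕ}
    (hN : 2 ≤ N) (hd : 2 ≤ d) (ha : 1 ≤ a) (ha3 : a ≤ 3) (h1 : a ∣ N + 1) (h2 : a ∣ d - 1)
    (hco : Nat.Coprime ((N + 1) / a) (d - 1)) :
    Nonempty (moduliFunctionField k N d ≃ₐ[k]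
      MvRatFun k (Fin ((N + 1) * (N + d).choose d - 1 - N * (N + 2)))) := by
  obtain ⟨m, rfl⟩ : ∃ m, N = m + 2 := ⟨N - 2, by omega⟩
  obtain ⟨e, rfl⟩ : ∃ e, d = e + 1 := ⟨d - 1, by omega⟩
  rw [← card_formula]
  obtain ⟨r, hr⟩ := h1
  obtain ⟨q, hq⟩ := h2
  rw [hr, Nat.mul_div_cancel_left _ (by omega : 0 < a)] at hco
  have hq' : e = a * q := by simpa using hq
  subst hq'
  have hq1 : 1 ≤ q := by
    rcases Nat.eq_zero_or_pos q with h | h
    · subst h; omega
    · exact h
  rw [Nat.add_sub_cancel] at hco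
  interval_cases a
  · have hco' : Nat.Coprime (m + 3) (1 * q) := by
      rw [show m + 3 = r by omega]; exact hco
    exact rational_aux (k := k) (m := m) (e := 1 * q) (by omega) hco'
  · exact rational_two (by omega) hq1 hco
  · exact rational_three (by omega) hq1 hco

end final

end Pool.Agent.Lib.MP_82c165_ag
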